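import Pool.Agent.H399.EpiLam

/-!
# Upper-modular epigroup varieties do not contain the semigroup of factors of `xy`
-/

namespace Pool.Agent.H399.Epi

/-- Letters other than `0` occur at most once and there are no two adjacent `0`s. -/
def Good (u : List ℕ) : Prop :=
  (∀ c, c ≠ 0 → u.count c ≤ 1) ∧ u.IsChain fun a b => a ≠ 0 ∨ b ≠ 0

theorem Good.left {a b : List ℕ} (h : Good (a ++ b)) : Good a := by
  refine ⟨fun c hc => ?_, ?_⟩
  · have := h.1 c hc
    rw [List.count_append] at this
    omega
  · exact (List.isChain_append.1 h.2).1

theorem Good.right {a b : List ℕ} (h : Good (a ++ b)) : Good b := by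
  refine ⟨fun c hc => ?_, ?_⟩
  · have := h.1 c hc
    rw [List.count_append] at this
    omega
  · exact (List.isChain_append.1 h.2).2.1

theorem Good.reverse {a : List ℕ} (h : Good a) : Good a.reverse := by
  refine ⟨fun c hc => ?_, ?_⟩
  · rw [List.count_reverse]
    exact h.1 c hc
  · rw [List.isChain_reverse]
    exact h.2.imp fun _ _ h => h.symm

theorem Good.snoc {r : List ℕ} {c : ℕ} (h : Good r) (hc : c ≠ 0) (hr : c ∉ r) :
    Good (r ++ [c]) := by
  refine ⟨fun d hd => ?_, ?_⟩
  · rw [List.count_append]
    have h1 := h.1 d hd
    by_cases hdc : d = c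
    · subst hdc
      rw [List.count_eq_zero_of_not_mem hr]
      simp
    · rw [List.count_eq_zero_of_not_mem (a := d) (l := [c]) (by simpa using hdc)]
      exact h1
  · rw [List.isChain_append]
    refine ⟨h.2, by simp, ?_⟩
    intro x _ y hy
    simp only [List.head?_cons, Option.mem_def, Option.some.injEq] at hy
    right
    rw [← hy]; exact hc

theorem sat_symm' {V : EpiVar} {s t : Tm} (h : V.sat (s, t)) : V.sat (t, s) := V.sat_symm h

/-- Difference lemma: two words of the same length with a good common prefix which differ in the
last letter are separated. -/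
theorem diff {V : EpiVar} (hV : HV V) {r : List ℕ} {a c : ℕ} (hG : Good (r ++ [a])) (hac : a ≠ c)
    (hc : c ≠ 0 → c ∉ r)
    (hind : ∀ u, Good u → u ≠ [] → u.length ≤ r.length + 1 → V.mem (SW u)) :
    ¬ (Lv r.length ⊓ V).sat (wt (r ++ [a]), wt (r ++ [c])) := by
  by_cases ha : a ∈ r
  · have ha0 : a = 0 := by
      by_contra h0
      have := hG.1 a h0
      rw [List.count_append] at this
      have h1 : 0 < r.count a := List.count_pos_iff.2 ha
      have h2 : [a].count a = 1 := by simp
      omega
    have hc0 : c ≠ 0 := by
      rintro rfl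
      exact hac ha0
    intro h
    exact keyK hV (hc hc0) (hind _ (hG.left.snoc hc0 (hc hc0)) (by simp) (by simp)) hac
      (EpiVar.sat_symm _ h)
  · exact keyK hV ha (hind _ hG (by simp) (by simp)) hac.symm

/-- If a good word `u` equals `w` in `V` then the flattening of `w` starts as `u`, except for the
last letter. -/
theorem prefix_lem {V : EpiVar} (hV : HV V) {u : List ℕ} (hu : Good u) (hu0 : u ≠ [])
    (hind : ∀ u', Good u' → u' ≠ [] → u'.length < u.length → V.mem (SW u')) {w : Tm}
    (hw : V.sat (wt u, w)) {m : ℕ} (hm : u.length + 2 ≤ m) (j : ℕ) (hj : j + 1 ≤ u.length) :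
    ∃ s, fl m w = u.take j ++ s := by
  induction j with
  | zero => exact ⟨fl m w, by simp⟩
  | succ j ih =>
    obtain ⟨s, hs⟩ := ih (by omega)
    -- the letter of `u` at position `j`
    obtain ⟨a, u', hu'⟩ : ∃ a u', u.drop j = a :: u' := by
      rcases h : u.drop j with _ | ⟨a, u'⟩
      · have := congrArg List.length h
        rw [List.length_drop] at this
        simp only [List.length_nil] at this
        omega
      · exact ⟨a, u', rfl⟩
    set r := u.take j with hr
    have hrl : r.length = j := by rw [hr, List.length_take]; omega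
    have hua : u = r ++ [a] ++ u' := by
      conv_lhs => rw [← List.take_append_drop j u, hu']
      simp [hr]
    have hta : u.take (j + 1) = r ++ [a] := by
      rw [hua, List.take_append_of_le_length (by simp [hrl]), List.take_of_length_le
        (by simp [hrl])]
    have hG : Good (r ++ [a]) := by
      rw [hua] at hu
      exact hu.left
    -- a fresh letter
    obtain ⟨z, hz⟩ : ∃ z, z ∉ 0 :: u := by
      have := Infinite.exists_notMem_finset (0 :: u).toFinset
      simpa using this
    have hz0 : z ≠ 0 := by
      rintro rfl
      simp at hz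
    have hzu : z ∉ u := fun h => hz (List.mem_cons_of_mem _ h)
    obtain ⟨c, s', hcs, hcz⟩ : ∃ c s', s ++ [z] = c :: s' ∧ (c = z ∨ ∃ s'', s = c :: s'') := by
      rcases s with _ | ⟨c, s''⟩
      · exact ⟨z, [], rfl, Or.inl rfl⟩
      · exact ⟨c, s'' ++ [z], rfl, Or.inr ⟨s'', rfl⟩⟩
    by_cases hac : a = c
    · rcases hcz with h | ⟨s'', h⟩
      · exfalso
        apply hzu
        rw [hua, hac, h]
        simp
      · refine ⟨s'', ?_⟩
        rw [hta, hs, h, hac]; simp
    · exfalso
      have hcr : c ≠ 0 → c ∉ r := by
        intro hc0 hcr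
        rcases hcz with h | ⟨s'', h⟩
        · apply hzu
          rw [← h, hua]
          simp [hcr]
        · have h1 := NN_count (m := m) (by omega) hu0 (hw NN hV.nn) c
          have h2 := hu.1 c hc0
          have h3 : 2 ≤ (fl m w).count c := by
            rw [hs, h, List.count_append, List.count_cons_self]
            have := List.count_pos_iff.2 hcr
            omega
          unfold cv at h1
          rw [if_neg (c := (fl m w).count c = 0) (by omega),
            if_neg (c := (fl m w).count c = 1) (by omega)] at h1
          split_ifs at h1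
          all_goals first | exact absurd h1 (by decide) | omega
      refine diff hV hG hac hcr (fun u' h1 h2 h3 => hind u' h1 h2 (by omega)) ?_
      rw [hrl]
      intro A hA
      rw [sat_word_iff (by simp) (by simp)]
      intro φ
      have hAj := hA.1
      have e1 : W A φ u = W A φ (fl m w) := by
        rw [← ev_wt A φ hu0, ← ev_fl (fun x => LvE_bar hAj x (by omega))]
        exact congrArg _ (hw A hA.2 φ)
      have e2 : W A φ (u ++ [z]) = W A φ (fl m w ++ [z]) := by
        rw [W_append, e1, ← W_append]
      have e3 : u ++ [z] = r ++ [a] ++ (u' ++ [z]) := by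
        conv_lhs => rw [hua]
        simp
      have e4 : fl m w ++ [z] = r ++ [c] ++ s' := by
        rw [hs, List.append_assoc, hcs]; simp
      rw [e3, e4, LvE_abs hAj φ (l := r ++ [a]) (by simp [hrl]),
        LvE_abs hAj φ (l := r ++ [c]) (by simp [hrl])] at e2
      exact e2

/-- The reverse of a word term is equal to the term of the reversed word. -/
theorem nb_rev {t : Tm} {l : List ℕ} (h : nb t = some l) : nb (rev t) = some l.reverse := by
  induction t generalizing l with
  | v n => simp [nb] at h; simp [rev, nb, ← h]
  | m s t h1 h2 =>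
    obtain ⟨a, c, ha, hc, rfl⟩ := nb_m h
    rw [rev, nb_m_of (h2 hc) (h1 ha), List.reverse_append]
  | b t _ => simp [nb] at h

theorem fl_rev (m : ℕ) (t : Tm) : fl m (rev t) = (fl m t).reverse := by
  induction t with
  | v n => rfl
  | m s t h1 h2 => simp [rev, fl, h1, h2]
  | b t h =>
    simp only [rev, fl, h, List.reverse_flatten, List.map_replicate, List.reverse_replicate]

theorem opV_sat_word {V : EpiVar} {u : List ℕ} (hu : u ≠ []) {w : Tm} :
    (opV V).sat (wt u, w) ↔ V.sat (wt u.reverse, rev w) := by
  rw [opV_sat]
  have h1 : V.sat (wt u.reverse, rev (wt u)) := fun A _ => sat_nb A (nb_rev (nb_wt hu))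
  exact ⟨fun h => V.sat_trans h1 h, fun h => V.sat_trans (V.sat_symm h1) h⟩

theorem SW_op {V : EpiVar} {u : List ℕ} (hu : u ≠ []) (h : V.mem (SW u.reverse)) :
    (opV V).mem (SW u) := by
  apply SW_mem
  intro w hw
  rw [opV_sat_word hu] at hw
  have h1 := SW_iso (by simpa using hu) h hw
  have h2 := nb_rev h1
  rwa [rev_rev, List.reverse_reverse] at h2

/-- A good word of length at least three has a once-occurring letter in the middle. -/
theorem Good.middle {u : List ℕ} (h : Good u) (h3 : 3 ≤ u.length) :
    ∃ p c q, u = p ++ c :: q ∧ p ≠ [] ∧ q ≠ [] ∧ c ∉ p ∧ c ∉ q := by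
  rcases u with _ | ⟨a, _ | ⟨b, _ | ⟨c, t⟩⟩⟩
  · simp at h3
  · simp at h3
  · simp at h3
  · have hcount : ∀ p x q, a :: b :: c :: t = p ++ x :: q → x ≠ 0 → x ∉ p ∧ x ∉ q := by
      intro p x q he hx
      have := h.1 x hx
      rw [he, List.count_append, List.count_cons_self] at this
      constructor
      · intro hp
        have := List.count_pos_iff.2 hp
        omega
      · intro hq
        have := List.count_pos_iff.2 hq
        omega
    by_cases hb : b = 0
    · subst hb
      have hch := h.2
      have ha : a ≠ 0 := by
        have := (List.isChain_cons_cons.1 hch).1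
        simpa using this
      have hc : c ≠ 0 := by
        have := (List.isChain_cons_cons.1 (List.isChain_cons_cons.1 hch).2).1
        simpa using this
      rcases t with _ | ⟨d, t⟩
      · exact ⟨[a], 0, [c], rfl, by simp, by simp, by simpa using ha.symm, by simpa using hc.symm⟩
      · obtain ⟨h1, h2⟩ := hcount [a, 0] c (d :: t) rfl hc
        exact ⟨[a, 0], c, d :: t, rfl, by simp, by simp, h1, h2⟩
    · obtain ⟨h1, h2⟩ := hcount [a] b (c :: t) rfl hb
      exact ⟨[a], b, c :: t, rfl, by simp, by simp, h1, h2⟩

theorem unique_split {α : Type} {c : α} {p p' q q' : List α} (h : p ++ c :: q = p' ++ c :: q')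
    (h1 : c ∉ p) (h2 : c ∉ p') : p = p' ∧ q = q' := by
  induction p generalizing p' with
  | nil =>
    rcases p' with _ | ⟨x, p'⟩
    · simpa using h
    · simp only [List.nil_append, List.cons_append, List.cons.injEq] at h
      exact absurd (by rw [h.1]; simp) h2
  | cons y p ih =>
    rcases p' with _ | ⟨x, p'⟩
    · simp only [List.nil_append, List.cons_append, List.cons.injEq] at h
      exact absurd (by rw [← h.1]; simp) h1
    · simp only [List.cons_append, List.cons.injEq] at h
      obtain ⟨h3, h4⟩ := h
      obtain ⟨h5, h6⟩ := ih h4 (fun h => h1 (List.mem_cons_of_mem _ h))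
        (fun h => h2 (List.mem_cons_of_mem _ h))
      exact ⟨by rw [h3, h5], h6⟩

theorem SX_iso {w : Tm} (h : Sat SX (wt [0, 1], w)) : nb w = some [0, 1] := by
  have key : ∀ t : Tm, (ev SX (fun i => if i = 0 then (0 : Fin 4) else if i = 1 then (1 : Fin 4)
        else (3 : Fin 4)) t = (0 : Fin 4) → nb t = some [0]) ∧
      (ev SX (fun i => if i = 0 then (0 : Fin 4) else if i = 1 then (1 : Fin 4)
        else (3 : Fin 4)) t = (1 : Fin 4) → nb t = some [1]) ∧
      (ev SX (fun i => if i = 0 then (0 : Fin 4) else if i = 1 then (1 : Fin 4)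
        else (3 : Fin 4)) t = (2 : Fin 4) → nb t = some [0, 1]) := by
    intro t
    induction t with
    | v n =>
      show ((if n = 0 then (0 : Fin 4) else if n = 1 then (1 : Fin 4) else (3 : Fin 4)) =
          (0 : Fin 4) → some [n] = some [0]) ∧
        ((if n = 0 then (0 : Fin 4) else if n = 1 then (1 : Fin 4) else (3 : Fin 4)) =
          (1 : Fin 4) → some [n] = some [1]) ∧
        ((if n = 0 then (0 : Fin 4) else if n = 1 then (1 : Fin 4) else (3 : Fin 4)) =
          (2 : Fin 4) → some [n] = some [0, 1])
      by_cases h0 : n = 0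
      · subst h0; simp
      · by_cases h1 : n = 1
        · subst h1; simp
        · rw [if_neg h0, if_neg h1]
          refine ⟨fun h => absurd h (by decide), fun h => absurd h (by decide),
            fun h => absurd h (by decide)⟩
    | m s t h1 h2 =>
      have e : ∀ x y : Fin 4, SXM x y ≠ 0 ∧ SXM x y ≠ 1 ∧ (SXM x y = 2 → x = 0 ∧ y = 1) := by
        decide
      refine ⟨fun h => absurd h (e _ _).1, fun h => absurd h (e _ _).2.1, fun h => ?_⟩
      obtain ⟨h3, h4⟩ := (e _ _).2.2 h
      rw [nb_m_of (h1.1 h3) (h2.2.1 h4)]
      rfl
    | b t _ =>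
      have e : (3 : Fin 4) ≠ 0 ∧ (3 : Fin 4) ≠ 1 ∧ (3 : Fin 4) ≠ 2 := by decide
      exact ⟨fun h => absurd h e.1, fun h => absurd h e.2.1, fun h => absurd h e.2.2⟩
  apply (key w).2.2
  rw [← h]
  rfl

/-- Two-letter words. -/
theorem SW_two {V : EpiVar} (h : V.mem SX) {a b : ℕ} (hab : a ≠ b) : V.mem (SW [a, b]) := by
  apply SW_mem
  intro w hw
  set g : ℕ → ℕ := fun i => if i = a then 0 else if i = b then 1 else 2 with hg
  have h1 := V.sat_sub hw fun i => .v (g i)
  have h2 : V.sat (wt [0, 1], sub (fun i => .v (g i)) w) := by
    have : sub (fun i => .v (g i)) (wt [a, b]) = wt [0, 1] := by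
      show Tm.m (.v (g a)) (.v (g b)) = Tm.m (.v 0) (.v 1)
      simp [hg, hab.symm]
    rw [this] at h1
    exact h1
  have h3 := SX_iso (h2 SX h)
  rcases hk : nb w with _ | k
  · rw [nb_sub_none hk] at h3
    simp at h3
  · rw [nb_sub (τ := fun i => [g i]) (fun i => rfl) hk] at h3
    have h4 : k.map g = [0, 1] := by
      have : ∀ k : List ℕ, k.flatMap (fun i => [g i]) = k.map g := by
        intro k
        induction k with
        | nil => rfl
        | cons a k ih => rw [List.flatMap_cons, ih]; rfl
      rw [← this]
      exact Option.some.inj h3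
    rcases k with _ | ⟨i, _ | ⟨j, _ | ⟨l, k⟩⟩⟩
    · simp at h4
    · simp at h4
    · simp only [List.map_cons, List.map_nil, List.cons.injEq, and_true] at h4
      obtain ⟨h5, h6⟩ := h4
      have hi : i = a := by
        by_contra hi
        simp only [hg, if_neg hi] at h5
        split_ifs at h5 <;> omega
      have hj : j = b := by
        by_contra hj
        simp only [hg, if_neg hj] at h6
        split_ifs at h6 <;> omega
      rw [hi, hj]
    · simp at h4

theorem SW_one {V : EpiVar} (h : V.mem SX) (a : ℕ) : V.mem (SW [a]) := by
  apply SW_mem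
  intro w hw
  have h1 : V.sat (wt [a, a + 1], .m w (.v (a + 1))) := V.sat_m hw (V.sat_refl _)
  have h2 := SW_iso (by simp) (SW_two h (a := a) (b := a + 1) (by omega)) h1
  obtain ⟨k, l, hk, hl, hkl⟩ := nb_m h2
  simp only [nb, Option.some.injEq] at hl
  subst hl
  rw [hk]
  have : [a] ++ [a + 1] = k ++ [a + 1] := hkl
  rw [List.append_left_inj] at this
  rw [this]

theorem SX_op_mem {V : EpiVar} (h : V.mem SX) : (opV V).mem SX := V.mem_dv SX_op h

theorem HV_of {V : EpiVar} (hV : UpperModular V) (h : V.mem SX) : HV V := by
  refine ⟨hV, step3 hV h, step2 hV h, ?_⟩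
  have hR : V.mem RZ := step2 hV.op (SX_op_mem h)
  exact step4 hV (step3 hV h) hR

theorem all_good {V : EpiVar} (hV : UpperModular V) (h : V.mem SX) (k : ℕ) :
    ∀ u, Good u → u ≠ [] → u.length = k → V.mem (SW u) := by
  induction k using Nat.strong_induction_on with
  | _ k ih =>
    intro u hu hu0 huk
    rcases lt_or_ge u.length 3 with h3 | h3
    · rcases u with _ | ⟨a, _ | ⟨b, _ | ⟨c, t⟩⟩⟩
      · exact absurd rfl hu0
      · exact SW_one h a
      · apply SW_two h
        rintro rfl
        by_cases ha : a = 0
        · subst ha
          have := (List.isChain_cons_cons.1 hu.2).1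
          simp at this
        · have := hu.1 a ha
          simp at this
      · simp only [List.length_cons] at h3
        omega
    · obtain ⟨p, c, q, he, hp, hq, hcp, hcq⟩ := hu.middle h3
      apply SW_mem
      intro w hw
      have hpl : 1 ≤ p.length := List.length_pos_iff.2 hp
      have hql : 1 ≤ q.length := List.length_pos_iff.2 hq
      have hul : u.length = p.length + 1 + q.length := by rw [he]; simp; omega
      -- prefix
      obtain ⟨s, hs⟩ := prefix_lem (HV_of hV h) hu hu0
        (fun u' h1 h2 h3 => ih _ (by omega) u' h1 h2 rfl) hw (m := u.length + 2) le_rfl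
        (p.length + 1) (by omega)
      have hw' : (opV V).sat (wt u.reverse, rev w) := by
        rw [opV_sat_word (by simpa using hu0), List.reverse_reverse, rev_rev]
        exact hw
      obtain ⟨s', hs'⟩ := prefix_lem (HV_of hV.op (SX_op_mem h)) hu.reverse (by simpa using hu0)
        (fun u' h1 h2 h3 => SW_op h2
          (ih u'.reverse.length (by rw [List.length_reverse] at h3 ⊢; omega) u'.reverse h1.reverse
            (by simpa using h2) rfl)) hw'
        (m := u.length + 2) (by simp) (q.length + 1) (by rw [List.length_reverse]; omega)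
      have e1 : u.take (p.length + 1) = p ++ [c] := by
        rw [he, show p ++ c :: q = (p ++ [c]) ++ q by simp,
          List.take_append_of_le_length (by simp), List.take_of_length_le (by simp)]
      have e2 : u.reverse.take (q.length + 1) = q.reverse ++ [c] := by
        rw [he, show (p ++ c :: q).reverse = (q.reverse ++ [c]) ++ p.reverse by simp,
          List.take_append_of_le_length (by simp), List.take_of_length_le (by simp)]
      rw [e1] at hs
      rw [e2, fl_rev] at hs'
      have hs2 : fl (u.length + 2) w = s'.reverse ++ c :: q := by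
        have := congrArg List.reverse hs'
        rw [List.reverse_reverse] at this
        rw [this]; simp
      have hc1 : (fl (u.length + 2) w).count c = 1 := by
        have h1 := NN_count (m := u.length + 2) (by omega) hu0 (hw NN (HV_of hV h).nn) c
        have h2 : u.count c = 1 := by
          rw [he, List.count_append, List.count_cons_self, List.count_eq_zero_of_not_mem hcp,
            List.count_eq_zero_of_not_mem hcq]
        rw [h2] at h1
        unfold cv at h1
        rw [if_neg (c := 1 = 0) (by omega), if_pos rfl] at h1
        split_ifs at h1 with h3 h4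
        · exact absurd h1 (by decide)
        · exact h4
        · exact absurd h1 (by decide)
      have hcs' : c ∉ s'.reverse := by
        intro hmem
        have := List.count_pos_iff.2 hmem
        rw [hs2, List.count_append, List.count_cons_self] at hc1
        omega
      have hfin := unique_split (p := p) (q := s) (p' := s'.reverse) (q' := q) (c := c)
        (by rw [← hs2, hs]; simp) hcp hcs'
      have : fl (u.length + 2) w = u := by
        rw [hs2, ← hfin.1, he]
      exact nb_of_fl this (by omega)

/-! ## The final contradiction -/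

/-- The identities of commutative nilpotent semigroups. -/
def CNE (m : ℕ) : Set (Tm × Tm) :=
  {p | p = (.m (.v 0) (.v 1), .m (.v 1) (.v 0)) ∨
    (∃ l : List ℕ, ∃ a : ℕ, l.length = m + 1 ∧ p = (wt l, .b (.v a))) ∨
    p = (.m (.b (.v 0)) (.v 1), .b (.v 0))}

section

variable {m : ℕ} {A : USg} (h : ∀ p ∈ CNE m, Sat A p)

include h

theorem CNE_comm (x y : A) : x * y = y * x := h _ (Or.inl rfl) (as2 x y)

theorem CNE_zero (φ : ℕ → A) {l : List ℕ} (hl : l.length = m + 1) (x : A) :
    W A φ l = (A.bar x : WithOne A.carrier) := by
  have hne : l ≠ [] := by rintro rfl; simp at hl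
  obtain ⟨a, ha⟩ : ∃ a, a ∉ l := by
    have := Infinite.exists_notMem_finset l.toFinset
    simpa using this
  have h1 := h _ (Or.inr (Or.inl ⟨l, a, hl, rfl⟩)) (Function.update φ a x)
  change ev A _ (wt l) = A.bar (Function.update φ a x a) at h1
  rw [Function.update_self] at h1
  rw [← h1, ev_wt A _ hne, W_update_notMem _ _ ha]

theorem CNE_abs (x y : A) : A.bar x * y = A.bar x := h _ (Or.inr (Or.inr rfl)) (as2 x y)

theorem CNE_drz : DrzA m A := by
  intro x
  have e : pw x m = A.bar x := by
    apply coe_inj'
    rw [coe_pw, ← CNE_zero h (fun _ => x) (l := List.replicate (m + 1) 0) (by simp), W_const,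
      List.length_replicate]
  refine ⟨CNE_comm h _ _, by rw [CNE_abs h, CNE_abs h], by rw [e, CNE_abs h, CNE_abs h]⟩

end

/-- The variety of commutative nilpotent semigroups of class `m + 1`. -/
def CN (m : ℕ) : EpiVar := mkVar (CNE m) m fun _ h => CNE_drz h

theorem SC_CN (v : List ℕ) : (CN v.length).mem (SC v) := by
  rintro p (rfl | ⟨l, a, hl, rfl⟩ | rfl)
  · rw [SC, sat_SM]
    intro φ
    show fmul _ (φ 0) (φ 1) = fmul _ (φ 1) (φ 0)
    rcases φ 0 with _ | x
    · rw [fmul_none_left, fmul_none_right]
    rcases φ 1 with _ | y
    · rw [fmul_none_left, fmul_none_right]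
    by_cases hf : Fac (πc v) (x.1 * y.1)
    · rw [fmul_some hf, fmul_some (by rw [mul_comm]; exact hf)]
      congr 1
      exact Subtype.ext (mul_comm _ _)
    · rw [fmul_none hf, fmul_none (by rw [mul_comm]; exact hf)]
  · rw [SC, sat_SM]
    intro φ
    show evS _ φ (wt l) = none
    by_contra hne
    obtain ⟨f, hf⟩ := Option.ne_none_iff_exists'.1 hne
    obtain ⟨l', h1, h2, h3⟩ := SM_ev hf
    have hl0 : l ≠ [] := by rintro rfl; simp at hl
    rw [nb_wt hl0] at h1
    obtain rfl := Option.some.inj h1
    -- the length of a factor
    have hlen : ∀ (x y : Multiplicative (Multiset ℕ)), Multiset.card (Multiplicative.toAdd (x * y))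
        = Multiset.card (Multiplicative.toAdd x) + Multiset.card (Multiplicative.toAdd y) :=
      fun x y => Multiset.card_add _ _
    have h4 : ∀ k : List ℕ, (∀ i ∈ k, φ i ≠ none) →
        k.length ≤ Multiset.card (Multiplicative.toAdd ((k.map fun i => vl (φ i)).prod)) := by
      intro k hk
      induction k with
      | nil => simp
      | cons a k ih =>
        rw [List.map_cons, List.prod_cons, hlen, List.length_cons]
        have h5 := ih fun i hi => hk i (List.mem_cons_of_mem _ hi)
        have h6 : 1 ≤ Multiset.card (Multiplicative.toAdd (vl (φ a))) := by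
          obtain ⟨g, hg⟩ := Option.ne_none_iff_exists'.1 (hk a (by simp))
          rw [hg]
          have := g.2.1
          rw [Nat.one_le_iff_ne_zero, Ne, Multiset.card_eq_zero]
          exact fun h => this h
        omega
    have h5 := h4 l h2
    rw [← h3] at h5
    obtain ⟨-, p, q, hpq⟩ := f.2
    have h6 : Multiset.card (Multiplicative.toAdd (πc v)) = v.length := rfl
    rw [← hpq, hlen, hlen] at h6
    omega
  · rw [SC, sat_SM]
    intro φ
    rfl

/-- The word `0 k 0 (k-1) 0 ... 0 1 0`. -/
def vv : ℕ → List ℕ
  | 0 => [0]
  | k + 1 => 0 :: (k + 1) :: vv k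

theorem vv_ne (k : ℕ) : vv k ≠ [] := by cases k <;> simp [vv]

theorem vv_le {k c : ℕ} (h : c ∈ vv k) : c ≤ k := by
  induction k with
  | zero => simpa [vv] using h
  | succ k ih =>
    simp only [vv, List.mem_cons] at h
    rcases h with rfl | rfl | h
    · omega
    · omega
    · have := ih h; omega

theorem vv_count (k : ℕ) : (vv k).count 0 = k + 1 := by
  induction k with
  | zero => rfl
  | succ k ih => simp [vv, ih]

theorem vv_good (k : ℕ) : Good (vv k) := by
  induction k with
  | zero => 
    refine ⟨fun c hc => ?_, by simp [vv]⟩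
    simp [vv, hc.symm]
  | succ k ih =>
    refine ⟨fun c hc => ?_, ?_⟩
    · simp only [vv]
      rw [List.count_cons_of_ne (by exact hc.symm)]
      by_cases h : c = k + 1
      · subst h
        rw [List.count_cons_self, List.count_eq_zero_of_not_mem fun h => by
          have := vv_le h; omega]
      · rw [List.count_cons_of_ne (by exact fun h' => h h'.symm)]
        exact ih.1 c hc
    · simp only [vv]
      rw [List.isChain_cons_cons]
      refine ⟨Or.inr (by omega), ?_⟩
      rw [List.isChain_cons]
      exact ⟨fun _ _ => Or.inl (by omega), ih.2⟩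

/-- **Theorem A.** -/
theorem SX_notMem {V : EpiVar} (hV : UpperModular V) : ¬ V.mem SX := by
  intro hX
  have hH := HV_of hV hX
  have hall : ∀ u, Good u → u ≠ [] → V.mem (SW u) := fun u h1 h2 => all_good hV hX _ u h1 h2 rfl
  obtain ⟨n, hn⟩ := V.index
  set v := vv n with hv
  have hvg : Good v := vv_good n
  have hv0 : v ≠ [] := vv_ne n
  obtain ⟨m, hm⟩ : ∃ m, v.length = m + 1 := by
    rcases h : v.length with _ | m
    · exact absurd (List.length_eq_zero_iff.1 h) hv0
    · exact ⟨m, rfl⟩
  -- the main step
  have hD : ((CN v.length) ⊔ (Lv m ⊓ V)).mem (SW v) := by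
    apply SW_mem
    intro w hw
    obtain ⟨l, hl1, hl2⟩ := SC_sat hv0 (hw (SC v)
      ((le_sup_left : CN v.length ≤ CN v.length ⊔ (Lv m ⊓ V)) _ (SC_CN v)))
    have hl0 : l ≠ [] := nb_ne hl1
    have hll : l.length = v.length := hl2.length_eq
    have hsat : (Lv m ⊓ V).sat (wt v, wt l) := by
      intro A hA φ
      have h1 := hw A ((le_sup_right : Lv m ⊓ V ≤ CN v.length ⊔ (Lv m ⊓ V)) _ hA) φ
      exact h1.trans (sat_nb A hl1 φ).symm
    have key : ∀ j, j ≤ v.length → l.take j = v.take j := by
      intro j
      induction j with
      | zero => simp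
      | succ j ih =>
        intro hj
        have ihj := ih (by omega)
        obtain ⟨a, v', hv'⟩ : ∃ a v', v.drop j = a :: v' := by
          rcases h : v.drop j with _ | ⟨a, u'⟩
          · have := congrArg List.length h
            rw [List.length_drop] at this
            simp only [List.length_nil] at this
            omega
          · exact ⟨a, u', rfl⟩
        obtain ⟨c, l', hl'⟩ : ∃ a v', l.drop j = a :: v' := by
          rcases h : l.drop j with _ | ⟨a, u'⟩
          · have := congrArg List.length h
            rw [List.length_drop] at this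
            simp only [List.length_nil] at this
            omega
          · exact ⟨a, u', rfl⟩
        set r := v.take j with hr
        have hrl : r.length = j := by rw [hr, List.length_take]; omega
        have hva : v = r ++ [a] ++ v' := by
          conv_lhs => rw [← List.take_append_drop j v, hv']
          simp [hr]
        have hlc : l = r ++ [c] ++ l' := by
          conv_lhs => rw [← List.take_append_drop j l, hl', ihj]
          simp
        have hta : v.take (j + 1) = r ++ [a] := by
          rw [hva, List.take_append_of_le_length (by simp [hrl]), List.take_of_length_le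
            (by simp [hrl])]
        have htc : l.take (j + 1) = r ++ [c] := by
          rw [hlc, List.take_append_of_le_length (by simp [hrl]), List.take_of_length_le
            (by simp [hrl])]
        by_cases hac : a = c
        · rw [hta, htc, hac]
        · exfalso
          have hG : Good (r ++ [a]) := by
            rw [hva] at hvg
            exact hvg.left
          have hcr : c ≠ 0 → c ∉ r := by
            intro hc0 hcr
            have h1 := hvg.1 c hc0
            rw [← hl2.count_eq c, hlc, List.count_append, List.count_append] at h1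
            have h2 := List.count_pos_iff.2 hcr
            have h3 : [c].count c = 1 := by simp
            omega
          refine diff hH hG hac hcr (fun u' h1 h2 _ => hall u' h1 h2) ?_
          rw [hrl]
          intro A hA
          rw [sat_word_iff (by simp) (by simp)]
          intro φ
          have hAm : (Lv m ⊓ V).mem A := ⟨LvE_mono (by omega) hA.1, hA.2⟩
          have e1 := (sat_word_iff hv0 hl0).1 (hsat A hAm) φ
          rw [hva, hlc, LvE_abs hA.1 φ (l := r ++ [a]) (by simp [hrl]),
            LvE_abs hA.1 φ (l := r ++ [c]) (by simp [hrl])] at e1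
          exact e1
    have h1 := key v.length le_rfl
    rw [List.take_length, ← hll, List.take_length] at h1
    rw [hl1, h1]
  have hfin : Sat (SW v) (wt v, wt (v ++ [0])) := by
    refine UM hV (hall v hvg hv0) (Y := Lv m ⊓ V) (Z := CN v.length) inf_le_right
      (fun p h1 h2 => hD p h2 h1) ?_ ?_
    · intro A hA
      rw [sat_word_iff hv0 (by simp)]
      intro φ
      exact (LvE_abs hA.1 φ hm [0]).symm
    · intro A hA
      rw [sat_word_iff hv0 (by simp)]
      intro φ
      rw [CNE_zero hA.1 φ (l := v ++ [0]) (by simp) (φ 0)]
      have hc := CNE_comm hA.1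
      -- collect the zeros
      obtain ⟨rest, hrest⟩ : ∃ rest, v.Perm (List.replicate (n + 1) 0 ++ rest) := by
        refine ⟨v.filter (fun x => !(x == 0)), ?_⟩
        have h1 : v.filter (fun x => x == 0) = List.replicate (n + 1) 0 := by
          rw [List.filter_beq, hv, vv_count]
        rw [← h1]
        exact (List.filter_append_perm (fun x => x == 0) v).symm
      rw [W_perm hc φ hrest, W_append]
      have h2 : W A φ (List.replicate (n + 1) 0) = (A.bar (φ 0) : WithOne A.carrier) := by
        have h3 : W A φ (List.replicate (n + 1) 0) =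
            ((pw (φ 0) n : A.carrier) : WithOne A.carrier) := by
          rw [coe_pw]
          unfold W
          rw [List.map_replicate, List.prod_replicate]
        rw [h3]
        congr 1
        have h4 := (hn A hA.2 (φ 0)).2.2
        rw [← h4, hc, CNE_abs hA.1]
      rw [h2]
      rcases eq_or_ne rest [] with rfl | hne
      · rw [W_nil, mul_one]
      · obtain ⟨y, hy⟩ := W_coe A φ hne
        rw [hy, ← WithOne.coe_mul, CNE_abs hA.1]
  have h4 := SW_sat hv0 hfin
  rw [nb_wt (by simp)] at h4
  have := congrArg List.length (Option.some.inj h4)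
  simp at this

end Pool.Agent.H399.Epi
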