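import Pool.Agent.H399.EpiComm

/-!
# Codistributive epigroup varieties
-/

namespace Pool.Agent.H399.Epi

/-- `C0` does not satisfy `x y = x x y`. -/
theorem C0_bad : ¬ Sat C0 (.m (.v 0) (.v 1), .m (.m (.v 0) (.v 0)) (.v 1)) := by
  intro h
  have := h (as2 (0 : Fin 4) (1 : Fin 4))
  change CM 0 1 = CM (CM 0 0) 1 at this
  exact absurd this (by decide)

theorem PP_xxy : Sat PP (.m (.v 0) (.v 1), .m (.m (.v 0) (.v 0)) (.v 1)) := by
  have : ∀ x y : Fin 3, PM x y = PM (PM x x) y := by decide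
  exact fun φ => this (φ 0) (φ 1)

theorem gen_op {A : USg} (hA : (gen PD 1 drz_PD).mem A) : (gen PP 1 drz_PP).mem (opA A) := by
  intro p hp
  apply sat_op.2
  apply hA
  have h1 : Sat (opA PP) (rev p.1, rev p.2) := by
    apply sat_op.2
    rw [rev_rev, rev_rev]
    exact hp
  exact h1

theorem pd_key {V : EpiVar} (hP : ¬ V.mem PD) (A : USg) (hA : (gen PD 1 drz_PD).mem A)
    (hAV : V.mem A) (x y : A) : x * y = x * x * y :=
  (pp_key (V := opV V) (fun h => hP h) (opA A) (gen_op hA) hAV).1 y x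

section

variable {V : EpiVar} (hV : Codistributive V)

include hV

/-- If `C0` and one of `P`, its dual is excluded then ... -/
theorem cd_C0 (hC : V.mem C0) (hD : ¬ V.mem PD) : False := by
  apply C0_bad
  refine CD hV hC (Y := gen PP 1 drz_PP) (Z := gen PD 1 drz_PD) ?_ ?_ ?_
  · intro p h1 h2
    have h3 : Sat SX p := dv_SX_PPD.sat_prod (gen_sat.1 h1) (gen_sat.1 h2)
    exact dv_C0_SX.sat_prod h3 h3
  · intro A hA
    exact gen_sat.2 PP_xxy A hA.2
  · intro A hA φ
    exact pd_key hD A hA.2 hA.1 _ _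

theorem cd_PP : ¬ V.mem PP := by
  intro hP
  have hN : V.mem NN := by
    by_contra hN
    apply PP_bad
    refine CD hV hP (Y := gen RZ 1 drz_RZ) (Z := gen NN 1 drz_NN) ?_ ?_ ?_
    · intro p h1 h2
      exact dv_PP_RZ.sat_prod (gen_sat.1 h1) (gen_sat.1 h2)
    · intro A hA
      exact gen_sat.2 (fun φ => rfl) A hA.2
    · intro A hA φ
      exact nn_key hN hA.2 hA.1 _ _
  have hC : V.mem C0 := V.mem_dv dv_C0_NN (V.mem_prod hN hN)
  have hD : V.mem PD := by
    by_contra hD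
    exact cd_C0 hV hC hD
  exact SX_notMem hV.upperModular (V.mem_dv dv_SX_PPD (V.mem_prod hP hD))

theorem cd_PD : ¬ V.mem PD := fun h => cd_PP hV.op h

theorem cd_noC0 : ¬ V.mem C0 := fun hC => cd_C0 hV hC (cd_PD hV)

theorem cd_NN : ¬ V.mem NN := fun hN => cd_noC0 hV (V.mem_dv dv_C0_NN (V.mem_prod hN hN))

end

/-! ## Products with idempotents are group elements -/

theorem gr_left {V : EpiVar} (hP : ¬ V.mem PP) (hN : ¬ V.mem NN) {A : USg} (hA : V.mem A)
    {e : A} (he : e * e = e) (y : A) : Gr A (e * y) := by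
  rcases p_or hP with h | h
  · rw [h A hA e y he]
    exact n_gr hN A hA e y he
  · exact h A hA e y he

theorem gr_right {V : EpiVar} (hP : ¬ V.mem PD) (hN : ¬ V.mem NN) {A : USg} (hA : V.mem A)
    {e : A} (he : e * e = e) (y : A) : Gr A (y * e) := by
  have hN' : ¬ (opV V).mem NN := by
    intro h
    apply hN
    rw [← opA_NN]
    exact h
  have h1 : Gr (opA A) (y * e) :=
    gr_left (V := opV V) (fun h => hP h) hN' (A := opA A) hA (e := e) he y
  show y * e * A.bar (y * e) * (y * e) = y * e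
  rw [mul_assoc]
  exact h1

theorem gr_peq {V : EpiVar} (hP : ¬ V.mem PP) (hD : ¬ V.mem PD) (hN : ¬ V.mem NN) {A : USg}
    (hA : V.mem A) {e : A} (he : e * e = e) (p q : A) : Gr A (p * e * q) := by
  have h1 : Gr A (p * e) := gr_right hD hN hA he p
  set h := p * e with hh
  have hk : h * A.bar h * (h * A.bar h) = h * A.bar h := by
    rw [← mul_assoc]
    unfold Gr at h1
    rw [h1]
  have h2 := gr_left hP hN hA hk (h * q)
  rw [← mul_assoc (h * A.bar h)] at h2
  unfold Gr at h1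
  rw [h1] at h2
  exact h2

/-! ## The quotient by the ideal generated by the idempotents -/

/-- Membership in the ideal generated by the idempotents. -/
def InI (A : USg) (x : A) : Prop := ∃ p e q : A, e * e = e ∧ x = p * e * q

theorem InI.mul_left {A : USg} {x : A} (h : InI A x) (y : A) : InI A (y * x) := by
  obtain ⟨p, e, q, he, rfl⟩ := h
  exact ⟨y * p, e, q, he, by simp only [mul_assoc]⟩

theorem InI.mul_right {A : USg} {x : A} (h : InI A x) (y : A) : InI A (x * y) := by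
  obtain ⟨p, e, q, he, rfl⟩ := h
  exact ⟨p, e, q * y, he, by simp only [mul_assoc]⟩

/-- The Rees congruence. -/
def reesCon (A : USg) : Con A.carrier where
  r a b := a = b ∨ (InI A a ∧ InI A b)
  iseqv := by
    refine ⟨fun _ => Or.inl rfl, ?_, ?_⟩
    · rintro a b (h | ⟨h1, h2⟩)
      · exact Or.inl h.symm
      · exact Or.inr ⟨h2, h1⟩
    · rintro a b c (rfl | ⟨h1, h2⟩) (rfl | ⟨h3, h4⟩)
      · exact Or.inl rfl
      · exact Or.inr ⟨h3, h4⟩
      · exact Or.inr ⟨h1, h2⟩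
      · exact Or.inr ⟨h1, h4⟩
  mul' := by
    rintro a b c d (rfl | ⟨h1, h2⟩) (rfl | ⟨h3, h4⟩)
    · exact Or.inl rfl
    · exact Or.inr ⟨h3.mul_left _, h4.mul_left _⟩
    · exact Or.inr ⟨h1.mul_right _, h2.mul_right _⟩
    · exact Or.inr ⟨h1.mul_right _, h2.mul_right _⟩

theorem InI.bar {n : ℕ} {A : USg} (hA : DrzA n A) {x : A} (h : InI A x) : InI A (A.bar x) := by
  rw [bar_left (hA x)]
  exact h.mul_right _

/-- The Rees quotient. -/
def rees (A : USg) (n : ℕ) (hA : DrzA n A) : USg where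
  carrier := (reesCon A).Quotient
  sg := inferInstance
  ne := ⟨((Classical.arbitrary A.carrier : A.carrier) : (reesCon A).Quotient)⟩
  bar := Quotient.map A.bar (by
    rintro a b (rfl | ⟨h1, h2⟩)
    · exact Or.inl rfl
    · exact Or.inr ⟨h1.bar hA, h2.bar hA⟩)

/-- The class of an element in the Rees quotient. -/
def cls (A : USg) (n : ℕ) (hA : DrzA n A) (a : A) : rees A n hA :=
  ((a : A.carrier) : (reesCon A).Quotient)

theorem cls_mul {A : USg} {n : ℕ} (hA : DrzA n A) (a b : A) :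
    cls A n hA (a * b) = cls A n hA a * cls A n hA b := rfl

theorem cls_bar {A : USg} {n : ℕ} (hA : DrzA n A) (a : A) :
    cls A n hA (A.bar a) = (rees A n hA).bar (cls A n hA a) := rfl

theorem cls_pw {A : USg} {n : ℕ} (hA : DrzA n A) (a : A) (k : ℕ) :
    cls A n hA (pw a k) = pw (cls A n hA a) k := by
  induction k with
  | zero => rfl
  | succ k ih => rw [pw_succ, cls_mul, ih]; rfl

theorem cls_surj {A : USg} {n : ℕ} (hA : DrzA n A) (x : rees A n hA) : ∃ a, cls A n hA a = x := by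
  obtain ⟨a, ha⟩ := Quotient.exists_rep x
  exact ⟨a, ha⟩

theorem cls_eq {A : USg} {n : ℕ} (hA : DrzA n A) {a b : A} :
    cls A n hA a = cls A n hA b ↔ a = b ∨ (InI A a ∧ InI A b) :=
  ⟨fun h => Quotient.exact h, fun h => Quotient.sound h⟩

theorem rees_dv (A : USg) (n : ℕ) (hA : DrzA n A) : Dv (rees A n hA) A := by
  refine ⟨fun a x => cls A n hA a = x, ?_, ?_, ?_, ?_⟩
  · intro a x y hx hy
    exact hx.symm.trans hy
  · rintro a b _ _ rfl rfl
    rfl
  · rintro a _ rfl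
    rfl
  · exact cls_surj hA

theorem rees_nil (A : USg) (n : ℕ) (hA : DrzA n A) : ∃ z : A, InI A z ∧
    (∀ x : (rees A n hA), cls A n hA z * x = cls A n hA z ∧ x * cls A n hA z = cls A n hA z) ∧
    ∀ x : (rees A n hA), ∃ k, pw x k = cls A n hA z := by
  obtain ⟨x⟩ := A.ne
  obtain ⟨h1, h2, h3⟩ := hA x
  have he : x * A.bar x * (x * A.bar x) = x * A.bar x := by
    rw [mul_assoc, ← mul_assoc (A.bar x), h2]
  have hz : InI A (x * A.bar x) := ⟨_, _, _, he, by rw [he, he]⟩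
  refine ⟨x * A.bar x, hz, ?_, ?_⟩
  · intro y
    obtain ⟨y, rfl⟩ := cls_surj hA y
    rw [← cls_mul, ← cls_mul, cls_eq, cls_eq]
    exact ⟨Or.inr ⟨hz.mul_right _, hz⟩, Or.inr ⟨hz.mul_left _, hz⟩⟩
  · intro y
    obtain ⟨y, rfl⟩ := cls_surj hA y
    refine ⟨n, ?_⟩
    rw [← cls_pw, cls_eq]
    refine Or.inr ⟨?_, hz⟩
    obtain ⟨g1, g2, g3⟩ := hA y
    have hf : y * A.bar y * (y * A.bar y) = y * A.bar y := by
      rw [mul_assoc, ← mul_assoc (A.bar y), g2]
    refine ⟨pw y n, y * A.bar y, y * A.bar y, hf, ?_⟩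
    rw [mul_assoc, hf, ← mul_assoc, g3]

/-- If nil members of `V` are null then every product lies in the ideal generated by the
idempotents. -/
theorem prod_inI {V : EpiVar}
    (hnull : ∀ A, V.mem A → ∀ o : A, NilZ A o → ∀ x y : A, x * y = o) {A : USg}
    (hA : V.mem A) (a b : A) : InI A (a * b) := by
  obtain ⟨n, hn⟩ := V.index
  have hAn := hn A hA
  have hQ : V.mem (rees A n hAn) := V.mem_dv (rees_dv A n hAn) hA
  obtain ⟨z, hz, h1, h2⟩ := rees_nil A n hAn
  obtain ⟨o, ho⟩ := nilZ_of hQ ⟨_, h1, h2⟩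
  have h3 : cls A n hAn z = o := (h1 o).1.symm.trans (ho.right _)
  have h4 := hnull _ hQ o ho (cls A n hAn a) (cls A n hAn b)
  rw [← h3, ← cls_mul, cls_eq] at h4
  rcases h4 with h6 | h6
  · rw [h6]; exact hz
  · exact h6.1

/-! ## Nil members are null -/

theorem rC_mul (x y : Fin 4) : (rX x ≠ [] ∧ rX y ≠ [] ∧ (rX x ++ rX y ≠ [] ∧
      (rX x ++ rX y).Subperm [0, 1]) ∧ (rX x ++ rX y).Perm (rX (CM x y))) ∨
    ((rX x = [] ∨ rX y = [] ∨ ¬ (rX x ++ rX y ≠ [] ∧ (rX x ++ rX y).Subperm [0, 1])) ∧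
      rX (CM x y) = []) := by
  revert x y
  decide

/-- The relation between factors and the elements of `C0`. -/
def RC (a : Option {f : Multiplicative (Multiset ℕ) // Fac (πc [0, 1]) f}) (x : Fin 4) : Prop :=
  vl a = πc (rX x)

theorem dv_C0_SC : Dv C0 (SC [0, 1]) := by
  have h1 : ∀ a x y, RC a x → RC a y → x = y := by
    intro a x y hx hy
    unfold RC at hx hy
    rw [hx] at hy
    have h1 := πc_iff.1 hy
    have : ∀ x y : Fin 4, (rX x).Perm (rX y) → x = y := by decide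
    exact this _ _ h1
  have h2 : ∀ a b x y, RC a x → RC b y → RC (fmul _ a b) (CM x y) := by
    intro a b x y hx hy
    refine vl_fmul_of repMul (k := rX x) (l := rX y) hx hy ?_
    rw [fac_mul]
    rcases rC_mul x y with ⟨h1, h2, h3, h4⟩ | h1
    · exact Or.inl ⟨h1, h2, h3, πc_iff.2 h4⟩
    · exact Or.inr h1
  have h3 : ∀ x, ∃ a, RC a x := by
    intro x
    unfold RC
    by_cases hx : rX x = []
    · refine ⟨none, ?_⟩
      rw [hx]; rfl
    · have h2 : ∀ x : Fin 4, (rX x).Subperm [0, 1] := by decide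
      exact ⟨some ⟨πc (rX x), fac_mul.2 ⟨hx, h2 x⟩⟩, rfl⟩
  exact ⟨RC, h1, h2, fun a x _ => rfl, h3⟩

theorem null_of {V : EpiVar} (hS : ¬ V.mem SX) (hC : ¬ V.mem C0) :
    ∀ A, V.mem A → ∀ o : A, NilZ A o → ∀ x y : A, x * y = o := by
  rcases nil_cases hS with hc | h
  · have hcomm : ∀ B, V.mem B → ∀ x y : B, x * y = y * x := fun B hB x y => hc B hB (as2 x y)
    intro A hA o ho x y
    by_contra hxy
    apply hC
    apply V.mem_dv dv_C0_SC
    apply SC_mem
    intro u' w hu' hw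
    have hlen : u'.length = 2 := hu'.length_eq
    have h1 : V.sat (wt [0, 1], w) := V.sat_trans
      (fun B hB => sat_perm (hcomm B hB) (by simp) hu'.symm) hw
    by_contra hcon
    push Not at hcon
    apply hxy
    refine ho.xy (h1 A hA) ?_ ?_ x y
    · intro h
      exact hcon _ h (List.Perm.refl _)
    · intro h
      exact hcon _ h (List.Perm.swap _ _ _)
  · exact h

/-- **Theorem B.** -/
theorem cd_main {V : EpiVar} (hV : Codistributive V) {A : USg} (hA : V.mem A) (a b : A) :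
    Gr A (a * b) := by
  obtain ⟨p, e, q, he, h⟩ := prod_inI (null_of (SX_notMem hV.upperModular) (cd_noC0 hV)) hA a b
  rw [h]
  exact gr_peq (cd_PP hV) (cd_PD hV) (cd_NN hV) hA he p q

/-! ## Subgroups -/

theorem subgp_of {n : ℕ} {A : USg} (hA : DrzA n A) {z : A} (hz : Gr A z) :
    ∃ G : Set A, IsSubgp A G ∧ z ∈ G ∧ ∀ g ∈ G, ∃ s t : A, g = s * t := by
  obtain ⟨h1, h2, h3⟩ := hA z
  unfold Gr at hz
  set e := z * A.bar z with he
  have hee : e * e = e := by rw [he, mul_assoc, ← mul_assoc (A.bar z), h2]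
  have hze : z * e = z := by rw [h1, ← mul_assoc, ← he, hz]
  have hez : e * A.bar z = A.bar z := by rw [h1, h2]
  have hze' : A.bar z * e = A.bar z := by rw [← mul_assoc, h2]
  refine ⟨{g | ∃ h, MutInv e g h}, ⟨e, ⟨e, hee, hee, hee, hee, hee, hee, hee⟩, ?_, ?_, ?_⟩,
    ⟨A.bar z, hee, hz, hze, hez, hze', rfl, h1.symm⟩, ?_⟩
  · rintro x ⟨y, -, g2, g3, -⟩
    exact ⟨g2, g3⟩
  · rintro x ⟨x', -, g2, g3, g4, g5, g6, g7⟩ y ⟨y', -, k2, k3, k4, k5, k6, k7⟩
    refine ⟨y' * x', hee, ?_, ?_, ?_, ?_, ?_, ?_⟩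
    · rw [← mul_assoc, g2]
    · rw [mul_assoc, k3]
    · rw [← mul_assoc, k4]
    · rw [mul_assoc, g5]
    · calc x * y * (y' * x') = x * (y * y') * x' := by simp only [mul_assoc]
        _ = e := by rw [k6, g3, g6]
    · calc y' * x' * (x * y) = y' * (x' * x) * y := by simp only [mul_assoc]
        _ = e := by rw [g7, k5, k7]
  · rintro x ⟨y, g1, g2, g3, g4, g5, g6, g7⟩
    exact ⟨y, ⟨x, g1, g4, g5, g2, g3, g7, g6⟩, g6, g7⟩
  · rintro g ⟨h, -, g2, -⟩
    exact ⟨e, g, g2.symm⟩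

theorem sq_cr {V : EpiVar} (hV : Codistributive V) {A : USg} (hA : V.mem A) :
    CompletelyRegularSq A := by
  rintro x ⟨a, b, rfl⟩
  obtain ⟨n, hn⟩ := V.index
  obtain ⟨G, h1, h2, h3⟩ := subgp_of (hn A hA) (cd_main hV hA a b)
  exact ⟨G, h1, h2, h3⟩

end Pool.Agent.H399.Epi
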