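import Pool.Agent.H399.EpiDefs

/-!
# Products, divisors, generated varieties, duality
-/

namespace Pool.Agent.H399.Epi

/-- The direct product of two unary semigroups. -/
def prod (A B : USg) : USg where
  carrier := A.carrier × B.carrier
  sg := inferInstance
  ne := inferInstance
  bar x := (A.bar x.1, B.bar x.2)

theorem ev_prod (A B : USg) (φ : ℕ → prod A B) (t : Tm) :
    ev (prod A B) φ t = (ev A (fun n => (φ n).1) t, ev B (fun n => (φ n).2) t) := by
  induction t with
  | v n => rfl
  | m s t h1 h2 =>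
    show ev (prod A B) φ s * ev (prod A B) φ t = _
    rw [h1, h2]; rfl
  | b t h =>
    show (prod A B).bar (ev (prod A B) φ t) = _
    rw [h]; rfl

theorem sat_prod {A B : USg} {p : Tm × Tm} (hA : Sat A p) (hB : Sat B p) : Sat (prod A B) p := by
  intro φ
  rw [ev_prod, ev_prod, hA, hB]

theorem EpiVar.mem_prod (V : EpiVar) {A B : USg} (hA : V.mem A) (hB : V.mem B) :
    V.mem (prod A B) := by
  rw [V.mem_iff]
  intro p hp
  exact sat_prod (hp A hA) (hp B hB)

/-- `D` is a divisor (homomorphic image of a subalgebra) of `A`. -/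
def Dv (D A : USg) : Prop :=
  ∃ R : A → D → Prop, (∀ a x y, R a x → R a y → x = y) ∧
    (∀ a b x y, R a x → R b y → R (a * b) (x * y)) ∧
    (∀ a x, R a x → R (A.bar a) (D.bar x)) ∧ ∀ x, ∃ a, R a x

theorem Dv.sat {D A : USg} (h : Dv D A) {p : Tm × Tm} (hp : Sat A p) : Sat D p := by
  obtain ⟨R, h1, h2, h3, h4⟩ := h
  intro φ
  choose ψ hψ using h4
  have key : ∀ t : Tm, R (ev A (fun n => ψ (φ n)) t) (ev D φ t) := by
    intro t
    induction t with
    | v n => exact hψ _
    | m s t h5 h6 => exact h2 _ _ _ _ h5 h6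
    | b t h5 => exact h3 _ _ h5
  have e1 := key p.1
  rw [hp] at e1
  exact h1 _ _ _ e1 (key p.2)

theorem EpiVar.mem_dv (V : EpiVar) {D A : USg} (h : Dv D A) (hA : V.mem A) : V.mem D := by
  rw [V.mem_iff]
  intro p hp
  exact h.sat (hp A hA)

theorem Dv.sat_prod {D A B : USg} (h : Dv D (prod A B)) {p : Tm × Tm} (hA : Sat A p)
    (hB : Sat B p) : Sat D p := h.sat (Epi.sat_prod hA hB)

/-- The variety generated by `A`. -/
def gen (A : USg) (n : ℕ) (h : DrzA n A) : EpiVar :=
  mkVar {p | Sat A p} n fun B hB => (drzA_iff n B).2 fun p hp => hB p ((drzA_iff n A).1 h p hp)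

theorem gen_mem (A : USg) (n : ℕ) (h : DrzA n A) : (gen A n h).mem A := fun _ hp => hp

theorem gen_le {A : USg} {n : ℕ} {h : DrzA n A} {V : EpiVar} (hA : V.mem A) :
    gen A n h ≤ V := by
  intro B hB
  rw [V.mem_iff]
  intro p hp
  exact hB p (hp A hA)

theorem gen_sat {A : USg} {n : ℕ} {h : DrzA n A} {p : Tm × Tm} :
    (gen A n h).sat p ↔ Sat A p :=
  ⟨fun hp => hp A (gen_mem A n h), fun hp _ hB => hB p hp⟩

/-! ## Consequences of upper-modularity and codistributivity -/

theorem Codistributive.upperModular {L : Type*} [Lattice L] {x : L} (h : Codistributive x) :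
    UpperModular x := by
  intro y z hy
  rw [inf_comm, h, inf_eq_right.2 hy, inf_comm]

theorem UM {V : EpiVar} (hV : UpperModular V) {D : USg} (hD : V.mem D) {Y Z : EpiVar} (hY : Y ≤ V)
    (h : ∀ p, Y.sat p → Z.sat p → Sat D p) {p : Tm × Tm} (h1 : Y.sat p)
    (h2 : (Z ⊓ V).sat p) : Sat D p := by
  have h3 : ((Z ⊔ Y) ⊓ V).mem D := ⟨fun p h1 h2 => h p h2 h1, hD⟩
  rw [hV Y Z hY] at h3
  exact h3 p h2 h1

theorem CD {V : EpiVar} (hV : Codistributive V) {D : USg} (hD : V.mem D) {Y Z : EpiVar}
    (h : ∀ p, Y.sat p → Z.sat p → Sat D p) {p : Tm × Tm} (h1 : (V ⊓ Y).sat p)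
    (h2 : (V ⊓ Z).sat p) : Sat D p := by
  have h3 : (V ⊓ (Y ⊔ Z)).mem D := ⟨hD, fun p h1 h2 => h p h1 h2⟩
  rw [hV Y Z] at h3
  exact h3 p h1 h2

/-! ## Duality -/

/-- The dual of a unary semigroup. -/
def opA (A : USg) : USg where
  carrier := A.carrier
  sg := { mul := fun a b => b * a, mul_assoc := fun a b c => (mul_assoc c b a).symm }
  ne := A.ne
  bar := A.bar

theorem opA_opA (A : USg) : opA (opA A) = A := rfl

/-- The reverse of a term. -/
def rev : Tm → Tm
  | .v n => .v n
  | .m s t => .m (rev t) (rev s)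
  | .b t => .b (rev t)

theorem rev_rev (t : Tm) : rev (rev t) = t := by
  induction t with
  | v n => rfl
  | m s t h1 h2 => simp [rev, h1, h2]
  | b t h => simp [rev, h]

theorem ev_op (A : USg) (φ : ℕ → A) (t : Tm) : ev (opA A) φ t = ev A φ (rev t) := by
  induction t with
  | v n => rfl
  | m s t h1 h2 =>
    show @HMul.hMul A.carrier A.carrier A.carrier _ (ev (opA A) φ t) (ev (opA A) φ s) = _
    rw [h1, h2]; rfl
  | b t h =>
    show A.bar (ev (opA A) φ t) = _
    rw [h]; rfl

theorem sat_op {A : USg} {p : Tm × Tm} : Sat (opA A) p ↔ Sat A (rev p.1, rev p.2) := by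
  constructor
  · intro h φ
    have := h φ
    rw [ev_op, ev_op] at this
    exact this
  · intro h φ
    exact (ev_op A φ p.1).trans ((h φ).trans (ev_op A φ p.2).symm)

theorem pw_op (A : USg) (x : A) (n : ℕ) : @pw (opA A).carrier (opA A).sg x n = pw x n := by
  induction n with
  | zero => rfl
  | succ n ih =>
    show x * _ = _
    rw [ih, pw_succ']

theorem Drz.op {A : USg} {n : ℕ} {x y : A} (h : Drz n x y) :
    @Drz (opA A).carrier (opA A).sg n x y := by
  obtain ⟨h1, h2, h3⟩ := h
  refine ⟨h1.symm, ?_, ?_⟩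
  · show @HMul.hMul A.carrier A.carrier A.carrier _ y
      (@HMul.hMul A.carrier A.carrier A.carrier _ x y) = y
    rw [← mul_assoc]; exact h2
  · have e := pw_op A x n
    have h4 : y * (x * pw x n) = pw x n := by
      rw [← mul_assoc, ← h1, ← pw_comm_of (x := x) (y := x * y)
        (by rw [mul_assoc, ← h1]), ← mul_assoc]
      exact h3
    rw [← e] at h4
    exact h4

theorem IsEpi.op {A : USg} (h : IsEpi A) : IsEpi (opA A) := by
  intro x
  obtain ⟨n, hn⟩ := h.drz x
  obtain ⟨h1, h2⟩ := mutInv_of_drz hn.op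
  exact ⟨_, n, ⟨_, h1⟩, h2⟩

/-- The dual variety. -/
def opV (V : EpiVar) : EpiVar where
  mem A := V.mem (opA A)
  eqn := by
    obtain ⟨E, hE⟩ := V.eqn
    refine ⟨(fun p => (rev p.1, rev p.2)) '' E, fun A => ?_⟩
    rw [hE]
    constructor
    · rintro h _ ⟨p, hp, rfl⟩
      exact sat_op.1 (h p hp)
    · intro h p hp
      exact sat_op.2 (h _ ⟨p, hp, rfl⟩)
  epi A hA := (V.epi _ hA).op

theorem opV_opV (V : EpiVar) : opV (opV V) = V := rfl

theorem opV_sat {V : EpiVar} {p : Tm × Tm} : (opV V).sat p ↔ V.sat (rev p.1, rev p.2) := by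
  constructor
  · intro h A hA
    exact sat_op.1 (h (opA A) hA)
  · intro h A hA
    have h1 : Sat (opA A) (rev p.1, rev p.2) := h (opA A) hA
    have h2 := sat_op.1 h1
    simpa [rev_rev] using h2

/-- Duality as an automorphism of the lattice of epigroup varieties. -/
def opE : EpiVar ≃o EpiVar where
  toFun := opV
  invFun := opV
  left_inv := opV_opV
  right_inv := opV_opV
  map_rel_iff' := by
    intro V W
    constructor
    · intro h A hA
      exact h (opA A) hA
    · intro h A hA
      exact h (opA A) hA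

theorem UpperModular.map {L : Type*} [Lattice L] (e : L ≃o L) {x : L} (h : UpperModular x) :
    UpperModular (e x) := by
  intro y z hy
  have h1 : e.symm y ≤ x := by
    have := e.symm.monotone hy
    simpa using this
  have := h (e.symm y) (e.symm z) h1
  have h2 := congrArg e this
  simpa using h2

theorem Codistributive.map {L : Type*} [Lattice L] (e : L ≃o L) {x : L} (h : Codistributive x) :
    Codistributive (e x) := by
  intro y z
  have := h (e.symm y) (e.symm z)
  have h2 := congrArg e this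
  simpa using h2

theorem UpperModular.op {V : EpiVar} (h : UpperModular V) : UpperModular (opV V) := h.map opE

theorem Codistributive.op {V : EpiVar} (h : Codistributive V) : Codistributive (opV V) :=
  h.map opE

end Pool.Agent.H399.Epi
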