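import Pool.Agent.H399.EpiNil

/-!
# Commutative upper-modular varieties: nil members satisfy `x^2 y = x y^2`
-/

namespace Pool.Agent.H399.Epi

theorem fac_mul {u l : List ℕ} : Fac (πc u) (πc l) ↔ l ≠ [] ∧ l.Subperm u := by
  constructor
  · rintro ⟨h1, p, q, h2⟩
    refine ⟨?_, ?_⟩
    · rintro rfl
      exact h1 rfl
    · obtain ⟨p, rfl⟩ := repMul.surj p
      obtain ⟨q, rfl⟩ := repMul.surj q
      rw [← repMul.app, ← repMul.app, πc_iff] at h2
      refine List.Subperm.trans ?_ h2.subperm
      exact (((List.sublist_append_right p l).trans (List.sublist_append_left (p ++ l) q))).subperm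
  · rintro ⟨h1, h2⟩
    obtain ⟨l', h3, h4⟩ := h2
    obtain ⟨k, hk⟩ := h4.exists_perm_append
    refine ⟨repMul.ne_one h1, 1, πc k, ?_⟩
    rw [one_mul, ← repMul.app, πc_iff]
    exact ((h3.append_right k).symm.trans hk.symm)

/-- The commutative semigroup of factors of `x^2 y`: `x, y, x^2, xy, x^2 y, 0`. -/
def DM : Fin 6 → Fin 6 → Fin 6 :=
  ![![2, 3, 5, 4, 5, 5], ![3, 5, 4, 5, 5, 5], ![5, 4, 5, 5, 5, 5], ![4, 5, 5, 5, 5, 5],
    ![5, 5, 5, 5, 5, 5], ![5, 5, 5, 5, 5, 5]]

def D0 : USg := mkU DM (by decide) fun _ => 5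

/-- `x, y, x^2, xy, y^2, x^2 y = x y^2, 0`. -/
def EM : Fin 7 → Fin 7 → Fin 7 :=
  ![![2, 3, 6, 5, 5, 6, 6], ![3, 4, 5, 5, 6, 6, 6], ![6, 5, 6, 6, 6, 6, 6], ![5, 5, 6, 6, 6, 6, 6],
    ![5, 6, 6, 6, 6, 6, 6], ![6, 6, 6, 6, 6, 6, 6], ![6, 6, 6, 6, 6, 6, 6]]

def D1 : USg := mkU EM (by decide) fun _ => 6

theorem dv_D1_D0 : Dv D1 (prod D0 D0) := by
  refine dv_of (f₁ := DM) (f₂ := DM) (f₃ := EM)
    ![![none, some 0, none, none, none, none], ![some 1, none, none, none, none, none],
      ![none, none, none, none, none, some 2], ![none, none, none, some 3, none, none],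
      ![none, none, none, none, none, some 5], ![none, none, some 4, none, some 5, some 6]]
    ?_ ?_ ?_ <;> decide

theorem drz_D1 : DrzA 2 D1 := by
  have : ∀ x : Fin 7, EM x 6 = EM 6 x ∧ EM (EM 6 x) 6 = 6 ∧
      EM (EM (EM (EM x x) x) x) 6 = EM (EM x x) x := by decide
  exact fun x => this x

theorem D1_comm (x y : D1) : x * y = y * x := by
  have : ∀ x y : Fin 7, EM x y = EM y x := by decide
  exact this x y

theorem D1_sat : Sat D1 (wt [0, 0, 1], wt [0, 1, 1]) := by
  have : ∀ x y : Fin 7, EM x (EM x y) = EM x (EM y y) := by decide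
  exact fun φ => this (φ 0) (φ 1)

/-- The words representing the elements of `D0`. -/
def rD : Fin 6 → List ℕ := ![[0], [1], [0, 0], [0, 1], [0, 0, 1], []]

theorem rD_mul (x y : Fin 6) : (rD x ≠ [] ∧ rD y ≠ [] ∧ (rD x ++ rD y ≠ [] ∧
      (rD x ++ rD y).Subperm [0, 0, 1]) ∧ (rD x ++ rD y).Perm (rD (DM x y))) ∨
    ((rD x = [] ∨ rD y = [] ∨ ¬ (rD x ++ rD y ≠ [] ∧ (rD x ++ rD y).Subperm [0, 0, 1])) ∧
      rD (DM x y) = []) := by
  revert x y
  decide

/-- The relation between factors and the elements of `D0`. -/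
def RD (a : Option {f : Multiplicative (Multiset ℕ) // Fac (πc [0, 0, 1]) f}) (x : Fin 6) : Prop :=
  vl a = πc (rD x)

theorem dv_D0_SC : Dv D0 (SC [0, 0, 1]) := by
  have h1 : ∀ a x y, RD a x → RD a y → x = y := by
    intro a x y hx hy
    unfold RD at hx hy
    rw [hx] at hy
    have h1 := πc_iff.1 hy
    have : ∀ x y : Fin 6, (rD x).Perm (rD y) → x = y := by decide
    exact this _ _ h1
  have h2 : ∀ a b x y, RD a x → RD b y → RD (fmul _ a b) (DM x y) := by
    intro a b x y hx hy
    refine vl_fmul_of repMul (k := rD x) (l := rD y) hx hy ?_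
    rw [fac_mul]
    rcases rD_mul x y with ⟨h1, h2, h3, h4⟩ | h1
    · exact Or.inl ⟨h1, h2, h3, πc_iff.2 h4⟩
    · exact Or.inr h1
  have h3 : ∀ x, ∃ a, RD a x := by
    intro x
    unfold RD
    by_cases hx : rD x = []
    · refine ⟨none, ?_⟩
      rw [hx]; rfl
    · have h2 : ∀ x : Fin 6, (rD x).Subperm [0, 0, 1] := by decide
      exact ⟨some ⟨πc (rD x), fac_mul.2 ⟨hx, h2 x⟩⟩, rfl⟩
  exact ⟨RD, h1, h2, fun a x _ => rfl, h3⟩

/-- Elements of `D1`. -/
def dd (x : Fin 7) : D1 := x

theorem dd_mul (x y : Fin 7) : dd x * dd y = dd (EM x y) := rfl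

theorem dd_inj {x y : Fin 7} (h : (dd x : WithOne D1.carrier) = dd y) : x = y :=
  WithOne.coe_inj.1 h

theorem D1_bar {m : ℕ} (hm : 3 ≤ m) (x : D1) :
    (D1.bar x : WithOne D1.carrier) = (x : WithOne D1.carrier) ^ m := by
  obtain ⟨k, rfl⟩ := Nat.exists_eq_add_of_le hm
  clear hm
  have e3 : (x : WithOne D1.carrier) ^ 3 = (D1.bar x : WithOne D1.carrier) := by
    have : ∀ x : Fin 7, EM (EM x x) x = 6 := by decide
    rw [show 3 = 2 + 1 by rfl, ← coe_pw]
    congr 1
    exact this x
  have e4 : (D1.bar x : WithOne D1.carrier) * x = D1.bar x := by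
    have : ∀ x : Fin 7, EM 6 x = 6 := by decide
    rw [← WithOne.coe_mul]
    congr 1
    exact this x
  induction k with
  | zero => exact e3.symm
  | succ k ih => rw [← Nat.add_assoc, pow_succ, ← ih, e4]

theorem SC_mem_join : (gen D1 2 drz_D1 ⊔ Lv 2).mem (SC [0, 0, 1]) := by
  apply SC_mem
  intro u' w hu' hw
  have hlen : u'.length = 3 := hu'.length_eq
  have hu0 : u' ≠ [] := by rintro rfl; simp at hlen
  have hw1 : Sat D1 (wt u', w) :=
    hw D1 ((le_sup_left : gen D1 2 drz_D1 ≤ gen D1 2 drz_D1 ⊔ Lv 2) _ (gen_mem _ _ _))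
  have hw2 : Sat (LA 2) (wt u', w) :=
    hw _ ((le_sup_right : Lv 2 ≤ gen D1 2 drz_D1 ⊔ Lv 2) _ (LA_mem _))
  have e1 := Lv_prefix (m := 5) (by norm_num) hu0 hw2
  rw [List.take_of_length_le (l := u') (by omega)] at e1
  have e2 : fl 5 w = u' ++ (fl 5 w).drop (2 + 1) := by
    conv_lhs => rw [← List.take_append_drop (2 + 1) (fl 5 w)]
    rw [e1]
  set φ : ℕ → D1 := fun i => dd (if i = 0 then 0 else 1) with hφ
  have e3 : W D1 φ u' = (dd 5 : WithOne D1.carrier) := by
    rw [W_perm D1_comm φ hu']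
    rfl
  have e4 : W D1 φ (fl 5 w) = (dd 5 : WithOne D1.carrier) := by
    rw [← e3, ← ev_wt D1 φ hu0, ← ev_fl (fun x => D1_bar (m := 5) (by norm_num) x)]
    exact congrArg _ (hw1 φ).symm
  have e5 : (fl 5 w).drop (2 + 1) = [] := by
    by_contra hne
    obtain ⟨x, hx⟩ := W_coe D1 φ hne
    rw [e2, W_append, e3, hx, ← WithOne.coe_mul] at e4
    have : ∀ x : Fin 7, EM 5 x ≠ 5 := by decide
    exact this x (dd_inj e4)
  rw [e5, List.append_nil] at e2
  exact ⟨u', nb_of_fl e2 (by omega), hu'⟩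

section

variable {A : USg} {o : A} (h : NilZ A o)

include h

theorem NilZ.xxy (hc : ∀ x y : A, x * y = y * x) {w : Tm} (hw : Sat A (wt [0, 0, 1], w))
    {a b : A} (hab : a * (a * b) ≠ a * (b * b)) : ∃ l, nb w = some l ∧ l.Perm [0, 0, 1] := by
  -- it suffices to exclude `x x y = o`
  have hno : ¬ ∀ x y : A, (x : WithOne A.carrier) ^ 2 * y = o := by
    intro hno
    have h1 : a * (a * b) = o := by
      apply coe_inj'
      rw [WithOne.coe_mul, WithOne.coe_mul, ← mul_assoc, ← pow_two]
      exact hno a b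
    have h2 : a * (b * b) = o := by
      rw [hc]
      apply coe_inj'
      rw [WithOne.coe_mul, WithOne.coe_mul, ← pow_two]
      exact hno b a
    exact hab (h1.trans h2.symm)
  rcases h.letters (u := [0, 0, 1]) (by simp) hw with h3 | ⟨l, hl, hmem⟩
  · exfalso
    apply hno
    intro x y
    have := h3 (as2 x y)
    rw [W_cons, W_cons, W_single, ← mul_assoc, ← pow_two] at this
    exact this
  · refine ⟨l, hl, ?_⟩
    by_contra hperm
    have hw' : ∀ φ : ℕ → A, W A φ [0, 0, 1] = W A φ l := fun φ => by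
      rw [← ev_wt A φ (by simp), show ev A φ (wt [0, 0, 1]) = ev A φ w from hw φ, ev_nb hl]
    obtain ⟨i, hi⟩ : ∃ i, l.count 0 = i + 1 := by
      have := List.count_pos_iff.2 ((hmem 0).2 (Or.inl rfl))
      exact ⟨l.count 0 - 1, by omega⟩
    obtain ⟨j, hj⟩ : ∃ j, l.count 1 = j + 1 := by
      have := List.count_pos_iff.2 ((hmem 1).2 (Or.inr rfl))
      exact ⟨l.count 1 - 1, by omega⟩
    have hlp : l.Perm (List.replicate (i + 1) 0 ++ List.replicate (j + 1) 1) := by
      rw [List.perm_iff_count]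
      intro c
      rw [List.count_append, List.count_replicate, List.count_replicate]
      by_cases h0 : c = 0
      · subst h0
        simp [hi]
      · by_cases h1 : c = 1
        · subst h1
          simp [hj]
        · have : c ∉ l := fun h => by
            rcases (hmem c).1 h with h | h
            · exact h0 h
            · exact h1 h
          rw [List.count_eq_zero_of_not_mem this]
          simp [Ne.symm h0, Ne.symm h1]
    have E : ∀ x y : A, (x : WithOne A.carrier) ^ 2 * y =
        (x : WithOne A.carrier) ^ (i + 1) * (y : WithOne A.carrier) ^ (j + 1) := by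
      intro x y
      have e := hw' (as2 x y)
      rw [W_perm hc _ hlp, W_cons, W_cons, W_single, ← mul_assoc, ← pow_two, W_append] at e
      unfold W at e
      rw [List.map_replicate, List.map_replicate, List.prod_replicate, List.prod_replicate] at e
      exact e
    rcases Nat.lt_or_ge (i + j) 2 with h2 | h2
    · have : (i = 0 ∧ j = 0) ∨ (i = 0 ∧ j = 1) ∨ (i = 1 ∧ j = 0) := by omega
      rcases this with ⟨rfl, rfl⟩ | ⟨rfl, rfl⟩ | ⟨rfl, rfl⟩
      · apply hno
        intro x y
        have e1 : ∀ n, (x : WithOne A.carrier) * y = (x : WithOne A.carrier) ^ (n + 1) * y := by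
          intro n
          induction n with
          | zero => simp
          | succ n ih =>
            have := E x y
            rw [zero_add, pow_one, pow_one] at this
            rw [pow_succ', mul_assoc, ← ih, ← mul_assoc, ← pow_two, this]
        obtain ⟨n, hn⟩ := h.nil x
        rw [E x y, zero_add, pow_one, pow_one, e1 n, ← coe_pw, hn, h.mul_left]
      · apply hab
        apply coe_inj'
        have := E a b
        rw [zero_add, pow_one] at this
        rw [WithOne.coe_mul, WithOne.coe_mul, WithOne.coe_mul, WithOne.coe_mul, ← mul_assoc,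
          ← pow_two, ← pow_two]
        exact this
      · apply hperm
        exact hlp
    · obtain ⟨d, hd⟩ := Nat.exists_eq_add_of_le h2
      have hcube : ∀ x : A, (x : WithOne A.carrier) ^ (2 + 1) = o := by
        intro x
        apply h.pow (k := 2) (d := d)
        have := E x x
        rw [← pow_succ, ← pow_add] at this
        rw [this]
        congr 1
        omega
      have hcube' : ∀ (x : A) (n : ℕ), (x : WithOne A.carrier) ^ (2 + 1 + n) = o := by
        intro x n
        rw [pow_add, hcube, h.mul_left]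
      apply hno
      intro x y
      by_cases hi2 : 2 ≤ i
      · obtain ⟨n, rfl⟩ := Nat.exists_eq_add_of_le hi2
        rw [E x y, show 2 + n + 1 = 2 + 1 + n by ring, hcube', h.mul_left]
      · by_cases hj2 : 2 ≤ j
        · obtain ⟨n, rfl⟩ := Nat.exists_eq_add_of_le hj2
          rw [E x y, show 2 + n + 1 = 2 + 1 + n by ring, hcube', h.mul_right]
        · have hi1 : i = 1 := by omega
          have hj1 : j = 1 := by omega
          subst hi1 hj1
          have e := E x y
          calc (x : WithOne A.carrier) ^ 2 * y = x ^ 2 * y ^ 2 := e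
            _ = x ^ 2 * y * y := by rw [pow_two (y : WithOne A.carrier), mul_assoc]
            _ = x ^ 2 * y ^ 2 * y := by rw [e]
            _ = x ^ 2 * y ^ (2 + 1) := by rw [mul_assoc, ← pow_succ]
            _ = o := by rw [hcube, h.mul_right]

end

/-- Nil members of commutative upper-modular varieties satisfy `x x y = x y y`. -/
theorem comm_case {V : EpiVar} (hV : UpperModular V)
    (hc : V.sat (.m (.v 0) (.v 1), .m (.v 1) (.v 0))) {A : USg} (hA : V.mem A) {o : A}
    (ho : NilZ A o) (a b : A) : a * (a * b) = a * (b * b) := by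
  by_contra hab
  have hcomm : ∀ B, V.mem B → ∀ x y : B, x * y = y * x := fun B hB x y => hc B hB (as2 x y)
  have hD : V.mem (SC [0, 0, 1]) := by
    apply SC_mem
    intro u' w hu' hw
    have hlen : u'.length = 3 := hu'.length_eq
    have hu0 : u' ≠ [] := by rintro rfl; simp at hlen
    have h1 : V.sat (wt [0, 0, 1], w) := V.sat_trans
      (fun B hB => sat_perm (hcomm B hB) (by simp) hu'.symm) hw
    exact ho.xxy (hcomm A hA) (h1 A hA) hab
  have hD1 : V.mem D1 := V.mem_dv dv_D1_D0
    (V.mem_prod (V.mem_dv dv_D0_SC hD) (V.mem_dv dv_D0_SC hD))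
  have hfin : Sat (SC [0, 0, 1]) (wt [0, 0, 1], wt [0, 1, 1]) := by
    refine UM hV hD (Y := gen D1 2 drz_D1) (Z := Lv 2) (gen_le hD1)
      (fun p h1 h2 => SC_mem_join p h1 h2) (gen_sat.2 D1_sat) ?_
    intro B hB
    rw [sat_word_iff (by simp) (by simp)]
    intro φ
    rw [← LvE_abs hB.1 φ (l := [0, 0, 1]) rfl [0, 1, 1],
      W_perm (hcomm B hB.2) φ (List.perm_append_comm (l₁ := [0, 0, 1]) (l₂ := [0, 1, 1])),
      LvE_abs hB.1 φ (l := [0, 1, 1]) rfl [0, 0, 1]]
  obtain ⟨l, hl1, hl2⟩ := SC_sat (by simp) hfin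
  rw [nb_wt (by simp)] at hl1
  obtain rfl := Option.some.inj hl1
  exact absurd hl2 (by decide)

/-- Nil members of upper-modular varieties satisfy `x y = y x` and `x x y = x y y`. -/
theorem nil_main {V : EpiVar} (hV : UpperModular V) {A : USg} (hA : V.mem A) (hN : IsNil A)
    (a b : A) : a * b = b * a ∧ a * (a * b) = a * (b * b) := by
  obtain ⟨o, ho⟩ := nilZ_of hA hN
  rcases nil_cases (SX_notMem hV) with h | h
  · exact ⟨h A hA (as2 a b), comm_case hV h hA ho a b⟩
  · have h1 := h A hA o ho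
    exact ⟨by rw [h1, h1], by rw [h1, h1]⟩

end Pool.Agent.H399.Epi
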