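import Mathlib

/-!
# The lattice of epigroup varieties

Unary semigroups, identities, epigroup varieties and their lattice; upper-modular and codistributive
elements.
-/

namespace Pool.Agent.H399.Epi

/-- A unary semigroup: a nonempty carrier with an associative multiplication and a unary
operation `bar`. -/
structure USg where
  carrier : Type
  sg : Semigroup carrier
  ne : Nonempty carrier
  bar : carrier → carrier

instance : CoeSort USg Type := ⟨USg.carrier⟩

instance instSg (A : USg) : Semigroup A.carrier := A.sg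

instance instNe (A : USg) : Nonempty A.carrier := A.ne

/-- `pw x n` is the power `x ^ (n + 1)` in a semigroup. -/
def pw {S : Type} [Semigroup S] (x : S) : ℕ → S
  | 0 => x
  | n + 1 => pw x n * x

/-- `e` is idempotent and `a`, `b` are mutually inverse elements of the maximal subgroup with
identity `e`.  (The maximal subgroup with identity `e` is the set of all `a` such that
`MutInv e a b` holds for some `b`.) -/
def MutInv {S : Type} [Semigroup S] (e a b : S) : Prop :=
  e * e = e ∧ e * a = a ∧ a * e = a ∧ e * b = b ∧ b * e = b ∧ a * b = e ∧ b * a = e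

/-- `A` is an epigroup and `bar` is its pseudoinversion: for every `x` some power `x ^ (n + 1)` lies
in the maximal subgroup with identity `e`, and `bar x` is the inverse of `x * e` in this
subgroup. -/
def IsEpi (A : USg) : Prop :=
  ∀ x : A, ∃ (e : A) (n : ℕ), (∃ b, MutInv e (pw x n) b) ∧ MutInv e (x * e) (A.bar x)

/-- Terms in the signature (multiplication, `bar`) over the variables `v 0, v 1, ...`. -/
inductive Tm where
  | v (n : ℕ) : Tm
  | m (s t : Tm) : Tm
  | b (t : Tm) : Tm

/-- The value of a term under an assignment. -/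
def ev (A : USg) (φ : ℕ → A) : Tm → A
  | .v n => φ n
  | .m s t => ev A φ s * ev A φ t
  | .b t => A.bar (ev A φ t)

/-- `A` satisfies the identity `p.1 = p.2`. -/
def Sat (A : USg) (p : Tm × Tm) : Prop := ∀ φ : ℕ → A, ev A φ p.1 = ev A φ p.2

/-- An epigroup variety: a class of unary semigroups defined by a set of identities, all of whose
members are epigroups with `bar` as pseudoinversion. -/
structure EpiVar where
  mem : USg → Prop
  eqn : ∃ E : Set (Tm × Tm), ∀ A, mem A ↔ ∀ p ∈ E, Sat A p
  epi : ∀ A, mem A → IsEpi A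

theorem EpiVar.ext' {V W : EpiVar} (h : ∀ A, V.mem A ↔ W.mem A) : V = W := by
  have h1 : V.mem = W.mem := funext fun A => propext (h A)
  cases V; cases W
  simp only at h1
  subst h1
  rfl

/-- Varieties are ordered by inclusion. -/
instance : PartialOrder EpiVar where
  le V W := ∀ A, V.mem A → W.mem A
  le_refl _ _ h := h
  le_trans _ _ _ h1 h2 A h := h2 A (h1 A h)
  le_antisymm _ _ h1 h2 := EpiVar.ext' fun A => ⟨h1 A, h2 A⟩

/-! ## Epigroups in terms of the laws of the Drazin inverse -/

section Drazin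

variable {S : Type} [Semigroup S]

theorem pw_succ (x : S) (n : ℕ) : pw x (n + 1) = pw x n * x := rfl

theorem pw_succ' (x : S) (n : ℕ) : pw x (n + 1) = x * pw x n := by
  induction n with
  | zero => rfl
  | succ n ih => rw [pw_succ, ih, mul_assoc, ← pw_succ x n, ih]

theorem pw_comm_of {x y : S} (h : x * y = y * x) (n : ℕ) : pw x n * y = y * pw x n := by
  induction n with
  | zero => exact h
  | succ n ih => rw [pw_succ, mul_assoc, h, ← mul_assoc, ih, mul_assoc]

theorem pw_comm (x : S) (n : ℕ) : pw x n * x = x * pw x n := pw_comm_of rfl n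

theorem pw_add (x : S) (m n : ℕ) : pw x (m + n + 1) = pw x m * pw x n := by
  induction n with
  | zero => rfl
  | succ n ih => 
    rw [show m + (n + 1) + 1 = (m + n + 1) + 1 by ring, pw_succ, ih, mul_assoc]
    rfl

/-- `y` is a Drazin inverse of `x`, of index at most `n + 1`. -/
def Drz (n : ℕ) (x y : S) : Prop :=
  x * y = y * x ∧ y * x * y = y ∧ pw x n * x * y = pw x n

theorem Drz.mono {n m : ℕ} {x y : S} (h : Drz n x y) (hnm : n ≤ m) : Drz m x y := by
  refine ⟨h.1, h.2.1, ?_⟩
  obtain ⟨k, rfl⟩ := Nat.exists_eq_add_of_le hnm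
  clear hnm
  induction k with
  | zero => exact h.2.2
  | succ k ih =>
    rw [← Nat.add_assoc, pw_succ' x (n + k), mul_assoc x, mul_assoc x, ih]

theorem drz_of_mutInv {x y e b : S} {n : ℕ} (h1 : MutInv e (pw x n) b) (h2 : MutInv e (x * e) y) :
    Drz n x y ∧ x * y = e := by
  obtain ⟨he, h3, h4, h5, h6, h7, h8⟩ := h1
  obtain ⟨-, g3, g4, g5, g6, g7, g8⟩ := h2
  -- x commutes with e
  have hx1 : e * x * e = e * x := by
    have : e * x = b * x * pw x n := by
      rw [← h8, mul_assoc, pw_comm, ← mul_assoc]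
    rw [this, mul_assoc, h4]
  have hx2 : e * x * e = x * e := by
    rw [mul_assoc]; exact g3
  have hxe : x * e = e * x := by rw [← hx2, hx1]
  have hxy : x * y = e := by
    rw [← g7, mul_assoc, g5]
  have hyx : y * x = e := by
    rw [← g6, mul_assoc, ← hxe]; exact g8
  refine ⟨⟨by rw [hxy, hyx], by rw [hyx, g5], ?_⟩, hxy⟩
  rw [mul_assoc, hxy, h4]

theorem mutInv_of_drz {x y : S} {n : ℕ} (h : Drz n x y) :
    MutInv (x * y) (pw x n) (pw y n) ∧ MutInv (x * y) (x * (x * y)) y := by
  obtain ⟨h1, h2, h3⟩ := h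
  have he : x * y * (x * y) = x * y := by
    rw [mul_assoc, ← mul_assoc y x y, h2]
  have hpx : pw x n * (x * y) = pw x n := by rw [← mul_assoc, h3]
  have hyxy : x * y * y = y := by rw [h1, h2]
  have hyyx : y * (x * y) = y := by rw [← mul_assoc, h2]
  have hc : x * y * x = x * (x * y) := by rw [mul_assoc, ← h1]
  have hpp : ∀ k, pw x k * pw y k = x * y := by
    intro k
    induction k with
    | zero => rfl
    | succ k ih =>
      rw [pw_succ', pw_succ y k]
      calc x * pw x k * (pw y k * y) = x * (pw x k * pw y k) * y := by simp only [mul_assoc]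
        _ = x * (x * y) * y := by rw [ih]
        _ = x * (x * y * y) := by rw [mul_assoc]
        _ = x * y := by rw [hyxy]
  have hpp' : ∀ k, pw y k * pw x k = x * y := by
    intro k
    induction k with
    | zero => exact h1.symm
    | succ k ih =>
      rw [pw_succ', pw_succ x k]
      calc y * pw y k * (pw x k * x) = y * (pw y k * pw x k) * x := by simp only [mul_assoc]
        _ = y * (x * y) * x := by rw [ih]
        _ = y * x := by rw [hyyx]
        _ = x * y := h1.symm
  have hey : ∀ k, x * y * pw y k = pw y k := by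
    intro k
    induction k with
    | zero => exact hyxy
    | succ k ih => rw [pw_succ, ← mul_assoc, ih]
  have hye : ∀ k, pw y k * (x * y) = pw y k := by
    intro k
    induction k with
    | zero => exact hyyx
    | succ k ih => rw [pw_succ, mul_assoc, hyyx]
  refine ⟨⟨he, ?_, hpx, hey n, hye n, hpp n, hpp' n⟩, ⟨he, ?_, ?_, hyxy, hyyx, ?_, ?_⟩⟩
  · rw [← pw_comm_of (x := x) (y := x * y) (by rw [hc]) n]; exact hpx
  · rw [← mul_assoc, hc, mul_assoc, he]
  · rw [mul_assoc, he]
  · rw [mul_assoc, hyxy]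
  · rw [← mul_assoc, ← h1, he]

end Drazin

/-- All elements of `A` satisfy the Drazin laws with index at most `n + 1`. -/
def DrzA (n : ℕ) (A : USg) : Prop := ∀ x : A, Drz n x (A.bar x)

theorem DrzA.mono {n m : ℕ} {A : USg} (h : DrzA n A) (hnm : n ≤ m) : DrzA m A :=
  fun x => (h x).mono hnm

theorem DrzA.isEpi {n : ℕ} {A : USg} (h : DrzA n A) : IsEpi A := fun x => by
  obtain ⟨h1, h2⟩ := mutInv_of_drz (h x)
  exact ⟨_, n, ⟨_, h1⟩, h2⟩

theorem IsEpi.drz {A : USg} (h : IsEpi A) (x : A) : ∃ n, Drz n x (A.bar x) := by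
  obtain ⟨e, n, ⟨b, h1⟩, h2⟩ := h x
  exact ⟨n, (drz_of_mutInv h1 h2).1⟩

/-! ## Direct products -/

/-- The direct product of a sequence of unary semigroups. -/
def pi (A : ℕ → USg) : USg where
  carrier := ∀ i, A i
  sg := inferInstance
  ne := inferInstance
  bar x i := (A i).bar (x i)

theorem ev_pi (A : ℕ → USg) (φ : ℕ → pi A) (t : Tm) (i : ℕ) :
    (ev (pi A) φ t) i = ev (A i) (fun n => φ n i) t := by
  induction t with
  | v n => rfl
  | m s t h1 h2 => 
    show (ev (pi A) φ s) i * (ev (pi A) φ t) i = _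
    rw [h1, h2]; rfl
  | b t h => 
    show (A i).bar ((ev (pi A) φ t) i) = _
    rw [h]; rfl

theorem pw_pi (A : ℕ → USg) (x : pi A) (n i : ℕ) : (pw x n) i = pw (x i) n := by
  induction n with
  | zero => rfl
  | succ n ih => 
    show (pw x n) i * x i = _
    rw [ih]; rfl

theorem EpiVar.mem_pi (V : EpiVar) {A : ℕ → USg} (h : ∀ i, V.mem (A i)) : V.mem (pi A) := by
  obtain ⟨E, hE⟩ := V.eqn
  rw [hE]
  intro p hp φ
  funext i
  rw [ev_pi, ev_pi]
  exact (hE (A i)).1 (h i) p hp _

/-- The members of an epigroup variety have bounded index. -/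
theorem EpiVar.index (V : EpiVar) : ∃ n, ∀ A, V.mem A → DrzA n A := by
  by_contra hcon
  push Not at hcon
  choose A hA hA' using hcon
  have h1 := V.epi _ (V.mem_pi hA)
  have h2 : ∀ n, ∃ x : A n, ¬ Drz n x ((A n).bar x) := fun n => by
    have := hA' n
    unfold DrzA at this
    push Not at this
    exact this
  choose x hx using h2
  obtain ⟨n, hn⟩ := h1.drz x
  apply hx n
  refine ⟨congrFun hn.1 n, congrFun hn.2.1 n, ?_⟩
  have := congrFun hn.2.2 n
  rw [← pw_pi A x n n]
  exact this

/-! ## The lattice of epigroup varieties -/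

/-- `V` satisfies the identity `p`. -/
def EpiVar.sat (V : EpiVar) (p : Tm × Tm) : Prop := ∀ A, V.mem A → Sat A p

theorem EpiVar.mem_iff (V : EpiVar) (A : USg) : V.mem A ↔ ∀ p, V.sat p → Sat A p := by
  constructor
  · intro h p hp
    exact hp A h
  · intro h
    obtain ⟨E, hE⟩ := V.eqn
    rw [hE]
    intro p hp
    exact h p fun B hB => (hE B).1 hB p hp

/-- The term `x_0 ^ (n + 1)`. -/
def tpw : ℕ → Tm
  | 0 => .v 0
  | n + 1 => .m (tpw n) (.v 0)

theorem ev_tpw (A : USg) (φ : ℕ → A) (n : ℕ) : ev A φ (tpw n) = pw (φ 0) n := by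
  induction n with
  | zero => rfl
  | succ n ih => 
    show ev A φ (tpw n) * φ 0 = _
    rw [ih]; rfl

/-- The three identities expressing `DrzA n`. -/
def drzId (n : ℕ) : Set (Tm × Tm) :=
  {(.m (.v 0) (.b (.v 0)), .m (.b (.v 0)) (.v 0)),
    (.m (.m (.b (.v 0)) (.v 0)) (.b (.v 0)), .b (.v 0)),
    (.m (.m (tpw n) (.v 0)) (.b (.v 0)), tpw n)}

theorem drzA_iff (n : ℕ) (A : USg) : DrzA n A ↔ ∀ p ∈ drzId n, Sat A p := by
  constructor
  · intro h p hp φ
    simp only [drzId, Set.mem_insert_iff, Set.mem_singleton_iff] at hp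
    rcases hp with rfl | rfl | rfl
    · exact (h (φ 0)).1
    · exact (h (φ 0)).2.1
    · show ev A φ (tpw n) * φ 0 * A.bar (φ 0) = ev A φ (tpw n)
      rw [ev_tpw]
      exact (h (φ 0)).2.2
  · intro h x
    refine ⟨h _ (Or.inl rfl) (fun _ => x), h _ (Or.inr (Or.inl rfl)) (fun _ => x), ?_⟩
    have := h _ (Or.inr (Or.inr rfl)) (fun _ => x)
    change ev A _ (tpw n) * x * A.bar x = ev A _ (tpw n) at this
    rw [ev_tpw] at this
    exact this

/-- The epigroup variety defined by a set of identities implying bounded index. -/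
def mkVar (E : Set (Tm × Tm)) (n : ℕ) (h : ∀ A, (∀ p ∈ E, Sat A p) → DrzA n A) : EpiVar where
  mem A := ∀ p ∈ E, Sat A p
  eqn := ⟨E, fun _ => Iff.rfl⟩
  epi A hA := (h A hA).isEpi

/-- The join of two epigroup varieties: all models of the common identities. -/
def EpiVar.sup (V W : EpiVar) : EpiVar where
  mem A := ∀ p, V.sat p → W.sat p → Sat A p
  eqn := ⟨{p | V.sat p ∧ W.sat p}, fun A => ⟨fun h p hp => h p hp.1 hp.2,
    fun h p h1 h2 => h p ⟨h1, h2⟩⟩⟩
  epi A hA := by
    obtain ⟨n, hn⟩ := V.index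
    obtain ⟨m, hm⟩ := W.index
    have : DrzA (max n m) A := by
      rw [drzA_iff]
      intro p hp
      apply hA
      · intro B hB
        exact (drzA_iff _ _).1 ((hn B hB).mono (le_max_left _ _)) p hp
      · intro B hB
        exact (drzA_iff _ _).1 ((hm B hB).mono (le_max_right _ _)) p hp
    exact this.isEpi

/-- The meet of two epigroup varieties: the intersection. -/
def EpiVar.inf (V W : EpiVar) : EpiVar where
  mem A := V.mem A ∧ W.mem A
  eqn := by
    obtain ⟨E, hE⟩ := V.eqn
    obtain ⟨F, hF⟩ := W.eqn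
    refine ⟨E ∪ F, fun A => ?_⟩
    rw [hE, hF]
    constructor
    · rintro ⟨h1, h2⟩ p (hp | hp)
      · exact h1 p hp
      · exact h2 p hp
    · intro h
      exact ⟨fun p hp => h p (Or.inl hp), fun p hp => h p (Or.inr hp)⟩
  epi A hA := V.epi A hA.1

/-- The lattice **EPI** of epigroup varieties, ordered by inclusion. -/
instance : Lattice EpiVar where
  sup := EpiVar.sup
  inf := EpiVar.inf
  le_sup_left V W A h p hp _ := hp A h
  le_sup_right V W A h p _ hp := hp A h
  sup_le V W U h1 h2 A h := by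
    rw [U.mem_iff]
    intro p hp
    exact h p (fun B hB => hp B (h1 B hB)) (fun B hB => hp B (h2 B hB))
  inf_le_left _ _ _ h := h.1
  inf_le_right _ _ _ h := h.2
  le_inf _ _ _ h1 h2 A h := ⟨h1 A h, h2 A h⟩

/-- Upper-modular elements of a lattice. -/
def UpperModular {L : Type*} [Lattice L] (x : L) : Prop :=
  ∀ y z : L, y ≤ x → (z ⊔ y) ⊓ x = (z ⊓ x) ⊔ y

/-- Codistributive elements of a lattice. -/
def Codistributive {L : Type*} [Lattice L] (x : L) : Prop :=
  ∀ y z : L, x ⊓ (y ⊔ z) = (x ⊓ y) ⊔ (x ⊓ z)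

/-- `A` is a nil-semigroup: it has a zero `o` and every element has a power equal to `o`. -/
def IsNil (A : USg) : Prop :=
  ∃ o : A, (∀ x : A, o * x = o ∧ x * o = o) ∧ ∀ x : A, ∃ n, pw x n = o

/-- The square `A ^ 2` of `A`: the set of all products of two elements. -/
def sq (A : USg) : Set A := {x | ∃ s t : A, x = s * t}

/-- `G` is a subgroup of the semigroup `A`: a subset which is closed under multiplication and is a
group under it. -/
def IsSubgp (A : USg) (G : Set A) : Prop :=
  ∃ e ∈ G, (∀ x ∈ G, e * x = x ∧ x * e = x) ∧ (∀ x ∈ G, ∀ y ∈ G, x * y ∈ G) ∧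
    ∀ x ∈ G, ∃ y ∈ G, x * y = e ∧ y * x = e

/-- The square of `A` is completely regular: every element of `A ^ 2` lies in a subgroup of the
semigroup `A ^ 2`, that is, in a subgroup of `A` contained in `A ^ 2`. -/
def CompletelyRegularSq (A : USg) : Prop :=
  ∀ x ∈ sq A, ∃ G : Set A, IsSubgp A G ∧ x ∈ G ∧ G ⊆ sq A

end Pool.Agent.H399.Epi
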