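import Pool.Agent.H399.EpiSmall

/-!
# Structural facts: excluding small epigroups
-/

namespace Pool.Agent.H399.Epi

theorem drz_LZ : DrzA 1 LZ := by
  have : ∀ x : Bool, x = x ∧ x = x ∧ x = x := by decide
  exact fun x => this x

theorem drz_RZ : DrzA 1 RZ := by
  have : ∀ x : Bool, x = x ∧ x = x ∧ x = x := by decide
  exact fun x => this x

theorem drz_NN : DrzA 1 NN := by
  have : ∀ x : Fin 3, NM x (![0, 2, 2] x) = NM (![0, 2, 2] x) x ∧
      NM (NM (![0, 2, 2] x) x) (![0, 2, 2] x) = ![0, 2, 2] x ∧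
      NM (NM (NM x x) x) (![0, 2, 2] x) = NM x x := by decide
  exact fun x => this x

theorem drz_PP : DrzA 1 PP := by
  have : ∀ x : Fin 3, PM x (![0, 2, 2] x) = PM (![0, 2, 2] x) x ∧
      PM (PM (![0, 2, 2] x) x) (![0, 2, 2] x) = ![0, 2, 2] x ∧
      PM (PM (PM x x) x) (![0, 2, 2] x) = PM x x := by decide
  exact fun x => this x

theorem drz_PD : DrzA 1 PD := by
  have : ∀ x : Fin 3, PM (![0, 2, 2] x) x = PM x (![0, 2, 2] x) ∧
      PM (![0, 2, 2] x) (PM x (![0, 2, 2] x)) = ![0, 2, 2] x ∧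
      PM (![0, 2, 2] x) (PM x (PM x x)) = PM x x := by decide
  exact fun x => this x

theorem drz_C0 : DrzA 1 C0 := by
  have : ∀ x : Fin 4, CM x 3 = CM 3 x ∧
      CM (CM 3 x) 3 = 3 ∧
      CM (CM (CM x x) x) 3 = CM x x := by decide
  exact fun x => this x

/-- Being a group element. -/
def Gr (A : USg) (z : A) : Prop := z * A.bar z * z = z

section

variable {S : Type} [Semigroup S]

theorem gr_of {n : ℕ} {z y r : S} (h : Drz n z y) (hz : z = z * z * r) : z * y * z = z := by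
  have key : ∀ k, ∃ s, z = pw z k * s := by
    intro k
    induction k with
    | zero => exact ⟨z * r, by rw [← mul_assoc]; exact hz⟩
    | succ k ih =>
      obtain ⟨s, hs⟩ := ih
      refine ⟨s * r, ?_⟩
      calc z = z * z * r := hz
        _ = z * (pw z k * s) * r := by rw [← hs]
        _ = z * pw z k * (s * r) := by simp only [mul_assoc]
        _ = pw z (k + 1) * (s * r) := by rw [← pw_succ']
  obtain ⟨s, hs⟩ := key n
  obtain ⟨h1, h2, h3⟩ := h
  have e1 : z * y * pw z n = pw z n := by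
    rw [← pw_comm_of (x := z) (y := z * y) (by rw [mul_assoc, ← h1]) n, ← mul_assoc]
    exact h3
  calc z * y * z = z * y * (pw z n * s) := by rw [← hs]
    _ = z * y * pw z n * s := by simp only [mul_assoc]
    _ = z := by rw [e1, ← hs]

theorem gr_of' {n : ℕ} {z y : S} (h : Drz n z y) (hz : z = z * z) : z * y * z = z :=
  gr_of h (r := z) (by rw [← hz, ← hz])

theorem bar_idem {n : ℕ} {e y : S} (h : Drz n e y) (he : e * e = e) : y = e := by
  obtain ⟨h1, h2, h3⟩ := h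
  have e1 : pw e n = e := by
    clear h3
    induction n with
    | zero => rfl
    | succ n ih => rw [pw_succ, ih, he]
  rw [e1, he] at h3
  calc y = y * e * y := h2.symm
    _ = y * (e * y) := by rw [mul_assoc]
    _ = e := by rw [h3, ← h1, h3]

theorem bar_left {n : ℕ} {x y : S} (h : Drz n x y) : y = x * (y * y) := by
  rw [← mul_assoc, h.1]; exact h.2.1.symm

theorem bar_left2 {n : ℕ} {x y : S} (h : Drz n x y) : y = x * x * (y * y * y) := by
  have h1 := h.1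
  calc y = x * (y * y) := bar_left h
    _ = x * (x * (y * y) * y) := congrArg (fun t => x * (t * y)) (bar_left h)
    _ = x * x * (y * y * y) := by simp only [mul_assoc]

end

/-- The subalgebra generated by a set. -/
inductive Cl (A : USg) (X : A → Prop) : A → Prop
  | base {a : A} (h : X a) : Cl A X a
  | mul {a b : A} (ha : Cl A X a) (hb : Cl A X b) : Cl A X (a * b)
  | bar {a : A} (ha : Cl A X a) : Cl A X (A.bar a)

theorem dvPP_of {n : ℕ} {A : USg} (hA : DrzA n A) {E g : A} (hE : E * E = E) (hg : E * g = g)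
    (h1 : g ≠ g * E) (h2 : g ≠ g * g) (h3 : ∀ r, g ≠ g * g * r) : Dv PP A := by
  set X : A → Prop := fun t => t = E ∨ t = g with hX
  have hcE : Cl A X E := Cl.base (Or.inl rfl)
  have hcg : Cl A X g := Cl.base (Or.inr rfl)
  have hbE : A.bar E = E := bar_idem (hA E) hE
  have cases : ∀ t, Cl A X t → t = E ∨ t = g ∨ ∃ s, Cl A X s ∧ t = g * s := by
    intro t ht
    induction ht with
    | base h => 
      rcases h with h | h
      · exact Or.inl h
      · exact Or.inr (Or.inl h)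
    | @mul a b ha hb iha ihb =>
      rcases iha with rfl | rfl | ⟨s, hs, rfl⟩
      · rcases ihb with rfl | rfl | ⟨s, hs, rfl⟩
        · exact Or.inl hE
        · exact Or.inr (Or.inl hg)
        · exact Or.inr (Or.inr ⟨s, hs, by rw [← mul_assoc, hg]⟩)
      · exact Or.inr (Or.inr ⟨b, hb, rfl⟩)
      · exact Or.inr (Or.inr ⟨s * b, hs.mul hb, by rw [mul_assoc]⟩)
    | @bar a ha iha =>
      rcases iha with rfl | rfl | ⟨s, hs, rfl⟩
      · exact Or.inl hbE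
      · exact Or.inr (Or.inr ⟨_, ha.bar.mul ha.bar, bar_left (hA _)⟩)
      · refine Or.inr (Or.inr ⟨s * (A.bar (g * s) * A.bar (g * s)), hs.mul (ha.bar.mul ha.bar), ?_⟩)
        rw [← mul_assoc]
        exact bar_left (hA _)
  have K1 : ∀ s, Cl A X s → g ≠ g * s := by
    intro s hs
    rcases cases s hs with rfl | rfl | ⟨s', hs', rfl⟩
    · exact h1
    · exact h2
    · rw [← mul_assoc]; exact h3 s'
  have K2 : E ≠ g := by
    intro h
    apply K1 E hcE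
    rw [← h, hE]
  have K3 : ∀ s, Cl A X s → E ≠ g * s := by
    intro s hs h
    apply K1 (s * g) (hs.mul hcg)
    rw [← mul_assoc, ← h, hg]
  refine ⟨fun t x => Cl A X t ∧ ((x = (0 : Fin 3) ∧ t = E) ∨ (x = (1 : Fin 3) ∧ t = g) ∨
    (x = (2 : Fin 3) ∧ ∃ s, Cl A X s ∧ t = g * s)), ?_, ?_, ?_, ?_⟩
  · rintro a x y ⟨-, hx⟩ ⟨-, hy⟩
    rcases hx with ⟨rfl, rfl⟩ | ⟨rfl, rfl⟩ | ⟨rfl, s, hs, rfl⟩
    · rcases hy with ⟨rfl, -⟩ | ⟨rfl, h⟩ | ⟨rfl, s, hs, h⟩
      · rfl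
      · exact absurd h K2
      · exact absurd h (K3 s hs)
    · rcases hy with ⟨rfl, h⟩ | ⟨rfl, h⟩ | ⟨rfl, s, hs, h⟩
      · exact absurd h.symm K2
      · rfl
      · exact absurd h (K1 s hs)
    · rcases hy with ⟨rfl, h⟩ | ⟨rfl, h⟩ | ⟨rfl, -⟩
      · exact absurd h.symm (K3 s hs)
      · exact absurd h.symm (K1 s hs)
      · rfl
  · rintro a b x y ⟨ha, hx⟩ ⟨hb, hy⟩
    refine ⟨ha.mul hb, ?_⟩
    rcases hx with ⟨rfl, rfl⟩ | ⟨rfl, rfl⟩ | ⟨rfl, s, hs, rfl⟩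
    · rcases hy with ⟨rfl, rfl⟩ | ⟨rfl, rfl⟩ | ⟨rfl, s, hs, rfl⟩
      · exact Or.inl ⟨rfl, hE⟩
      · exact Or.inr (Or.inl ⟨rfl, hg⟩)
      · exact Or.inr (Or.inr ⟨rfl, s, hs, by rw [← mul_assoc, hg]⟩)
    · refine Or.inr (Or.inr ⟨?_, b, hb, rfl⟩)
      have : ∀ y : Fin 3, PM 1 y = 2 := by decide
      exact this y
    · refine Or.inr (Or.inr ⟨?_, s * b, hs.mul hb, by rw [mul_assoc]⟩)
      have : ∀ y : Fin 3, PM 2 y = 2 := by decide
      exact this y
  · rintro a x ⟨ha, hx⟩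
    refine ⟨ha.bar, ?_⟩
    rcases hx with ⟨rfl, rfl⟩ | ⟨rfl, rfl⟩ | ⟨rfl, s, hs, rfl⟩
    · exact Or.inl ⟨rfl, hbE⟩
    · exact Or.inr (Or.inr ⟨rfl, _, ha.bar.mul ha.bar, bar_left (hA _)⟩)
    · refine Or.inr (Or.inr ⟨rfl, s * (A.bar (g * s) * A.bar (g * s)),
        hs.mul (ha.bar.mul ha.bar), ?_⟩)
      rw [← mul_assoc]
      exact bar_left (hA _)
  · intro x
    have : ∀ x : Fin 3, x = 0 ∨ x = 1 ∨ x = 2 := by decide
    rcases this x with rfl | rfl | rfl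
    · exact ⟨E, hcE, Or.inl ⟨rfl, rfl⟩⟩
    · exact ⟨g, hcg, Or.inr (Or.inl ⟨rfl, rfl⟩)⟩
    · exact ⟨g * g, hcg.mul hcg, Or.inr (Or.inr ⟨rfl, g, hcg, rfl⟩)⟩

/-- Fact (c). -/
theorem p_or {V : EpiVar} (hP : ¬ V.mem PP) :
    (∀ A, V.mem A → ∀ e y : A, e * e = e → e * y = e * y * e) ∨
      (∀ A, V.mem A → ∀ e y : A, e * e = e → Gr A (e * y)) := by
  by_contra hcon
  push Not at hcon
  obtain ⟨⟨A₁, hA₁, e, y, he, hey⟩, ⟨A₂, hA₂, f, z, hf, hfz⟩⟩ := hcon
  apply hP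
  obtain ⟨n, hn⟩ := V.index
  have hA := V.mem_prod hA₁ hA₂
  refine V.mem_dv (dvPP_of (hn _ hA) (E := (e, f)) (g := (e * y, f * z)) ?_ ?_ ?_ ?_ ?_) hA
  · exact Prod.ext he hf
  · exact Prod.ext (by show e * (e * y) = e * y; rw [← mul_assoc, he])
      (by show f * (f * z) = f * z; rw [← mul_assoc, hf])
  · intro h
    exact hey (congrArg Prod.fst h)
  · intro h
    exact hfz (gr_of' (hn _ hA₂ _) (congrArg Prod.snd h))
  · intro r h
    exact hfz (gr_of (hn _ hA₂ _) (r := r.2) (congrArg Prod.snd h))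

/-- Fact (d). -/
theorem n_gr {V : EpiVar} (hN : ¬ V.mem NN) :
    ∀ A, V.mem A → ∀ e y : A, e * e = e → Gr A (e * y * e) := by
  intro A hA e y he
  by_contra hG
  apply hN
  obtain ⟨n, hn⟩ := V.index
  have hA' := hn _ hA
  obtain ⟨z, hz⟩ : ∃ z, z = e * y * e := ⟨_, rfl⟩
  rw [← hz] at hG
  have hez : e * z = z := by rw [hz, ← mul_assoc, ← mul_assoc, he]
  have hze : z * e = z := by rw [hz, mul_assoc, he]
  have h2 : z ≠ z * z := fun h => hG (gr_of' (hA' _) h)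
  have h3 : ∀ r, z ≠ z * z * r := fun r h => hG (gr_of (hA' _) h)
  have hbe : A.bar e = e := bar_idem (hA' e) he
  have K2 : e ≠ z := by
    intro h; apply h2; rw [← h, he]
  have K3 : ∀ s, e ≠ z * z * s := by
    intro s h
    apply h3 (s * z)
    rw [← mul_assoc, ← h, hez]
  refine V.mem_dv ⟨fun t x => (x = (0 : Fin 3) ∧ t = e) ∨ (x = (1 : Fin 3) ∧ t = z) ∨
    (x = (2 : Fin 3) ∧ ∃ s, t = z * z * s), ?_, ?_, ?_, ?_⟩ hA
  · rintro a x y hx hy
    rcases hx with ⟨rfl, rfl⟩ | ⟨rfl, rfl⟩ | ⟨rfl, s, rfl⟩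
    · rcases hy with ⟨rfl, -⟩ | ⟨rfl, h⟩ | ⟨rfl, s, h⟩
      · rfl
      · exact absurd h K2
      · exact absurd h (K3 s)
    · rcases hy with ⟨rfl, h⟩ | ⟨rfl, h⟩ | ⟨rfl, s, h⟩
      · exact absurd h.symm K2
      · rfl
      · exact absurd h (h3 s)
    · rcases hy with ⟨rfl, h⟩ | ⟨rfl, h⟩ | ⟨rfl, -⟩
      · exact absurd h.symm (K3 s)
      · exact absurd h.symm (h3 s)
      · rfl
  · rintro a b x y hx hy
    rcases hx with ⟨rfl, rfl⟩ | ⟨rfl, rfl⟩ | ⟨rfl, s, rfl⟩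
    · rcases hy with ⟨rfl, rfl⟩ | ⟨rfl, rfl⟩ | ⟨rfl, s, rfl⟩
      · exact Or.inl ⟨rfl, he⟩
      · exact Or.inr (Or.inl ⟨rfl, hez⟩)
      · exact Or.inr (Or.inr ⟨rfl, s, by rw [← mul_assoc, ← mul_assoc, hez]⟩)
    · rcases hy with ⟨rfl, rfl⟩ | ⟨rfl, rfl⟩ | ⟨rfl, s, rfl⟩
      · exact Or.inr (Or.inl ⟨rfl, hze⟩)
      · exact Or.inr (Or.inr ⟨rfl, e, by rw [mul_assoc, hze]⟩)
      · exact Or.inr (Or.inr ⟨rfl, a * s, by simp only [mul_assoc]⟩)
    · refine Or.inr (Or.inr ⟨?_, s * b, by simp only [mul_assoc]⟩)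
      have : ∀ y : Fin 3, NM 2 y = 2 := by decide
      exact this y
  · rintro a x hx
    rcases hx with ⟨rfl, rfl⟩ | ⟨rfl, rfl⟩ | ⟨rfl, s, rfl⟩
    · exact Or.inl ⟨rfl, hbe⟩
    · exact Or.inr (Or.inr ⟨rfl, _, bar_left2 (hA' _)⟩)
    · refine Or.inr (Or.inr ⟨rfl, s * (A.bar (z * z * s) * A.bar (z * z * s)), ?_⟩)
      rw [← mul_assoc]
      exact bar_left (hA' _)
  · intro x
    have : ∀ x : Fin 3, x = 0 ∨ x = 1 ∨ x = 2 := by decide
    rcases this x with rfl | rfl | rfl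
    · exact ⟨e, Or.inl ⟨rfl, rfl⟩⟩
    · exact ⟨z, Or.inr (Or.inl ⟨rfl, rfl⟩)⟩
    · exact ⟨z * z * z, Or.inr (Or.inr ⟨rfl, z, rfl⟩)⟩

/-- An assignment of two variables. -/
def as2 {A : Type} (a b : A) : ℕ → A := fun n => n.casesOn a fun _ => b

/-- Excluding the two-element left zero semigroup. -/
theorem lz_triv {V : EpiVar} (hL : ¬ V.mem LZ) {A : USg} (hA : V.mem A)
    (h : ∀ x y : A, x * y = x) (a b : A) : a = b := by
  by_contra hab
  apply hL
  obtain ⟨n, hn⟩ := V.index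
  have hbar : ∀ x, A.bar x = x := fun x => bar_idem (hn A hA x) (h x x)
  refine V.mem_dv ⟨fun t x => (x = false ∧ t = a) ∨ (x = true ∧ t = b), ?_, ?_, ?_, ?_⟩ hA
  · rintro t x y (⟨rfl, rfl⟩ | ⟨rfl, rfl⟩) (⟨rfl, h1⟩ | ⟨rfl, h1⟩)
    · rfl
    · exact absurd h1 hab
    · exact absurd h1.symm hab
    · rfl
  · rintro t s x y (⟨rfl, rfl⟩ | ⟨rfl, rfl⟩) hy
    · exact Or.inl ⟨rfl, h _ _⟩
    · exact Or.inr ⟨rfl, h _ _⟩
  · rintro t x (⟨rfl, rfl⟩ | ⟨rfl, rfl⟩)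
    · exact Or.inl ⟨rfl, hbar _⟩
    · exact Or.inr ⟨rfl, hbar _⟩
  · intro x
    cases x
    · exact ⟨a, Or.inl ⟨rfl, rfl⟩⟩
    · exact ⟨b, Or.inr ⟨rfl, rfl⟩⟩

/-- `SX` does not satisfy `xy = yx`. -/
theorem SX_noncomm : ¬ Sat SX (.m (.v 0) (.v 1), .m (.v 1) (.v 0)) := by
  intro h
  have := h (as2 (0 : Fin 4) (1 : Fin 4))
  change SXM 0 1 = SXM 1 0 at this
  exact absurd this (by decide)

theorem C0_comm : Sat C0 (.m (.v 0) (.v 1), .m (.v 1) (.v 0)) := by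
  have : ∀ x y : Fin 4, CM x y = CM y x := by decide
  exact fun φ => this (φ 0) (φ 1)

/-- Members of `gen P ⊓ V`, where `P` is not in `V`. -/
theorem pp_key {V : EpiVar} (hP : ¬ V.mem PP) (A : USg) (hA : (gen PP 1 drz_PP).mem A)
    (hAV : V.mem A) : (∀ x y : A, x * y = x * (y * y)) ∧ ∀ x y : A, x * y = y * x := by
  have i0 : ∀ x : A, x * x * (x * x) = x * x := by
    intro x
    have : ∀ x : Fin 3, PM (PM x x) (PM x x) = PM x x := by decide
    exact hA (.m (.m (.v 0) (.v 0)) (.m (.v 0) (.v 0)), .m (.v 0) (.v 0)) (fun φ => this (φ 0))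
      (fun _ => x)
  have i1 : ∀ x : A, A.bar x = x * x := by
    intro x
    have : ∀ x : Fin 3, ![0, 2, 2] x = PM x x := by decide
    exact hA (.b (.v 0), .m (.v 0) (.v 0)) (fun φ => this (φ 0))
      (fun _ => x)
  have i2 : ∀ x y : A, x * x * y = x * y := by
    intro x y
    have : ∀ x y : Fin 3, PM (PM x x) y = PM x y := by decide
    exact hA (.m (.m (.v 0) (.v 0)) (.v 1), .m (.v 0) (.v 1)) (fun φ => this (φ 0) (φ 1))
      (as2 x y)
  have i3 : ∀ x y : A, x * y * (x * y) = x * (y * y) := by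
    intro x y
    have : ∀ x y : Fin 3, PM (PM x y) (PM x y) = PM x (PM y y) := by decide
    exact hA (.m (.m (.v 0) (.v 1)) (.m (.v 0) (.v 1)), .m (.v 0) (.m (.v 1) (.v 1)))
      (fun φ => this (φ 0) (φ 1)) (as2 x y)
  have i4 : ∀ x y : A, x * (y * y) = y * (x * x) := by
    intro x y
    have : ∀ x y : Fin 3, PM x (PM y y) = PM y (PM x x) := by decide
    exact hA (.m (.v 0) (.m (.v 1) (.v 1)), .m (.v 1) (.m (.v 0) (.v 0)))
      (fun φ => this (φ 0) (φ 1)) (as2 x y)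
  have i5 : ∀ x y : A, x * x * y * (x * x) = x * (y * y) := by
    intro x y
    have : ∀ x y : Fin 3, PM (PM (PM x x) y) (PM x x) = PM x (PM y y) := by decide
    exact hA (.m (.m (.m (.v 0) (.v 0)) (.v 1)) (.m (.v 0) (.v 0)), .m (.v 0) (.m (.v 1) (.v 1)))
      (fun φ => this (φ 0) (φ 1)) (as2 x y)
  have i6 : ∀ x : A, x * (x * x) * x = x * x := by
    intro x
    have : ∀ x : Fin 3, PM (PM x (PM x x)) x = PM x x := by decide
    exact hA (.m (.m (.v 0) (.m (.v 0) (.v 0))) (.v 0), .m (.v 0) (.v 0)) (fun φ => this (φ 0))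
      (fun _ => x)
  have key : ∀ x y : A, x * y = x * (y * y) := by
    rcases p_or hP with h | h
    · intro x y
      rw [← i5, ← h A hAV (x * x) y (i0 x), i2]
    · intro x y
      have h1 := h A hAV (x * x) y (i0 x)
      rw [i2] at h1
      unfold Gr at h1
      rw [i1, i6, i3] at h1
      exact h1.symm
  exact ⟨key, fun x y => by rw [key x y, i4, ← key y x]⟩

section Steps

variable {V : EpiVar} (hV : UpperModular V) (hS : V.mem SX)

include hS in
theorem step1 : V.mem C0 := V.mem_dv dv_C0_SX (V.mem_prod hS hS)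

include hV hS in
theorem step2 : V.mem LZ := by
  by_contra hL
  have hC := step1 hS
  apply SX_noncomm
  refine UM hV hS (Y := gen C0 1 drz_C0) (Z := gen LZ 1 drz_LZ) (gen_le hC) ?_ ?_ ?_
  · intro p h1 h2
    exact dv_SX_LZ.sat_prod (gen_sat.1 h2) (gen_sat.1 h1)
  · exact gen_sat.2 C0_comm
  · rintro A ⟨hA1, hA2⟩ φ
    have h1 : ∀ x y : A, x * y = x := by
      intro x y
      exact hA1 (.m (.v 0) (.v 1), .v 0) (fun φ => rfl) (as2 x y)
    exact lz_triv hL hA2 h1 _ _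

include hV hS in
theorem step3 : V.mem PP := by
  by_contra hP
  have hC := step1 hS
  apply SX_noncomm
  refine UM hV hS (Y := gen C0 1 drz_C0) (Z := gen PP 1 drz_PP) (gen_le hC) ?_ ?_ ?_
  · intro p h1 h2
    exact dv_SX_PP.sat_prod (gen_sat.1 h2) (gen_sat.1 h1)
  · exact gen_sat.2 C0_comm
  · intro A hA φ
    exact (pp_key hP A hA.1 hA.2).2 _ _

end Steps

/-- Members of `gen N ⊓ V`, where `N` is not in `V`. -/
theorem nn_key {V : EpiVar} (hN : ¬ V.mem NN) {A : USg} (hA : (gen NN 1 drz_NN).mem A)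
    (hAV : V.mem A) (x y : A) : x * x * y = x * x * (y * y) := by
  have j0 : ∀ x : A, x * x * (x * x) = x * x := by
    intro x
    have : ∀ x : Fin 3, NM (NM x x) (NM x x) = NM x x := by decide
    exact hA (.m (.m (.v 0) (.v 0)) (.m (.v 0) (.v 0)), .m (.v 0) (.v 0)) (fun φ => this (φ 0))
      (fun _ => x)
  have j1 : ∀ x : A, x * A.bar x * x = x * x := by
    intro x
    have : ∀ x : Fin 3, NM (NM x (![0, 2, 2] x)) x = NM x x := by decide
    exact hA (.m (.m (.v 0) (.b (.v 0))) (.v 0), .m (.v 0) (.v 0)) (fun φ => this (φ 0))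
      (fun _ => x)
  have j2 : ∀ x y : A, x * x * y * (x * x) = x * x * y := by
    intro x y
    have : ∀ x y : Fin 3, NM (NM (NM x x) y) (NM x x) = NM (NM x x) y := by decide
    exact hA (.m (.m (.m (.v 0) (.v 0)) (.v 1)) (.m (.v 0) (.v 0)), .m (.m (.v 0) (.v 0)) (.v 1))
      (fun φ => this (φ 0) (φ 1)) (as2 x y)
  have j3 : ∀ x y : A, x * x * y * (x * x * y) = x * x * (y * y) := by
    intro x y
    have : ∀ x y : Fin 3, NM (NM (NM x x) y) (NM (NM x x) y) = NM (NM x x) (NM y y) := by decide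
    exact hA (.m (.m (.m (.v 0) (.v 0)) (.v 1)) (.m (.m (.v 0) (.v 0)) (.v 1)),
      .m (.m (.v 0) (.v 0)) (.m (.v 1) (.v 1)))
      (fun φ => this (φ 0) (φ 1)) (as2 x y)
  have h1 := n_gr hN A hAV (x * x) y (j0 _)
  unfold Gr at h1
  rw [j2, j1, j3] at h1
  exact h1.symm

theorem PP_bad :
    ¬ Sat PP (.m (.m (.v 0) (.v 0)) (.v 1), .m (.m (.v 0) (.v 0)) (.m (.v 1) (.v 1))) := by
  intro h
  have := h (as2 (0 : Fin 3) (1 : Fin 3))
  change PM (PM 0 0) 1 = PM (PM 0 0) (PM 1 1) at this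
  exact absurd this (by decide)

theorem step4 {V : EpiVar} (hV : UpperModular V) (hP : V.mem PP) (hR : V.mem RZ) : V.mem NN := by
  by_contra hN
  apply PP_bad
  refine UM hV hP (Y := gen RZ 1 drz_RZ) (Z := gen NN 1 drz_NN) (gen_le hR) ?_ ?_ ?_
  · intro p h1 h2
    exact dv_PP_RZ.sat_prod (gen_sat.1 h1) (gen_sat.1 h2)
  · exact gen_sat.2 fun φ => rfl
  · intro A hA φ
    exact nn_key hN hA.1 hA.2 _ _

end Pool.Agent.H399.Epi
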