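import Pool.Agent.H399.EpiFacts

/-!
# Prefix semigroups and the key lemma
-/

namespace Pool.Agent.H399.Epi

theorem coe_pw {A : USg} (x : A) (n : ℕ) :
    ((pw x n : A.carrier) : WithOne A.carrier) = (x : WithOne A.carrier) ^ (n + 1) := by
  induction n with
  | zero => simp [pw]
  | succ n ih => rw [pw_succ, WithOne.coe_mul, ih, ← pow_succ]

theorem W_const {A : USg} (x : A) (l : List ℕ) :
    W A (fun _ => x) l = (x : WithOne A.carrier) ^ l.length := by
  induction l with
  | nil => rfl
  | cons a l ih => rw [W_cons, ih, List.length_cons, pow_succ']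

theorem W_coe (A : USg) (φ : ℕ → A) {l : List ℕ} (h : l ≠ []) : ∃ x : A, W A φ l = x :=
  ⟨ev A φ (wt l), (ev_wt A φ h).symm⟩

/-! ## The variety of prefix semigroups -/

/-- The identities of `Lv j`: products of `j + 1` elements are left zeros and
`bar x = x ^ (j + 1)`. -/
def LvE (j : ℕ) : Set (Tm × Tm) :=
  {p | (∃ l : List ℕ, ∃ a : ℕ, l.length = j + 1 ∧ p = (wt (l ++ [a]), wt l)) ∨
    p = (.b (.v 0), tpw j)}

section

variable {j : ℕ} {A : USg} (h : ∀ p ∈ LvE j, Sat A p)

include h

theorem LvE_abs0 (φ : ℕ → A) {l : List ℕ} (hl : l.length = j + 1) (a : ℕ) :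
    W A φ (l ++ [a]) = W A φ l := by
  have h1 := h _ (Or.inl ⟨l, a, hl, rfl⟩)
  have hne : l ≠ [] := by rintro rfl; simp at hl
  exact (sat_word_iff (by simp) hne).1 h1 φ

theorem LvE_abs (φ : ℕ → A) {l : List ℕ} (hl : l.length = j + 1) (k : List ℕ) :
    W A φ (l ++ k) = W A φ l := by
  induction k with
  | nil => simp
  | cons a k ih =>
    rw [W_append, W_cons, ← mul_assoc, ← W_single A φ a, ← W_append, LvE_abs0 h φ hl a,
      ← W_append, ih]

theorem LvE_take (φ : ℕ → A) {l : List ℕ} (hl : j + 1 ≤ l.length) :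
    W A φ l = W A φ (l.take (j + 1)) := by
  conv_lhs => rw [← List.take_append_drop (j + 1) l]
  exact LvE_abs h φ (by rw [List.length_take]; omega) _

theorem LvE_pow (x : A) {m : ℕ} (hm : j + 1 ≤ m) :
    (x : WithOne A.carrier) ^ m = (x : WithOne A.carrier) ^ (j + 1) := by
  have := LvE_take h (fun _ => x) (l := List.replicate m 0) (by simpa using hm)
  rw [W_const, W_const, List.length_replicate, List.length_take, List.length_replicate,
    min_eq_left hm] at this
  exact this

theorem LvE_bar (x : A) {m : ℕ} (hm : j + 1 ≤ m) :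
    (A.bar x : WithOne A.carrier) = (x : WithOne A.carrier) ^ m := by
  rw [LvE_pow h x hm, ← coe_pw]
  have := h _ (Or.inr rfl) (fun _ => x)
  change A.bar x = ev A _ (tpw j) at this
  rw [ev_tpw] at this
  rw [this]

theorem LvE_drz : DrzA j A := by
  intro x
  have e1 := LvE_bar h x le_rfl
  refine ⟨?_, ?_, ?_⟩
  · apply coe_inj'
    rw [WithOne.coe_mul, WithOne.coe_mul, e1, ← pow_succ, ← pow_succ']
  · apply coe_inj'
    rw [WithOne.coe_mul, WithOne.coe_mul, e1, ← pow_succ, ← pow_add, LvE_pow h x (by omega)]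
  · apply coe_inj'
    rw [WithOne.coe_mul, WithOne.coe_mul, e1, coe_pw, ← pow_succ, ← pow_add,
      LvE_pow h x (by omega)]

end

/-- The variety of epigroups in which products of `j + 1` elements are left zeros and
`bar x = x ^ (j + 1)`. -/
def Lv (j : ℕ) : EpiVar := mkVar (LvE j) j fun _ h => LvE_drz h

theorem LvE_mono {i j : ℕ} (hij : i ≤ j) {A : USg} (h : ∀ p ∈ LvE i, Sat A p) :
    ∀ p ∈ LvE j, Sat A p := by
  rintro p (⟨l, a, hl, rfl⟩ | rfl)
  · rw [sat_word_iff (by simp) (by rintro rfl; simp at hl)]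
    intro φ
    rw [LvE_take h φ (l := l ++ [a]) (by simp; omega), LvE_take h φ (l := l) (by omega),
      List.take_append_of_le_length (by omega)]
  · intro φ
    show A.bar (φ 0) = ev A φ (tpw j)
    rw [ev_tpw]
    apply coe_inj'
    rw [coe_pw]
    exact LvE_bar h _ (by omega)

/-- Truncated concatenation. -/
@[reducible] def LAsg (j : ℕ) : Semigroup {l : List ℕ // l ≠ [] ∧ l.length ≤ j + 1} where
  mul a b := ⟨(a.1 ++ b.1).take (j + 1), by
    have := a.2.1
    rw [Ne, List.take_eq_nil_iff]
    simp [this], by simp⟩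
  mul_assoc a b c := by
    apply Subtype.ext
    show (((a.1 ++ b.1).take (j + 1)) ++ c.1).take (j + 1) =
      (a.1 ++ ((b.1 ++ c.1).take (j + 1))).take (j + 1)
    rw [List.take_append (l₁ := (a.1 ++ b.1).take (j + 1)), List.take_take, min_self,
      List.take_append (l₁ := a.1) (l₂ := b.1),
      List.take_append (l₁ := a.1) (l₂ := (b.1 ++ c.1).take (j + 1)), List.take_take,
      List.length_append, List.length_take, List.length_take,
      min_eq_left (Nat.sub_le _ _), List.take_append, List.append_assoc]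
    congr 2
    congr 1
    have := a.2.2
    omega

/-- The semigroup of nonempty words of length at most `j + 1` with truncated concatenation. -/
def LA (j : ℕ) : USg where
  carrier := {l : List ℕ // l ≠ [] ∧ l.length ≤ j + 1}
  sg := LAsg j
  ne := ⟨⟨[0], by simp⟩⟩
  bar x := @pw _ (LAsg j) x j

theorem LA_mul (j : ℕ) (a b : LA j) : (a * b).1 = (a.1 ++ b.1).take (j + 1) := rfl

theorem W_LA (j : ℕ) (φ : ℕ → LA j) {l : List ℕ} (hl : l ≠ []) :
    ∃ x : LA j, W (LA j) φ l = x ∧ x.1 = (l.flatMap fun i => (φ i).1).take (j + 1) := by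
  induction l with
  | nil => exact absurd rfl hl
  | cons a l ih =>
    rcases eq_or_ne l [] with rfl | hne
    · refine ⟨φ a, W_single _ _ _, ?_⟩
      have := (φ a).2.2
      simp [List.take_of_length_le this]
    · obtain ⟨x, hx1, hx2⟩ := ih hne
      refine ⟨φ a * x, ?_, ?_⟩
      · rw [W_cons, hx1, WithOne.coe_mul]
      · rw [LA_mul, hx2, List.flatMap_cons]
        rw [List.take_append, List.take_take, List.take_append]
        rw [min_eq_left (Nat.sub_le _ _)]

theorem flatMap_length (f : ℕ → List ℕ) (hf : ∀ i, f i ≠ []) (l : List ℕ) :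
    l.length ≤ (l.flatMap f).length := by
  induction l with
  | nil => simp
  | cons a l ih =>
    rw [List.flatMap_cons, List.length_append, List.length_cons]
    have := List.length_pos_iff.2 (hf a)
    omega

theorem LA_mem (j : ℕ) : (Lv j).mem (LA j) := by
  rintro p (⟨l, a, hl, rfl⟩ | rfl)
  · have hne : l ≠ [] := by rintro rfl; simp at hl
    rw [sat_word_iff (by simp) hne]
    intro φ
    obtain ⟨x, hx1, hx2⟩ := W_LA j φ hne
    obtain ⟨y, hy1, hy2⟩ := W_LA j φ (l := l ++ [a]) (by simp)
    rw [hx1, hy1]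
    congr 1
    apply Subtype.ext
    rw [hx2, hy2, List.flatMap_append, List.take_append_of_le_length]
    have := flatMap_length (fun i => (φ i).1) (fun i => (φ i).2.1) l
    omega
  · intro φ
    show (LA j).bar (φ 0) = ev (LA j) φ (tpw j)
    rw [ev_tpw]
    rfl

/-- The identities of `Lv j` respect prefixes of length `j + 1`. -/
theorem Lv_prefix {j m : ℕ} (hm : j + 1 ≤ m) {u : List ℕ} (hu : u ≠ []) {w : Tm}
    (h : Sat (LA j) (wt u, w)) : (fl m w).take (j + 1) = u.take (j + 1) := by
  have hA := LA_mem j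
  set φ : ℕ → LA j := fun i => ⟨[i], by simp⟩ with hφ
  have e1 : W (LA j) φ u = W (LA j) φ (fl m w) := by
    rw [← ev_wt (LA j) φ hu, ← ev_fl (fun x => LvE_bar hA x hm)]
    exact congrArg _ (h φ)
  obtain ⟨x, hx1, hx2⟩ := W_LA j φ hu
  obtain ⟨y, hy1, hy2⟩ := W_LA j φ (fl_ne (m := m) (by omega) w)
  rw [hx1, hy1] at e1
  have e2 : x = y := coe_inj' e1
  rw [e2, hy2] at hx2
  simpa [hφ] using hx2

/-! ## Evaluation in `P` and `N` -/

theorem bar_pow2 {A : USg} (h1 : ∀ x : A, A.bar x = x * x) (h2 : ∀ x : A, x * x * x = x * x)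
    {m : ℕ} (hm : 2 ≤ m) (x : A) :
    (A.bar x : WithOne A.carrier) = (x : WithOne A.carrier) ^ m := by
  obtain ⟨k, rfl⟩ := Nat.exists_eq_add_of_le hm
  clear hm
  have e : (x : WithOne A.carrier) ^ 2 * x = (x : WithOne A.carrier) ^ 2 := by
    rw [pow_two, ← WithOne.coe_mul, ← WithOne.coe_mul, h2]
  have : (x : WithOne A.carrier) ^ (2 + k) = (x : WithOne A.carrier) ^ 2 := by
    induction k with
    | zero => rfl
    | succ k ih => rw [← Nat.add_assoc, pow_succ, ih, e]
  rw [this, h1, WithOne.coe_mul, pow_two]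

theorem PP_bar {m : ℕ} (hm : 2 ≤ m) (x : PP) :
    (PP.bar x : WithOne PP.carrier) = (x : WithOne PP.carrier) ^ m := by
  apply bar_pow2 _ _ hm
  · have : ∀ x : Fin 3, ![0, 2, 2] x = PM x x := by decide
    exact this
  · have : ∀ x : Fin 3, PM (PM x x) x = PM x x := by decide
    exact this

theorem NN_bar {m : ℕ} (hm : 2 ≤ m) (x : NN) :
    (NN.bar x : WithOne NN.carrier) = (x : WithOne NN.carrier) ^ m := by
  apply bar_pow2 _ _ hm
  · have : ∀ x : Fin 3, ![0, 2, 2] x = NM x x := by decide
    exact this
  · have : ∀ x : Fin 3, NM (NM x x) x = NM x x := by decide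
    exact this

/-- Elements of `P`. -/
def pp (x : Fin 3) : PP := x

/-- Elements of `N`. -/
def nn (x : Fin 3) : NN := x

theorem pp_mul (x y : Fin 3) : pp x * pp y = pp (PM x y) := rfl

theorem nn_mul (x y : Fin 3) : nn x * nn y = nn (NM x y) := rfl

theorem pp_inj {x y : Fin 3} (h : (pp x : WithOne PP.carrier) = pp y) : x = y := WithOne.coe_inj.1 h

theorem nn_inj {x y : Fin 3} (h : (nn x : WithOne NN.carrier) = nn y) : x = y := WithOne.coe_inj.1 h

/-- The assignment `c ↦ a`, other letters to the idempotent. -/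
def pa (c : ℕ) : ℕ → Fin 3 := fun i => if i = c then 1 else 0

theorem W_PP_pa {y : ℕ} {r : List ℕ} (hy : y ∉ r) :
    W PP (fun i => pp (pa y i)) (r ++ [y]) = (pp 1 : WithOne PP.carrier) := by
  induction r with
  | nil => rw [List.nil_append, W_single]; simp [pa]
  | cons a r ih =>
    rw [List.cons_append, W_cons, ih fun h => hy (List.mem_cons_of_mem _ h)]
    have : pa y a = 0 := by
      simp only [pa, ite_eq_right_iff]
      rintro rfl
      exact absurd (by simp) hy
    rw [this, ← WithOne.coe_mul, pp_mul]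
    rfl

theorem PP_pa_end {y : ℕ} {r s : List ℕ} (hy : y ∉ r)
    (h : W PP (fun i => pp (pa y i)) (r ++ [y] ++ s) = (pp 1 : WithOne PP.carrier)) : s = [] := by
  by_contra hs
  obtain ⟨x, hx⟩ := W_coe PP (fun i => pp (pa y i)) hs
  rw [W_append, W_PP_pa hy, hx, ← WithOne.coe_mul] at h
  have h1 : PM 1 x = 1 := pp_inj h
  revert h1
  have : ∀ x : Fin 3, PM 1 x ≠ 1 := by decide
  exact this x

/-- Truncated count. -/
def cv (n : ℕ) : Fin 3 := if n = 0 then 0 else if n = 1 then 1 else 2

theorem W_NN_pa (c : ℕ) {l : List ℕ} (hl : l ≠ []) :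
    W NN (fun i => nn (pa c i)) l = (nn (cv (l.count c)) : WithOne NN.carrier) := by
  induction l with
  | nil => exact absurd rfl hl
  | cons a l ih =>
    rcases eq_or_ne l [] with rfl | hne
    · rw [W_single]
      congr 2
      by_cases h : a = c
      · subst h; simp [pa, cv]
      · simp [pa, cv, h]
    · rw [W_cons, ih hne, ← WithOne.coe_mul, nn_mul]
      congr 2
      by_cases h : a = c
      · subst h
        rw [List.count_cons_self]
        simp only [pa, if_true]
        rcases hn : l.count a with _ | _ | n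
        · rfl
        · rfl
        · have : cv (n + 1 + 1) = 2 := by simp [cv]
          rw [this]
          have : cv (n + 1 + 1 + 1) = 2 := by simp [cv]
          rw [this]; rfl
      · rw [List.count_cons_of_ne (by simpa using h)]
        simp only [pa, if_neg h]
        have : ∀ x : Fin 3, NM 0 x = x := by decide
        exact this _

theorem NN_count {m : ℕ} (hm : 2 ≤ m) {u : List ℕ} (hu : u ≠ []) {w : Tm}
    (h : Sat NN (wt u, w)) (c : ℕ) : cv (u.count c) = cv ((fl m w).count c) := by
  have e1 : W NN (fun i => nn (pa c i)) u = W NN (fun i => nn (pa c i)) (fl m w) := by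
    rw [← ev_wt NN _ hu, ← ev_fl (fun x => NN_bar hm x)]
    exact congrArg _ (h _)
  rw [W_NN_pa c hu, W_NN_pa c (fl_ne (by omega) w)] at e1
  exact nn_inj e1

/-! ## The key lemma -/

/-- The varieties considered in the main argument. -/
structure HV (V : EpiVar) : Prop where
  um : UpperModular V
  pp : V.mem PP
  lz : V.mem LZ
  nn : V.mem NN

theorem W_update_notMem {A : USg} (φ : ℕ → A) {y : ℕ} (x : A) {r : List ℕ} (hy : y ∉ r) :
    W A (Function.update φ y x) r = W A φ r := by
  unfold W
  congr 1
  apply List.map_congr_left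
  intro i hi
  rw [Function.update_of_ne]
  rintro rfl
  exact hy hi

theorem keyK {V : EpiVar} (hV : HV V) {r : List ℕ} {y d : ℕ} (hy : y ∉ r)
    (hS : V.mem (SW (r ++ [y]))) (hd : d ≠ y) :
    ¬ (Lv r.length ⊓ V).sat (wt (r ++ [y]), wt (r ++ [d])) := by
  intro h
  rcases r with _ | ⟨z, r'⟩
  · have hL : (Lv 0).mem LZ := by
      rintro p (⟨l, a, hl, rfl⟩ | rfl)
      · obtain ⟨c, rfl⟩ := List.length_eq_one_iff.1 hl
        intro φ
        rfl
      · intro φ
        rfl
    have := h LZ ⟨hL, hV.lz⟩ (fun i => decide (i = y))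
    change decide (y = y) = decide (d = y) at this
    simp [hd] at this
  · set r := z :: r' with hr
    have hsat : (Lv r.length ⊓ V).sat (wt (r ++ [y]), wt (r ++ [z, y])) := by
      intro A hA
      rw [sat_word_iff (by simp) (by simp)]
      have h1 := (sat_word_iff (by simp) (by simp)).1 (h A hA)
      intro φ
      obtain ⟨x, hx⟩ := W_coe A φ (l := [z, y]) (by simp)
      have h2 := h1 (Function.update φ y x)
      rw [W_append, W_append, W_update_notMem _ _ hy, W_single, W_single, Function.update_self,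
        Function.update_of_ne hd, ← hx, ← W_append] at h2
      rw [h1 φ, h2, W_append, W_single]
    have hP : Sat PP (wt (r ++ [y]), wt (r ++ [z, y])) := by
      rw [sat_word_iff (by simp) (by simp)]
      intro φ
      by_cases hz : φ z = pp 0
      · rw [W_append, W_append]
        congr 1
        rw [W_single, W_cons, W_single, hz, ← WithOne.coe_mul]
        congr 1
        have : ∀ x : Fin 3, x = PM 0 x := by decide
        exact this _
      · have hz2 : ∀ k : List ℕ, k ≠ [] → W PP φ (z :: k) = (pp 2 : WithOne PP.carrier) := by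
          intro k hk
          obtain ⟨x, hx⟩ := W_coe PP φ hk
          rw [W_cons, hx, ← WithOne.coe_mul]
          congr 1
          have : ∀ y x : Fin 3, y ≠ 0 → PM y x = 2 := by decide
          exact this _ _ hz
        rw [hr, List.cons_append, List.cons_append, hz2 _ (by simp), hz2 _ (by simp)]
    have h3 : Sat (SW (r ++ [y])) (wt (r ++ [y]), wt (r ++ [z, y])) := by
      refine UM hV.um hS (Y := gen PP 1 drz_PP) (Z := Lv r.length) (gen_le hV.pp) ?_
        (gen_sat.2 hP) hsat
      have : (gen PP 1 drz_PP ⊔ Lv r.length).mem (SW (r ++ [y])) := by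
        apply SW_mem
        intro w hw
        have hw1 : Sat PP (wt (r ++ [y]), w) :=
          hw PP ((le_sup_left : gen PP 1 drz_PP ≤ gen PP 1 drz_PP ⊔ Lv r.length) PP
            (gen_mem PP 1 drz_PP))
        have hw2 : Sat (LA r.length) (wt (r ++ [y]), w) :=
          hw _ ((le_sup_right : Lv r.length ≤ gen PP 1 drz_PP ⊔ Lv r.length) _ (LA_mem _))
        have hm : r.length + 1 ≤ r.length + 3 := by omega
        have e1 := Lv_prefix hm (by simp) hw2
        rw [List.take_of_length_le (l := r ++ [y]) (by simp)] at e1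
        have e2 : fl (r.length + 3) w = r ++ [y] ++ (fl (r.length + 3) w).drop (r.length + 1) := by
          conv_lhs => rw [← List.take_append_drop (r.length + 1) (fl (r.length + 3) w)]
          rw [e1]
        have e3 : W PP (fun i => pp (pa y i)) (fl (r.length + 3) w) =
            (pp 1 : WithOne PP.carrier) := by
          have hm2 : 2 ≤ r.length + 3 := by omega
          rw [← W_PP_pa hy, ← ev_wt PP _ (l := r ++ [y]) (by simp),
            ← ev_fl (fun x => PP_bar hm2 x)]
          exact congrArg _ (hw1 _).symm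
        rw [e2] at e3
        have e4 := PP_pa_end hy e3
        rw [e4, List.append_nil] at e2
        exact nb_of_fl e2 (by simp)
      exact fun p h1 h2 => this p h1 h2
    have h4 := SW_sat (by simp) h3
    rw [nb_wt (by simp)] at h4
    have := congrArg List.length (Option.some.inj h4)
    simp at this

end Pool.Agent.H399.Epi
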