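import Pool.Agent.H399.EpiA

/-!
# Nil-semigroups in upper-modular epigroup varieties
-/

namespace Pool.Agent.H399.Epi

/-! ## The semigroup `SX` and the factors of `[0, 1]` -/

theorem fac_list {u l : List ℕ} :
    Fac (FreeMonoid.ofList u) (FreeMonoid.ofList l) ↔ l ≠ [] ∧ l <:+: u := by
  constructor
  · rintro ⟨h1, p, q, h2⟩
    refine ⟨?_, FreeMonoid.toList p, FreeMonoid.toList q, ?_⟩
    · rintro rfl
      exact h1 rfl
    · have := congrArg FreeMonoid.toList h2
      simpa using this
  · rintro ⟨h1, p, q, h2⟩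
    refine ⟨?_, FreeMonoid.ofList p, FreeMonoid.ofList q, ?_⟩
    · intro h
      exact h1 (FreeMonoid.ofList.injective h)
    · rw [← h2, FreeMonoid.ofList_append, FreeMonoid.ofList_append]

theorem vl_some_ne {M : Type} [Monoid M] {u : M} {a : Option {f : M // Fac u f}} (h : vl a ≠ 1) :
    ∃ f, a = some f := by
  rcases a with _ | f
  · exact absurd rfl h
  · exact ⟨f, rfl⟩

open Classical in
theorem vl_fmul {M : Type} [Monoid M] {u : M} (a b : Option {f : M // Fac u f}) :
    vl (fmul u a b) = if vl a ≠ 1 ∧ vl b ≠ 1 ∧ Fac u (vl a * vl b) then vl a * vl b else 1 := by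
  rcases a with _ | a
  · rw [fmul_none_left]
    simp [vl]
  rcases b with _ | b
  · rw [fmul_none_right]
    simp [vl]
  by_cases h : Fac u (a.1 * b.1)
  · rw [fmul_some h, if_pos]
    · rfl
    · exact ⟨a.2.1, b.2.1, h⟩
  · rw [fmul_none h, if_neg]
    · rfl
    · rintro ⟨-, -, h3⟩
      exact h h3

theorem vl_fmul_of {M : Type} [Monoid M] {π : List ℕ → M} (h : Rep M π) {u : List ℕ}
    {a b : Option {f : M // Fac (π u) f}} {k l r : List ℕ} (ha : vl a = π k) (hb : vl b = π l)
    (hr : (k ≠ [] ∧ l ≠ [] ∧ Fac (π u) (π (k ++ l)) ∧ π (k ++ l) = π r) ∨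
      ((k = [] ∨ l = [] ∨ ¬ Fac (π u) (π (k ++ l))) ∧ r = [])) :
    vl (fmul (π u) a b) = π r := by
  classical
  rw [vl_fmul]
  rcases hr with ⟨h1, h2, h3, h4⟩ | ⟨h1, rfl⟩
  · rw [if_pos, ha, hb, ← h.app, h4]
    rw [ha, hb, ← h.app]
    exact ⟨h.ne_one h1, h.ne_one h2, h3⟩
  · rw [if_neg, h.nil]
    rw [ha, hb, ← h.app]
    rintro ⟨g1, g2, g3⟩
    rcases h1 with rfl | rfl | h1
    · exact g1 h.nil
    · exact g2 h.nil
    · exact h1 g3

/-- The words representing the elements of `SX`. -/
def rX : Fin 4 → List ℕ := ![[0], [1], [0, 1], []]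

theorem rX_mul (x y : Fin 4) : (rX x ≠ [] ∧ rX y ≠ [] ∧ (rX x ++ rX y ≠ [] ∧
      (rX x ++ rX y) <:+: [0, 1]) ∧ rX x ++ rX y = rX (SXM x y)) ∨
    ((rX x = [] ∨ rX y = [] ∨ ¬ (rX x ++ rX y ≠ [] ∧ (rX x ++ rX y) <:+: [0, 1])) ∧
      rX (SXM x y) = []) := by
  revert x y
  decide

/-- The relation between factors and the elements of `SX`. -/
def RX (a : Option {f : FreeMonoid ℕ // Fac (FreeMonoid.ofList [0, 1]) f}) (x : Fin 4) : Prop :=
  vl a = FreeMonoid.ofList (rX x)

theorem dv_SX_SW : Dv SX (SW [0, 1]) := by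
  have h1 : ∀ a x y, RX a x → RX a y → x = y := by
    intro a x y hx hy
    unfold RX at hx hy
    rw [hx] at hy
    have h1 := FreeMonoid.ofList.injective hy
    have : ∀ x y : Fin 4, rX x = rX y → x = y := by decide
    exact this _ _ h1
  have h2 : ∀ a b x y, RX a x → RX b y → RX (fmul _ a b) (SXM x y) := by
    intro a b x y hx hy
    refine vl_fmul_of repList (k := rX x) (l := rX y) hx hy ?_
    rw [fac_list]
    rcases rX_mul x y with ⟨h1, h2, h3, h4⟩ | h1
    · exact Or.inl ⟨h1, h2, h3, congrArg _ h4⟩
    · exact Or.inr h1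
  have h3 : ∀ x, ∃ a, RX a x := by
    intro x
    unfold RX
    by_cases hx : rX x = []
    · refine ⟨none, ?_⟩
      rw [hx]; rfl
    · have h2 : ∀ x : Fin 4, (rX x) <:+: [0, 1] := by decide
      exact ⟨some ⟨FreeMonoid.ofList (rX x), fac_list.2 ⟨hx, h2 x⟩⟩, rfl⟩
  exact ⟨RX, h1, h2, fun a x _ => rfl, h3⟩

theorem SX_of_iso {V : EpiVar} (h : ∀ w, V.sat (wt [0, 1], w) → nb w = some [0, 1]) :
    V.mem SX := V.mem_dv dv_SX_SW (SW_mem h)

/-! ## Nil-semigroups -/

/-- `o` is a zero, the values of `bar`, and all elements are nilpotent. -/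
structure NilZ (A : USg) (o : A) : Prop where
  left : ∀ x : A, o * x = o
  right : ∀ x : A, x * o = o
  nil : ∀ x : A, ∃ n, pw x n = o
  bar : ∀ x : A, A.bar x = o

theorem nilZ_of {V : EpiVar} {A : USg} (hA : V.mem A) (h : IsNil A) : ∃ o : A, NilZ A o := by
  obtain ⟨o, h1, h2⟩ := h
  obtain ⟨n, hn⟩ := V.index
  refine ⟨o, fun x => (h1 x).1, fun x => (h1 x).2, h2, fun x => ?_⟩
  obtain ⟨g1, g2, g3⟩ := hn A hA x
  have he : x * A.bar x * (x * A.bar x) = x * A.bar x := by
    rw [mul_assoc, ← mul_assoc (A.bar x), g2]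
  obtain ⟨k, hk⟩ := h2 (x * A.bar x)
  have e : pw (x * A.bar x) k = x * A.bar x := by
    clear hk
    induction k with
    | zero => rfl
    | succ k ih => rw [pw_succ, ih, he]
  rw [e] at hk
  rw [← g2, mul_assoc, hk]
  exact (h1 _).2

section

variable {A : USg} {o : A} (h : NilZ A o)

include h

theorem NilZ.ev_none {φ : ℕ → A} {t : Tm} (ht : nb t = none) : ev A φ t = o := by
  induction t with
  | v n => simp [nb] at ht
  | m s t h1 h2 =>
    show ev A φ s * ev A φ t = o
    rcases hs : nb s with _ | a
    · rw [h1 hs, h.left]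
    · rcases ht' : nb t with _ | c
      · rw [h2 ht', h.right]
      · rw [nb_m_of hs ht'] at ht; simp at ht
  | b t _ => exact h.bar _

theorem NilZ.W_zero {φ : ℕ → A} {l : List ℕ} {i : ℕ} (hi : i ∈ l) (hφ : φ i = o) :
    W A φ l = (o : WithOne A.carrier) := by
  induction l with
  | nil => simp at hi
  | cons a l ih =>
    rw [W_cons]
    rcases List.mem_cons.1 hi with rfl | hi
    · rw [hφ]
      rcases eq_or_ne l [] with rfl | hne
      · rw [W_nil, mul_one]
      · obtain ⟨y, hy⟩ := W_coe A φ hne
        rw [hy, ← WithOne.coe_mul, h.left]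
    · rw [ih hi, ← WithOne.coe_mul, h.right]

theorem NilZ.mul_left (x : WithOne A.carrier) : (o : WithOne A.carrier) * x = o := by
  induction x using WithOne.recOneCoe with
  | one => rw [mul_one]
  | coe x => rw [← WithOne.coe_mul, h.left]

theorem NilZ.mul_right (x : WithOne A.carrier) : x * (o : WithOne A.carrier) = o := by
  induction x using WithOne.recOneCoe with
  | one => rw [one_mul]
  | coe x => rw [← WithOne.coe_mul, h.right]

/-- If `x ^ k = x ^ (k + d + 1)` then `x ^ k = 0`. -/
theorem NilZ.pow {x : A} {k d : ℕ}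
    (hx : (x : WithOne A.carrier) ^ (k + 1) = (x : WithOne A.carrier) ^ (k + 1 + (d + 1))) :
    (x : WithOne A.carrier) ^ (k + 1) = o := by
  have key : ∀ n, (x : WithOne A.carrier) ^ (k + 1) =
      (x : WithOne A.carrier) ^ (k + 1) * ((x : WithOne A.carrier) ^ (d + 1)) ^ n := by
    intro n
    induction n with
    | zero => simp
    | succ n ih =>
      rw [pow_succ ((x : WithOne A.carrier) ^ (d + 1)) n, ← mul_assoc, ← ih, ← pow_add, ← hx]
  obtain ⟨n, hn⟩ := h.nil x
  have h1 := key (n + 1)
  have h2 : ((x : WithOne A.carrier) ^ (d + 1)) ^ (n + 1) = o := by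
    rw [← pow_mul, show (d + 1) * (n + 1) = (n + 1) + d * (n + 1) by ring, pow_add, ← coe_pw, hn,
      h.mul_left]
  rw [h2, h.mul_right] at h1
  exact h1

/-- Letters of a word equal to a word in two variables in a nil-semigroup. -/
theorem NilZ.letters {u : List ℕ} (hu : ∀ i, i ∈ u ↔ i = 0 ∨ i = 1) {w : Tm}
    (hw : Sat A (wt u, w)) :
    (∀ φ : ℕ → A, W A φ u = o) ∨ ∃ l, nb w = some l ∧ ∀ i, i ∈ l ↔ i = 0 ∨ i = 1 := by
  have hu0 : u ≠ [] := by
    rintro rfl
    have := (hu 0).2 (Or.inl rfl)
    simp at this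
  rcases hl : nb w with _ | l
  · left
    intro φ
    rw [← ev_wt A φ hu0, show ev A φ (wt u) = ev A φ w from hw φ, h.ev_none hl]
  · have hw' : ∀ φ : ℕ → A, W A φ u = W A φ l := fun φ => by
      rw [← ev_wt A φ hu0, show ev A φ (wt u) = ev A φ w from hw φ, ev_nb hl]
    by_cases h1 : ∀ i ∈ l, i = 0 ∨ i = 1
    · by_cases h2 : ∀ i, (i = 0 ∨ i = 1) → i ∈ l
      · exact Or.inr ⟨l, rfl, fun i => ⟨h1 i, h2 i⟩⟩
      · left
        push Not at h2
        obtain ⟨i, hi1, hi2⟩ := h2
        intro φ
        have e1 := hw' (Function.update φ i o)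
        rw [W_update_notMem _ _ hi2, ← hw',
          h.W_zero ((hu i).2 hi1) (Function.update_self _ _ _)] at e1
        exact e1.symm
    · left
      push Not at h1
      obtain ⟨i, hi1, hi2⟩ := h1
      intro φ
      have hiu : i ∉ u := fun hi => by
        rcases (hu i).1 hi with h | h
        · exact hi2.1 h
        · exact hi2.2 h
      have e1 := hw' (Function.update φ i o)
      rw [W_update_notMem _ _ hiu, h.W_zero hi1 (Function.update_self _ _ _)] at e1
      exact e1

theorem NilZ.xy {w : Tm} (hw : Sat A (wt [0, 1], w)) (h1 : nb w ≠ some [0, 1])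
    (h2 : nb w ≠ some [1, 0]) (x y : A) : x * y = o := by
  rcases h.letters (u := [0, 1]) (by simp) hw with h3 | ⟨l, hl, hmem⟩
  · have := h3 (as2 x y)
    rw [W_cons, W_single, ← WithOne.coe_mul] at this
    exact coe_inj' this
  · have hl0 : l ≠ [] := nb_ne hl
    have hw' : ∀ φ : ℕ → A, W A φ [0, 1] = W A φ l := fun φ => by
      rw [← ev_wt A φ (by simp), show ev A φ (wt [0, 1]) = ev A φ w from hw φ, ev_nb hl]
    rw [hl] at h1 h2
    have hm0 := (hmem 0).2 (Or.inl rfl)
    have hm1 := (hmem 1).2 (Or.inr rfl)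
    have hor : ∀ i ∈ l, i = 0 ∨ i = 1 := fun i hi => (hmem i).1 hi
    -- the length is at least three
    have hlen : 3 ≤ l.length := by
      rcases l with _ | ⟨a, _ | ⟨b, _ | ⟨c, t⟩⟩⟩
      · exact absurd rfl hl0
      · simp at hm0 hm1
        omega
      · exfalso
        have ha := hor a (by simp)
        have hb := hor b (by simp)
        rcases ha with rfl | rfl <;> rcases hb with rfl | rfl
        · simp at hm1
        · exact h1 rfl
        · exact h2 rfl
        · simp at hm0
      · simp
    have hsq : ∀ x : A, x * x = o := by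
      intro x
      have e := hw' fun _ => x
      rw [W_const, W_const] at e
      obtain ⟨d, hd⟩ := Nat.exists_eq_add_of_le hlen
      have e2 : (x : WithOne A.carrier) ^ (1 + 1) = o := by
        apply h.pow (k := 1) (d := d)
        rw [show 1 + 1 + (d + 1) = l.length by omega]
        exact e
      rw [pow_succ, pow_one, ← WithOne.coe_mul] at e2
      exact coe_inj' e2
    have hsq' : ∀ (x : A) (z : WithOne A.carrier), (x : WithOne A.carrier) * (x * z) = o := by
      intro x z
      rw [← mul_assoc, ← WithOne.coe_mul, hsq, h.mul_left]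
    have hsq2 : ∀ (x : A), (x : WithOne A.carrier) * x = o := by
      intro x
      rw [← WithOne.coe_mul, hsq]
    have hxy : ∀ x y : A, (x : WithOne A.carrier) * y = W A (as2 x y) l := by
      intro x y
      rw [← hw' (as2 x y), W_cons, W_single]; rfl
    have key : (x : WithOne A.carrier) * y = o := by
      have a0 : as2 x y 0 = x := rfl
      have a1 : as2 x y 1 = y := rfl
      rcases l with _ | ⟨a, _ | ⟨b, _ | ⟨c, t⟩⟩⟩
      · simp at hlen
      · simp at hlen
      · simp at hlen
      · rcases t with _ | ⟨d, t⟩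
        · have ha := hor a (by simp)
          have hb := hor b (by simp)
          have hc := hor c (by simp)
          have e := hxy x y
          rw [W_cons, W_cons, W_single] at e
          rcases ha with rfl | rfl <;> rcases hb with rfl | rfl <;> rcases hc with rfl | rfl
          · rw [e, a0]; exact hsq' x _
          · rw [e, a0]; exact hsq' x _
          · -- xyx
            have e3 : (x : WithOne A.carrier) * y = x * (y * x) := e
            have e4 : (x : WithOne A.carrier) * y * x = o := by
              rw [e3, mul_assoc, mul_assoc, hsq2, h.mul_right, h.mul_right]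
            rw [e3, ← mul_assoc]; exact e4
          · rw [e, a0, a1, hsq2, h.mul_right]
          · rw [e, a0, hsq2, h.mul_right]
          · -- yxy
            have e3 : (x : WithOne A.carrier) * y = y * (x * y) := e
            rw [e3, e3]; exact hsq' y _
          · rw [e, a1]; exact hsq' y _
          · rw [e, a1]; exact hsq' y _
        · have ha := hor a (by simp)
          have hb := hor b (by simp)
          have hc := hor c (by simp)
          have hd := hor d (by simp)
          have e := hxy x y
          rw [W_cons, W_cons, W_cons, W_cons] at e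
          have hal : ∀ z : WithOne A.carrier, (x : WithOne A.carrier) * (y * (x * (y * z))) = o := by
            intro z
            have := hsq' (x * y) z
            rw [WithOne.coe_mul] at this
            simpa only [mul_assoc] using this
          have hal' : ∀ z : WithOne A.carrier, (y : WithOne A.carrier) * (x * (y * (x * z))) = o := by
            intro z
            have := hsq' (y * x) z
            rw [WithOne.coe_mul] at this
            simpa only [mul_assoc] using this
          rw [e]
          rcases ha with rfl | rfl <;> rcases hb with rfl | rfl <;> rcases hc with rfl | rfl <;>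
            rcases hd with rfl | rfl <;> simp only [a0, a1, hsq', h.mul_right, hal, hal']
    rw [← WithOne.coe_mul] at key
    exact coe_inj' key

end

/-- A variety not containing `SX` has commutative or null nil-members. -/
theorem nil_cases {V : EpiVar} (hS : ¬ V.mem SX) :
    V.sat (.m (.v 0) (.v 1), .m (.v 1) (.v 0)) ∨
      ∀ A, V.mem A → ∀ o : A, NilZ A o → ∀ x y : A, x * y = o := by
  by_cases hiso : ∀ w, V.sat (wt [0, 1], w) → nb w = some [0, 1]
  · exact absurd (SX_of_iso hiso) hS
  · push Not at hiso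
    obtain ⟨w, hw, hw1⟩ := hiso
    by_cases hw2 : nb w = some [1, 0]
    · left
      exact V.sat_trans hw (V.sat_symm fun A _ => sat_nb A hw2)
    · right
      intro A hA o ho
      exact ho.xy (hw A hA) hw1 hw2

end Pool.Agent.H399.Epi
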