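import Pool.Agent.H399.EpiWord

/-!
# Some small epigroups
-/

namespace Pool.Agent.H399.Epi

/-- A unary semigroup from its operations. -/
def mkU {α : Type} [h : Nonempty α] (f : α → α → α) (hf : ∀ a b c, f (f a b) c = f a (f b c))
    (g : α → α) : USg where
  carrier := α
  sg := { mul := f, mul_assoc := hf }
  ne := h
  bar := g

theorem dv_of {α β δ : Type} [Nonempty α] [Nonempty β] [Nonempty δ] {f₁ : α → α → α}
    {h₁ : ∀ a b c, f₁ (f₁ a b) c = f₁ a (f₁ b c)} {g₁ : α → α} {f₂ : β → β → β}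
    {h₂ : ∀ a b c, f₂ (f₂ a b) c = f₂ a (f₂ b c)} {g₂ : β → β} {f₃ : δ → δ → δ}
    {h₃ : ∀ a b c, f₃ (f₃ a b) c = f₃ a (f₃ b c)} {g₃ : δ → δ} (r : α → β → Option δ)
    (hr1 : ∀ a b a' b', ∀ x ∈ r a b, ∀ y ∈ r a' b', r (f₁ a a') (f₂ b b') = some (f₃ x y))
    (hr2 : ∀ a b, ∀ x ∈ r a b, r (g₁ a) (g₂ b) = some (g₃ x))
    (hr3 : ∀ x, ∃ a b, r a b = some x) :
    Dv (mkU f₃ h₃ g₃) (prod (mkU f₁ h₁ g₁) (mkU f₂ h₂ g₂)) := by
  refine ⟨fun p x => r p.1 p.2 = some x, ?_, ?_, ?_, ?_⟩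
  · intro a x y hx hy
    rw [hx] at hy
    exact Option.some.inj hy
  · intro a b x y hx hy
    exact hr1 _ _ _ _ x hx y hy
  · intro a x hx
    exact hr2 _ _ x hx
  · intro x
    obtain ⟨a, b, h⟩ := hr3 x
    exact ⟨(a, b), h⟩

theorem dv_of1 {α δ : Type} [Nonempty α] [Nonempty δ] {f₁ : α → α → α}
    {h₁ : ∀ a b c, f₁ (f₁ a b) c = f₁ a (f₁ b c)} {g₁ : α → α} {f₃ : δ → δ → δ}
    {h₃ : ∀ a b c, f₃ (f₃ a b) c = f₃ a (f₃ b c)} {g₃ : δ → δ} (r : α → Option δ)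
    (hr1 : ∀ a a', ∀ x ∈ r a, ∀ y ∈ r a', r (f₁ a a') = some (f₃ x y))
    (hr2 : ∀ a, ∀ x ∈ r a, r (g₁ a) = some (g₃ x))
    (hr3 : ∀ x, ∃ a, r a = some x) :
    Dv (mkU f₃ h₃ g₃) (mkU f₁ h₁ g₁) := by
  refine ⟨fun p x => r p = some x, ?_, ?_, ?_, ?_⟩
  · intro a x y hx hy
    rw [hx] at hy
    exact Option.some.inj hy
  · intro a b x y hx hy
    exact hr1 _ _ x hx y hy
  · intro a x hx
    exact hr2 _ x hx
  · intro x
    obtain ⟨a, h⟩ := hr3 x
    exact ⟨a, h⟩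

/-- Left zero semigroup with two elements. -/
def LZ : USg := mkU (α := Bool) (fun a _ => a) (fun _ _ _ => rfl) id

/-- Right zero semigroup with two elements. -/
def RZ : USg := mkU (α := Bool) (fun _ b => b) (fun _ _ _ => rfl) id

/-- `{1, a, 0}` with `a * a = 0`; `0 = 1`, `1 = a`, `2 = 0`. -/
def NM : Fin 3 → Fin 3 → Fin 3 := ![![0, 1, 2], ![1, 2, 2], ![2, 2, 2]]

def NN : USg := mkU NM (by decide) ![0, 2, 2]

/-- `P = {e, a, 0}` with `e * e = e`, `e * a = a`, all other products `0`. -/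
def PM : Fin 3 → Fin 3 → Fin 3 := ![![0, 1, 2], ![2, 2, 2], ![2, 2, 2]]

def PP : USg := mkU PM (by decide) ![0, 2, 2]

/-- The dual of `P`. -/
def PD : USg := mkU (fun a b => PM b a) (by decide) ![0, 2, 2]

/-- `{x, y, xy = yx, 0}`. -/
def CM : Fin 4 → Fin 4 → Fin 4 := ![![3, 2, 3, 3], ![2, 3, 3, 3], ![3, 3, 3, 3], ![3, 3, 3, 3]]

def C0 : USg := mkU CM (by decide) fun _ => 3

/-- `{x, y, xy, 0}` with `yx = 0`. -/
def SXM : Fin 4 → Fin 4 → Fin 4 := ![![3, 2, 3, 3], ![3, 3, 3, 3], ![3, 3, 3, 3], ![3, 3, 3, 3]]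

def SX : USg := mkU SXM (by decide) fun _ => 3

theorem opA_PP : opA PP = PD := rfl
theorem opA_PD : opA PD = PP := rfl
theorem opA_LZ : opA LZ = RZ := rfl
theorem opA_RZ : opA RZ = LZ := rfl

theorem opA_C0 : opA C0 = C0 := by
  show mkU (fun a b => CM b a) _ _ = mkU CM _ _
  have : (fun a b => CM b a) = CM := by decide
  congr 1

theorem opA_NN : opA NN = NN := by
  show mkU (fun a b => NM b a) _ _ = mkU NM _ _
  have : (fun a b => NM b a) = NM := by decide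
  congr 1

theorem SX_op : Dv (opA SX) SX := by
  refine dv_of1 (f₁ := SXM) (f₃ := fun a b => SXM b a) ![some 1, some 0, some 2, some 3] ?_ ?_ ?_ <;>
  decide

theorem SX_op' : Dv SX (opA SX) := by
  refine dv_of1 (f₁ := fun a b => SXM b a) (f₃ := SXM) ![some 1, some 0, some 2, some 3] ?_ ?_ ?_ <;>
  decide

theorem dv_C0_SX : Dv C0 (prod SX SX) := by
  refine dv_of (f₁ := SXM) (f₂ := SXM) (f₃ := CM)
    ![![none, some 0, none, none], ![some 1, none, none, none], ![none, none, none, some 2],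
      ![none, none, some 2, some 3]] ?_ ?_ ?_ <;> decide

theorem dv_SX_LZ : Dv SX (prod LZ C0) := by
  refine dv_of (f₂ := CM) (f₃ := SXM)
    (fun a b => if a = false then ![some 0, none, some 2, some 3] b
      else ![none, some 1, some 3, some 3] b) ?_ ?_ ?_ <;> decide

theorem dv_SX_PP : Dv SX (prod PP C0) := by
  refine dv_of (f₁ := PM) (f₂ := CM) (f₃ := SXM)
    ![![some 0, none, none, some 3], ![none, some 1, some 2, some 3],
      ![none, none, some 3, some 3]] ?_ ?_ ?_ <;> decide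

theorem dv_PP_RZ : Dv PP (prod RZ NN) := by
  refine dv_of (f₂ := NM) (f₃ := PM)
    (fun a b => if a = false then ![some 0, some 2, some 2] b
      else ![none, some 1, some 2] b) ?_ ?_ ?_ <;> decide

theorem dv_C0_NN : Dv C0 (prod NN NN) := by
  refine dv_of (f₁ := NM) (f₂ := NM) (f₃ := CM)
    ![![none, some 1, some 3], ![some 0, some 2, some 3], ![some 3, some 3, some 3]]
    ?_ ?_ ?_ <;> decide

theorem dv_SX_PPD : Dv SX (prod PP PD) := by
  refine dv_of (f₁ := PM) (f₂ := fun a b => PM b a) (f₃ := SXM)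
    ![![none, some 0, some 3], ![some 1, some 2, some 3], ![some 3, some 3, some 3]]
    ?_ ?_ ?_ <;> decide

end Pool.Agent.H399.Epi
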