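import Pool.Agent.H399.EpiBasic

/-!
# Words, isoterms and the nilpotent semigroups of factors
-/

namespace Pool.Agent.H399.Epi

/-- The value of a word in the monoid `WithOne A`. -/
def W (A : USg) (φ : ℕ → A) (l : List ℕ) : WithOne A.carrier :=
  (l.map (fun i => (φ i : WithOne A.carrier))).prod

theorem W_nil (A : USg) (φ : ℕ → A) : W A φ [] = 1 := rfl

theorem W_cons (A : USg) (φ : ℕ → A) (a : ℕ) (l : List ℕ) : W A φ (a :: l) = φ a * W A φ l := by
  simp [W]

theorem W_single (A : USg) (φ : ℕ → A) (a : ℕ) : W A φ [a] = φ a := by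
  simp [W]

theorem W_append (A : USg) (φ : ℕ → A) (k l : List ℕ) :
    W A φ (k ++ l) = W A φ k * W A φ l := by
  simp [W]

theorem W_pow (A : USg) (φ : ℕ → A) (m : ℕ) (l : List ℕ) :
    W A φ (List.replicate m l).flatten = W A φ l ^ m := by
  induction m with
  | zero => rfl
  | succ m ih => rw [List.replicate_succ, List.flatten_cons, W_append, ih, pow_succ']

/-- A nonempty word as a term. -/
def wt : List ℕ → Tm
  | [] => .v 0
  | [a] => .v a
  | a :: b :: l => .m (.v a) (wt (b :: l))

theorem ev_wt (A : USg) (φ : ℕ → A) {l : List ℕ} (h : l ≠ []) :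
    (ev A φ (wt l) : WithOne A.carrier) = W A φ l := by
  match l with
  | [] => exact absurd rfl h
  | [a] => rw [W_single]; rfl
  | a :: b :: l =>
    show ((φ a * ev A φ (wt (b :: l)) : A.carrier) : WithOne A.carrier) = _
    rw [WithOne.coe_mul, ev_wt A φ (List.cons_ne_nil b l), W_cons A φ a]

/-- The underlying word of a term without `bar`. -/
def nb : Tm → Option (List ℕ)
  | .v n => some [n]
  | .m s t => (nb s).bind fun a => (nb t).bind fun c => some (a ++ c)
  | .b _ => none

theorem nb_m {s t : Tm} {l : List ℕ} (h : nb (.m s t) = some l) :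
    ∃ a c, nb s = some a ∧ nb t = some c ∧ l = a ++ c := by
  simp only [nb, Option.bind_eq_some_iff, Option.some.injEq] at h
  obtain ⟨a, ha, c, hc, hl⟩ := h
  exact ⟨a, c, ha, hc, hl.symm⟩

theorem nb_m_of {s t : Tm} {a c : List ℕ} (h1 : nb s = some a) (h2 : nb t = some c) :
    nb (.m s t) = some (a ++ c) := by
  simp [nb, h1, h2]

theorem nb_ne {t : Tm} {l : List ℕ} (h : nb t = some l) : l ≠ [] := by
  induction t generalizing l with
  | v n => simp [nb] at h; simp [← h]
  | m s t h1 h2 =>
    obtain ⟨a, c, ha, hc, rfl⟩ := nb_m h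
    simp [h1 ha]
  | b t _ => simp [nb] at h

theorem nb_wt {l : List ℕ} (h : l ≠ []) : nb (wt l) = some l := by
  match l with
  | [] => exact absurd rfl h
  | [a] => rfl
  | a :: b :: l =>
    show (some [a]).bind (fun x => (nb (wt (b :: l))).bind fun c => some (x ++ c)) = _
    rw [nb_wt (List.cons_ne_nil b l)]; rfl

theorem ev_nb {A : USg} {φ : ℕ → A} {t : Tm} {l : List ℕ} (h : nb t = some l) :
    (ev A φ t : WithOne A.carrier) = W A φ l := by
  induction t generalizing l with
  | v n => simp [nb] at h; rw [← h, W_single]; rfl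
  | m s t h1 h2 =>
    obtain ⟨a, c, ha, hc, rfl⟩ := nb_m h
    show ((ev A φ s * ev A φ t : A.carrier) : WithOne A.carrier) = _
    rw [WithOne.coe_mul, h1 ha, h2 hc, W_append]
  | b t _ => simp [nb] at h

/-- Replace `bar t` by `t ^ m`. -/
def fl (m : ℕ) : Tm → List ℕ
  | .v n => [n]
  | .m s t => fl m s ++ fl m t
  | .b t => (List.replicate m (fl m t)).flatten

theorem ev_fl {A : USg} {m : ℕ} (h : ∀ x : A, (A.bar x : WithOne A.carrier) = (x : WithOne A.carrier) ^ m)
    (φ : ℕ → A) (t : Tm) : (ev A φ t : WithOne A.carrier) = W A φ (fl m t) := by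
  induction t with
  | v n => rw [fl, W_single]; rfl
  | m s t h1 h2 =>
    show ((ev A φ s * ev A φ t : A.carrier) : WithOne A.carrier) = _
    rw [WithOne.coe_mul, h1, h2, ← W_append]; rfl
  | b t ih =>
    show ((A.bar (ev A φ t) : A.carrier) : WithOne A.carrier) = _
    rw [h, ih, ← W_pow]; rfl

theorem fl_of_nb {m : ℕ} {t : Tm} {l : List ℕ} (h : nb t = some l) : fl m t = l := by
  induction t generalizing l with
  | v n => simpa [nb, fl] using h
  | m s t h1 h2 =>
    obtain ⟨a, c, ha, hc, rfl⟩ := nb_m h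
    show fl m s ++ fl m t = _
    rw [h1 ha, h2 hc]
  | b t _ => simp [nb] at h

theorem fl_ne {m : ℕ} (hm : 1 ≤ m) (t : Tm) : fl m t ≠ [] := by
  induction t with
  | v n => simp [fl]
  | m s t h1 h2 => simp [fl, h1]
  | b t ih =>
    obtain ⟨k, rfl⟩ := Nat.exists_eq_add_of_le' hm
    simp [fl, List.replicate_succ, ih]

theorem fl_length {m : ℕ} {t : Tm} (h : nb t = none) : m ≤ (fl m t).length := by
  induction t with
  | v n => simp [nb] at h
  | m s t h1 h2 =>
    show m ≤ (fl m s ++ fl m t).length
    rw [List.length_append]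
    rcases hs : nb s with _ | a
    · have := h1 hs; omega
    · rcases ht : nb t with _ | c
      · have := h2 ht; omega
      · rw [nb_m_of hs ht] at h; simp at h
  | b t _ =>
    rcases Nat.eq_zero_or_pos m with rfl | hm
    · exact Nat.zero_le _
    · show m ≤ (List.replicate m (fl m t)).flatten.length
      rw [List.length_flatten, List.map_replicate, List.sum_replicate, smul_eq_mul]
      have : 1 ≤ (fl m t).length := List.length_pos_iff.2 (fl_ne hm t)
      nlinarith

/-- If the flattening with a large `m` is a short word then the term is without `bar`. -/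
theorem nb_of_fl {m : ℕ} {t : Tm} {u : List ℕ} (h : fl m t = u) (hm : u.length < m) :
    nb t = some u := by
  rcases ht : nb t with _ | l
  · have := fl_length (m := m) ht
    rw [h] at this; omega
  · rw [fl_of_nb ht] at h; rw [h]

/-- Substitution. -/
def sub (σ : ℕ → Tm) : Tm → Tm
  | .v n => σ n
  | .m s t => .m (sub σ s) (sub σ t)
  | .b t => .b (sub σ t)

theorem ev_sub (A : USg) (φ : ℕ → A) (σ : ℕ → Tm) (t : Tm) :
    ev A φ (sub σ t) = ev A (fun n => ev A φ (σ n)) t := by
  induction t with
  | v n => rfl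
  | m s t h1 h2 =>
    show ev A φ (sub σ s) * ev A φ (sub σ t) = _
    rw [h1, h2]; rfl
  | b t h =>
    show A.bar (ev A φ (sub σ t)) = _
    rw [h]; rfl

theorem nb_sub {σ : ℕ → Tm} {τ : ℕ → List ℕ} (h : ∀ i, nb (σ i) = some (τ i)) {t : Tm}
    {l : List ℕ} (ht : nb t = some l) : nb (sub σ t) = some (l.flatMap τ) := by
  induction t generalizing l with
  | v n => simp [nb] at ht; simp [← ht, sub, h]
  | m s t h1 h2 =>
    obtain ⟨a, c, ha, hc, rfl⟩ := nb_m ht
    rw [sub, nb_m_of (h1 ha) (h2 hc), List.flatMap_append]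
  | b t _ => simp [nb] at ht

theorem nb_sub_none {σ : ℕ → Tm} {t : Tm} (ht : nb t = none) : nb (sub σ t) = none := by
  induction t with
  | v n => simp [nb] at ht
  | m s t h1 h2 =>
    rcases hs : nb s with _ | a
    · simp [sub, nb, h1 hs]
    · rcases ht' : nb t with _ | c
      · simp [sub, nb, h2 ht']
      · rw [nb_m_of hs ht'] at ht; simp at ht
  | b t _ => rfl

theorem EpiVar.sat_sub (V : EpiVar) {s t : Tm} (h : V.sat (s, t)) (σ : ℕ → Tm) :
    V.sat (sub σ s, sub σ t) := by
  intro A hA φ
  show ev A φ (sub σ s) = ev A φ (sub σ t)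
  rw [ev_sub, ev_sub]
  exact h A hA _

theorem EpiVar.sat_symm (V : EpiVar) {s t : Tm} (h : V.sat (s, t)) : V.sat (t, s) :=
  fun A hA φ => (h A hA φ).symm

theorem EpiVar.sat_trans (V : EpiVar) {s t u : Tm} (h : V.sat (s, t)) (h' : V.sat (t, u)) :
    V.sat (s, u) := fun A hA φ => (h A hA φ).trans (h' A hA φ)

theorem EpiVar.sat_m (V : EpiVar) {s t s' t' : Tm} (h : V.sat (s, t)) (h' : V.sat (s', t')) :
    V.sat (.m s s', .m t t') := fun A hA φ => by
  show ev A φ s * ev A φ s' = ev A φ t * ev A φ t'
  rw [show ev A φ s = ev A φ t from h A hA φ, show ev A φ s' = ev A φ t' from h' A hA φ]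

theorem EpiVar.sat_refl (V : EpiVar) (t : Tm) : V.sat (t, t) := fun _ _ _ => rfl

theorem coe_inj' {A : USg} {x y : A} (h : (x : WithOne A.carrier) = (y : WithOne A.carrier)) :
    x = y := WithOne.coe_inj.1 h

theorem sat_nb (A : USg) {t : Tm} {l : List ℕ} (h : nb t = some l) : Sat A (wt l, t) := by
  intro φ
  apply coe_inj'
  rw [ev_wt A φ (nb_ne h)]
  exact (ev_nb h).symm

theorem sat_word_iff {A : USg} {k l : List ℕ} (hk : k ≠ []) (hl : l ≠ []) :
    Sat A (wt k, wt l) ↔ ∀ φ : ℕ → A, W A φ k = W A φ l := by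
  constructor
  · intro h φ
    rw [← ev_wt A φ hk, ← ev_wt A φ hl]
    exact congrArg _ (h φ)
  · intro h φ
    apply coe_inj'
    rw [ev_wt A φ hk, ev_wt A φ hl]
    exact h φ

/-- Multiplication of a term by words on both sides. -/
def pre (k : List ℕ) (t : Tm) : Tm := k.foldr (fun a s => .m (.v a) s) t

def post (t : Tm) (k : List ℕ) : Tm := k.foldl (fun s a => .m s (.v a)) t

theorem nb_pre (k : List ℕ) {t : Tm} {l : List ℕ} (h : nb t = some l) :
    nb (pre k t) = some (k ++ l) := by
  induction k with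
  | nil => exact h
  | cons a k ih =>
    show nb (.m (.v a) (pre k t)) = _
    rw [nb_m_of (a := [a]) rfl ih]; rfl

theorem nb_pre_none (k : List ℕ) {t : Tm} (h : nb t = none) : nb (pre k t) = none := by
  induction k with
  | nil => exact h
  | cons a k ih =>
    show nb (.m (.v a) (pre k t)) = _
    simp [nb, ih]

theorem nb_post (k : List ℕ) {t : Tm} {l : List ℕ} (h : nb t = some l) :
    nb (post t k) = some (l ++ k) := by
  induction k generalizing t l with
  | nil => simpa [post] using h
  | cons a k ih =>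
    show nb (post (.m t (.v a)) k) = _
    rw [ih (nb_m_of h (c := [a]) rfl)]; simp

theorem nb_post_none (k : List ℕ) {t : Tm} (h : nb t = none) : nb (post t k) = none := by
  induction k generalizing t with
  | nil => exact h
  | cons a k ih =>
    show nb (post (.m t (.v a)) k) = _
    exact ih (by simp [nb, h])

theorem EpiVar.sat_pre (V : EpiVar) {s t : Tm} (h : V.sat (s, t)) (k : List ℕ) :
    V.sat (pre k s, pre k t) := by
  induction k with
  | nil => exact h
  | cons a k ih => exact V.sat_m (V.sat_refl _) ih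

theorem EpiVar.sat_post (V : EpiVar) {s t : Tm} (h : V.sat (s, t)) (k : List ℕ) :
    V.sat (post s k, post t k) := by
  induction k generalizing s t with
  | nil => exact h
  | cons a k ih => exact ih (V.sat_m h (V.sat_refl _))

theorem fl_pre (m : ℕ) (k : List ℕ) (t : Tm) : fl m (pre k t) = k ++ fl m t := by
  induction k with
  | nil => rfl
  | cons a k ih =>
    show [a] ++ fl m (pre k t) = _
    rw [ih]; rfl

theorem fl_post (m : ℕ) (k : List ℕ) (t : Tm) : fl m (post t k) = fl m t ++ k := by
  induction k generalizing t with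
  | nil => simp [post]
  | cons a k ih =>
    show fl m (post (.m t (.v a)) k) = _
    rw [ih]; simp [fl]

theorem fl_wt (m : ℕ) {l : List ℕ} (h : l ≠ []) : fl m (wt l) = l := fl_of_nb (nb_wt h)

/-! ## The semigroups of factors -/

section SM

variable {M : Type} [Monoid M]

/-- `f` is a nontrivial factor of `u`. -/
def Fac (u f : M) : Prop := f ≠ 1 ∧ ∃ p q, p * f * q = u

open Classical in
/-- Multiplication in the semigroup of factors of `u`. -/
noncomputable def fmul (u : M) :
    Option {f : M // Fac u f} → Option {f : M // Fac u f} → Option {f : M // Fac u f}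
  | some a, some b => if h : Fac u (a.1 * b.1) then some ⟨_, h⟩ else none
  | some _, none => none
  | none, _ => none

theorem fmul_some {u : M} {a b : {f : M // Fac u f}} (h : Fac u (a.1 * b.1)) :
    fmul u (some a) (some b) = some ⟨_, h⟩ := by
  simp [fmul, h]

theorem fmul_none {u : M} {a b : {f : M // Fac u f}} (h : ¬ Fac u (a.1 * b.1)) :
    fmul u (some a) (some b) = none := by
  simp [fmul, h]

theorem fmul_none_right {u : M} (a : Option {f : M // Fac u f}) :
    fmul u a none = none := by
  cases a <;> rfl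

theorem fmul_none_left {u : M} (a : Option {f : M // Fac u f}) :
    fmul u none a = none := rfl

theorem Fac.left {u a b : M} (ha : a ≠ 1)
    (h : Fac u (a * b)) : Fac u a := by
  obtain ⟨-, p, q, hq⟩ := h
  exact ⟨ha, p, b * q, by rw [← hq]; simp only [mul_assoc]⟩

theorem Fac.right {u a b : M} (hb : b ≠ 1)
    (h : Fac u (a * b)) : Fac u b := by
  obtain ⟨-, p, q, hq⟩ := h
  exact ⟨hb, p * a, q, by rw [← hq]; simp only [mul_assoc]⟩

theorem fmul_assoc (hM : ∀ a b : M, a * b = 1 → a = 1) (u : M)
    (a b c : Option {f : M // Fac u f}) :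
    fmul u (fmul u a b) c = fmul u a (fmul u b c) := by
  rcases a with _ | a
  · rfl
  rcases b with _ | b
  · rfl
  rcases c with _ | c
  · rw [fmul_none_right, fmul_none_right, fmul_none_right]
  by_cases h : Fac u (a.1 * b.1 * c.1)
  · have h1 : Fac u (a.1 * b.1) := h.left fun h' => a.2.1 (hM _ _ h')
    have h2 : Fac u (b.1 * c.1) := by
      rw [mul_assoc] at h
      exact h.right fun h' => b.2.1 (hM _ _ h')
    rw [fmul_some h1, fmul_some h2, fmul_some (by exact h), fmul_some (by rw [← mul_assoc]; exact h)]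
    simp only [mul_assoc]
  · have e1 : fmul u (fmul u (some a) (some b)) (some c) = none := by
      by_cases h1 : Fac u (a.1 * b.1)
      · rw [fmul_some h1, fmul_none (by exact h)]
      · rw [fmul_none h1]; rfl
    have e2 : fmul u (some a) (fmul u (some b) (some c)) = none := by
      by_cases h1 : Fac u (b.1 * c.1)
      · rw [fmul_some h1, fmul_none (by rw [← mul_assoc]; exact h)]
      · rw [fmul_none h1]; rfl
    rw [e1, e2]

/-- The nilpotent semigroup of nontrivial factors of `u`. -/
noncomputable def SM (hM : ∀ a b : M, a * b = 1 → a = 1) (u : M) : USg where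
  carrier := Option {f : M // Fac u f}
  sg := { mul := fmul u, mul_assoc := fmul_assoc hM u }
  ne := ⟨none⟩
  bar _ := none

/-- The underlying element of a value. -/
def vl {u : M} (x : Option {f : M // Fac u f}) : M := x.elim 1 Subtype.val

/-- Evaluation of terms in the semigroup of factors. -/
noncomputable def evS (u : M) (φ : ℕ → Option {f : M // Fac u f}) :
    Tm → Option {f : M // Fac u f}
  | .v n => φ n
  | .m s t => fmul u (evS u φ s) (evS u φ t)
  | .b _ => none

theorem ev_SM (hM : ∀ a b : M, a * b = 1 → a = 1) (u : M) (φ : ℕ → Option {f : M // Fac u f})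
    (t : Tm) : ev (SM hM u) φ t = evS u φ t := by
  induction t with
  | v n => rfl
  | m s t h1 h2 =>
    show fmul u (ev (SM hM u) φ s) (ev (SM hM u) φ t) = fmul u (evS u φ s) (evS u φ t)
    exact congrArg₂ (fmul u) h1 h2
  | b t _ => rfl

theorem sat_SM {hM : ∀ a b : M, a * b = 1 → a = 1} {u : M} {p : Tm × Tm} :
    Sat (SM hM u) p ↔ ∀ φ, evS u φ p.1 = evS u φ p.2 := by
  constructor
  · intro h φ
    exact (ev_SM hM u φ p.1).symm.trans ((h φ).trans (ev_SM hM u φ p.2))
  · intro h φ
    exact (ev_SM hM u φ p.1).trans ((h φ).trans (ev_SM hM u φ p.2).symm)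

theorem SM_ev {u : M} {φ : ℕ → Option {f : M // Fac u f}} {t : Tm}
    {f : {f : M // Fac u f}} (h : evS u φ t = some f) :
    ∃ l, nb t = some l ∧ (∀ i ∈ l, φ i ≠ none) ∧ f.1 = (l.map fun i => vl (φ i)).prod := by
  induction t generalizing f with
  | v n =>
    refine ⟨[n], rfl, ?_, ?_⟩
    · intro i hi
      rw [List.mem_singleton] at hi
      subst hi
      change φ i = some f at h
      rw [h]; simp
    · change φ n = some f at h
      simp [h, vl]
  | m s t h1 h2 =>
    change fmul u (evS u φ s) (evS u φ t) = some f at h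
    rcases hs : evS u φ s with _ | a
    · rw [hs, fmul_none_left] at h; simp at h
    rcases ht : evS u φ t with _ | c
    · rw [ht, fmul_none_right] at h; simp at h
    rw [hs, ht] at h
    obtain ⟨k, hk1, hk2, hk3⟩ := h1 hs
    obtain ⟨l, hl1, hl2, hl3⟩ := h2 ht
    refine ⟨k ++ l, nb_m_of hk1 hl1, ?_, ?_⟩
    · intro i hi
      rcases List.mem_append.1 hi with hi | hi
      · exact hk2 i hi
      · exact hl2 i hi
    · by_cases hf : Fac u (a.1 * c.1)
      · rw [fmul_some hf] at h
        have := congrArg vl h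
        simp only [vl, Option.elim] at this
        rw [← this, List.map_append, List.prod_append, ← hk3, ← hl3]
      · rw [fmul_none hf] at h; exact absurd h (by simp)
  | b t _ => simp [evS] at h

theorem SM_ev' (hM : ∀ a b : M, a * b = 1 → a = 1) {u : M} {φ : ℕ → Option {f : M // Fac u f}}
    {t : Tm} {l : List ℕ} (h : nb t = some l) (h' : ∀ i ∈ l, φ i ≠ none)
    (hf : Fac u (l.map fun i => vl (φ i)).prod) :
    evS u φ t = some ⟨_, hf⟩ := by
  have hg : ∀ i, φ i ≠ none → vl (φ i) ≠ 1 := by
    intro i hi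
    rcases hx : φ i with _ | g
    · exact absurd hx hi
    · exact g.2.1
  have hne : ∀ l : List ℕ, l ≠ [] → (∀ i ∈ l, φ i ≠ none) → (l.map fun i => vl (φ i)).prod ≠ 1 := by
    intro l hl1 hl2 hl3
    rcases l with _ | ⟨a, l⟩
    · exact hl1 rfl
    · rw [List.map_cons, List.prod_cons] at hl3
      exact hg a (hl2 a (by simp)) (hM _ _ hl3)
  induction t generalizing l with
  | v n =>
    simp [nb] at h
    subst h
    have h1 := h' n (by simp)
    show φ n = _
    rcases hx : φ n with _ | g
    · exact absurd hx h1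
    · congr 1
      apply Subtype.ext
      simp [hx, vl]
  | m s t h1 h2 =>
    obtain ⟨a, c, ha, hc, rfl⟩ := nb_m h
    have hf' : Fac u ((a.map fun i => vl (φ i)).prod * (c.map fun i => vl (φ i)).prod) := by
      rw [← List.prod_append, ← List.map_append]; exact hf
    have ga : ∀ i ∈ a, φ i ≠ none := fun i hi => h' i (List.mem_append_left _ hi)
    have gc : ∀ i ∈ c, φ i ≠ none := fun i hi => h' i (List.mem_append_right _ hi)
    have fa := hf'.left (hne a (nb_ne ha) ga)
    have fc := hf'.right (hne c (nb_ne hc) gc)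
    show fmul u (evS u φ s) (evS u φ t) = _
    rw [h1 ha ga fa, h2 hc gc fc, fmul_some (by exact hf')]
    congr 1
    apply Subtype.ext
    simp
  | b t _ => simp [nb] at h

/-- Conditions on a representation `π` of words by elements of a monoid. -/
structure Rep (M : Type) [Monoid M] (π : List ℕ → M) : Prop where
  one : ∀ a b : M, a * b = 1 → a = 1
  nil : π [] = 1
  app : ∀ a b, π (a ++ b) = π a * π b
  surj : ∀ x, ∃ l, π l = x
  len : ∀ a b, π a = π b → a.length = b.length
  supp : ∀ a b, π a = π b → ∀ z, z ∈ a → z ∈ b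
  cancel : ∀ p q a b, π (p ++ a ++ q) = π (p ++ b ++ q) → π a = π b

theorem Rep.prod {π : List ℕ → M} (h : Rep M π) (τ : ℕ → List ℕ) (l : List ℕ) :
    π (l.flatMap τ) = (l.map fun i => π (τ i)).prod := by
  induction l with
  | nil => simpa using h.nil
  | cons a l ih => rw [List.flatMap_cons, h.app, ih, List.map_cons, List.prod_cons]

theorem Rep.ne_one {π : List ℕ → M} (h : Rep M π) {l : List ℕ} (hl : l ≠ []) : π l ≠ 1 := by
  intro h1
  rw [← h.nil] at h1
  have := h.len _ _ h1
  exact hl (List.length_eq_zero_iff.1 this)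

/-- If the words representing `π u` are isoterms for `V` (relative to `π`) then `V` contains the
semigroup of factors of `π u`. -/
theorem Rep.mem_SM {π : List ℕ → M} (h : Rep M π) {V : EpiVar} {u : List ℕ}
    (h1 : ∀ u' w, π u' = π u → V.sat (wt u', w) → ∃ l, nb w = some l ∧ π l = π u) :
    V.mem (SM h.one (π u)) := by
  have key : ∀ (s t : Tm), V.sat (s, t) → ∀ (φ : ℕ → Option {f : M // Fac (π u) f})
      (f : {f : M // Fac (π u) f}), evS (π u) φ s = some f → evS (π u) φ t = some f := by
    intro s t hst φ f hf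
    obtain ⟨l, hl1, hl2, hl3⟩ := SM_ev hf
    obtain ⟨p, q, hpq⟩ := f.2.2
    obtain ⟨p', rfl⟩ := h.surj p
    obtain ⟨q', rfl⟩ := h.surj q
    -- a fresh letter
    obtain ⟨z, hz⟩ : ∃ z, z ∉ u := by
      have := Infinite.exists_notMem_finset u.toFinset
      simpa using this
    have hτ : ∀ i, ∃ k : List ℕ, k ≠ [] ∧ (φ i ≠ none → π k = vl (φ i)) ∧ (φ i = none → k = [z]) := by
      intro i
      rcases hx : φ i with _ | g
      · exact ⟨[z], by simp, by simp, fun _ => rfl⟩
      · obtain ⟨k, hk⟩ := h.surj g.1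
        refine ⟨k, ?_, fun _ => hk, by simp⟩
        rintro rfl
        apply g.2.1
        rw [← hk, h.nil]
    choose τ hτ1 hτ2 hτ3 using hτ
    have hprod : ∀ l : List ℕ, (∀ i ∈ l, φ i ≠ none) →
        π (l.flatMap τ) = (l.map fun i => vl (φ i)).prod := by
      intro l hl
      rw [h.prod]
      congr 1
      apply List.map_congr_left
      intro i hi
      exact hτ2 i (hl i hi)
    set σ : ℕ → Tm := fun i => wt (τ i) with hσ
    have hσ' : ∀ i, nb (σ i) = some (τ i) := fun i => nb_wt (hτ1 i)
    have e1 := V.sat_post (V.sat_pre (V.sat_sub hst σ) p') q'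
    have e2 := nb_post q' (nb_pre p' (nb_sub hσ' hl1))
    have e3 : π (p' ++ l.flatMap τ ++ q') = π u := by
      rw [h.app, h.app, hprod l hl2, ← hl3, hpq]
    have e4 : V.sat (wt (p' ++ l.flatMap τ ++ q'), post (pre p' (sub σ t)) q') := by
      refine V.sat_trans ?_ e1
      intro A _
      exact sat_nb A e2
    obtain ⟨l', hl'1, hl'2⟩ := h1 _ _ e3 e4
    have e5 : ∃ k, nb t = some k := by
      rcases ht : nb t with _ | k
      · rw [nb_post_none q' (nb_pre_none p' (nb_sub_none ht))] at hl'1
        simp at hl'1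
      · exact ⟨k, rfl⟩
    obtain ⟨k, hk⟩ := e5
    rw [nb_post q' (nb_pre p' (nb_sub hσ' hk))] at hl'1
    simp only [Option.some.injEq] at hl'1
    subst hl'1
    have hk2 : ∀ i ∈ k, φ i ≠ none := by
      intro i hi hi'
      apply hz
      apply h.supp _ _ hl'2
      have : z ∈ k.flatMap τ := by
        rw [List.mem_flatMap]
        exact ⟨i, hi, by rw [hτ3 i hi']; simp⟩
      simp [this]
    have e6 : π (k.flatMap τ) = π (l.flatMap τ) := h.cancel p' q' _ _ (hl'2.trans e3.symm)
    rw [hprod k hk2, hprod l hl2, ← hl3] at e6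
    have e7 : Fac (π u) (k.map fun i => vl (φ i)).prod := by
      rw [e6]; exact f.2
    rw [SM_ev' h.one hk hk2 e7]
    congr 1
    exact Subtype.ext e6
  rw [V.mem_iff]
  intro p hp
  rw [sat_SM]
  intro φ
  have h3 := key p.1 p.2 hp φ
  have h4 := key p.2 p.1 (V.sat_symm hp) φ
  rcases hx : evS (π u) φ p.1 with _ | f
  · rcases hy : evS (π u) φ p.2 with _ | g
    · rfl
    · have := h4 g hy
      rw [hx] at this; simp at this
  · exact (h3 f hx).symm

theorem Rep.of_sat {π : List ℕ → M} (h : Rep M π) {u : List ℕ} (hu : u ≠ []) {w : Tm}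
    (hw : Sat (SM h.one (π u)) (wt u, w)) : ∃ l, nb w = some l ∧ π l = π u := by
  classical
  set φ : ℕ → Option {f : M // Fac (π u) f} :=
    fun i => if hi : Fac (π u) (π [i]) then some ⟨_, hi⟩ else none with hφ
  have hg : ∀ i, φ i ≠ none → vl (φ i) = π [i] := by
    intro i hi
    by_cases h1 : Fac (π u) (π [i])
    · have : φ i = some ⟨_, h1⟩ := by simp [hφ, h1]
      rw [this]; rfl
    · exact absurd (by simp [hφ, h1]) hi
  have hprod : ∀ l : List ℕ, (∀ i ∈ l, φ i ≠ none) →
      (l.map fun i => vl (φ i)).prod = π l := by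
    intro l hl
    have e : l.flatMap (fun i => [i]) = l := by simp
    have e2 := h.prod (fun i => [i]) l
    rw [e] at e2
    rw [e2]
    congr 1
    apply List.map_congr_left
    intro i hi
    exact hg i (hl i hi)
  have hu1 : ∀ i ∈ u, φ i ≠ none := by
    intro i hi
    have h1 : Fac (π u) (π [i]) := by
      refine ⟨h.ne_one (by simp), ?_⟩
      obtain ⟨a, b, rfl⟩ := List.append_of_mem hi
      refine ⟨π a, π b, ?_⟩
      rw [← h.app, ← h.app]; simp
    have : φ i = some ⟨_, h1⟩ := by simp [hφ, h1]
    rw [this]; simp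
  have hf : Fac (π u) (u.map fun i => vl (φ i)).prod := by
    rw [hprod u hu1]
    exact ⟨h.ne_one hu, 1, 1, by simp⟩
  have e1 := SM_ev' h.one (nb_wt hu) hu1 hf
  have e2 : evS (π u) φ w = _ := (sat_SM.1 hw φ).symm.trans e1
  obtain ⟨l, hl1, hl2, hl3⟩ := SM_ev e2
  refine ⟨l, hl1, ?_⟩
  exact ((hprod l hl2).symm.trans hl3.symm).trans (hprod u hu1)

end SM

/-! ## The two instances: words and commutative words -/

theorem repList : Rep (FreeMonoid ℕ) FreeMonoid.ofList where
  one a b h := by
    have : (FreeMonoid.toList a) ++ (FreeMonoid.toList b) = [] := by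
      rw [← FreeMonoid.toList_mul, h]; rfl
    have h2 := (List.append_eq_nil_iff.1 this).1
    exact FreeMonoid.toList.injective h2
  nil := rfl
  app a b := FreeMonoid.ofList_append a b
  surj x := ⟨FreeMonoid.toList x, by simp⟩
  len a b h := by rw [FreeMonoid.ofList.injective h]
  supp a b h := by rw [FreeMonoid.ofList.injective h]; exact fun _ h => h
  cancel p q a b h := by
    have := FreeMonoid.ofList.injective h
    rw [List.append_left_inj, List.append_right_inj] at this
    rw [this]

/-- The semigroup of nonempty factors of the word `u`, with zero. -/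
noncomputable def SW (u : List ℕ) : USg := SM repList.one (FreeMonoid.ofList u)

theorem SW_mem {V : EpiVar} {u : List ℕ} (h : ∀ w, V.sat (wt u, w) → nb w = some u) :
    V.mem (SW u) := by
  apply repList.mem_SM
  intro u' w hu' hw
  obtain rfl := FreeMonoid.ofList.injective hu'
  exact ⟨u', h w hw, rfl⟩

theorem SW_sat {u : List ℕ} (hu : u ≠ []) {w : Tm} (hw : Sat (SW u) (wt u, w)) :
    nb w = some u := by
  obtain ⟨l, h1, h2⟩ := repList.of_sat hu hw
  rw [← FreeMonoid.ofList.injective h2]; exact h1

theorem SW_iso {V : EpiVar} {u : List ℕ} (hu : u ≠ []) (h : V.mem (SW u)) {w : Tm}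
    (hw : V.sat (wt u, w)) : nb w = some u := SW_sat hu (hw _ h)

/-- Representation of words by multisets. -/
def πc (l : List ℕ) : Multiplicative (Multiset ℕ) := Multiplicative.ofAdd (l : Multiset ℕ)

theorem πc_iff {a b : List ℕ} : πc a = πc b ↔ a.Perm b := by
  unfold πc
  rw [Multiplicative.ofAdd.injective.eq_iff, Multiset.coe_eq_coe]

theorem repMul : Rep (Multiplicative (Multiset ℕ)) πc where
  one a b h := by
    have : Multiplicative.toAdd a + Multiplicative.toAdd b = 0 := by
      rw [← toAdd_mul, h]; rfl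
    have h2 := (add_eq_zero.1 this).1
    exact Multiplicative.toAdd.injective h2
  nil := rfl
  app a b := by
    unfold πc
    rw [← Multiset.coe_add, ofAdd_add]
  surj x := by
    obtain ⟨l, hl⟩ := Quotient.exists_rep (Multiplicative.toAdd x)
    exact ⟨l, congrArg Multiplicative.ofAdd hl⟩
  len a b h := (πc_iff.1 h).length_eq
  supp a b h z hz := (πc_iff.1 h).mem_iff.1 hz
  cancel p q a b h := by
    have h1 := πc_iff.1 h
    rw [List.perm_append_right_iff, List.perm_append_left_iff] at h1
    exact πc_iff.2 h1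

/-- The commutative semigroup of nonempty factors of the commutative word `u`, with zero. -/
noncomputable def SC (u : List ℕ) : USg := SM repMul.one (πc u)

theorem SC_mem {V : EpiVar} {u : List ℕ}
    (h : ∀ u' w, u'.Perm u → V.sat (wt u', w) → ∃ l, nb w = some l ∧ l.Perm u) :
    V.mem (SC u) := by
  apply repMul.mem_SM
  intro u' w hu' hw
  obtain ⟨l, h1, h2⟩ := h u' w (πc_iff.1 hu') hw
  exact ⟨l, h1, πc_iff.2 h2⟩

theorem SC_sat {u : List ℕ} (hu : u ≠ []) {w : Tm} (hw : Sat (SC u) (wt u, w)) :
    ∃ l, nb w = some l ∧ l.Perm u := by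
  obtain ⟨l, h1, h2⟩ := repMul.of_sat hu hw
  exact ⟨l, h1, πc_iff.1 h2⟩

theorem W_perm {A : USg} (hA : ∀ x y : A, x * y = y * x) (φ : ℕ → A) {l l' : List ℕ}
    (h : l.Perm l') : W A φ l = W A φ l' := by
  induction h with
  | nil => rfl
  | cons x _ ih => rw [W_cons, W_cons, ih]
  | swap x y l =>
    rw [W_cons, W_cons, W_cons, W_cons, ← mul_assoc, ← mul_assoc, ← WithOne.coe_mul, hA,
      WithOne.coe_mul]
  | trans _ _ h1 h2 => rw [h1, h2]

theorem sat_perm {A : USg} (hA : ∀ x y : A, x * y = y * x) {l l' : List ℕ} (hl : l ≠ [])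
    (h : l.Perm l') : Sat A (wt l, wt l') := by
  have hl' : l' ≠ [] := by
    rintro rfl
    exact hl h.eq_nil
  rw [sat_word_iff hl hl']
  intro φ
  exact W_perm hA φ h

end Pool.Agent.H399.Epi
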