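import Pool.Agent.H867.FT.Gen

/-!
# RK2 (helper399, for helper867): rank at most two is Gorenstein

If `R` is a free `P`-module with basis `1` or `1, z`, the codifferent of `R / P` is principal:
it is `R`, resp. `(2 z - t)⁻¹ R` with `z² = t z - n`.
-/

namespace Pool.Agent.H399.FT

section

set_option linter.unusedSectionVars false

variable {m : ℕ} {P R L K : Type} [CommRing P] [IsDomain P] [CommRing R] [IsDomain R]
    [Algebra P R] [Field L] [Algebra P L] [IsFractionRing P L]
    [Field K] [Algebra R K] [IsFractionRing R K] [Algebra P K] [IsScalarTower P R K]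
    [Algebra L K] [IsScalarTower P L K] [FiniteDimensional L K]

theorem linInd (bs : Module.Basis (Fin (m + 1)) P R) :
    LinearIndependent L (fun i => algebraMap R K (bs i)) := by
  have h1 : LinearIndependent P (fun i => algebraMap R K (bs i)) := by
    have := bs.linearIndependent.map' (IsScalarTower.toAlgHom P R K).toLinearMap (by
      rw [LinearMap.ker_eq_bot]
      exact IsFractionRing.injective R K)
    exact this
  exact h1.localization L (nonZeroDivisors P)

theorem spanTop (bs : Module.Basis (Fin (m + 1)) P R) :
    ⊤ ≤ Submodule.span L (Set.range fun i => algebraMap R K (bs i)) := by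
  classical
  have hR : ∀ r : R, algebraMap R K r ∈
      Submodule.span L (Set.range fun i => algebraMap R K (bs i)) := by
    intro r
    rw [← bs.sum_repr r, map_sum]
    refine Submodule.sum_mem _ fun i _ => ?_
    rw [Algebra.smul_def, map_mul, ← IsScalarTower.algebraMap_apply P R K,
      IsScalarTower.algebraMap_apply P L K, ← Algebra.smul_def]
    exact Submodule.smul_mem _ _ (Submodule.subset_span ⟨i, rfl⟩)
  have hadj : Subalgebra.toSubmodule (Algebra.adjoin L (Set.range (algebraMap R K))) ≤
      Submodule.span L (Set.range fun i => algebraMap R K (bs i)) := by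
    rw [Algebra.adjoin_eq_span]
    have hcl : (Submonoid.closure (Set.range (algebraMap R K)) : Set K) =
        Set.range (algebraMap R K) := by
      have h := Submonoid.closure_eq (MonoidHom.mrange (algebraMap R K : R →* K))
      have h2 : ((MonoidHom.mrange (algebraMap R K : R →* K) : Submonoid K) : Set K) =
          Set.range (algebraMap R K) := by
        ext x
        simp
      rw [h2] at h
      rw [h, h2]
    rw [hcl, Submodule.span_le]
    rintro _ ⟨r, rfl⟩
    exact hR r
  intro y _
  apply hadj
  rw [Subalgebra.mem_toSubmodule]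
  obtain ⟨r, s, hs, rfl⟩ := IsFractionRing.div_surjective (A := R) y
  rw [div_eq_mul_inv]
  refine Subalgebra.mul_mem _ (Algebra.subset_adjoin ⟨r, rfl⟩) ?_
  have hs' : algebraMap R K s ∈ Algebra.adjoin L (Set.range (algebraMap R K)) :=
    Algebra.subset_adjoin ⟨s, rfl⟩
  exact Subalgebra.inv_mem_of_algebraic (A := Algebra.adjoin L (Set.range (algebraMap R K)))
    (x := ⟨algebraMap R K s, hs'⟩) (Algebra.IsAlgebraic.isAlgebraic (R := L) (algebraMap R K s))

/-- The `L`-basis of `K` obtained from the `P`-basis of `R`. -/
noncomputable def fbasis (bs : Module.Basis (Fin (m + 1)) P R) :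
    Module.Basis (Fin (m + 1)) L K :=
  Module.Basis.mk (linInd (L := L) (K := K) bs) (spanTop (L := L) (K := K) bs)

theorem fbasis_apply (bs : Module.Basis (Fin (m + 1)) P R) (i : Fin (m + 1)) :
    (fbasis bs : Module.Basis (Fin (m + 1)) L K) i = algebraMap R K (bs i) := by
  rw [fbasis, Module.Basis.mk_apply]

end

theorem rk2 : Pool.Agent.H867.FT.S_RK2 := by
  intro m P R L K _ _ _ _ _ _ _ _ _ _ _ _ _ _ _ _ _ bs C h0 hm hC
  have hinj : Function.Injective (algebraMap R K) := IsFractionRing.injective R K
  set B : Module.Basis (Fin (m + 1)) L K := fbasis bs with hB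
  have hBi : ∀ i, B i = algebraMap R K (bs i) := fun i => fbasis_apply bs i
  have hPRK : ∀ g : P, algebraMap R K (algebraMap P R g) = algebraMap L K (algebraMap P L g) := by
    intro g
    rw [← IsScalarTower.algebraMap_apply P R K, ← IsScalarTower.algebraMap_apply P L K]
  obtain rfl | rfl : m = 0 ∨ m = 1 := by omega
  · -- rank one
    have hfr : Module.finrank L K = 1 := by
      rw [Module.finrank_eq_card_basis B, Fintype.card_fin]
    have hK : ∀ y : K, ∃ l : L, y = algebraMap L K l := by
      intro y
      refine ⟨B.repr y 0, ?_⟩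
      conv_lhs => rw [← B.sum_repr y]
      rw [Fin.sum_univ_one, hBi, h0, map_one, Algebra.smul_def, mul_one]
    have hR : ∀ r : R, ∃ g : P, r = algebraMap P R g := by
      intro r
      refine ⟨bs.repr r 0, ?_⟩
      conv_lhs => rw [← bs.sum_repr r]
      rw [Fin.sum_univ_one, h0, Algebra.smul_def, mul_one]
    have htr : ∀ l : L, Algebra.trace L K (algebraMap L K l) = l := by
      intro l
      rw [Algebra.trace_algebraMap, hfr, one_smul]
    refine ⟨1, one_ne_zero, ?_⟩
    ext y
    rw [hC, Submodule.mem_span_singleton]
    constructor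
    · intro h
      obtain ⟨g, hg⟩ := h 1
      obtain ⟨l, rfl⟩ := hK y
      rw [map_one, mul_one, htr] at hg
      refine ⟨algebraMap P R g, ?_⟩
      rw [Algebra.smul_def, mul_one, hPRK, hg]
    · rintro ⟨r, rfl⟩ s
      obtain ⟨g, hg⟩ := hR (r * s)
      refine ⟨g, ?_⟩
      rw [Algebra.smul_def, mul_one, ← map_mul, hg, hPRK, htr]
  · -- rank two
    set z : R := bs 1 with hz
    set Z : K := algebraMap R K z with hZ
    have hB0 : B 0 = 1 := by rw [hBi, h0, map_one]
    have hB1 : B 1 = Z := by rw [hBi]
    -- coordinates
    have hR : ∀ r : R, ∃ g₀ g₁ : P, r = algebraMap P R g₀ + algebraMap P R g₁ * z := by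
      intro r
      refine ⟨bs.repr r 0, bs.repr r 1, ?_⟩
      conv_lhs => rw [← bs.sum_repr r]
      rw [Fin.sum_univ_two, h0, Algebra.smul_def, Algebra.smul_def, mul_one]
    have hK : ∀ y : K, ∃ l₀ l₁ : L, y = algebraMap L K l₀ + algebraMap L K l₁ * Z := by
      intro y
      refine ⟨B.repr y 0, B.repr y 1, ?_⟩
      conv_lhs => rw [← B.sum_repr y]
      rw [Fin.sum_univ_two, hB0, hB1, Algebra.smul_def, Algebra.smul_def, mul_one]
    have hrepr : ∀ (l₀ l₁ : L) , B.repr (algebraMap L K l₀ + algebraMap L K l₁ * Z) 0 = l₀ ∧
        B.repr (algebraMap L K l₀ + algebraMap L K l₁ * Z) 1 = l₁ := by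
      intro l₀ l₁
      have h1 : algebraMap L K l₀ + algebraMap L K l₁ * Z = l₀ • B 0 + l₁ • B 1 := by
        rw [hB0, hB1, Algebra.smul_def, Algebra.smul_def, mul_one]
      rw [h1]
      simp [Module.Basis.repr_self]
    obtain ⟨n', t, hzz⟩ := hR (z * z)
    have hZZ : Z * Z = algebraMap L K (algebraMap P L n') + algebraMap L K (algebraMap P L t) * Z := by
      rw [hZ, ← map_mul, hzz, map_add, map_mul, hPRK, hPRK]
    set N : L := algebraMap P L n' with hN
    set T : L := algebraMap P L t with hT
    have htr : ∀ a b : L, Algebra.trace L K (algebraMap L K a + algebraMap L K b * Z) =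
        2 * a + b * T := by
      intro a b
      rw [Algebra.trace_eq_matrix_trace B, Matrix.trace_fin_two, Algebra.leftMulMatrix_eq_repr_mul,
        Algebra.leftMulMatrix_eq_repr_mul, hB0, hB1, mul_one, (hrepr a b).1]
      have h1 : (algebraMap L K a + algebraMap L K b * Z) * Z =
          algebraMap L K (b * N) + algebraMap L K (a + b * T) * Z := by
        have : (algebraMap L K a + algebraMap L K b * Z) * Z =
          algebraMap L K a * Z + algebraMap L K b * (Z * Z) := by ring
        rw [this, hZZ, map_mul, map_add, map_mul]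
        ring
      rw [h1, (hrepr _ _).2]
      ring
    have hzc : ∀ a b : L, (algebraMap L K a + algebraMap L K b * Z) * Z =
          algebraMap L K (b * N) + algebraMap L K (a + b * T) * Z := by
      intro a b
      have : (algebraMap L K a + algebraMap L K b * Z) * Z =
        algebraMap L K a * Z + algebraMap L K b * (Z * Z) := by ring
      rw [this, hZZ, map_mul, map_add, map_mul]
      ring
    -- multiplication by `2 Z - T`
    set D : K := 2 * Z - algebraMap L K T with hD
    have hmul : ∀ a b : L, (algebraMap L K a + algebraMap L K b * Z) * D =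
        algebraMap L K (2 * b * N - a * T) + algebraMap L K (2 * a + b * T) * Z := by
      intro a b
      have : (algebraMap L K a + algebraMap L K b * Z) * D =
        (2 * algebraMap L K a - algebraMap L K b * algebraMap L K T) * Z
          - algebraMap L K a * algebraMap L K T + 2 * algebraMap L K b * (Z * Z) := by
        rw [hD]; ring
      rw [this, hZZ]
      simp only [map_mul, map_add, map_sub, map_ofNat]
      ring
    have hD0 : D ≠ 0 := by
      intro hD0
      apply Algebra.trace_ne_zero L K
      ext y
      obtain ⟨a, b, rfl⟩ := hK y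
      have h1 := hmul a b
      rw [hD0, mul_zero] at h1
      have h2 := (hrepr (2 * b * N - a * T) (2 * a + b * T)).2
      rw [← h1, map_zero] at h2
      rw [htr, LinearMap.zero_apply, ← h2]
      rfl
    refine ⟨D⁻¹, inv_ne_zero hD0, ?_⟩
    ext y
    rw [hC, Submodule.mem_span_singleton]
    obtain ⟨a, b, rfl⟩ := hK y
    constructor
    · intro h
      obtain ⟨u, hu⟩ := h 1
      obtain ⟨v, hv⟩ := h z
      rw [map_one, mul_one, htr] at hu
      rw [← hZ, hzc, htr] at hv
      refine ⟨algebraMap P R (v - t * u) + algebraMap P R u * z, ?_⟩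
      rw [Algebra.smul_def]
      rw [← div_eq_mul_inv, div_eq_iff hD0, hmul, map_add, map_mul, hPRK, hPRK, ← hZ, hu,
        map_sub, map_mul, hu, hv, ← hT]
      congr 2
      ring
    · rintro ⟨r, hr⟩ s
      -- `y s D ∈ R`
      obtain ⟨c, e, hce⟩ := hR (r * s)
      obtain ⟨a', b', hab⟩ := hK ((algebraMap L K a + algebraMap L K b * Z) * algebraMap R K s)
      refine ⟨e, ?_⟩
      rw [hab, htr]
      have h1 := hmul a' b'
      rw [← hab, ← hr, Algebra.smul_def] at h1
      have h2 : algebraMap R K r * D⁻¹ * algebraMap R K s * D = algebraMap R K (r * s) := by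
        rw [map_mul]
        field_simp
      rw [h2, hce, map_add, map_mul, hPRK, hPRK, ← hZ] at h1
      have h3 := congrArg (fun w => B.repr w 1) h1
      rw [(hrepr _ _).2, (hrepr _ _).2] at h3
      exact h3

end Pool.Agent.H399.FT
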