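import Mathlib

/-!
Involutive commutative residuated lattices, their bimonoidal reducts and subreducts.
-/

universe u

namespace Pool.Agent.H399.Knot

/-- Involutive commutative residuated lattices: a lattice, a commutative monoid, a residual `imp`
of the multiplication, and a constant `zer` such that the double negation law holds for
`x ↦ imp x zer`. -/
class ICRL (A : Type u) extends Lattice A, CommMonoid A where
  imp : A → A → A
  zer : A
  res : ∀ x y z : A, x * y ≤ z ↔ y ≤ imp x z
  dneg : ∀ x : A, imp (imp x zer) zer = x

/-- The involution `x ↦ imp x zer`. -/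
def neg {A : Type u} [ICRL A] (x : A) : A := ICRL.imp x ICRL.zer

/-- The addition `x + y := ¬ (¬ x * ¬ y)` of an involutive commutative residuated lattice. -/
def plus {A : Type u} [ICRL A] (x y : A) : A := neg (neg x * neg y)

/-- Algebras in the signature of lattice-ordered bimonoids, without any axioms:
two lattice operations, a multiplication, an addition and two constants. -/
structure BAlg : Type (u + 1) where
  carrier : Type u
  inf : carrier → carrier → carrier
  sup : carrier → carrier → carrier
  mul : carrier → carrier → carrier
  add : carrier → carrier → carrier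
  one : carrier
  zero : carrier

/-- The bimonoidal reduct of an involutive commutative residuated lattice. -/
def reduct (A : Type u) [ICRL A] : BAlg.{u} where
  carrier := A
  inf := fun x y => x ⊓ y
  sup := fun x y => x ⊔ y
  mul := fun x y => x * y
  add := plus
  one := 1
  zero := ICRL.zer

/-- Homomorphisms of algebras in the bimonoid signature. -/
structure IsHom (A B : BAlg.{u}) (f : A.carrier → B.carrier) : Prop where
  map_inf : ∀ x y, f (A.inf x y) = B.inf (f x) (f y)
  map_sup : ∀ x y, f (A.sup x y) = B.sup (f x) (f y)
  map_mul : ∀ x y, f (A.mul x y) = B.mul (f x) (f y)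
  map_add : ∀ x y, f (A.add x y) = B.add (f x) (f y)
  map_one : f A.one = B.one
  map_zero : f A.zero = B.zero

/-- Direct products of algebras in the bimonoid signature. -/
def prodAlg {ι : Type u} (A : ι → BAlg.{u}) : BAlg.{u} where
  carrier := ∀ i, (A i).carrier
  inf := fun x y i => (A i).inf (x i) (y i)
  sup := fun x y i => (A i).sup (x i) (y i)
  mul := fun x y i => (A i).mul (x i) (y i)
  add := fun x y i => (A i).add (x i) (y i)
  one := fun i => (A i).one
  zero := fun i => (A i).zero

/-- A class of algebras of the bimonoid signature forms a variety if it is closed under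
homomorphic images, subalgebras (up to isomorphism) and direct products. -/
structure FormsVariety (K : BAlg.{u} → Prop) : Prop where
  hom_image : ∀ (A B : BAlg.{u}) (f : A.carrier → B.carrier),
    K A → IsHom A B f → Function.Surjective f → K B
  subalg : ∀ (A B : BAlg.{u}) (f : B.carrier → A.carrier),
    K A → IsHom B A f → Function.Injective f → K B
  prod : ∀ (ι : Type u) (A : ι → BAlg.{u}), (∀ i, K (A i)) → K (prodAlg A)

/-- A class of involutive commutative residuated lattices. -/
abbrev ICRLClass : Type (u + 1) := ∀ (A : Type u) [ICRL A], Prop

/-- The bimonoidal subreducts of a class `V`: the algebras that embed in the bimonoidal reduct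
of some member of `V`. -/
def IsSubreduct (V : ICRLClass.{u}) (B : BAlg.{u}) : Prop :=
  ∃ (G : Type u) (_ : ICRL G) (f : B.carrier → G), V G ∧ IsHom B (reduct G) f ∧
    Function.Injective f

/-- The class of involutive commutative residuated lattices satisfying `x ^ m ≤ x ^ n`. -/
def PowLe (m n : ℕ) : ICRLClass.{u} := fun A _ => ∀ x : A, x ^ m ≤ x ^ n

/-- Knotted varieties: the classes of involutive commutative residuated lattices axiomatized by
an inequality `x ^ m ≤ x ^ n` with `m, n ≥ 1`. -/
def IsKnotted (V : ICRLClass.{u}) : Prop :=
  ∃ m n : ℕ, 1 ≤ m ∧ 1 ≤ n ∧ ∀ (A : Type u) [ICRL A], V A ↔ ∀ x : A, x ^ m ≤ x ^ n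

end Pool.Agent.H399.Knot
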