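import Pool.Agent.H399.KnotGalois

/-!
The doubling construction.
-/

universe u

namespace Pool.Agent.H399.Knot

section Double

variable {L : Type u}

/-- The monoid of functions `L → ℕ` in which multiples of `p` and of `q` get flagged copies. -/
def MA (p q : L → ℕ) : AddSubmonoid ((L → ℕ) × ℕ) where
  carrier := {z | z.2 = 0 ∨ p ≤ z.1 ∨ q ≤ z.1}
  zero_mem' := Or.inl rfl
  add_mem' := by
    rintro a b ha hb
    simp only [Set.mem_ofPred_eq, Prod.fst_add, Prod.snd_add] at *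
    rcases ha with ha | ha | ha
    · rcases hb with hb | hb | hb
      · left; omega
      · right; left; exact le_add_left hb
      · right; right; exact le_add_left hb
    · right; left; exact le_add_right ha
    · right; right; exact le_add_right ha

/-- The literal copy of an element. -/
def lt0 (p q : L → ℕ) (u : L → ℕ) : MA p q := ⟨(u, 0), Or.inl rfl⟩

/-- The set `N` of the doubled monoid: the literal copy of `p + q` is removed. -/
def NA (N : Set (L → ℕ)) (p q : L → ℕ) : Set (MA p q) :=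
  {z | z.1.1 ∈ N ∧ (z.1.2 = 0 → z.1.1 ≠ p + q)}

structure R0 {p q : L → ℕ} (r : L → ℕ) (X : Set (MA p q)) (Y : Set (L → ℕ)) : Prop where
  down : ∀ z ∈ X, z.1.1 ∈ Y
  flag : ∀ z : MA p q, z.1.2 ≠ 0 → z.1.1 ∈ Y → z ∈ X
  lit : ∀ u ∈ Y, lt0 p q u ∈ X ∨ r ≤ u

theorem R0.lift {p q r : L → ℕ} {X : Set (MA p q)} {Y : Set (L → ℕ)} (h : R0 r X Y)
    (hr : r = p ∨ r = q) {u : L → ℕ} (hu : u ∈ Y) : ∃ z ∈ X, z.1.1 = u := by
  rcases h.lit u hu with h1 | h1
  · exact ⟨_, h1, rfl⟩
  · refine ⟨⟨(u, 1), ?_⟩, h.flag _ (by simp) hu, rfl⟩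
    rcases hr with rfl | rfl
    · exact Or.inr (Or.inl h1)
    · exact Or.inr (Or.inr h1)

theorem not_mem_NA {N : Set (L → ℕ)} {p q : L → ℕ} {z : MA p q} (hz : z ∉ NA N p q)
    (h : z.1.1 ∈ N) : z.1.2 = 0 ∧ z.1.1 = p + q := by
  unfold NA at hz
  simp only [Set.mem_ofPred_eq, not_and, not_forall] at hz
  obtain ⟨h1, h2⟩ := hz h
  exact ⟨h1, not_not.mp h2⟩

/-- The standing assumptions. -/
structure Ctx (N : Set (L → ℕ)) (p q T r s : L → ℕ) : Prop where
  hrs : r + s = p + q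
  hr : r = p ∨ r = q
  hs : s = p ∨ s = q
  disj : ∀ l, r l = 0 ∨ s l = 0
  hT : p + q + T ∉ N
  hN : ∀ v ∈ N, v ≠ p + q → v + T ∈ N

variable {N : Set (L → ℕ)} {p q T r s : L → ℕ}

theorem R0_inf (C : Ctx N p q T r s) {X1 X2 : Set (MA p q)} {Y1 Y2 : Set (L → ℕ)}
    (h1 : R0 r X1 Y1) (h2 : R0 r X2 Y2)
    (g1 : R0 s (perp (NA N p q) X1) (perp N Y1)) (g2 : R0 s (perp (NA N p q) X2) (perp N Y2))
    (c1 : perp N (perp N Y1) = Y1) (c2 : perp N (perp N Y2) = Y2) :
    R0 r (X1 ∩ X2) (Y1 ∩ Y2) ∧ R0 s (perp (NA N p q) (X1 ∩ X2)) (perp N (Y1 ∩ Y2)) := by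
  have A : R0 r (X1 ∩ X2) (Y1 ∩ Y2) := by
    refine ⟨fun z hz => ⟨h1.down z hz.1, h2.down z hz.2⟩,
      fun z hz hy => ⟨h1.flag z hz hy.1, h2.flag z hz hy.2⟩, fun u hu => ?_⟩
    rcases h1.lit u hu.1 with a | a
    · rcases h2.lit u hu.2 with b | b
      · exact Or.inl ⟨a, b⟩
      · exact Or.inr b
    · exact Or.inr a
  refine ⟨A, ⟨?_, ?_, ?_⟩⟩
  · intro z hz y hy
    obtain ⟨x, hx, rfl⟩ := A.lift C.hr hy
    exact (hz x hx).1
  · intro z hz hy x hx
    refine ⟨hy _ (A.down x hx), fun h => absurd h ?_⟩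
    show x.1.2 + z.1.2 ≠ 0
    omega
  · intro u hu
    by_cases hmem : lt0 p q u ∈ perp (NA N p q) (X1 ∩ X2)
    · exact Or.inl hmem
    · right
      unfold perp at hmem
      simp only [Set.mem_ofPred_eq, not_forall] at hmem
      obtain ⟨x, hx, hxu⟩ := hmem
      have hy := A.down x hx
      obtain ⟨e1, e2⟩ := not_mem_NA hxu (hu _ hy)
      have e2' : x.1.1 + u = p + q := e2
      have e1' : x.1.2 = 0 := by
        have : x.1.2 + 0 = 0 := e1
        omega
      -- u lies in one of the polars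
      have key : ∀ (Y : Set (L → ℕ)), perp N (perp N Y) = Y → x.1.1 ∈ Y → x.1.1 + T ∉ Y →
          u ∈ perp N Y := by
        intro Y cY hxY hxT
        rw [← cY] at hxT
        unfold perp at hxT
        simp only [Set.mem_ofPred_eq, not_forall] at hxT
        obtain ⟨w, hw, hwT⟩ := hxT
        have hw' : w ∈ perp N Y := hw
        have h3 : x.1.1 + w ∈ N := hw' _ hxY
        have h4 : x.1.1 + w = p + q := by
          by_contra hne
          have := C.hN _ h3 hne
          apply hwT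
          have e : w + (x.1.1 + T) = x.1.1 + w + T := by abel
          rw [e]; exact this
        have : w = u := by
          have : x.1.1 + w = x.1.1 + u := by rw [h4, e2']
          exact add_left_cancel this
        rw [← this]; exact hw'
      have hnot : x.1.1 + T ∉ Y1 ∩ Y2 := by
        intro h
        have := hu _ h
        apply C.hT
        have e : p + q + T = x.1.1 + T + u := by rw [← e2']; abel
        rw [e]; exact this
      have fin : ∀ (X : Set (MA p q)) (Y : Set (L → ℕ)), x ∈ X → u ∈ perp N Y →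
          R0 s (perp (NA N p q) X) (perp N Y) → s ≤ u := by
        intro X Y hxX hu' g
        rcases g.lit u hu' with h | h
        · exact absurd (h x hxX) hxu
        · exact h
      by_cases hY1 : x.1.1 + T ∈ Y1
      · have hY2 : x.1.1 + T ∉ Y2 := fun h => hnot ⟨hY1, h⟩
        exact fin X2 Y2 hx.2 (key Y2 c2 hy.2 hY2) g2
      · exact fin X1 Y1 hx.1 (key Y1 c1 hy.1 hY1) g1

theorem R0_DD (C : Ctx N p q T r s) {X1 X2 : Set (MA p q)} {Y1 Y2 : Set (L → ℕ)}
    (h1 : R0 r X1 Y1) (h2 : R0 r X2 Y2)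
    (g1 : R0 s (perp (NA N p q) X1) (perp N Y1)) (g2 : R0 s (perp (NA N p q) X2) (perp N Y2)) :
    R0 s (DD (NA N p q) X1 X2) (DD N Y1 Y2) ∧
      R0 r (perp (NA N p q) (DD (NA N p q) X1 X2)) (perp N (DD N Y1 Y2)) := by
  have A : R0 s (DD (NA N p q) X1 X2) (DD N Y1 Y2) := by
    refine ⟨?_, ?_, ?_⟩
    · intro z hz y1 hy1 y2 hy2
      obtain ⟨x1, hx1, rfl⟩ := h1.lift C.hr hy1
      obtain ⟨x2, hx2, rfl⟩ := h2.lift C.hr hy2
      exact (hz x1 hx1 x2 hx2).1
    · intro z hz hy x1 hx1 x2 hx2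
      refine ⟨hy _ (h1.down x1 hx1) _ (h2.down x2 hx2), fun h => absurd h ?_⟩
      show x1.1.2 + x2.1.2 + z.1.2 ≠ 0
      omega
    · intro u hu
      by_cases hmem : lt0 p q u ∈ DD (NA N p q) X1 X2
      · exact Or.inl hmem
      · right
        unfold DD at hmem
        simp only [Set.mem_ofPred_eq, not_forall] at hmem
        obtain ⟨x1, hx1, x2, hx2, hxu⟩ := hmem
        have hy1 := h1.down x1 hx1
        have hy2 := h2.down x2 hx2
        obtain ⟨e1, e2⟩ := not_mem_NA hxu (hu _ hy1 _ hy2)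
        have e2' : x1.1.1 + x2.1.1 + u = p + q := e2
        have e1' : x1.1.2 + x2.1.2 + 0 = 0 := e1
        have a1 : s ≤ x2.1.1 + u := by
          have hmem : x2.1.1 + u ∈ perp N Y1 := by
            intro y hy
            have := hu y hy _ hy2
            rwa [add_assoc] at this
          rcases g1.lit _ hmem with h | h
          · exfalso
            have := (h x1 hx1).2
            apply this
            · show x1.1.2 + 0 = 0
              omega
            · show x1.1.1 + (x2.1.1 + u) = p + q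
              rw [← e2']; abel
          · exact h
        have a2 : s ≤ x1.1.1 + u := by
          have hmem : x1.1.1 + u ∈ perp N Y2 := by
            intro y hy
            have := hu _ hy1 y hy
            have e : y + (x1.1.1 + u) = x1.1.1 + y + u := by abel
            rwa [e]
          rcases g2.lit _ hmem with h | h
          · exfalso
            have := (h x2 hx2).2
            apply this
            · show x2.1.2 + 0 = 0
              omega
            · show x2.1.1 + (x1.1.1 + u) = p + q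
              rw [← e2']; abel
          · exact h
        intro l
        rcases C.disj l with h | h
        · have b1 : s l ≤ x2.1.1 l + u l := a1 l
          have b2 : s l ≤ x1.1.1 l + u l := a2 l
          have b3 : x1.1.1 l + x2.1.1 l + u l = p l + q l := congrFun e2' l
          have b4 : r l + s l = p l + q l := congrFun C.hrs l
          have goal : s l ≤ u l := by omega
          exact goal
        · rw [h]; exact Nat.zero_le _
  refine ⟨A, ⟨?_, ?_, ?_⟩⟩
  · intro z hz y hy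
    obtain ⟨x, hx, rfl⟩ := A.lift C.hs hy
    exact (hz x hx).1
  · intro z hz hy x hx
    refine ⟨hy _ (A.down x hx), fun h => absurd h ?_⟩
    show x.1.2 + z.1.2 ≠ 0
    omega
  · intro z hz
    by_cases hmem : lt0 p q z ∈ perp (NA N p q) (DD (NA N p q) X1 X2)
    · exact Or.inl hmem
    · right
      unfold perp at hmem
      simp only [Set.mem_ofPred_eq, not_forall] at hmem
      obtain ⟨x, hx, hxz⟩ := hmem
      have hw := A.down x hx
      obtain ⟨e1, e2⟩ := not_mem_NA hxz (hz _ hw)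
      have e2' : x.1.1 + z = p + q := e2
      have e1' : x.1.2 + 0 = 0 := e1
      have hnot : x.1.1 + T ∉ DD N Y1 Y2 := by
        intro h
        have := hz _ h
        apply C.hT
        have e : p + q + T = x.1.1 + T + z := by rw [← e2']; abel
        rw [e]; exact this
      unfold DD at hnot
      simp only [Set.mem_ofPred_eq, not_forall] at hnot
      obtain ⟨y1, hy1, y2, hy2, hyT⟩ := hnot
      have h3 : y1 + y2 + x.1.1 ∈ N := hw y1 hy1 y2 hy2
      have h4 : y1 + y2 + x.1.1 = p + q := by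
        by_contra hne
        have := C.hN _ h3 hne
        apply hyT
        have e : y1 + y2 + (x.1.1 + T) = y1 + y2 + x.1.1 + T := by abel
        rw [e]; exact this
      have hz' : z = y1 + y2 := by
        have : x.1.1 + z = x.1.1 + (y1 + y2) := by
          rw [e2', ← h4]; abel
        exact add_left_cancel this
      rw [hz']
      rcases h1.lit y1 hy1 with k1 | k1
      · rcases h2.lit y2 hy2 with k2 | k2
        · exfalso
          have := (hx _ k1 _ k2).2
          apply this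
          · show 0 + 0 + x.1.2 = 0
            omega
          · exact h4
        · exact le_add_left k2
      · exact le_add_right k1

theorem R0_single (C : Ctx N p q T r s) {g : L → ℕ} (hg : g ≤ p + q → g ≤ r) :
    R0 s (perp (NA N p q) {lt0 p q g}) (perp N {g}) ∧
      R0 r (perp (NA N p q) (perp (NA N p q) {lt0 p q g})) (perp N (perp N {g})) := by
  have A : R0 s (perp (NA N p q) {lt0 p q g}) (perp N {g}) := by
    refine ⟨?_, ?_, ?_⟩
    · intro z hz
      rw [mem_perp_singleton] at hz ⊢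
      exact hz.1
    · intro z hz hy
      rw [mem_perp_singleton] at hy ⊢
      refine ⟨hy, fun h => absurd h ?_⟩
      show 0 + z.1.2 ≠ 0
      omega
    · intro u hu
      rw [mem_perp_singleton] at hu
      by_cases hmem : lt0 p q u ∈ perp (NA N p q) {lt0 p q g}
      · exact Or.inl hmem
      · right
        rw [mem_perp_singleton] at hmem
        obtain ⟨e1, e2⟩ := not_mem_NA hmem hu
        have e2' : g + u = p + q := e2
        have hgr : g ≤ r := hg (by rw [← e2']; exact le_add_right le_rfl)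
        intro l
        have b1 : g l ≤ r l := hgr l
        have b2 : g l + u l = p l + q l := congrFun e2' l
        have b3 : r l + s l = p l + q l := congrFun C.hrs l
        have goal : s l ≤ u l := by omega
        exact goal
  refine ⟨A, ⟨?_, ?_, ?_⟩⟩
  · intro z hz y hy
    obtain ⟨x, hx, rfl⟩ := A.lift C.hs hy
    exact (hz x hx).1
  · intro z hz hy x hx
    refine ⟨hy _ (A.down x hx), fun h => absurd h ?_⟩
    show x.1.2 + z.1.2 ≠ 0
    omega
  · intro z hz
    by_cases hmem : lt0 p q z ∈ perp (NA N p q) (perp (NA N p q) {lt0 p q g})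
    · exact Or.inl hmem
    · exfalso
      unfold perp at hmem
      simp only [Set.mem_ofPred_eq, not_forall] at hmem
      obtain ⟨x, hx, hxz⟩ := hmem
      have hx' : x ∈ perp (NA N p q) {lt0 p q g} := hx
      have hw := A.down x hx'
      obtain ⟨e1, e2⟩ := not_mem_NA hxz (hz _ hw)
      have e2' : x.1.1 + z = p + q := e2
      have e1' : x.1.2 + 0 = 0 := e1
      rw [mem_perp_singleton] at hx' hw
      have h3 : g + x.1.1 ≠ p + q := hx'.2 (by show 0 + x.1.2 = 0; omega)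
      have h4 := C.hN _ hw h3
      have h5 : x.1.1 + T ∈ perp N {g} := by
        rw [mem_perp_singleton, ← add_assoc]; exact h4
      have h6 := hz _ h5
      apply C.hT
      have e : p + q + T = x.1.1 + T + z := by rw [← e2']; abel
      rw [e]; exact h6

/-- The assumptions on the doubled frame. -/
structure DCtx (N : Set (L → ℕ)) (p q T : L → ℕ) : Prop where
  disj : ∀ l, p l = 0 ∨ q l = 0
  hT : p + q + T ∉ N
  hN : ∀ v ∈ N, v ≠ p + q → v + T ∈ N

theorem DCtx.c1 (D : DCtx N p q T) : Ctx N p q T p q :=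
  ⟨rfl, Or.inl rfl, Or.inr rfl, D.disj, D.hT, D.hN⟩

theorem DCtx.c2 (D : DCtx N p q T) : Ctx N p q T q p :=
  ⟨add_comm _ _, Or.inr rfl, Or.inl rfl, fun l => (D.disj l).symm, D.hT, D.hN⟩

/-- The relation between closed sets of the doubled frame and closed sets of the frame. -/
def RR (X : Cl (NA N p q)) (Y : Cl N) : Prop :=
  R0 p X.s Y.s ∧ R0 q (perp (NA N p q) X.s) (perp N Y.s)

theorem RR.inf (D : DCtx N p q T) {X1 X2 : Cl (NA N p q)} {Y1 Y2 : Cl N} (h1 : RR X1 Y1)
    (h2 : RR X2 Y2) : RR (X1 ⊓ X2) (Y1 ⊓ Y2) :=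
  R0_inf D.c1 h1.1 h2.1 h1.2 h2.2 Y1.cl Y2.cl

theorem RR.neg' {X : Cl (NA N p q)} {Y : Cl N} (h : RR X Y) :
    R0 q (perp (NA N p q) X.s) (perp N Y.s) ∧
      R0 p (perp (NA N p q) (perp (NA N p q) X.s)) (perp N (perp N Y.s)) := by
  rw [X.cl, Y.cl]; exact ⟨h.2, h.1⟩

theorem RR.sup (D : DCtx N p q T) {X1 X2 : Cl (NA N p q)} {Y1 Y2 : Cl N} (h1 : RR X1 Y1)
    (h2 : RR X2 Y2) : RR (X1 ⊔ X2) (Y1 ⊔ Y2) := by
  have := R0_inf D.c2 h1.neg'.1 h2.neg'.1 h1.neg'.2 h2.neg'.2 (ppp _) (ppp _)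
  refine ⟨this.2, ?_⟩
  rw [cl_sup_s, cl_sup_s]
  have e1 := (cneg X1 ⊓ cneg X2).cl
  have e2 := (cneg Y1 ⊓ cneg Y2).cl
  rw [cl_inf_s] at e1 e2
  change perp (NA N p q) (perp (NA N p q) (perp (NA N p q) X1.s ∩ perp (NA N p q) X2.s)) =
    perp (NA N p q) X1.s ∩ perp (NA N p q) X2.s at e1
  change perp N (perp N (perp N Y1.s ∩ perp N Y2.s)) = perp N Y1.s ∩ perp N Y2.s at e2
  rw [e1, e2]
  exact this.1

theorem RR.mul (D : DCtx N p q T) {X1 X2 : Cl (NA N p q)} {Y1 Y2 : Cl N} (h1 : RR X1 Y1)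
    (h2 : RR X2 Y2) : RR (X1 * X2) (Y1 * Y2) := by
  have := R0_DD D.c1 h1.1 h2.1 h1.2 h2.2
  refine ⟨this.2, ?_⟩
  rw [cl_mul_s, cl_mul_s, pp_DD, pp_DD]
  exact this.1

theorem RR.plus (D : DCtx N p q T) {X1 X2 : Cl (NA N p q)} {Y1 Y2 : Cl N} (h1 : RR X1 Y1)
    (h2 : RR X2 Y2) : RR (plus X1 X2) (plus Y1 Y2) := by
  have := R0_DD D.c2 h1.neg'.1 h2.neg'.1 h1.neg'.2 h2.neg'.2
  unfold RR
  rw [cl_plus_s, cl_plus_s]
  exact this

theorem RR.left (D : DCtx N p q T) {g : L → ℕ} (hg : g ≤ p + q → g ≤ p) :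
    RR (gam (lt0 p q g) : Cl (NA N p q)) (gam g : Cl N) := by
  have := R0_single D.c1 hg
  refine ⟨this.2, ?_⟩
  show R0 q (perp (NA N p q) (perp (NA N p q) (perp (NA N p q) {lt0 p q g})))
    (perp N (perp N (perp N {g})))
  rw [ppp, ppp]
  exact this.1

theorem RR.right (D : DCtx N p q T) {g : L → ℕ} (hg : g ≤ p + q → g ≤ q) :
    RR (neg (gam (lt0 p q g)) : Cl (NA N p q)) (neg (gam g) : Cl N) := by
  have := R0_single D.c2 hg
  rw [cl_neg, cl_neg]
  unfold RR
  show R0 p (perp (NA N p q) (perp (NA N p q) (perp (NA N p q) {lt0 p q g})))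
    (perp N (perp N (perp N {g}))) ∧
    R0 q (perp (NA N p q) (perp (NA N p q) (perp (NA N p q) (perp (NA N p q) {lt0 p q g}))))
    (perp N (perp N (perp N (perp N {g}))))
  rw [ppp, ppp]
  exact this

theorem lt0_zero : lt0 p q 0 = 0 := rfl

theorem RR.one (D : DCtx N p q T) : RR (1 : Cl (NA N p q)) (1 : Cl N) := by
  have := RR.left D (g := 0) (fun _ => by intro l; exact Nat.zero_le _)
  rw [lt0_zero, gam_zero, gam_zero] at this
  exact this

theorem neg_one_eq {A : Type u} [ICRL A] : neg (1 : A) = ICRL.zer := by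
  apply le_antisymm
  · have := (ICRL.res (1 : A) (neg 1) ICRL.zer).mpr le_rfl
    rwa [one_mul] at this
  · apply (ICRL.res (1 : A) ICRL.zer ICRL.zer).mp
    rw [one_mul]

theorem RR.zero (D : DCtx N p q T) : RR (ICRL.zer : Cl (NA N p q)) (ICRL.zer : Cl N) := by
  have := RR.right D (g := 0) (fun _ => by intro l; exact Nat.zero_le _)
  rw [lt0_zero, gam_zero, gam_zero, neg_one_eq, neg_one_eq] at this
  exact this

theorem RR.det {X : Cl (NA N p q)} {Y Y' : Cl N} (h : RR X Y) (h' : RR X Y') : Y = Y' := by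
  apply Cl.ext'
  apply Set.Subset.antisymm
  · intro u hu
    obtain ⟨z, hz, rfl⟩ := h.1.lift (Or.inl rfl) hu
    exact h'.1.down z hz
  · intro u hu
    obtain ⟨z, hz, rfl⟩ := h'.1.lift (Or.inl rfl) hu
    exact h.1.down z hz

/-- The algebra of related pairs. -/
def AStar (D : DCtx N p q T) : BAlg.{u} where
  carrier := {XY : Cl (NA N p q) × Cl N // RR XY.1 XY.2}
  inf a b := ⟨(a.1.1 ⊓ b.1.1, a.1.2 ⊓ b.1.2), RR.inf D a.2 b.2⟩
  sup a b := ⟨(a.1.1 ⊔ b.1.1, a.1.2 ⊔ b.1.2), RR.sup D a.2 b.2⟩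
  mul a b := ⟨(a.1.1 * b.1.1, a.1.2 * b.1.2), RR.mul D a.2 b.2⟩
  add a b := ⟨(plus a.1.1 b.1.1, plus a.1.2 b.1.2), RR.plus D a.2 b.2⟩
  one := ⟨(1, 1), RR.one D⟩
  zero := ⟨(ICRL.zer, ICRL.zer), RR.zero D⟩

/-- The image of the second projection. -/
def BStar (D : DCtx N p q T) : BAlg.{u} where
  carrier := {Y : Cl N // ∃ X : Cl (NA N p q), RR X Y}
  inf a b := ⟨a.1 ⊓ b.1, by
    obtain ⟨X, hX⟩ := a.2; obtain ⟨Z, hZ⟩ := b.2; exact ⟨_, RR.inf D hX hZ⟩⟩
  sup a b := ⟨a.1 ⊔ b.1, by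
    obtain ⟨X, hX⟩ := a.2; obtain ⟨Z, hZ⟩ := b.2; exact ⟨_, RR.sup D hX hZ⟩⟩
  mul a b := ⟨a.1 * b.1, by
    obtain ⟨X, hX⟩ := a.2; obtain ⟨Z, hZ⟩ := b.2; exact ⟨_, RR.mul D hX hZ⟩⟩
  add a b := ⟨plus a.1 b.1, by
    obtain ⟨X, hX⟩ := a.2; obtain ⟨Z, hZ⟩ := b.2; exact ⟨_, RR.plus D hX hZ⟩⟩
  one := ⟨1, _, RR.one D⟩
  zero := ⟨ICRL.zer, _, RR.zero D⟩

theorem AStar_sub (D : DCtx N p q T) {V : ICRLClass.{u}} (hV : V (Cl (NA N p q))) :
    IsSubreduct V (AStar D) := by
  refine ⟨Cl (NA N p q), inferInstance, fun a => a.1.1, hV,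
    ⟨fun _ _ => rfl, fun _ _ => rfl, fun _ _ => rfl, fun _ _ => rfl, rfl, rfl⟩, ?_⟩
  rintro ⟨⟨X, Y⟩, h⟩ ⟨⟨X', Y'⟩, h'⟩ e
  simp only at e
  subst e
  have : Y = Y' := RR.det h h'
  subst this
  rfl

theorem BStar_sub (D : DCtx N p q T) {V : ICRLClass.{u}} (hV : V (Cl (NA N p q)))
    (hF : FormsVariety (IsSubreduct V)) : IsSubreduct V (BStar D) := by
  refine hF.hom_image (AStar D) (BStar D) (fun a => ⟨a.1.2, a.1.1, a.2⟩) (AStar_sub D hV)
    ⟨fun _ _ => rfl, fun _ _ => rfl, fun _ _ => rfl, fun _ _ => rfl, rfl, rfl⟩ ?_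
  rintro ⟨Y, X, h⟩
  exact ⟨⟨(X, Y), h⟩, rfl⟩

end Double

end Pool.Agent.H399.Knot
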