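import Pool.Agent.H399.KnotDefs

/-!
The algebra of closed subsets of a commutative monoid with respect to a set `N`.
-/

universe u

namespace Pool.Agent.H399.Knot

section Galois

variable {M : Type u} [AddCommMonoid M] (N : Set M)

/-- The polar of a set. -/
def perp (X : Set M) : Set M := {z | ∀ x ∈ X, x + z ∈ N}

/-- The polar of the sumset of two sets. -/
def DD (X Y : Set M) : Set M := {z | ∀ x ∈ X, ∀ y ∈ Y, x + y + z ∈ N}

variable {N}

theorem perp_anti {X Y : Set M} (h : X ⊆ Y) : perp N Y ⊆ perp N X :=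
  fun _ hz x hx => hz x (h hx)

theorem le_pp (X : Set M) : X ⊆ perp N (perp N X) := fun x hx z hz => by
  have := hz x hx
  rwa [add_comm] at this

theorem ppp (X : Set M) : perp N (perp N (perp N X)) = perp N X :=
  Set.Subset.antisymm (perp_anti (le_pp X)) (le_pp _)

theorem le_perp_comm {X Y : Set M} : X ⊆ perp N Y ↔ Y ⊆ perp N X :=
  ⟨fun h => (le_pp Y).trans (perp_anti h), fun h => (le_pp X).trans (perp_anti h)⟩

theorem DD_eq (X Y : Set M) : DD N X Y = perp N {w | ∃ x ∈ X, ∃ y ∈ Y, x + y = w} := by
  ext z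
  constructor
  · rintro h w ⟨x, hx, y, hy, rfl⟩
    exact h x hx y hy
  · intro h x hx y hy
    exact h _ ⟨x, hx, y, hy, rfl⟩

theorem pp_DD (X Y : Set M) : perp N (perp N (DD N X Y)) = DD N X Y := by
  rw [DD_eq, ppp]

theorem DD_comm (X Y : Set M) : DD N X Y = DD N Y X := by
  ext z
  constructor
  · intro h x hx y hy
    have := h y hy x hx
    rwa [add_comm y x] at this
  · intro h x hx y hy
    have := h y hy x hx
    rwa [add_comm y x] at this

/-- membership in `DD` via the polar of the first argument. -/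
theorem mem_DD_iff {X Y : Set M} {z : M} : z ∈ DD N X Y ↔ ∀ y ∈ Y, y + z ∈ perp N X := by
  constructor
  · intro h y hy x hx
    have := h x hx y hy
    rwa [add_assoc] at this
  · intro h x hx y hy
    have := h y hy x hx
    rwa [← add_assoc] at this

variable (N)

/-- Closed subsets. -/
structure Cl where
  s : Set M
  cl : perp N (perp N s) = s

variable {N}

theorem Cl.ext' {X Y : Cl N} (h : X.s = Y.s) : X = Y := by
  cases X; cases Y; simp only at h; subst h; rfl

/-- Polar as an operation on closed sets. -/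
def cneg (X : Cl N) : Cl N := ⟨perp N X.s, ppp _⟩

def cmul (X Y : Cl N) : Cl N := ⟨perp N (DD N X.s Y.s), ppp _⟩

def cinf (X Y : Cl N) : Cl N := ⟨X.s ∩ Y.s, by
  apply Set.Subset.antisymm _ (le_pp _)
  intro z hz
  constructor
  · rw [← X.cl]
    exact perp_anti (perp_anti Set.inter_subset_left) hz
  · rw [← Y.cl]
    exact perp_anti (perp_anti Set.inter_subset_right) hz⟩

def csup (X Y : Cl N) : Cl N := ⟨perp N (perp N X.s ∩ perp N Y.s), ppp _⟩

def cimp (X Y : Cl N) : Cl N := ⟨DD N X.s (perp N Y.s), pp_DD _ _⟩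

theorem cmul_assoc (X Y Z : Cl N) : cmul (cmul X Y) Z = cmul X (cmul Y Z) := by
  apply Cl.ext'
  show perp N (DD N (perp N (DD N X.s Y.s)) Z.s) = perp N (DD N X.s (perp N (DD N Y.s Z.s)))
  congr 1
  rw [DD_comm X.s (perp N (DD N Y.s Z.s))]
  ext z
  rw [mem_DD_iff, mem_DD_iff, pp_DD, pp_DD]
  constructor
  · intro h x hx y hy w hw
    have := h w hw x hx y hy
    have e : y + w + (x + z) = x + y + (w + z) := by abel
    rwa [e]
  · intro h w hw x hx y hy
    have := h x hx y hy w hw
    have e : y + w + (x + z) = x + y + (w + z) := by abel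
    rwa [e] at this

theorem cmul_comm (X Y : Cl N) : cmul X Y = cmul Y X := by
  apply Cl.ext'
  show perp N (DD N X.s Y.s) = perp N (DD N Y.s X.s)
  rw [DD_comm]

theorem perp_N_eq : perp N N = perp N (perp N ({0} : Set M)) := by
  congr 1
  ext z
  simp [perp]

def cone : Cl N := ⟨perp N N, ppp _⟩

def czer : Cl N := ⟨N, by
  have h : N = perp N ({0} : Set M) := by ext z; simp [perp]
  calc perp N (perp N N) = perp N (perp N (perp N {0})) := by rw [← h]
    _ = perp N {0} := ppp _
    _ = N := h.symm⟩

theorem cone_mul (X : Cl N) : cmul cone X = X := by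
  apply Cl.ext'
  show perp N (DD N (perp N N) X.s) = X.s
  have : DD N (perp N N) X.s = perp N X.s := by
    ext z
    rw [mem_DD_iff, show perp N (perp N N) = N from (czer (N := N)).cl]
    rfl
  rw [this, X.cl]

instance : ICRL (Cl N) where
  le X Y := X.s ⊆ Y.s
  le_refl X := Set.Subset.refl _
  le_trans X Y Z := Set.Subset.trans
  le_antisymm X Y h1 h2 := Cl.ext' (Set.Subset.antisymm h1 h2)
  sup := csup
  inf := cinf
  le_sup_left X Y := by
    show X.s ⊆ perp N (perp N X.s ∩ perp N Y.s)
    rw [le_perp_comm]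
    exact Set.inter_subset_left
  le_sup_right X Y := by
    show Y.s ⊆ perp N (perp N X.s ∩ perp N Y.s)
    rw [le_perp_comm]
    exact Set.inter_subset_right
  sup_le X Y Z h1 h2 := by
    show perp N (perp N X.s ∩ perp N Y.s) ⊆ Z.s
    rw [← Z.cl]
    exact perp_anti (Set.subset_inter (perp_anti h1) (perp_anti h2))
  inf_le_left X Y := Set.inter_subset_left
  inf_le_right X Y := Set.inter_subset_right
  le_inf X Y Z h1 h2 := Set.subset_inter h1 h2
  mul := cmul
  mul_assoc := cmul_assoc
  mul_comm := cmul_comm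
  one := cone
  one_mul := cone_mul
  mul_one X := by
    show cmul X cone = X
    rw [cmul_comm, cone_mul]
  imp := cimp
  zer := czer
  res X Y Z := by
    show perp N (DD N X.s Y.s) ⊆ Z.s ↔ Y.s ⊆ DD N X.s (perp N Z.s)
    constructor
    · intro h
      have h2 : perp N Z.s ⊆ DD N X.s Y.s := by
        rw [← pp_DD]
        exact perp_anti h
      intro y hy x hx z hz
      have := h2 hz x hx y hy
      have e : x + z + y = x + y + z := by abel
      rwa [e]
    · intro h
      rw [← Z.cl]
      apply perp_anti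
      intro z hz x hx y hy
      have := h hy x hx z hz
      have e : x + z + y = x + y + z := by abel
      rwa [e] at this
  dneg X := by
    apply Cl.ext'
    have key : ∀ Y : Cl N, (cimp Y czer).s = perp N Y.s := by
      intro Y
      show DD N Y.s (perp N N) = perp N Y.s
      rw [DD_comm]
      ext z
      rw [mem_DD_iff, show perp N (perp N N) = N from (czer (N := N)).cl]
      rfl
    show (cimp (cimp X czer) czer).s = X.s
    rw [key, key, X.cl]

theorem cl_le_iff (X Y : Cl N) : X ≤ Y ↔ X.s ⊆ Y.s := Iff.rfl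

theorem cl_neg (X : Cl N) : neg X = cneg X := by
  apply Cl.ext'
  show DD N X.s (perp N N) = perp N X.s
  rw [DD_comm]
  ext z
  rw [mem_DD_iff, show perp N (perp N N) = N from (czer (N := N)).cl]
  rfl

theorem cl_mul_s (X Y : Cl N) : (X * Y).s = perp N (DD N X.s Y.s) := rfl

theorem cl_inf_s (X Y : Cl N) : (X ⊓ Y).s = X.s ∩ Y.s := rfl

theorem cl_sup_s (X Y : Cl N) : (X ⊔ Y).s = perp N (perp N X.s ∩ perp N Y.s) := rfl

theorem cl_one_s : (1 : Cl N).s = perp N N := rfl

theorem cl_zer_s : (ICRL.zer : Cl N).s = N := rfl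

theorem cl_plus_s (X Y : Cl N) : (plus X Y).s = DD N (perp N X.s) (perp N Y.s) := by
  unfold plus
  rw [cl_neg]
  show perp N ((neg X * neg Y).s) = _
  rw [cl_mul_s, pp_DD, cl_neg, cl_neg]
  rfl

/-- The closure of a singleton. -/
def gam (g : M) : Cl N := ⟨perp N (perp N {g}), ppp _⟩

theorem mem_perp_singleton {g z : M} : z ∈ perp N {g} ↔ g + z ∈ N := by
  simp [perp]

theorem gam_zero : (gam 0 : Cl N) = 1 := Cl.ext' perp_N_eq.symm

theorem gam_mul (g h : M) : (gam g : Cl N) * gam h = gam (g + h) := by
  apply Cl.ext'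
  show perp N (DD N (perp N (perp N {g})) (perp N (perp N {h}))) = perp N (perp N {g + h})
  congr 1
  ext z
  rw [mem_DD_iff, ppp, mem_perp_singleton]
  have : (∀ y ∈ perp N (perp N {h}), y + z ∈ perp N {g}) ↔ (g + z) ∈ perp N (perp N (perp N {h})) := by
    constructor
    · intro H y hy
      have := H y hy
      rw [mem_perp_singleton] at this
      have e : y + (g + z) = g + (y + z) := by abel
      rwa [e]
    · intro H y hy
      rw [mem_perp_singleton]
      have := H y hy
      have e : y + (g + z) = g + (y + z) := by abel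
      rwa [e] at this
  rw [this, ppp, mem_perp_singleton]
  have e : h + (g + z) = g + h + z := by abel
  rw [e]

theorem gam_le_neg_gam (g h : M) : (gam g : Cl N) ≤ neg (gam h) ↔ g + h ∈ N := by
  rw [cl_neg, cl_le_iff]
  show perp N (perp N {g}) ⊆ perp N (perp N (perp N {h})) ↔ _
  rw [ppp]
  constructor
  · intro H
    have : g ∈ perp N {h} := H (le_pp _ rfl)
    rw [mem_perp_singleton, add_comm] at this
    exact this
  · intro H
    rw [← ppp {h}]
    apply perp_anti
    apply perp_anti
    intro x hx
    rw [Set.mem_singleton_iff] at hx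
    subst hx
    rw [mem_perp_singleton, add_comm]
    exact H

theorem mem_perp_pow (X : Cl N) (n : ℕ) (z : M) :
    z ∈ perp N (X ^ n).s ↔ ∀ f : Fin n → M, (∀ i, f i ∈ X.s) → (∑ i, f i) + z ∈ N := by
  induction n generalizing z with
  | zero =>
    rw [pow_zero, cl_one_s, show perp N (perp N N) = N from (czer (N := N)).cl]
    simp
  | succ k ih =>
    rw [pow_succ', cl_mul_s, pp_DD]
    constructor
    · intro h f hf
      rw [DD_comm, mem_DD_iff] at h
      have h1 := h (f 0) (hf 0)
      rw [ih] at h1
      have h2 := h1 (fun i => f i.succ) (fun i => hf _)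
      rw [Fin.sum_univ_succ]
      have e : f 0 + ∑ i : Fin k, f i.succ + z = ∑ i : Fin k, f i.succ + (f 0 + z) := by abel
      rw [e]
      exact h2
    · intro h
      rw [DD_comm, mem_DD_iff]
      intro y hy
      rw [ih]
      intro f hf
      have h2 := h (Fin.cons y f) (by
        intro i
        refine Fin.cases ?_ ?_ i
        · simpa using hy
        · intro j; simpa using hf j)
      rw [Fin.sum_univ_succ] at h2
      simp only [Fin.cons_zero, Fin.cons_succ] at h2
      have e : y + ∑ i : Fin k, f i + z = ∑ i : Fin k, f i + (y + z) := by abel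
      rw [e] at h2
      exact h2

/-- The frame condition for `x ^ m ≤ x ^ n`. -/
theorem powLe_cl {m n : ℕ}
    (h : ∀ (x : Fin m → M) (y : M), (∀ i : Fin n → Fin m, (∑ j, x (i j)) + y ∈ N) →
      (∑ j, x j) + y ∈ N) : PowLe.{u} m n (Cl N) := by
  intro X
  rw [cl_le_iff]
  rw [← (X ^ m).cl, ← (X ^ n).cl]
  apply perp_anti
  intro z hz
  rw [mem_perp_pow] at hz ⊢
  intro f hf
  apply h
  intro i
  exact hz (fun j => f (i j)) (fun j => hf _)

end Galois

end Pool.Agent.H399.Knot
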