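import Pool.Agent.H399.KnotQ

/-!
The frame for `1 ≤ n < m`.
-/

universe u

namespace Pool.Agent.H399.Knot

namespace RegI

variable {m : ℕ}

abbrev Lt (m : ℕ) : Type u := ULift.{u} (Option (Fin m) × Bool)

def ll (o : Option (Fin m)) (b : Bool) : Lt.{u} m := ⟨(o, b)⟩

/-- indicator of the letters `(none, b)` and `(some i, b)`, `i < n` -/
def half (m n : ℕ) (b : Bool) : Lt.{u} m → ℕ := fun l =>
  if l.down.2 = b ∧ (∀ i, l.down.1 = some i → i.val < n) then 1 else 0

def TT (m n : ℕ) : Lt.{u} m → ℕ := fun l =>
  if (∃ i, l.down.1 = some i ∧ n ≤ i.val) then 1 else 0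

def NN (m n : ℕ) : Set (Lt.{u} m → ℕ) :=
  {v | (∃ l, 2 ≤ v l) ∨ (v (ll none true) = 1 ∧ v (ll none false) = 1 ∧
    (∀ i, v (ll (some i) true) = v (ll (some i) false)) ∧
    n ≤ (Finset.univ.filter (fun i : Fin m => v (ll (some i) true) ≠ 0)).card ∧
    ((∃ i : Fin m, i.val < n ∧ v (ll (some i) true) = 0) ∨
      (∀ i : Fin m, n ≤ i.val → v (ll (some i) true) = 0)))}

theorem mem_NN {n : ℕ} {v : Lt.{u} m → ℕ} : v ∈ NN m n ↔
   ((∃ l, 2 ≤ v l) ∨ (v (ll none true) = 1 ∧ v (ll none false) = 1 ∧
    (∀ i, v (ll (some i) true) = v (ll (some i) false)) ∧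
    n ≤ (Finset.univ.filter (fun i : Fin m => v (ll (some i) true) ≠ 0)).card ∧
    ((∃ i : Fin m, i.val < n ∧ v (ll (some i) true) = 0) ∨
      (∀ i : Fin m, n ≤ i.val → v (ll (some i) true) = 0)))) := Iff.rfl

theorem half_none {n : ℕ} (b c : Bool) : half.{u} m n b (ll none c) = if c = b then 1 else 0 := by
  simp [half, ll]

theorem half_some {n : ℕ} (b c : Bool) (i : Fin m) :
    half.{u} m n b (ll (some i) c) = if c = b ∧ i.val < n then 1 else 0 := by
  simp [half, ll]

theorem TT_none {n : ℕ} (c : Bool) : TT.{u} m n (ll none c) = 0 := by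
  simp [TT, ll]

theorem TT_some {n : ℕ} (c : Bool) (i : Fin m) :
    TT.{u} m n (ll (some i) c) = if n ≤ i.val then 1 else 0 := by
  simp [TT, ll]

theorem forall_lt {P : Lt.{u} m → Prop} : (∀ l, P l) ↔ ((∀ b, P (ll none b)) ∧
    (∀ i b, P (ll (some i) b))) := by
  constructor
  · intro h
    exact ⟨fun b => h _, fun i b => h _⟩
  · rintro ⟨h1, h2⟩ ⟨⟨o, b⟩⟩
    cases o with
    | none => exact h1 b
    | some i => exact h2 i b

def PP (m n : ℕ) : Lt.{u} m → ℕ := half m n true + half m n false

theorem PP_none {n : ℕ} (c : Bool) : PP.{u} m n (ll none c) = 1 := by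
  cases c <;> simp [PP, half_none]

theorem PP_some {n : ℕ} (c : Bool) (i : Fin m) :
    PP.{u} m n (ll (some i) c) = if i.val < n then 1 else 0 := by
  cases c <;> simp [PP, half_some]

theorem PP_le_one {n : ℕ} (l : Lt.{u} m) : PP.{u} m n l ≤ 1 := by
  revert l
  rw [forall_lt]
  constructor
  · intro b; rw [PP_none]
  · intro i b; rw [PP_some]; split_ifs <;> omega

theorem card_lt {n : ℕ} (hn : n ≤ m) :
    (Finset.univ.filter (fun i : Fin m => i.val < n)).card = n := by
  have : (Finset.univ.filter (fun i : Fin m => i.val < n)) =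
      (Finset.univ : Finset (Fin n)).map (Fin.castLEEmb hn) := by
    ext i
    simp only [Finset.mem_filter, Finset.mem_univ, true_and, Finset.mem_map, Fin.castLEEmb_apply]
    constructor
    · intro h
      exact ⟨⟨i.val, h⟩, by ext; simp⟩
    · rintro ⟨a, rfl⟩
      simp
  rw [this, Finset.card_map, Finset.card_univ, Fintype.card_fin]

/-- If the support has at least `n` elements, all below `n`, it is everything below `n`. -/
theorem supp_eq {n : ℕ} (hn : n ≤ m) {P : Fin m → Prop} [DecidablePred P]
    (h1 : n ≤ (Finset.univ.filter (fun i : Fin m => P i)).card)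
    (h2 : ∀ i : Fin m, n ≤ i.val → ¬ P i) : ∀ i : Fin m, i.val < n → P i := by
  have hsub : Finset.univ.filter (fun i : Fin m => P i) ⊆
      Finset.univ.filter (fun i : Fin m => i.val < n) := by
    intro i hi
    simp only [Finset.mem_filter, Finset.mem_univ, true_and] at *
    by_contra hlt
    exact h2 i (by omega) hi
  have heq := Finset.eq_of_subset_of_card_le hsub (by rw [card_lt hn]; exact h1)
  intro i hi
  have : i ∈ Finset.univ.filter (fun i : Fin m => i.val < n) := by simp [hi]
  rw [← heq] at this
  simpa using this

/-- A member of `NN` with all values at most one and support below `n` is `PP`. -/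
theorem eq_PP {n : ℕ} (hn : n ≤ m) {v : Lt.{u} m → ℕ} (hv1 : ∀ l, v l ≤ 1)
    (h0 : v (ll none true) = 1) (h1 : v (ll none false) = 1)
    (h2 : ∀ i, v (ll (some i) true) = v (ll (some i) false))
    (h3 : n ≤ (Finset.univ.filter (fun i : Fin m => v (ll (some i) true) ≠ 0)).card)
    (h4 : ∀ i : Fin m, n ≤ i.val → v (ll (some i) true) = 0) : v = PP m n := by
  have h5 := supp_eq hn (P := fun i => v (ll (some i) true) ≠ 0) h3
    (fun i hi => not_not.mpr (h4 i hi))
  have key : ∀ l, v l = PP m n l := by
    rw [forall_lt]
    constructor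
    · intro b
      rw [PP_none]
      cases b
      · exact h1
      · exact h0
    · intro i b
      rw [PP_some]
      have e : v (ll (some i) b) = v (ll (some i) true) := by
        cases b
        · exact (h2 i).symm
        · rfl
      rw [e]
      split_ifs with hi
      · have := h5 i hi
        have := hv1 (ll (some i) true)
        omega
      · exact h4 i (by omega)
  funext l
  exact key l

theorem not_mem_ones {n : ℕ} (hn : n < m) {v : Lt.{u} m → ℕ} (hv : ∀ l, v l = 1) :
    v ∉ NN m n := by
  rw [mem_NN]
  simp only [hv]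
  simp only [one_ne_zero, and_false, exists_false, false_or, not_or, not_exists, not_and]
  refine ⟨fun _ => by omega, fun _ _ _ _ h => ?_⟩
  exact h ⟨n, hn⟩ le_rfl

theorem dctx {n : ℕ} (hn : n < m) : DCtx (NN.{u} m n) (half m n true) (half m n false) (TT m n) := by
  refine ⟨?_, ?_, ?_⟩
  · rw [forall_lt]
    constructor
    · intro b
      cases b <;> simp [half_none]
    · intro i b
      cases b <;> simp [half_some]
  · apply not_mem_ones hn
    rw [forall_lt]
    constructor
    · intro b
      show PP m n (ll none b) + TT m n (ll none b) = 1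
      rw [PP_none, TT_none]
    · intro i b
      show PP m n (ll (some i) b) + TT m n (ll (some i) b) = 1
      rw [PP_some, TT_some]
      split_ifs <;> omega
  · intro v hv hne
    rw [mem_NN] at hv
    rcases hv with ⟨l, hl⟩ | ⟨h0, h1, h2, h3, h4⟩
    · exact Or.inl ⟨l, le_trans hl (Nat.le_add_right _ _)⟩
    · by_cases hex : ∃ l, 2 ≤ v l
      · obtain ⟨l, hl⟩ := hex
        exact Or.inl ⟨l, le_trans hl (Nat.le_add_right _ _)⟩
      · push Not at hex
        by_cases hb : ∃ i : Fin m, n ≤ i.val ∧ v (ll (some i) true) ≠ 0
        · obtain ⟨i, hi, hvi⟩ := hb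
          refine Or.inl ⟨ll (some i) true, ?_⟩
          show 2 ≤ v (ll (some i) true) + TT m n (ll (some i) true)
          rw [TT_some, if_pos hi]
          omega
        · push Not at hb
          exact absurd (eq_PP hn.le (fun l => by have := hex l; omega) h0 h1 h2 h3 hb) hne

/-- coordinates of sums over finsets -/
theorem coordS {k : ℕ} {p' q' : Lt.{u} m → ℕ} (x : Fin k → MA p' q') (y : MA p' q')
    (S : Finset (Fin k)) (l : Lt.{u} m) :
    ((∑ j ∈ S, x j) + y).1.1 l = (∑ j ∈ S, (x j).1.1 l) + y.1.1 l := by
  simp [Prod.fst_sum, Finset.sum_apply]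

theorem coordSf {k : ℕ} {p' q' : Lt.{u} m → ℕ} (x : Fin k → MA p' q') (y : MA p' q')
    (S : Finset (Fin k)) :
    ((∑ j ∈ S, x j) + y).1.2 = (∑ j ∈ S, (x j).1.2) + y.1.2 := by
  simp [Prod.snd_sum]

theorem closure {n : ℕ} (hn : 1 ≤ n) (hmn : n < m)
    (x : Fin m → MA (half.{u} m n true) (half m n false))
    (y : MA (half.{u} m n true) (half m n false))
    (h : ∀ i : Fin n → Fin m, (∑ j, x (i j)) + y ∈ NA (NN m n) (half m n true) (half m n false)) :
    (∑ j, x j) + y ∈ NA (NN m n) (half m n true) (half m n false) := by
  -- pass to subsets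
  have hS : ∀ S : Finset (Fin m), S.card = n →
      (∑ j ∈ S, x j) + y ∈ NA (NN m n) (half m n true) (half m n false) := by
    intro S hc
    have := h (S.orderEmbOfFin hc)
    have e : ∑ j, x (S.orderEmbOfFin hc j) = ∑ j ∈ S, x j := by
      refine (Finset.sum_map Finset.univ (S.orderEmbOfFin hc).toEmbedding x).symm.trans ?_
      rw [Finset.map_orderEmbOfFin_univ S hc]
    rwa [e] at this
  by_cases hex : ∃ l, 2 ≤ ((∑ j, x j) + y).1.1 l
  · refine ⟨Or.inl hex, fun _ heq => ?_⟩
    obtain ⟨l, hl⟩ := hex
    have h1 : ((∑ j, x j) + y).1.1 l = PP m n l := congrFun heq l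
    have := PP_le_one (n := n) l
    omega
  push Not at hex
  have hle : ∀ (S : Finset (Fin m)) (l : Lt.{u} m),
      ((∑ j ∈ S, x j) + y).1.1 l ≤ ((∑ j, x j) + y).1.1 l := by
    intro S l
    rw [coordS, coordS]
    have := Finset.sum_le_sum_of_subset (f := fun j => (x j).1.1 l) (Finset.subset_univ S)
    omega
  have hxle : ∀ (S : Finset (Fin m)) (a : Fin m) (l : Lt.{u} m), a ∉ S →
      (x a).1.1 l + ((∑ j ∈ S, x j) + y).1.1 l ≤ ((∑ j, x j) + y).1.1 l := by
    intro S a l ha
    rw [coordS, coordS, ← add_assoc]
    have h1 := Finset.sum_le_sum_of_subset (f := fun j => (x j).1.1 l)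
      (Finset.subset_univ (insert a S))
    rw [Finset.sum_insert ha] at h1
    omega
  -- members
  have hmem : ∀ S : Finset (Fin m), S.card = n →
      (((∑ j ∈ S, x j) + y).1.1 (ll none true) = 1 ∧
        ((∑ j ∈ S, x j) + y).1.1 (ll none false) = 1 ∧
        (∀ i, ((∑ j ∈ S, x j) + y).1.1 (ll (some i) true) =
          ((∑ j ∈ S, x j) + y).1.1 (ll (some i) false)) ∧
        n ≤ (Finset.univ.filter
          (fun i : Fin m => ((∑ j ∈ S, x j) + y).1.1 (ll (some i) true) ≠ 0)).card ∧
        ((∃ i : Fin m, i.val < n ∧ ((∑ j ∈ S, x j) + y).1.1 (ll (some i) true) = 0) ∨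
          (∀ i : Fin m, n ≤ i.val → ((∑ j ∈ S, x j) + y).1.1 (ll (some i) true) = 0))) := by
    intro S hc
    rcases mem_NN.mp (hS S hc).1 with ⟨l, hl⟩ | h1
    · have := hle S l
      have := hex l
      omega
    · exact h1
  by_cases hJ : (Finset.univ.filter (fun j : Fin m => (x j).1.1 ≠ 0)).card ≤ n
  · obtain ⟨S, hS1, hS2⟩ := Finset.exists_superset_card_eq hJ
      (by rw [Fintype.card_fin]; exact hmn.le)
    have e : ∑ j, x j = ∑ j ∈ S, x j := by
      symm
      apply Finset.sum_subset (Finset.subset_univ S)
      intro j _ hj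
      have h1 : (x j).1.1 = 0 := by
        by_contra hne
        exact hj (hS1 (by simp [hne]))
      have h2 : (x j).1.2 = 0 := by
        rcases (x j).2 with h3 | h3 | h3
        · exact h3
        · have := h3 (ll none true)
          rw [h1, half_none] at this
          simp at this
        · have := h3 (ll none false)
          rw [h1, half_none] at this
          simp at this
      apply Subtype.ext
      exact Prod.ext h1 h2
    rw [e]
    exact hS S hS2
  push Not at hJ
  have havoid : ∀ a : Fin m, ∃ S : Finset (Fin m), S.card = n ∧ a ∉ S := by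
    intro a
    obtain ⟨S, hS1, hS2⟩ := Finset.exists_subset_card_eq
      (s := Finset.univ.erase a) (n := n) (by
        rw [Finset.card_erase_of_mem (Finset.mem_univ _), Finset.card_univ, Fintype.card_fin]
        omega)
    exact ⟨S, hS2, fun ha => by simpa using hS1 ha⟩
  have hcontain : ∀ K : Finset (Fin m), K.card ≤ n → ∃ S : Finset (Fin m), S.card = n ∧ K ⊆ S := by
    intro K hK
    obtain ⟨S, hS1, hS2⟩ := Finset.exists_superset_card_eq hK
      (by rw [Fintype.card_fin]; exact hmn.le)
    exact ⟨S, hS2, hS1⟩
  have xD : ∀ a (b : Bool), (x a).1.1 (ll none b) = 0 := by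
    intro a b
    obtain ⟨S, hc, ha⟩ := havoid a
    have h1 := hxle S a (ll none b) ha
    have h2 := hex (ll none b)
    have h3 := hmem S hc
    cases b
    · have := h3.2.1; omega
    · have := h3.1; omega
  obtain ⟨S0, hS0, -⟩ := hcontain ∅ (by simp)
  have yD : ∀ b : Bool, y.1.1 (ll none b) = 1 := by
    intro b
    have h3 := hmem S0 hS0
    cases b
    · have h4 := h3.2.1
      rw [coordS] at h4
      simp only [xD] at h4
      simpa using h4
    · have h4 := h3.1
      rw [coordS] at h4
      simp only [xD] at h4
      simpa using h4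
  have xf : ∀ a, (x a).1.2 = 0 := by
    intro a
    rcases (x a).2 with h3 | h3 | h3
    · exact h3
    · have := h3 (ll none true)
      rw [xD, half_none] at this
      simp at this
    · have := h3 (ll none false)
      rw [xD, half_none] at this
      simp at this
  -- the case where every index below `n` is covered by y
  have ycov : ¬ (∀ i : Fin m, i.val < n → ∀ S : Finset (Fin m), S.card = n →
      ((∑ j ∈ S, x j) + y).1.1 (ll (some i) true) ≠ 0) := by
    intro hcov
    have hPP : ∀ S : Finset (Fin m), S.card = n → ((∑ j ∈ S, x j) + y).1.1 = PP m n := by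
      intro S hc
      obtain ⟨a0, a1, a2, a3, a4⟩ := hmem S hc
      apply eq_PP hmn.le (fun l => ?_) a0 a1 a2 a3
      · rcases a4 with ⟨i, hi, hi0⟩ | a4
        · exact absurd hi0 (hcov i hi S hc)
        · exact a4
      · have := hle S l
        have := hex l
        omega
    have hJ' : 0 < (Finset.univ.filter (fun j : Fin m => (x j).1.1 ≠ 0)).card := by omega
    obtain ⟨a, ha⟩ := Finset.card_pos.mp hJ'
    simp only [Finset.mem_filter, Finset.mem_univ, true_and] at ha
    have : ∃ l, (x a).1.1 l ≠ 0 := by
      by_contra hcon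
      push Not at hcon
      exact ha (funext hcon)
    obtain ⟨l, hl⟩ := this
    obtain ⟨S1, hc1, hsub⟩ := hcontain {a} (by simpa using hn)
    obtain ⟨S2, hc2, ha2⟩ := havoid a
    have h1 : (x a).1.1 l ≤ ((∑ j ∈ S1, x j) + y).1.1 l := by
      rw [coordS]
      have : (x a).1.1 l ≤ ∑ j ∈ S1, (x j).1.1 l :=
        Finset.single_le_sum (f := fun j => (x j).1.1 l) (fun _ _ => Nat.zero_le _)
          (hsub (Finset.mem_singleton_self a))
      omega
    have h2 := hxle S2 a l ha2
    have h3 := hex l
    rw [hPP S1 hc1] at h1
    rw [hPP S2 hc2] at h2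
    omega
  have yf : y.1.2 = 0 := by
    rcases y.2 with h3 | h3 | h3
    · exact h3
    · exfalso
      apply ycov
      intro i hi S hc h0
      have h4 := h3 (ll (some i) true)
      rw [half_some] at h4
      simp only [true_and, if_pos hi] at h4
      rw [coordS] at h0
      omega
    · exfalso
      apply ycov
      intro i hi S hc h0
      have h4 := h3 (ll (some i) false)
      rw [half_some] at h4
      simp only [true_and, if_pos hi] at h4
      rw [(hmem S hc).2.2.1 i, coordS] at h0
      omega
  have hstar : ∀ S : Finset (Fin m), S.card = n →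
      ∃ i : Fin m, i.val < n ∧ ((∑ j ∈ S, x j) + y).1.1 (ll (some i) true) = 0 := by
    intro S hc
    obtain ⟨a0, a1, a2, a3, a4⟩ := hmem S hc
    rcases a4 with a4 | a4
    · exact a4
    · exfalso
      apply (hS S hc).2
      · rw [coordSf, yf]
        simp [xf]
      · refine eq_PP hmn.le (fun l => ?_) a0 a1 a2 a3 a4
        have := hle S l
        have := hex l
        omega
  have hzero : ∃ i : Fin m, i.val < n ∧ ((∑ j, x j) + y).1.1 (ll (some i) true) = 0 := by
    by_contra hcon
    push Not at hcon
    -- choose an index responsible for each i < n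
    have hch : ∀ i : Fin m, ∃ a : Fin m, i.val < n →
        (x a).1.1 (ll (some i) true) ≠ 0 ∨ y.1.1 (ll (some i) true) ≠ 0 := by
      intro i
      by_cases hi : i.val < n
      · have h1 := hcon i hi
        rw [coordS] at h1
        by_cases hy : y.1.1 (ll (some i) true) = 0
        · rw [hy, add_zero] at h1
          obtain ⟨a, -, ha⟩ := Finset.exists_ne_zero_of_sum_ne_zero h1
          exact ⟨a, fun _ => Or.inl ha⟩
        · exact ⟨i, fun _ => Or.inr hy⟩
      · exact ⟨i, fun h => absurd h hi⟩
    choose c hc using hch
    obtain ⟨S, hcard, hsub⟩ := hcontain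
      ((Finset.univ.filter (fun i : Fin m => i.val < n)).image c)
      (le_trans Finset.card_image_le (card_lt hmn.le).le)
    obtain ⟨i, hi, hi0⟩ := hstar S hcard
    rw [coordS] at hi0
    rcases hc i hi with h1 | h1
    · have h2 : c i ∈ S := hsub (Finset.mem_image_of_mem c (by simp [hi]))
      have : (x (c i)).1.1 (ll (some i) true) ≤ ∑ j ∈ S, (x j).1.1 (ll (some i) true) :=
        Finset.single_le_sum (f := fun j => (x j).1.1 (ll (some i) true))
          (fun _ _ => Nat.zero_le _) h2
      omega
    · omega
  have vnone : ∀ b : Bool, ((∑ j, x j) + y).1.1 (ll none b) = 1 := by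
    intro b
    rw [coordS, yD]
    simp [xD]
  have veq : ∀ i, ((∑ j, x j) + y).1.1 (ll (some i) true) =
      ((∑ j, x j) + y).1.1 (ll (some i) false) := by
    -- for each letter in the support there is a subset realising it
    have hreal : ∀ l : Lt.{u} m, ((∑ j, x j) + y).1.1 l ≠ 0 → ∃ S : Finset (Fin m),
        S.card = n ∧ ((∑ j ∈ S, x j) + y).1.1 l ≠ 0 := by
      intro l hl
      rw [coordS] at hl
      by_cases hy : y.1.1 l = 0
      · rw [hy, add_zero] at hl
        obtain ⟨a, -, ha⟩ := Finset.exists_ne_zero_of_sum_ne_zero hl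
        obtain ⟨S, hc, hsub⟩ := hcontain {a} (by simpa using hn)
        refine ⟨S, hc, ?_⟩
        rw [coordS]
        have : (x a).1.1 l ≤ ∑ j ∈ S, (x j).1.1 l :=
          Finset.single_le_sum (f := fun j => (x j).1.1 l) (fun _ _ => Nat.zero_le _)
            (hsub (Finset.mem_singleton_self a))
        omega
      · refine ⟨S0, hS0, ?_⟩
        rw [coordS]
        omega
    intro i
    have t1 := hex (ll (some i) true)
    have t2 := hex (ll (some i) false)
    by_cases c1 : ((∑ j, x j) + y).1.1 (ll (some i) true) = 0
    · by_cases c2 : ((∑ j, x j) + y).1.1 (ll (some i) false) = 0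
      · rw [c1, c2]
      · exfalso
        obtain ⟨S, hc, hl⟩ := hreal _ c2
        rw [← (hmem S hc).2.2.1 i] at hl
        have := hle S (ll (some i) true)
        omega
    · by_cases c2 : ((∑ j, x j) + y).1.1 (ll (some i) false) = 0
      · exfalso
        obtain ⟨S, hc, hl⟩ := hreal _ c1
        rw [(hmem S hc).2.2.1 i] at hl
        have := hle S (ll (some i) false)
        omega
      · omega
  have vcard : n ≤ (Finset.univ.filter
      (fun i : Fin m => ((∑ j, x j) + y).1.1 (ll (some i) true) ≠ 0)).card := by
    refine le_trans (hmem S0 hS0).2.2.2.1 (Finset.card_le_card ?_)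
    intro i hi
    simp only [Finset.mem_filter, Finset.mem_univ, true_and] at *
    have := hle S0 (ll (some i) true)
    omega
  refine ⟨Or.inr ⟨vnone true, vnone false, veq, vcard, Or.inl hzero⟩, fun _ heq => ?_⟩
  obtain ⟨i, hi, hi0⟩ := hzero
  have h1 : ((∑ j, x j) + y).1.1 (ll (some i) true) = PP m n (ll (some i) true) :=
    congrFun heq _
  rw [hi0, PP_some, if_pos hi] at h1
  omega

/-- indicator of a letter -/
def ind (l : Lt.{u} m) : Lt.{u} m → ℕ := fun l' => if l' = l then 1 else 0

theorem ind_le {n : ℕ} {l : Lt.{u} m} (b : Bool) (hl : l.down.2 = b)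
    (h : ind l ≤ half m n true + half m n false) : ind l ≤ half m n b := by
  intro l'
  unfold ind
  split_ifs with hh
  · subst hh
    have h1 := h l'
    unfold ind at h1
    rw [if_pos rfl] at h1
    simp only [Pi.add_apply] at h1
    unfold half at h1 ⊢
    rw [hl] at h1 ⊢
    cases b <;> simpa using h1
  · exact Nat.zero_le _

theorem main {n : ℕ} (hn : 1 ≤ n) (hmn : n < m) :
    ¬ FormsVariety (IsSubreduct (PowLe.{u} m n)) := by
  refine not_variety (dctx hmn) (by omega) (ind (ll none true)) (ind (ll none false))
    (fun i => ind (ll (some i) true)) (fun i => ind (ll (some i) false))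
    (ind_le true rfl) (ind_le false rfl) (fun i => ind_le true rfl) (fun i => ind_le false rfl)
    ?_ ?_ (fun x y h => closure hn hmn x y h)
  · intro i
    set v : Lt.{u} m → ℕ := ind (ll none true) + ind (ll none false) +
      ∑ j, (ind (ll (some (i j)) true) + ind (ll (some (i j)) false)) with hv
    have hval : ∀ (l : Lt.{u} m), v l = (if l = ll none true then 1 else 0) +
        (if l = ll none false then 1 else 0) +
        ∑ j, ((if l = ll (some (i j)) true then 1 else 0) +
          (if l = ll (some (i j)) false then 1 else 0)) := by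
      intro l
      rw [hv]
      simp [ind, Finset.sum_apply]
    have hnone : ∀ b, v (ll none b) = 1 := by
      intro b
      rw [hval]
      cases b <;> simp [ll]
    have hsome : ∀ a b, v (ll (some a) b) = ∑ j, (if a = i j then 1 else 0) := by
      intro a b
      rw [hval]
      cases b <;> simp [ll]
    by_cases hinj : Function.Injective i
    · refine Or.inr ⟨hnone _, hnone _, fun a => by rw [hsome, hsome], ?_, ?_⟩
      · have : (Finset.univ.image i) ⊆
            Finset.univ.filter (fun a : Fin m => v (ll (some a) true) ≠ 0) := by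
          intro a ha
          simp only [Finset.mem_image, Finset.mem_univ, true_and] at ha
          obtain ⟨j, rfl⟩ := ha
          simp only [Finset.mem_filter, Finset.mem_univ, true_and]
          rw [hsome]
          intro h0
          rw [Finset.sum_eq_zero_iff] at h0
          have := h0 j (Finset.mem_univ _)
          simp at this
        have h1 := Finset.card_le_card this
        rw [Finset.card_image_of_injective _ hinj, Finset.card_univ, Fintype.card_fin] at h1
        exact h1
      · by_cases hc : ∃ a : Fin m, a.val < n ∧ v (ll (some a) true) = 0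
        · exact Or.inl hc
        · right
          push Not at hc
          intro a ha
          -- all indices below n are hit, so i is onto them
          have hsub : Finset.univ.filter (fun a : Fin m => a.val < n) ⊆ Finset.univ.image i := by
            intro b hb
            simp only [Finset.mem_filter, Finset.mem_univ, true_and] at hb
            have h1 := hc b hb
            rw [hsome] at h1
            obtain ⟨j, -, hj⟩ := Finset.exists_ne_zero_of_sum_ne_zero h1
            simp only [Finset.mem_image, Finset.mem_univ, true_and]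
            refine ⟨j, ?_⟩
            by_contra hne
            rw [if_neg (fun h => hne h.symm)] at hj
            exact hj rfl
          have heq := Finset.eq_of_subset_of_card_le hsub (by
            rw [card_lt hmn.le, Finset.card_image_of_injective _ hinj, Finset.card_univ,
              Fintype.card_fin])
          rw [hsome]
          apply Finset.sum_eq_zero
          intro j _
          rw [if_neg]
          rintro rfl
          have : i j ∈ Finset.univ.filter (fun a : Fin m => a.val < n) := by
            rw [heq]; simp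
          simp only [Finset.mem_filter, Finset.mem_univ, true_and] at this
          omega
    · left
      unfold Function.Injective at hinj
      push Not at hinj
      obtain ⟨a, b, hab, hne⟩ := hinj
      refine ⟨ll (some (i a)) true, ?_⟩
      rw [hsome]
      have : ∑ j ∈ ({a, b} : Finset (Fin n)), (if i a = i j then 1 else 0) ≤
          ∑ j, (if i a = i j then 1 else 0) :=
        Finset.sum_le_sum_of_subset (Finset.subset_univ _)
      rw [Finset.sum_pair hne] at this
      simp only [if_true, if_pos hab] at this
      exact this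
  · apply not_mem_ones hmn
    have hval : ∀ (l : Lt.{u} m), (ind (ll none true) + ind (ll none false) +
        ∑ j : Fin m, (ind (ll (some j) true) + ind (ll (some j) false)) : Lt.{u} m → ℕ) l =
        (if l = ll none true then 1 else 0) +
        (if l = ll none false then 1 else 0) +
        ∑ j : Fin m, ((if l = ll (some j) true then 1 else 0) +
          (if l = ll (some j) false then 1 else 0)) := by
      intro l
      simp [ind, Finset.sum_apply]
    rw [forall_lt]
    constructor
    · intro b
      rw [hval]
      cases b <;> simp [ll]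
    · intro a b
      rw [hval]
      cases b <;> simp [ll]

end RegI

end Pool.Agent.H399.Knot
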