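import Pool.Agent.H399.KnotQ

/-!
The frame for `2 ≤ m < n`.
-/

universe u

namespace Pool.Agent.H399.Knot

namespace RegII

abbrev Lt : Type u := ULift.{u} (Fin 5)

def mk (a b c d e : ℕ) : Lt.{u} → ℕ := fun l => ![a, b, c, d, e] l.down

def l0 : Lt.{u} := ⟨0⟩
def l1 : Lt.{u} := ⟨1⟩
def l2 : Lt.{u} := ⟨2⟩
def l3 : Lt.{u} := ⟨3⟩
def l4 : Lt.{u} := ⟨4⟩

theorem ext5 {v w : Lt.{u} → ℕ} (h0 : v l0 = w l0) (h1 : v l1 = w l1) (h2 : v l2 = w l2)
    (h3 : v l3 = w l3) (h4 : v l4 = w l4) : v = w := by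
  funext ⟨l⟩
  fin_cases l
  · exact h0
  · exact h1
  · exact h2
  · exact h3
  · exact h4

theorem le5 {v w : Lt.{u} → ℕ} : v ≤ w ↔ (v l0 ≤ w l0 ∧ v l1 ≤ w l1 ∧ v l2 ≤ w l2 ∧
    v l3 ≤ w l3 ∧ v l4 ≤ w l4) := by
  constructor
  · intro h
    exact ⟨h _, h _, h _, h _, h _⟩
  · rintro ⟨h0, h1, h2, h3, h4⟩ ⟨l⟩
    fin_cases l
    · exact h0
    · exact h1
    · exact h2
    · exact h3
    · exact h4

def NN (m n : ℕ) : Set (Lt.{u} → ℕ) :=
  {v | v l0 = 1 ∧ v l1 = 1 ∧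
    (v l2 + v l3 = n ∨ (v l2 = m ∧ v l3 = 0) ∨ (v l2 = 0 ∧ v l3 = m)) ∧
    (v l4 = 0 ∨ ¬ (v l2 = 1 ∧ v l3 = n - 1))}

def p : Lt.{u} → ℕ := mk 1 0 1 0 0
def q (n : ℕ) : Lt.{u} → ℕ := mk 0 1 0 (n - 1) 0
def T : Lt.{u} → ℕ := mk 0 0 0 0 1

@[simp] theorem mk0 (a b c d e : ℕ) : (mk a b c d e : Lt.{u} → ℕ) l0 = a := rfl
@[simp] theorem mk1 (a b c d e : ℕ) : (mk a b c d e : Lt.{u} → ℕ) l1 = b := rfl
@[simp] theorem mk2 (a b c d e : ℕ) : (mk a b c d e : Lt.{u} → ℕ) l2 = c := rfl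
@[simp] theorem mk3 (a b c d e : ℕ) : (mk a b c d e : Lt.{u} → ℕ) l3 = d := rfl
@[simp] theorem mk4 (a b c d e : ℕ) : (mk a b c d e : Lt.{u} → ℕ) l4 = e := rfl

theorem mem_NN {m n : ℕ} {v : Lt.{u} → ℕ} : v ∈ NN m n ↔ (v l0 = 1 ∧ v l1 = 1 ∧
    (v l2 + v l3 = n ∨ (v l2 = m ∧ v l3 = 0) ∨ (v l2 = 0 ∧ v l3 = m)) ∧
    (v l4 = 0 ∨ ¬ (v l2 = 1 ∧ v l3 = n - 1))) := Iff.rfl

theorem pq_iff {n : ℕ} {v : Lt.{u} → ℕ} : v = p + q n ↔
    (v l0 = 1 ∧ v l1 = 1 ∧ v l2 = 1 ∧ v l3 = n - 1 ∧ v l4 = 0) := by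
  constructor
  · rintro rfl
    simp [p, q]
  · rintro ⟨h0, h1, h2, h3, h4⟩
    apply ext5 <;> simp [p, q, *]

theorem dctx {m n : ℕ} : DCtx (NN.{u} m n) p (q n) T := by
  refine ⟨?_, ?_, ?_⟩
  · rintro ⟨l⟩
    fin_cases l
    · right; rfl
    · left; rfl
    · right; rfl
    · left; rfl
    · left; rfl
  · rw [mem_NN]
    simp [p, q, T]
  · intro v hv hne
    rw [mem_NN] at hv ⊢
    rw [Ne, pq_iff] at hne
    simp only [Pi.add_apply, T, mk0, mk1, mk2, mk3, mk4]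
    obtain ⟨a, b, c, d⟩ := hv
    refine ⟨by omega, by omega, by omega, ?_⟩
    right
    intro h
    apply hne
    refine ⟨a, b, by omega, by omega, ?_⟩
    rcases d with d | d
    · exact d
    · exact absurd ⟨by omega, by omega⟩ d

/-- coordinates of sums -/
theorem coord {m k : ℕ} {p' q' : Lt.{u} → ℕ} (x : Fin m → MA p' q') (y : MA p' q')
    (i : Fin k → Fin m) (l : Lt.{u}) :
    ((∑ j, x (i j)) + y).1.1 l = (∑ j, (x (i j)).1.1 l) + y.1.1 l := by
  simp [Prod.fst_sum, Finset.sum_apply]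

theorem coordf {m k : ℕ} {p' q' : Lt.{u} → ℕ} (x : Fin m → MA p' q') (y : MA p' q')
    (i : Fin k → Fin m) :
    ((∑ j, x (i j)) + y).1.2 = (∑ j, (x (i j)).1.2) + y.1.2 := by
  simp [Prod.snd_sum]

theorem closure {m n : ℕ} (hm : 2 ≤ m) (hmn : m < n) (x : Fin m → MA p.{u} (q n))
    (y : MA p.{u} (q n))
    (h : ∀ i : Fin n → Fin m, (∑ j, x (i j)) + y ∈ NA (NN m n) p (q n)) :
    (∑ j, x j) + y ∈ NA (NN m n) p (q n) := by
  -- constant index functions
  have hc : ∀ a : Fin m, ∀ l : Lt.{u}, ((∑ j : Fin n, x ((fun _ => a) j)) + y).1.1 l =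
      n * (x a).1.1 l + y.1.1 l := by
    intro a l
    rw [coord]
    simp
  have hN : ∀ i : Fin n → Fin m, ((∑ j, x (i j)) + y).1.1 ∈ NN m n := fun i => (h i).1
  have x0 : ∀ a, (x a).1.1 l0 = 0 := by
    intro a
    have h1 := ((mem_NN.mp (hN (fun _ => a))).1)
    rw [hc a] at h1
    by_contra hne
    have : 1 ≤ (x a).1.1 l0 := Nat.one_le_iff_ne_zero.mpr hne
    nlinarith
  have x1 : ∀ a, (x a).1.1 l1 = 0 := by
    intro a
    have h1 := ((mem_NN.mp (hN (fun _ => a))).2.1)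
    rw [hc a] at h1
    by_contra hne
    have : 1 ≤ (x a).1.1 l1 := Nat.one_le_iff_ne_zero.mpr hne
    nlinarith
  have a0 : Fin m := ⟨0, by omega⟩
  have y0 : y.1.1 l0 = 1 := by
    have h1 := ((mem_NN.mp (hN (fun _ => a0))).1)
    rw [hc a0, x0] at h1
    omega
  have y1 : y.1.1 l1 = 1 := by
    have h1 := ((mem_NN.mp (hN (fun _ => a0))).2.1)
    rw [hc a0, x1] at h1
    omega
  have xf : ∀ a, (x a).1.2 = 0 := by
    intro a
    rcases (x a).2 with h1 | h1 | h1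
    · exact h1
    · have := h1 l0
      rw [x0 a] at this
      simp [p] at this
    · have := h1 l1
      rw [x1 a] at this
      simp [q] at this
  have deg : ∀ a, n * ((x a).1.1 l2 + (x a).1.1 l3) + (y.1.1 l2 + y.1.1 l3) = n ∨
      n * ((x a).1.1 l2 + (x a).1.1 l3) + (y.1.1 l2 + y.1.1 l3) = m := by
    intro a
    have h1 := ((mem_NN.mp (hN (fun _ => a))).2.2.1)
    rw [hc a, hc a] at h1
    have e : n * ((x a).1.1 l2 + (x a).1.1 l3) + (y.1.1 l2 + y.1.1 l3) =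
      n * (x a).1.1 l2 + y.1.1 l2 + (n * (x a).1.1 l3 + y.1.1 l3) := by ring
    rw [e]
    omega
  have s0 : ((∑ j, x j) + y).1.1 l0 = 1 := by
    have := coord x y id l0
    simp only [id] at this
    rw [this, y0]
    simp [x0]
  have s1 : ((∑ j, x j) + y).1.1 l1 = 1 := by
    have := coord x y id l1
    simp only [id] at this
    rw [this, y1]
    simp [x1]
  have s2 : ((∑ j, x j) + y).1.1 l2 = (∑ j, (x j).1.1 l2) + y.1.1 l2 := coord x y id l2
  have s3 : ((∑ j, x j) + y).1.1 l3 = (∑ j, (x j).1.1 l3) + y.1.1 l3 := coord x y id l3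
  have s4 : ((∑ j, x j) + y).1.1 l4 = (∑ j, (x j).1.1 l4) + y.1.1 l4 := coord x y id l4
  have sf : ((∑ j, x j) + y).1.2 = y.1.2 := by
    have := coordf x y id
    simp only [id] at this
    rw [this]
    simp [xf]
  by_cases ht : y.1.1 l2 + y.1.1 l3 = 0
  · -- case (a)
    have xd : ∀ a, (x a).1.1 l2 + (x a).1.1 l3 = 1 := by
      intro a
      rcases deg a with h1 | h1
      · rw [ht] at h1
        have : n * ((x a).1.1 l2 + (x a).1.1 l3) = n * 1 := by omega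
        exact Nat.eq_of_mul_eq_mul_left (by omega) this
      · exfalso
        rw [ht] at h1
        rcases Nat.eq_zero_or_pos ((x a).1.1 l2 + (x a).1.1 l3) with h2 | h2
        · rw [h2] at h1; omega
        · nlinarith
    have yf : y.1.2 = 0 := by
      rcases y.2 with h1 | h1 | h1
      · exact h1
      · have h2 : 1 ≤ y.1.1 l2 := h1 l2
        omega
      · have h2 : n - 1 ≤ y.1.1 l3 := h1 l3
        omega
    have hall : (∀ a, (x a).1.1 l2 = 1) ∨ (∀ a, (x a).1.1 l2 = 0) := by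
      by_contra hcon
      push Not at hcon
      obtain ⟨⟨b, hb⟩, ⟨a, ha⟩⟩ := hcon
      have hb0 : (x b).1.1 l2 = 0 := by have := xd b; omega
      have hb1 : (x b).1.1 l3 = 1 := by have := xd b; omega
      have ha1 : (x a).1.1 l2 = 1 := by have := xd a; omega
      have ha0 : (x a).1.1 l3 = 0 := by have := xd a; omega
      obtain ⟨k, rfl⟩ : ∃ k, n = k + 1 := ⟨n - 1, by omega⟩
      have hi := h (Fin.cons a (fun _ => b))
      have c2 : ((∑ j, x ((Fin.cons a (fun _ => b) : Fin (k + 1) → Fin m) j)) + y).1.1 l2 = 1 := by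
        rw [coord, Fin.sum_univ_succ]
        simp only [Fin.cons_zero, Fin.cons_succ, hb0, ha1]
        simp; omega
      have c3 : ((∑ j, x ((Fin.cons a (fun _ => b) : Fin (k + 1) → Fin m) j)) + y).1.1 l3 = k := by
        rw [coord, Fin.sum_univ_succ]
        simp only [Fin.cons_zero, Fin.cons_succ, hb1, ha0]
        simp; omega
      have cf : ((∑ j, x ((Fin.cons a (fun _ => b) : Fin (k + 1) → Fin m) j)) + y).1.2 = 0 := by
        rw [coordf, yf]
        simp [xf]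
      have hmem := mem_NN.mp hi.1
      apply hi.2 cf
      rw [pq_iff]
      refine ⟨hmem.1, hmem.2.1, c2, c3, ?_⟩
      rcases hmem.2.2.2 with h4 | h4
      · exact h4
      · exact absurd ⟨c2, c3⟩ h4
    have y2 : y.1.1 l2 = 0 := by omega
    have y3 : y.1.1 l3 = 0 := by omega
    rcases hall with hall | hall
    · have t2 : ((∑ j, x j) + y).1.1 l2 = m := by
        rw [s2, y2]; simp [hall]
      have t3 : ((∑ j, x j) + y).1.1 l3 = 0 := by
        rw [s3, y3]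
        have : ∀ a, (x a).1.1 l3 = 0 := fun a => by have := xd a; have := hall a; omega
        simp [this]
      refine ⟨mem_NN.mpr ⟨s0, s1, Or.inr (Or.inl ⟨t2, t3⟩), Or.inr ?_⟩, fun _ => ?_⟩
      · rw [t2]; omega
      · rw [Ne, pq_iff, t2]; omega
    · have t2 : ((∑ j, x j) + y).1.1 l2 = 0 := by
        rw [s2, y2]; simp [hall]
      have t3 : ((∑ j, x j) + y).1.1 l3 = m := by
        rw [s3, y3]
        have : ∀ a, (x a).1.1 l3 = 1 := fun a => by have := xd a; have := hall a; omega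
        simp [this]
      refine ⟨mem_NN.mpr ⟨s0, s1, Or.inr (Or.inr ⟨t2, t3⟩), Or.inr ?_⟩, fun _ => ?_⟩
      · rw [t2]; omega
      · rw [Ne, pq_iff, t2]; omega
  · -- case (b)
    have xd : ∀ a, (x a).1.1 l2 = 0 ∧ (x a).1.1 l3 = 0 := by
      intro a
      have : (x a).1.1 l2 + (x a).1.1 l3 = 0 := by
        by_contra hne
        have h2 : 1 ≤ (x a).1.1 l2 + (x a).1.1 l3 := Nat.one_le_iff_ne_zero.mpr hne
        rcases deg a with h1 | h1 <;> nlinarith [Nat.pos_of_ne_zero ht]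
      omega
    have t2 : ((∑ j, x j) + y).1.1 l2 = y.1.1 l2 := by
      rw [s2]; simp [fun a => (xd a).1]
    have t3 : ((∑ j, x j) + y).1.1 l3 = y.1.1 l3 := by
      rw [s3]; simp [fun a => (xd a).2]
    have i2 : ∀ i : Fin n → Fin m, ((∑ j, x (i j)) + y).1.1 l2 = y.1.1 l2 := by
      intro i; rw [coord]; simp [fun a => (xd a).1]
    have i3 : ∀ i : Fin n → Fin m, ((∑ j, x (i j)) + y).1.1 l3 = y.1.1 l3 := by
      intro i; rw [coord]; simp [fun a => (xd a).2]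
    have hcond := (mem_NN.mp (hN (fun _ => a0))).2.2.1
    rw [i2, i3] at hcond
    by_cases hP : y.1.1 l2 = 1 ∧ y.1.1 l3 = n - 1
    · have k4 : ∀ i : Fin n → Fin m, ((∑ j, x (i j)) + y).1.1 l4 = 0 := by
        intro i
        have h4 := (mem_NN.mp (hN i)).2.2.2
        rw [i2, i3] at h4
        rcases h4 with h4 | h4
        · exact h4
        · exact absurd hP h4
      have y4 : y.1.1 l4 = 0 := by
        have := k4 (fun _ => a0)
        rw [coord] at this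
        omega
      have x4 : ∀ a, (x a).1.1 l4 = 0 := by
        intro a
        have := k4 (fun _ => a)
        rw [hc] at this
        have h5 : n * (x a).1.1 l4 = 0 := by omega
        rcases Nat.mul_eq_zero.mp h5 with h6 | h6
        · omega
        · exact h6
      have t4 : ((∑ j, x j) + y).1.1 l4 = 0 := by
        rw [s4, y4]; simp [x4]
      refine ⟨mem_NN.mpr ⟨s0, s1, by rw [t2, t3]; exact hcond, Or.inl t4⟩, fun hf => ?_⟩
      exfalso
      have hi := h (fun _ => a0)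
      apply hi.2
      · rw [coordf]
        simp only [xf]
        rw [sf] at hf
        simpa using hf
      · rw [pq_iff]
        have hm' := mem_NN.mp hi.1
        refine ⟨hm'.1, hm'.2.1, ?_, ?_, k4 _⟩
        · rw [i2]; exact hP.1
        · rw [i3]; exact hP.2
    · refine ⟨mem_NN.mpr ⟨s0, s1, by rw [t2, t3]; exact hcond, Or.inr ?_⟩, fun _ => ?_⟩
      · rw [t2, t3]; exact hP
      · rw [Ne, pq_iff, t2, t3]
        intro hh
        exact hP ⟨hh.2.2.1, hh.2.2.2.1⟩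

theorem main {m n : ℕ} (hm : 2 ≤ m) (hmn : m < n) :
    ¬ FormsVariety (IsSubreduct (PowLe.{u} m n)) := by
  obtain ⟨k, rfl⟩ : ∃ k, m = k + 1 := ⟨m - 1, by omega⟩
  have hsum : ∀ {r : ℕ} (c : ℕ) (f : Fin r → Lt.{u} → ℕ) (l : Lt.{u}),
      (mk 1 0 0 0 0 + mk 0 1 0 0 0 + ∑ j, f j : Lt.{u} → ℕ) l =
      (mk 1 0 0 0 0 : Lt.{u} → ℕ) l + (mk 0 1 0 0 0 : Lt.{u} → ℕ) l + ∑ j, f j l := by
    intro r c f l
    simp [Finset.sum_apply]
  refine not_variety (dctx (m := k + 1) (n := n)) (by omega) (mk 1 0 0 0 0) (mk 0 1 0 0 0)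
    (Fin.cons (mk 0 0 1 0 0) (fun _ => 0)) (Fin.cons 0 (fun _ => mk 0 0 0 1 0))
    ?_ ?_ ?_ ?_ ?_ ?_ (fun x y h => closure hm hmn x y h)
  · intro _
    rw [le5]
    simp [p]
  · intro _
    rw [le5]
    simp [q]
  · intro j
    refine Fin.cases ?_ ?_ j
    · intro _
      rw [Fin.cons_zero, le5]
      simp [p]
    · intro j _
      rw [Fin.cons_succ]
      intro l
      exact Nat.zero_le _
  · intro j
    refine Fin.cases ?_ ?_ j
    · intro _
      rw [Fin.cons_zero]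
      intro l
      exact Nat.zero_le _
    · intro j _
      rw [Fin.cons_succ, le5]
      simp [q]
      omega
  · intro i
    set α : Fin (k + 1) → Lt.{u} → ℕ := Fin.cons (mk 0 0 1 0 0) (fun _ => 0) with hα
    set β : Fin (k + 1) → Lt.{u} → ℕ := Fin.cons 0 (fun _ => mk 0 0 0 1 0) with hβ
    have e : ∀ j, (α j + β j) l0 = 0 ∧ (α j + β j) l1 = 0 ∧ (α j + β j) l4 = 0 ∧
        (α j + β j) l2 + (α j + β j) l3 = 1 := by
      intro j
      refine Fin.cases ?_ ?_ j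
      · simp [hα, hβ]
      · intro j; simp [hα, hβ]
    have e0 : (∑ j, (α (i j) + β (i j)) l0) = 0 := by simp only [(e _).1]; simp
    have e1 : (∑ j, (α (i j) + β (i j)) l1) = 0 := by simp only [(e _).2.1]; simp
    have e4 : (∑ j, (α (i j) + β (i j)) l4) = 0 := by simp only [(e _).2.2.1]; simp
    have e23 : (∑ j, (α (i j) + β (i j)) l2) + (∑ j, (α (i j) + β (i j)) l3) = n := by
      rw [← Finset.sum_add_distrib]
      simp only [(e _).2.2.2]
      simp
    rw [mem_NN]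
    rw [hsum 0, hsum 0, hsum 0, hsum 0, hsum 0, e0, e1, e4]
    simp only [mk0, mk1, mk2, mk3, mk4]
    refine ⟨trivial, trivial, Or.inl (by omega), Or.inl trivial⟩
  · rw [mem_NN, hsum 0, hsum 0, hsum 0, hsum 0, hsum 0]
    simp only [Fin.sum_univ_succ, Fin.cons_zero, Fin.cons_succ]
    simp
    omega

end RegII

end Pool.Agent.H399.Knot
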