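import Pool.Agent.H399.KnotDouble

/-!
The quasi-equation valid in all subreducts, and the criterion for it to fail in a homomorphic
image of a subreduct.
-/

universe u

namespace Pool.Agent.H399.Knot

section Basic

variable {A : Type u} [ICRL A]

theorem mul_mono_left' {x y z : A} (h : y ≤ z) : x * y ≤ x * z := by
  rw [ICRL.res]
  exact h.trans ((ICRL.res _ _ _).mp le_rfl)

theorem mul_mono' {x y z w : A} (h : x ≤ y) (h' : z ≤ w) : x * z ≤ y * w := by
  refine (mul_mono_left' h').trans ?_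
  rw [mul_comm x, mul_comm y]
  exact mul_mono_left' h

theorem le_neg_iff {x y : A} : x ≤ neg y ↔ x * y ≤ ICRL.zer := by
  rw [mul_comm]
  exact (ICRL.res y x ICRL.zer).symm

theorem neg_neg' (x : A) : neg (neg x) = x := ICRL.dneg x

theorem prod_le_pow {m : ℕ} (u : Fin m → A) (x : A) (h : ∀ j, u j ≤ x) :
    ∏ j, u j ≤ x ^ m := by
  induction m with
  | zero => simp
  | succ k ih =>
    rw [Fin.prod_univ_succ, pow_succ']
    exact mul_mono' (h 0) (ih _ (fun j => h j.succ))

theorem mul_pow_le {m : ℕ} (u : Fin m → A) (x : A) (hx : ∀ z : A, (∀ j, u j ≤ z) → x ≤ z)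
    (k : ℕ) (e z : A) (h : ∀ i : Fin k → Fin m, e * ∏ j, u (i j) ≤ z) : e * x ^ k ≤ z := by
  induction k generalizing e with
  | zero => simpa using h Fin.elim0
  | succ k ih =>
    rw [pow_succ', ← mul_assoc]
    apply ih
    intro i
    have e1 : e * x * ∏ j, u (i j) = (e * ∏ j, u (i j)) * x := by
      rw [mul_assoc, mul_assoc, mul_comm x]
    rw [e1, ICRL.res]
    apply hx
    intro j
    rw [← ICRL.res]
    have := h (Fin.cons j i)
    rw [Fin.prod_univ_succ] at this
    simp only [Fin.cons_zero, Fin.cons_succ] at this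
    have e2 : (e * ∏ j, u (i j)) * u j = e * (u j * ∏ j, u (i j)) := by
      rw [mul_assoc, mul_comm _ (u j)]
    rw [e2]
    exact this

/-- The quasi-equation valid in all bimonoidal subreducts. -/
theorem Q_holds {m n : ℕ} (hV : ∀ x : A, x ^ m ≤ x ^ n) (hm : 1 ≤ m) (d c : A)
    (a b : Fin m → A)
    (hp : ∀ i : Fin n → Fin m, d * ∏ j, a (i j) ≤ neg (neg c * ∏ j, neg (b (i j)))) :
    d * ∏ j, a j ≤ neg (neg c * ∏ j, neg (b j)) := by
  have : Nonempty (Fin m) := ⟨⟨0, hm⟩⟩
  set u : Fin m → A := fun j => a j * neg (b j) with hu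
  set x : A := Finset.univ.sup' Finset.univ_nonempty u with hx
  have h1 : ∀ j, u j ≤ x := fun j => Finset.le_sup' u (Finset.mem_univ j)
  have h2 : ∀ z : A, (∀ j, u j ≤ z) → x ≤ z := fun z hz => by
    rw [hx]
    exact Finset.sup'_le _ _ (fun j _ => hz j)
  have h3 : (d * neg c) * x ^ n ≤ ICRL.zer := by
    apply mul_pow_le u x h2
    intro i
    have := le_neg_iff.mp (hp i)
    rw [hu]
    simp only
    rw [Finset.prod_mul_distrib]
    rwa [mul_mul_mul_comm] at this
  rw [le_neg_iff, mul_mul_mul_comm, ← Finset.prod_mul_distrib]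
  exact (mul_mono_left' ((prod_le_pow u x h1).trans (hV x))).trans h3

end Basic

section Lists

/-- Iterated multiplication. -/
def mulL (B : BAlg.{u}) (l : List B.carrier) : B.carrier := l.foldr B.mul B.one

/-- Iterated addition. -/
def addL (B : BAlg.{u}) (l : List B.carrier) : B.carrier := l.foldr B.add B.zero

variable {G : Type u} [ICRL G]

theorem hom_mulG {B : BAlg.{u}} {f : B.carrier → G} (h : IsHom B (reduct G) f)
    (l : List B.carrier) : f (mulL B l) = (l.map f).prod := by
  induction l with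
  | nil => exact h.map_one
  | cons x l ih =>
    rw [List.map_cons, List.prod_cons, ← ih]
    exact h.map_mul x (mulL B l)

theorem hom_addG {B : BAlg.{u}} {f : B.carrier → G} (h : IsHom B (reduct G) f)
    (l : List B.carrier) : f (addL B l) = neg ((l.map (fun x => neg (f x))).prod) := by
  induction l with
  | nil =>
    rw [List.map_nil, List.prod_nil, neg_one_eq]
    exact h.map_zero
  | cons x l ih =>
    rw [List.map_cons, List.prod_cons]
    have h1 : f (addL B (x :: l)) = plus (f x) (f (addL B l)) := h.map_add x (addL B l)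
    rw [h1, ih]
    unfold plus
    rw [neg_neg']

theorem hom_le {B : BAlg.{u}} {f : B.carrier → G} (h : IsHom B (reduct G) f)
    (inj : Function.Injective f) (x y : B.carrier) : B.inf x y = x ↔ f x ≤ f y := by
  rw [← inf_eq_left]
  constructor
  · intro e
    exact (h.map_inf x y).symm.trans (congrArg f e)
  · intro e
    exact inj ((h.map_inf x y).trans e)

theorem hom_main {B : BAlg.{u}} {f : B.carrier → G} (h : IsHom B (reduct G) f)
    (inj : Function.Injective f) {k : ℕ} (d c : B.carrier) (a b : Fin k → B.carrier) :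
    B.inf (mulL B (d :: List.ofFn a)) (addL B (c :: List.ofFn b)) = mulL B (d :: List.ofFn a) ↔
      f d * ∏ j, f (a j) ≤ neg (neg (f c) * ∏ j, neg (f (b j))) := by
  rw [hom_le h inj, hom_mulG h, hom_addG h, List.map_cons, List.prod_cons, List.map_cons,
    List.prod_cons, List.map_ofFn, List.map_ofFn, List.prod_ofFn, List.prod_ofFn]
  rfl

end Lists

section Main

variable {L : Type u} {N : Set (L → ℕ)} {p q T : L → ℕ}

theorem gam_prod {M : Type u} [AddCommMonoid M] {N : Set M} {k : ℕ} (g : Fin k → M) :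
    ∏ j, (gam (g j) : Cl N) = gam (∑ j, g j) := by
  induction k with
  | zero => simp [gam_zero]
  | succ k ih =>
    rw [Fin.prod_univ_succ, Fin.sum_univ_succ, ih, gam_mul]

theorem val_hom (D : DCtx N p q T) :
    IsHom (BStar D) (reduct (Cl N)) (fun Y => Y.1) :=
  ⟨fun _ _ => rfl, fun _ _ => rfl, fun _ _ => rfl, fun _ _ => rfl, rfl, rfl⟩

/-- The criterion. -/
theorem not_variety (D : DCtx N p q T) {m n : ℕ} (hm : 1 ≤ m)
    (Dd Cc : L → ℕ) (α β : Fin m → L → ℕ)
    (hD : Dd ≤ p + q → Dd ≤ p) (hC : Cc ≤ p + q → Cc ≤ q)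
    (hα : ∀ j, α j ≤ p + q → α j ≤ p) (hβ : ∀ j, β j ≤ p + q → β j ≤ q)
    (hpr : ∀ i : Fin n → Fin m, Dd + Cc + ∑ j, (α (i j) + β (i j)) ∈ N)
    (hcon : Dd + Cc + ∑ j, (α j + β j) ∉ N)
    (hcl : ∀ (x : Fin m → MA p q) (y : MA p q),
      (∀ i : Fin n → Fin m, (∑ j, x (i j)) + y ∈ NA N p q) → (∑ j, x j) + y ∈ NA N p q) :
    ¬ FormsVariety (IsSubreduct (PowLe.{u} m n)) := by
  intro hF
  obtain ⟨G, inst, f, hV, hf, inj⟩ := BStar_sub D (V := PowLe.{u} m n) (powLe_cl hcl) hF
  set d : (BStar D).carrier := ⟨gam Dd, _, RR.left D hD⟩ with hd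
  set c : (BStar D).carrier := ⟨neg (gam Cc), _, RR.right D hC⟩ with hc
  set a : Fin m → (BStar D).carrier := fun j => ⟨gam (α j), _, RR.left D (hα j)⟩ with ha
  set b : Fin m → (BStar D).carrier := fun j => ⟨neg (gam (β j)), _, RR.right D (hβ j)⟩ with hb
  have hle : ∀ (k : ℕ) (i : Fin k → Fin m),
      ((BStar D).inf (mulL (BStar D) (d :: List.ofFn (fun j => a (i j))))
        (addL (BStar D) (c :: List.ofFn (fun j => b (i j)))) =
        mulL (BStar D) (d :: List.ofFn (fun j => a (i j)))) ↔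
      Dd + Cc + ∑ j, (α (i j) + β (i j)) ∈ N := by
    intro k i
    rw [hom_main (val_hom D) Subtype.val_injective]
    have e1 : d.1 * ∏ j, (a (i j)).1 = gam (Dd + ∑ j, α (i j)) := by
      have : ∏ j, (a (i j)).1 = ∏ j, (gam (α (i j)) : Cl N) := rfl
      rw [this, gam_prod]
      exact gam_mul _ _
    have e2 : neg c.1 * ∏ j, neg (b (i j)).1 = gam (Cc + ∑ j, β (i j)) := by
      have : ∏ j, neg (b (i j)).1 = ∏ j, (gam (β (i j)) : Cl N) := by
        apply Finset.prod_congr rfl
        intro j _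
        exact neg_neg' _
      have e : neg c.1 = (gam Cc : Cl N) := neg_neg' _
      rw [this, gam_prod, e, gam_mul]
    rw [e1, e2, gam_le_neg_gam, Finset.sum_add_distrib]
    have e : Dd + ∑ j, α (i j) + (Cc + ∑ j, β (i j)) =
        Dd + Cc + (∑ j, α (i j) + ∑ j, β (i j)) := by abel
    rw [e]
  have hQ := Q_holds hV hm (f d) (f c) (fun j => f (a j)) (fun j => f (b j))
    (fun i => (hom_main hf inj d c (fun j => a (i j)) (fun j => b (i j))).mp
      ((hle n i).mpr (hpr i)))
  have := (hle m id).mp ((hom_main hf inj d c a b).mpr hQ)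
  exact hcon this

end Main

end Pool.Agent.H399.Knot
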