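import Pool.Agent.H193.OZ.Stm

set_option autoImplicit false
set_option linter.unusedSectionVars false

namespace Pool.Agent.H399.OZJ

open scoped ComplexConjugate InnerProductSpace
open Pool.Agent.H193.OZ

variable {H : Type} [Group H]

noncomputable section

open Classical in
/-- the basis vector -/
def e (a : H) : L2 H := lp.single 2 a (1 : ℂ)

open Classical in
theorem e_apply (a x : H) : (e a : L2 H) x = if x = a then 1 else 0 := by
  unfold e
  rw [lp.single_apply, Pi.single_apply]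

theorem inner_e (a : H) (f : L2 H) : ⟪e a, f⟫_ℂ = f a := by
  classical
  unfold e
  rw [lp.inner_single_left]
  simp

theorem inner_e' (a : H) (f : L2 H) : ⟪f, e a⟫_ℂ = conj (f a) := by
  rw [← inner_conj_symm, inner_e]

theorem J_mem (f : L2 H) : Memℓp (E := fun _ : H => ℂ) (fun x : H => conj ((f : H → ℂ) x⁻¹)) 2 := by
  have h := lp.memℓp f
  rw [memℓp_gen_iff (by norm_num)] at h ⊢
  have h2 := (Equiv.inv H).summable_iff.2 h
  refine h2.congr fun x => ?_
  show _ = ‖conj ((f : H → ℂ) x⁻¹)‖ ^ _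
  rw [Complex.norm_conj]
  rfl

/-- the conjugation -/
def J (f : L2 H) : L2 H := ⟨fun x => conj ((f : H → ℂ) x⁻¹), J_mem f⟩

theorem J_apply (f : L2 H) (x : H) : (J f) x = conj (f x⁻¹) := rfl

theorem J_add (f g : L2 H) : J (f + g) = J f + J g := by
  ext x
  rw [lp.coeFn_add, Pi.add_apply, J_apply, J_apply, J_apply, lp.coeFn_add, Pi.add_apply, map_add]

theorem J_smul (c : ℂ) (f : L2 H) : J (c • f) = conj c • J f := by
  ext x
  rw [lp.coeFn_smul, Pi.smul_apply, J_apply, J_apply, lp.coeFn_smul, Pi.smul_apply, smul_eq_mul,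
    smul_eq_mul, map_mul]

theorem J_J (f : L2 H) : J (J f) = f := by
  ext x
  rw [J_apply, J_apply, inv_inv, Complex.conj_conj]

theorem J_norm (f : L2 H) : ‖J f‖ = ‖f‖ := by
  rw [lp.norm_eq_tsum_rpow (by norm_num), lp.norm_eq_tsum_rpow (by norm_num)]
  congr 1
  rw [← (Equiv.inv H).tsum_eq (fun i => ‖f i‖ ^ (2 : ENNReal).toReal)]
  refine tsum_congr fun x => ?_
  rw [J_apply]
  simp

theorem J_e (a : H) : J (e a) = e a⁻¹ := by
  ext x
  rw [J_apply, e_apply, e_apply]
  by_cases h : x = a⁻¹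
  · rw [if_pos h, if_pos (by rw [h, inv_inv]), map_one]
  · rw [if_neg h, if_neg (fun h1 => h (by rw [← h1, inv_inv])), map_zero]

theorem T_e {T : Bd H} (hT : T ∈ VN H) (a x : H) : (T (e a)) x = (T (e 1)) (x * a⁻¹) := by
  refine hT a⁻¹ (e 1) (e a) (fun y => ?_) x
  rw [e_apply, e_apply]
  by_cases h : y = a
  · rw [if_pos h, if_pos (by rw [h, mul_inv_cancel])]
  · rw [if_neg h, if_neg (fun h1 => h (by rw [mul_inv_eq_one] at h1; exact h1))]

/-- the convolution formula -/
theorem T_apply {T : Bd H} (hT : T ∈ VN H) (f : L2 H) (c : H) :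
    (T f) c = ∑' y, (T (e 1)) (c * y⁻¹) * f y := by
  have h1 : (T f) c = ⟪(star T) (e c), f⟫_ℂ := by
    rw [ContinuousLinearMap.star_eq_adjoint, ContinuousLinearMap.adjoint_inner_left, inner_e]
  rw [h1, lp.inner_eq_tsum]
  refine tsum_congr fun y => ?_
  have h2 : conj (((star T) (e c)) y) = (T (e 1)) (c * y⁻¹) := by
    rw [← inner_e' y, ContinuousLinearMap.star_eq_adjoint, ContinuousLinearMap.adjoint_inner_left,
      inner_e, T_e hT]
  rw [← h2]
  simp [mul_comm]

theorem J_cont : Continuous (J : L2 H → L2 H) := by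
  have h : Isometry (J : L2 H → L2 H) := by
    refine Isometry.of_dist_eq fun f g => ?_
    rw [dist_eq_norm, dist_eq_norm, ← J_norm (f - g)]
    congr 1
    have : f - g = f + (-1 : ℂ) • g := by simp [sub_eq_add_neg]
    rw [this, J_add, J_smul]
    simp [sub_eq_add_neg]
  exact h.continuous

/-- commutation on the basis -/
theorem comm_e {T S : Bd H} (hT : T ∈ VN H) (hS : S ∈ VN H) (a : H) :
    T (J (S (J (e a)))) = J (S (J (T (e a)))) := by
  ext b
  rw [T_apply hT, J_apply (S (J (T (e a)))) b, T_apply hS]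
  have hc : conj (∑' y, (S (e 1)) (b⁻¹ * y⁻¹) * (J (T (e a))) y) =
      ∑' y, conj ((S (e 1)) (b⁻¹ * y⁻¹)) * (T (e 1)) (y⁻¹ * a⁻¹) := by
    rw [Complex.conj_tsum]
    refine tsum_congr fun y => ?_
    rw [map_mul, J_apply, Complex.conj_conj, T_e hT a]
  rw [hc, ← ((Equiv.mulLeft a⁻¹).trans (Equiv.mulRight b⁻¹)).tsum_eq
    (fun y => conj ((S (e 1)) (b⁻¹ * y⁻¹)) * (T (e 1)) (y⁻¹ * a⁻¹))]
  refine tsum_congr fun x => ?_
  have e1 : (((Equiv.mulLeft a⁻¹).trans (Equiv.mulRight b⁻¹)) x)⁻¹ = b * x⁻¹ * a := by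
    show (a⁻¹ * x * b⁻¹)⁻¹ = b * x⁻¹ * a
    group
  have e2 : b⁻¹ * (b * x⁻¹ * a) = x⁻¹ * a := by group
  have e3 : b * x⁻¹ * a * a⁻¹ = b * x⁻¹ := by group
  rw [e1, e2, e3, J_apply, J_e, T_e hS, inv_inv]
  ring

/-- the additive homomorphism -/
def Jh : L2 H →+ L2 H := AddMonoidHom.mk' J J_add

/-- commutation -/
theorem comm {T S : Bd H} (hT : T ∈ VN H) (hS : S ∈ VN H) (f : L2 H) :
    T (J (S (J f))) = J (S (J (T f))) := by
  classical
  let F1 : L2 H →+ L2 H := (T : L2 H →ₗ[ℂ] L2 H).toAddMonoidHom.comp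
    (Jh.comp ((S : L2 H →ₗ[ℂ] L2 H).toAddMonoidHom.comp Jh))
  let F2 : L2 H →+ L2 H := Jh.comp ((S : L2 H →ₗ[ℂ] L2 H).toAddMonoidHom.comp
    (Jh.comp (T : L2 H →ₗ[ℂ] L2 H).toAddMonoidHom))
  have hF1 : ∀ f, F1 f = T (J (S (J f))) := fun f => rfl
  have hF2 : ∀ f, F2 f = J (S (J (T f))) := fun f => rfl
  have c1 : Continuous F1 := by
    show Continuous fun f => T (J (S (J f)))
    exact T.continuous.comp (J_cont.comp (S.continuous.comp J_cont))
  have c2 : Continuous F2 := by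
    show Continuous fun f => J (S (J (T f)))
    exact J_cont.comp (S.continuous.comp (J_cont.comp T.continuous))
  have hs := lp.hasSum_single (p := 2) (by norm_num) f
  have hs1 := hs.map F1 c1
  have hs2 := hs.map F2 c2
  have he : (F1 ∘ fun a => lp.single 2 a (f a)) = (F2 ∘ fun a => lp.single 2 a (f a)) := by
    funext a
    have h1 : (lp.single 2 a (f a) : L2 H) = (f a) • e a := by
      unfold e
      rw [← lp.single_smul]
      congr 1
      simp
    show F1 (lp.single 2 a (f a)) = F2 (lp.single 2 a (f a))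
    rw [h1, hF1, hF2, J_smul, map_smul, J_smul, map_smul, map_smul, J_smul, map_smul, J_smul,
      comm_e hT hS]
  rw [he] at hs1
  exact hs1.unique hs2

theorem s_J : S_J := by
  intro H _
  refine ⟨J, e 1, J_add, J_smul, J_norm, J_J, ?_, ?_, ?_, ?_⟩
  · classical
    unfold e
    rw [lp.norm_single (by norm_num)]
    simp
  · rw [J_e, inv_one]
  · intro T hT
    ext x
    rw [J_apply]
    have h1 : ((star T) (e 1)) x = ⟪T (e x), e 1⟫_ℂ := by
      rw [← inner_e x, ContinuousLinearMap.star_eq_adjoint,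
        ContinuousLinearMap.adjoint_inner_right]
    have h2 : (T (e x)) 1 = (T (e 1)) x⁻¹ := by
      rw [T_e hT x 1, one_mul]
    rw [h1, inner_e', h2]
  · intro T hT S hS f
    exact comm hT hS f

end

end Pool.Agent.H399.OZJ
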