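import Pool.Agent.H558.PP.QStm

/-!
# S_Q3 (helper399, for helper558): the choice of `m0`

`l = log₂ (k + 1)`, `μ = ⌊√(l / q)⌋` with `q ≥ 6 / s`, `m0 = 2 ^ μ`, `la = 1 / (m0 (k + 1)^a)`.
-/

set_option autoImplicit false

namespace Pool.Agent.H399.PP

open Pool.Agent.H558.KK (Lam Lam_le)
open Pool.Agent.H558.PP (err)

theorem mu_facts (a q l μ : ℕ) (hq : 1 ≤ q) (hμ : μ = Nat.sqrt (l / q))
    (h1 : 8 * a * q + 2 ≤ μ) :
    μ + 2 ≤ l ∧ 2 * a * (l + 1) + μ ≤ μ ^ 3 ∧ q * (2 * μ ^ 2 + 3 * μ + 1) ≤ 6 * l := by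
  have h2 : μ * μ ≤ l / q := by rw [hμ]; exact Nat.sqrt_le _
  have h3 : l / q < (μ + 1) * (μ + 1) := by rw [hμ]; exact Nat.lt_succ_sqrt _
  have h4 : q * (μ * μ) ≤ l := by
    calc q * (μ * μ) ≤ q * (l / q) := Nat.mul_le_mul_left _ h2
      _ ≤ l := Nat.mul_div_le _ _
  have h5 : l < q * ((μ + 1) * (μ + 1)) := by
    have := Nat.lt_mul_of_div_lt h3 (by omega)
    rwa [mul_comm] at this
  have h6 : 2 ≤ μ := by omega
  have h7 : μ * μ ≤ l := by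
    calc μ * μ = 1 * (μ * μ) := (one_mul _).symm
      _ ≤ q * (μ * μ) := Nat.mul_le_mul_right _ hq
      _ ≤ l := h4
  refine ⟨?_, ?_, ?_⟩
  · nlinarith
  · have h8 : l + 1 ≤ q * (4 * (μ * μ)) := by
      calc l + 1 ≤ q * ((μ + 1) * (μ + 1)) := h5
        _ ≤ q * (4 * (μ * μ)) := Nat.mul_le_mul_left _ (by nlinarith)
    calc 2 * a * (l + 1) + μ ≤ 2 * a * (q * (4 * (μ * μ))) + μ :=
          Nat.add_le_add_right (Nat.mul_le_mul_left _ h8) _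
      _ = (8 * a * q) * (μ * μ) + μ := by ring
      _ ≤ (8 * a * q) * (μ * μ) + 2 * (μ * μ) := by nlinarith
      _ = (8 * a * q + 2) * (μ * μ) := by ring
      _ ≤ μ * (μ * μ) := Nat.mul_le_mul_right _ h1
      _ = μ ^ 3 := by ring
  · calc q * (2 * μ ^ 2 + 3 * μ + 1) ≤ q * (6 * (μ * μ)) := Nat.mul_le_mul_left _ (by nlinarith)
      _ = 6 * (q * (μ * μ)) := by ring
      _ ≤ 6 * l := Nat.mul_le_mul_left _ h4

/-- the analytic part -/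
theorem q3core (a : ℕ) (s : ℝ) (hs : 0 < s) (L0 M0 : ℕ) : ∃ C : ℝ, 0 < C ∧
    ∀ (k : ℕ) (F B : ℝ), 0 ≤ B → F ≤ 2 ^ k →
    (∀ (μ : ℕ) (la : ℝ), L0 ≤ 2 ^ μ → M0 ≤ 2 ^ μ → 0 < la → 4 * (2 ^ μ - 1) ≤ k →
      F ≤ err (2 ^ μ) la * 2 ^ k + B * (2 * ((2 ^ μ : ℕ) : ℝ) * Lam μ)) →
    F ≤ C * (2 ^ k / ((k : ℝ) + 1) ^ a + B * ((k : ℝ) + 1) ^ s) := by
  obtain ⟨q, hq⟩ := exists_nat_ge (6 / s)
  have hq0 : 1 ≤ q := by
    rcases Nat.eq_zero_or_pos q with h | h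
    · subst h
      have : 0 < 6 / s := by positivity
      push_cast at hq
      linarith
    · exact h
  have hqs : 6 ≤ q * s := by
    rw [div_le_iff₀ hs] at hq
    exact hq
  -- the threshold for `μ`
  obtain ⟨m2, hm2a, hm2b, hm2c⟩ : ∃ m2 : ℕ, 8 * a * q + 2 ≤ m2 ∧ L0 ≤ m2 ∧ M0 ≤ m2 :=
    ⟨8 * a * q + 2 + L0 + M0, by omega, by omega, by omega⟩
  set K1 : ℕ := 2 ^ (q * (m2 * m2)) with hK1
  have hK1pos : (1 : ℝ) ≤ K1 := by
    have : 1 ≤ K1 := Nat.one_le_two_pow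
    exact_mod_cast this
  refine ⟨(K1 : ℝ) ^ a + 5, by positivity, fun k F B hB hF hF2 => ?_⟩
  have hk1 : (0 : ℝ) < (k : ℝ) + 1 := by positivity
  have hks : 0 ≤ B * ((k : ℝ) + 1) ^ s := mul_nonneg hB (Real.rpow_nonneg hk1.le _)
  by_cases hk : k + 1 < K1
  · -- small `k`
    have h1 : (2 : ℝ) ^ k ≤ (K1 : ℝ) ^ a * (2 ^ k / ((k : ℝ) + 1) ^ a) := by
      rw [← mul_div_assoc, le_div_iff₀ (by positivity), mul_comm]
      refine mul_le_mul_of_nonneg_right ?_ (by positivity)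
      refine pow_le_pow_left₀ hk1.le ?_ a
      exact_mod_cast hk.le
    have h2 : (0 : ℝ) ≤ 2 ^ k / ((k : ℝ) + 1) ^ a := by positivity
    have h3 : (0 : ℝ) ≤ (K1 : ℝ) ^ a := by positivity
    calc F ≤ 2 ^ k := hF
      _ ≤ (K1 : ℝ) ^ a * (2 ^ k / ((k : ℝ) + 1) ^ a) := h1
      _ ≤ ((K1 : ℝ) ^ a + 5) * (2 ^ k / ((k : ℝ) + 1) ^ a + B * ((k : ℝ) + 1) ^ s) := by
          refine mul_le_mul (by linarith) (by linarith) h2 (by linarith)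
  · -- large `k`
    push Not at hk
    set l := Nat.log 2 (k + 1) with hl
    have hl1 : 2 ^ l ≤ k + 1 := Nat.pow_log_le_self 2 (by omega)
    have hl2 : k + 1 < 2 ^ (l + 1) := Nat.lt_pow_succ_log_self (by norm_num) _
    have hlq : q * (m2 * m2) ≤ l :=
      (Nat.le_log_iff_pow_le (by norm_num) (by omega)).2 hk
    obtain ⟨μ, hμ⟩ : ∃ μ, μ = Nat.sqrt (l / q) := ⟨_, rfl⟩
    have hm2μ : m2 ≤ μ := by
      rw [hμ, Nat.le_sqrt]
      exact (Nat.le_div_iff_mul_le (by omega)).2 (by rw [mul_comm]; exact hlq)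
    obtain ⟨f1, f2, f3⟩ := mu_facts a q l μ hq0 hμ (hm2a.trans hm2μ)
    have hμ2 : m2 ≤ 2 ^ μ := hm2μ.trans (Nat.lt_two_pow_self).le
    have hk4 : 4 * (2 ^ μ - 1) ≤ k := by
      have h1 : 4 * 2 ^ μ ≤ k + 1 := by
        calc 4 * 2 ^ μ = 2 ^ (μ + 2) := by rw [pow_add]; ring
          _ ≤ 2 ^ l := Nat.pow_le_pow_right (by norm_num) f1
          _ ≤ k + 1 := hl1
      have h2 : 1 ≤ 2 ^ μ := Nat.one_le_two_pow
      omega
    set la : ℝ := 1 / (2 ^ μ * ((k : ℝ) + 1) ^ a) with hla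
    have hla0 : 0 < la := by positivity
    have h := hF2 μ la (hm2b.trans hμ2) (hm2c.trans hμ2) hla0 hk4
    -- the error term
    have herr : err (2 ^ μ) la ≤ 5 / ((k : ℝ) + 1) ^ a := by
      have hlog : Nat.log 2 (2 ^ μ) = μ := Nat.log_pow (by norm_num) μ
      have hsq : (1 : ℝ) ≤ (((2 ^ μ : ℕ) : ℝ) - 1) ^ 2 := by
        have h1 : 2 ≤ 2 ^ μ := by
          calc 2 = 2 ^ 1 := by norm_num
            _ ≤ 2 ^ μ := Nat.pow_le_pow_right (by norm_num) (by omega)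
        have h2 : (2 : ℝ) ≤ ((2 ^ μ : ℕ) : ℝ) := by exact_mod_cast h1
        nlinarith
      have hpow : (2 : ℝ) ^ μ * (((k : ℝ) + 1) ^ a * ((k : ℝ) + 1) ^ a) ≤ 2 ^ μ ^ 3 := by
        have h1 : ((k : ℝ) + 1) ≤ 2 ^ (l + 1) := by exact_mod_cast hl2.le
        calc (2 : ℝ) ^ μ * (((k : ℝ) + 1) ^ a * ((k : ℝ) + 1) ^ a)
            ≤ 2 ^ μ * ((2 ^ (l + 1)) ^ a * (2 ^ (l + 1)) ^ a) := by gcongr
          _ = 2 ^ (2 * a * (l + 1) + μ) := by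
              rw [← pow_mul, ← pow_add, ← pow_add]
              congr 1
              ring
          _ ≤ 2 ^ μ ^ 3 := pow_le_pow_right₀ (by norm_num) f2
      unfold err
      rw [hlog]
      have e1 : ((2 ^ μ : ℕ) : ℝ) * la = 1 / ((k : ℝ) + 1) ^ a := by
        rw [hla]
        push_cast
        field_simp
      have e2 : 4 / (la * (((2 ^ μ : ℕ) : ℝ) - 1) ^ 2 * 2 ^ μ ^ 3) ≤ 4 / ((k : ℝ) + 1) ^ a := by
        apply div_le_div_of_nonneg_left (by norm_num) (by positivity)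
        calc ((k : ℝ) + 1) ^ a = la * (2 ^ μ * (((k : ℝ) + 1) ^ a * ((k : ℝ) + 1) ^ a)) := by
              rw [hla]
              field_simp
          _ ≤ la * 2 ^ μ ^ 3 := mul_le_mul_of_nonneg_left hpow hla0.le
          _ = la * 1 * 2 ^ μ ^ 3 := by ring
          _ ≤ la * (((2 ^ μ : ℕ) : ℝ) - 1) ^ 2 * 2 ^ μ ^ 3 := by gcongr
      rw [e1]
      calc 1 / ((k : ℝ) + 1) ^ a + 4 / (la * (((2 ^ μ : ℕ) : ℝ) - 1) ^ 2 * 2 ^ μ ^ 3)
          ≤ 1 / ((k : ℝ) + 1) ^ a + 4 / ((k : ℝ) + 1) ^ a := by linarith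
        _ = 5 / ((k : ℝ) + 1) ^ a := by ring
    -- the factor of `B`
    have hBf : 2 * ((2 ^ μ : ℕ) : ℝ) * Lam μ ≤ ((k : ℝ) + 1) ^ s := by
      have h1 : (Lam μ : ℝ) ≤ 2 ^ (2 * (μ * (μ + 1))) := by exact_mod_cast Lam_le μ
      have h2 : 2 * ((2 ^ μ : ℕ) : ℝ) * Lam μ ≤ 2 ^ (2 * μ ^ 2 + 3 * μ + 1) := by
        calc 2 * ((2 ^ μ : ℕ) : ℝ) * Lam μ ≤ 2 * ((2 ^ μ : ℕ) : ℝ) * 2 ^ (2 * (μ * (μ + 1))) := by
              gcongr
          _ = 2 ^ (2 * μ ^ 2 + 3 * μ + 1) := by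
              push_cast
              rw [show 2 * μ ^ 2 + 3 * μ + 1 = 1 + μ + 2 * (μ * (μ + 1)) by ring, pow_add, pow_add,
                pow_one]
      have h3 : ((2 * μ ^ 2 + 3 * μ + 1 : ℕ) : ℝ) ≤ l * s := by
        have h4 : (q : ℝ) * ((2 * μ ^ 2 + 3 * μ + 1 : ℕ) : ℝ) ≤ 6 * l := by exact_mod_cast f3
        have hqpos : (0 : ℝ) < q := by exact_mod_cast hq0
        have h5 : (q : ℝ) * ((2 * μ ^ 2 + 3 * μ + 1 : ℕ) : ℝ) ≤ q * (l * s) := by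
          calc (q : ℝ) * ((2 * μ ^ 2 + 3 * μ + 1 : ℕ) : ℝ) ≤ 6 * l := h4
            _ ≤ (q * s) * l := mul_le_mul_of_nonneg_right hqs (by positivity)
            _ = q * (l * s) := by ring
        exact le_of_mul_le_mul_left h5 hqpos
      calc 2 * ((2 ^ μ : ℕ) : ℝ) * Lam μ ≤ 2 ^ (2 * μ ^ 2 + 3 * μ + 1) := h2
        _ = (2 : ℝ) ^ ((2 * μ ^ 2 + 3 * μ + 1 : ℕ) : ℝ) := (Real.rpow_natCast _ _).symm
        _ ≤ (2 : ℝ) ^ ((l : ℝ) * s) := Real.rpow_le_rpow_of_exponent_le (by norm_num) h3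
        _ = ((2 : ℝ) ^ l) ^ s := by rw [Real.rpow_mul (by norm_num), Real.rpow_natCast]
        _ ≤ ((k : ℝ) + 1) ^ s := by
            refine Real.rpow_le_rpow (by positivity) ?_ hs.le
            exact_mod_cast hl1
    have h2k : (0 : ℝ) < 2 ^ k := by positivity
    have hd : (0 : ℝ) ≤ 2 ^ k / ((k : ℝ) + 1) ^ a := by positivity
    have hKa : (1 : ℝ) ≤ (K1 : ℝ) ^ a := one_le_pow₀ hK1pos
    calc F ≤ err (2 ^ μ) la * 2 ^ k + B * (2 * ((2 ^ μ : ℕ) : ℝ) * Lam μ) := h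
      _ ≤ 5 / ((k : ℝ) + 1) ^ a * 2 ^ k + B * ((k : ℝ) + 1) ^ s :=
          add_le_add (mul_le_mul_of_nonneg_right herr h2k.le) (mul_le_mul_of_nonneg_left hBf hB)
      _ = 5 * (2 ^ k / ((k : ℝ) + 1) ^ a) + B * ((k : ℝ) + 1) ^ s := by ring
      _ ≤ ((K1 : ℝ) ^ a + 5) * (2 ^ k / ((k : ℝ) + 1) ^ a + B * ((k : ℝ) + 1) ^ s) := by
          nlinarith

section

open PowerSeries Finset Pool.Agent.R836.PP Pool.Agent.H558.KK Pool.Agent.H558.PP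
open Pool.Agent.K7.H72.MT hiding W few dis DD dis_stable dis_vary DD_stable DD_sum DD_block few_bad
  dis_le DD_le base count

theorem q3 (h2 : S_Q2) (h3 : S_T3) : S_Q3 := by
  intro a s hs V0
  obtain ⟨L0, hL0, hStp⟩ := h3
  obtain ⟨M0, hM0⟩ : ∃ M0, V0 ≤ 8 ^ M0 := ⟨V0, (Nat.lt_pow_self (by norm_num)).le⟩
  obtain ⟨C, hC, h⟩ := q3core a s hs L0 M0
  refine ⟨C, hC, fun k U w A hU B hB => h k _ B hB ?_ ?_⟩
  · have h1 := Finset.card_filter_le (range (2 ^ k))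
      (fun t => (gv 128 (desc P2 k [(U, w, A)] t) : ℝ) < B)
    rw [Finset.card_range] at h1
    exact_mod_cast h1
  · intro μ la h1 h2' hla hk
    have h4 := h2 L0 hL0 hStp (2 ^ μ) h1 μ le_rfl V0 M0 hM0 (k - 4 * (2 ^ μ - 1))
      (by rw [Nat.sub_eq_zero_of_le h2', zero_mul]; exact Nat.zero_le _) U w A hU la hla B hB
    rw [Nat.sub_add_cancel hk] at h4
    exact h4

end

end Pool.Agent.H399.PP
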