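import Pool.Agent.H558.PP.TStm

/-!
# S_T2 (helper399, for helper558): the choice of the parameters

`l = log₂ L`, `w = 2 (l + 1)³`, `R = 128 λ(w) = 2^{O(log² l)}`, `J = 16 R² (l³ + 3 l + 6)`.
-/

set_option autoImplicit false

namespace Pool.Agent.H399.PP

open Pool.Agent.H558.KK (lam)
open Pool.Agent.H558.PP (eps S_T2)

theorem quad_le_two_pow (m : ℕ) (hm : 13 ≤ m) : 36 * m ^ 2 + 90 * m + 78 ≤ 2 ^ m := by
  induction m, hm using Nat.le_induction with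
  | base => norm_num
  | succ m hm ih =>
    have h1 : 36 * (m + 1) ^ 2 + 90 * (m + 1) + 78 ≤ 2 * (36 * m ^ 2 + 90 * m + 78) := by
      nlinarith
    calc 36 * (m + 1) ^ 2 + 90 * (m + 1) + 78 ≤ 2 * (36 * m ^ 2 + 90 * m + 78) := h1
      _ ≤ 2 * 2 ^ m := by omega
      _ = 2 ^ (m + 1) := by rw [pow_succ]; ring

/-- the bound for the loss -/
theorem lam_le (l m : ℕ) (hl : 1 ≤ l) (hm : l + 1 < 2 ^ (m + 1)) :
    lam (2 * (l + 1) ^ 3) ≤ 2 ^ (2 * ((3 * m + 3) * (3 * m + 4))) := by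
  unfold lam
  have h8 : 8 ≤ (l + 1) ^ 3 := by
    calc 8 = 2 ^ 3 := by norm_num
      _ ≤ (l + 1) ^ 3 := Nat.pow_le_pow_left (by omega) 3
  have h1 : 2 * (l + 1) ^ 3 / 4 + 1 ≤ (l + 1) ^ 3 := by omega
  have h2 : Nat.log 2 (2 * (l + 1) ^ 3 / 4 + 1) < 3 * m + 3 := by
    refine Nat.log_lt_of_lt_pow (by omega) ?_
    calc 2 * (l + 1) ^ 3 / 4 + 1 ≤ (l + 1) ^ 3 := h1
      _ < (2 ^ (m + 1)) ^ 3 := Nat.pow_lt_pow_left hm (by norm_num)
      _ = 2 ^ (3 * m + 3) := by rw [← pow_mul]; ring_nf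
  refine Nat.pow_le_pow_right (by norm_num) ?_
  refine Nat.mul_le_mul_left 2 (Nat.mul_le_mul ?_ ?_) <;> omega

theorem half_pow (N : ℕ) (hN : 1 ≤ N) : (1 - 1 / (N : ℝ)) ^ N ≤ 1 / 2 := by
  have hN' : (0 : ℝ) < N := by exact_mod_cast hN
  have h0 : (0 : ℝ) ≤ 1 - 1 / (N : ℝ) := by
    rw [sub_nonneg, div_le_one hN']
    exact_mod_cast hN
  have h1 : 1 - 1 / (N : ℝ) ≤ Real.exp (-(1 / (N : ℝ))) := Real.one_sub_le_exp_neg _
  calc (1 - 1 / (N : ℝ)) ^ N ≤ (Real.exp (-(1 / (N : ℝ)))) ^ N := pow_le_pow_left₀ h0 h1 N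
    _ = Real.exp (-1) := by
        rw [← Real.exp_nat_mul]
        congr 1
        field_simp
    _ = 1 / Real.exp 1 := by rw [Real.exp_neg, one_div]
    _ ≤ 1 / 2 := by
        apply one_div_le_one_div_of_le (by norm_num)
        have := Real.add_one_le_exp (1 : ℝ)
        linarith

theorem t2 : S_T2 := by
  obtain ⟨k0, hk0⟩ : ∃ k0 : ℕ, ∀ m ≥ k0, 36 * m ^ 2 + 90 * m + 78 ≤ 2 ^ m :=
    ⟨13, fun m hm => quad_le_two_pow m hm⟩
  refine ⟨2 ^ 2 ^ k0, Nat.one_le_two_pow, fun L hL => ?_⟩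
  have hL0 : L ≠ 0 := by
    have : 0 < 2 ^ 2 ^ k0 := by positivity
    omega
  set l := Nat.log 2 L with hl
  have hl1 : 2 ^ l ≤ L := Nat.pow_log_le_self 2 hL0
  have hl2 : L < 2 ^ (l + 1) := Nat.lt_pow_succ_log_self (by norm_num) L
  have hlk : 2 ^ k0 ≤ l := (Nat.le_log_iff_pow_le (by norm_num) hL0).2 hL
  set m := Nat.log 2 (l + 1) with hm
  have hm1 : 2 ^ m ≤ l + 1 := Nat.pow_log_le_self 2 (by omega)
  have hm2 : l + 1 < 2 ^ (m + 1) := Nat.lt_pow_succ_log_self (by norm_num) _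
  have hmk : k0 ≤ m := (Nat.le_log_iff_pow_le (by norm_num) (by omega)).2 (by omega)
  have hml := hk0 m hmk
  have hl3 : 1 ≤ l := by
    have : 0 < 2 ^ k0 := by positivity
    omega
  -- `A`
  set A := 7 + 2 * ((3 * m + 3) * (3 * m + 4)) with hA
  have hA2 : A = 18 * m ^ 2 + 42 * m + 31 := by rw [hA]; ring
  have hAl : 2 * A + 6 * m + 15 ≤ l := by
    rw [hA2]
    omega
  set w := 2 * (l + 1) ^ 3 with hw
  set R := 128 * lam w with hR
  have hRA : R ≤ 2 ^ A := by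
    have h1 := lam_le l m hl3 hm2
    calc R = 2 ^ 7 * lam w := by rw [hR]; norm_num
      _ ≤ 2 ^ 7 * 2 ^ (2 * ((3 * m + 3) * (3 * m + 4))) := Nat.mul_le_mul_left _ h1
      _ = 2 ^ A := by rw [← pow_add]
  have hR1 : 1 ≤ R := by
    have : 0 < lam w := by unfold lam; positivity
    omega
  set N := 16 * R ^ 2 with hN
  have hN1 : 1 ≤ N := by
    have : 0 < R ^ 2 := by positivity
    omega
  have hN2 : N ≤ 2 ^ (4 + 2 * A) := by
    calc N = 2 ^ 4 * R ^ 2 := by rw [hN]; norm_num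
      _ ≤ 2 ^ 4 * (2 ^ A) ^ 2 := Nat.mul_le_mul_left _ (Nat.pow_le_pow_left hRA 2)
      _ = 2 ^ (4 + 2 * A) := by rw [← pow_mul, ← pow_add]; ring_nf
  have hcube : l ^ 3 + 3 * l + 6 ≤ 2 * (l + 1) ^ 3 := by nlinarith [Nat.zero_le (l ^ 3)]
  have hcube2 : (l + 1) ^ 3 ≤ 2 ^ (3 * m + 3) := by
    calc (l + 1) ^ 3 ≤ (2 ^ (m + 1)) ^ 3 := Nat.pow_le_pow_left hm2.le 3
      _ = 2 ^ (3 * m + 3) := by rw [← pow_mul]; ring_nf
  refine ⟨w, N * (l ^ 3 + 3 * l + 6), ?_, ?_, ?_, ?_⟩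
  · have h8 : 8 ≤ (l + 1) ^ 3 := by
      calc 8 = 2 ^ 3 := by norm_num
        _ ≤ (l + 1) ^ 3 := Nat.pow_le_pow_left (by omega) 3
    omega
  · have h1 : 7 + 3 * (l + 1) + l ^ 3 + 4 * A + (l + 2) ≤ w := by
      have h2 : w = 2 * l ^ 3 + 6 * l ^ 2 + 6 * l + 2 := by rw [hw]; ring
      have h3 : l ≤ l ^ 2 := by nlinarith
      rw [h2]
      have h4 : 0 ≤ l ^ 3 := Nat.zero_le _
      omega
    calc 32 * (4 * L ^ 3 * 2 ^ l ^ 3) * R ^ 4 * (L + 2)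
        ≤ 2 ^ 5 * (2 ^ 2 * (2 ^ (l + 1)) ^ 3 * 2 ^ l ^ 3) * (2 ^ A) ^ 4 * 2 ^ (l + 2) := by
          refine Nat.mul_le_mul (Nat.mul_le_mul ?_ (Nat.pow_le_pow_left hRA 4)) ?_
          · have := Nat.pow_le_pow_left hl2.le 3
            have h5 : 4 * L ^ 3 * 2 ^ l ^ 3 ≤ 2 ^ 2 * (2 ^ (l + 1)) ^ 3 * 2 ^ l ^ 3 :=
              Nat.mul_le_mul_right _ (by omega)
            omega
          · have h6 : 2 ≤ 2 ^ (l + 1) := by
              calc 2 = 2 ^ 1 := by norm_num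
                _ ≤ 2 ^ (l + 1) := Nat.pow_le_pow_right (by norm_num) (by omega)
            have h7 : 2 ^ (l + 2) = 2 * 2 ^ (l + 1) := by rw [pow_succ]; ring
            omega
      _ = 2 ^ (7 + 3 * (l + 1) + l ^ 3 + 4 * A + (l + 2)) := by
          rw [← pow_mul, ← pow_mul, ← pow_add, ← pow_add, ← pow_add, ← pow_add, ← pow_add]
          congr 1
          ring
      _ ≤ 2 ^ w := Nat.pow_le_pow_right (by norm_num) h1
  · calc 4 * (N * (l ^ 3 + 3 * l + 6) * (2 * w))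
        ≤ 4 * (2 ^ (4 + 2 * A) * (2 * 2 ^ (3 * m + 3)) * (2 * (2 * 2 ^ (3 * m + 3)))) := by
          refine Nat.mul_le_mul_left _ (Nat.mul_le_mul (Nat.mul_le_mul hN2 ?_) ?_)
          · exact hcube.trans (Nat.mul_le_mul_left _ hcube2)
          · exact Nat.mul_le_mul_left _ (Nat.mul_le_mul_left _ hcube2)
      _ = 2 ^ (2 * A + 6 * m + 15) := by
          rw [show 2 * A + 6 * m + 15 = 2 + ((4 + 2 * A) + (1 + (3 * m + 3)) +
            (1 + (1 + (3 * m + 3)))) by ring]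
          simp only [pow_add]
          ring
      _ ≤ 2 ^ l := Nat.pow_le_pow_right (by norm_num) hAl
      _ ≤ L := hl1
  · have h1 : (1 : ℝ) - 1 / (16 * ((R : ℕ) : ℝ) ^ 2) = 1 - 1 / (N : ℝ) := by
      rw [hN]
      push_cast
      rfl
    have hNpos : (0 : ℝ) < N := by exact_mod_cast hN1
    have h0 : (0 : ℝ) ≤ 1 - 1 / (N : ℝ) := by
      rw [sub_nonneg, div_le_one hNpos]
      exact_mod_cast hN1
    have h2 : (1 - 1 / (N : ℝ)) ^ (N * (l ^ 3 + 3 * l + 6)) ≤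
        (1 / 2 : ℝ) ^ (l ^ 3 + 3 * l + 6) := by
      rw [pow_mul]
      exact pow_le_pow_left₀ (pow_nonneg h0 _) (half_pow N hN1) _
    have hLr : (0 : ℝ) < L := by
      have : 0 < L := Nat.pos_of_ne_zero hL0
      exact_mod_cast this
    set D : ℝ := (L : ℝ) ^ 3 * 2 ^ l ^ 3 with hD
    have hD0 : 0 < D := by positivity
    have hDle : D ≤ 2 ^ (l ^ 3 + 3 * l + 3) := by
      have h3 : (L : ℝ) ≤ 2 ^ (l + 1) := by exact_mod_cast hl2.le
      calc D ≤ ((2 : ℝ) ^ (l + 1)) ^ 3 * 2 ^ l ^ 3 := by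
            rw [hD]
            gcongr
        _ = 2 ^ (l ^ 3 + 3 * l + 3) := by
            rw [← pow_mul, ← pow_add]
            congr 1
            ring
    have h4 : (1 / 2 : ℝ) ^ (l ^ 3 + 3 * l + 6) ≤ 3 / 4 * (1 / D) := by
      have h5 : (1 / 2 : ℝ) ^ (l ^ 3 + 3 * l + 6) = 1 / 8 * (1 / 2 ^ (l ^ 3 + 3 * l + 3)) := by
        rw [show l ^ 3 + 3 * l + 6 = (l ^ 3 + 3 * l + 3) + 3 by ring, pow_add, one_div, inv_pow]
        norm_num
        ring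
      rw [h5]
      have h6 : (1 : ℝ) / 2 ^ (l ^ 3 + 3 * l + 3) ≤ 1 / D :=
        one_div_le_one_div_of_le hD0 hDle
      have h7 : 0 ≤ 1 / D := by positivity
      linarith
    have h8 : (1 : ℝ) / ((4 * L ^ 3 * 2 ^ l ^ 3 : ℕ) : ℝ) = 1 / 4 * (1 / D) := by
      rw [hD]
      push_cast
      field_simp
    have h9 : eps L = 1 / D := by
      rw [hD, hl]
      rfl
    rw [h1, h8, h9]
    linarith

end Pool.Agent.H399.PP
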