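import Pool.Agent.H558.PP.DStm

/-!
# S_VAR (helper399, for helper558): a weak law of large numbers for functions of the digits
-/

set_option autoImplicit false

namespace Pool.Agent.H399.PPVAR

open Finset
open Pool.Agent.H558.KK (sum_pow_add)

/-- the conditional mean over the last `g` of the first `k` digits -/
noncomputable def mn (f : ℕ → ℕ → ℝ) (g k t : ℕ) : ℝ :=
  (∑ s ∈ range (2 ^ g), f k (t % 2 ^ (k - g) + 2 ^ (k - g) * s)) / 2 ^ g

/-- the difference to the conditional mean -/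
noncomputable def FF (f : ℕ → ℕ → ℝ) (g k t : ℕ) : ℝ := f k t - mn f g k t

section

variable (f : ℕ → ℕ → ℝ) (g : ℕ)

theorem mn_nonneg (hf : ∀ k t, 0 ≤ f k t ∧ f k t ≤ 1) (k t : ℕ) : 0 ≤ mn f g k t :=
  div_nonneg (sum_nonneg fun s _ => (hf k _).1) (by positivity)

theorem mn_le_one (hf : ∀ k t, 0 ≤ f k t ∧ f k t ≤ 1) (k t : ℕ) : mn f g k t ≤ 1 := by
  unfold mn
  rw [div_le_one (by positivity)]
  calc ∑ s ∈ range (2 ^ g), f k (t % 2 ^ (k - g) + 2 ^ (k - g) * s)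
      ≤ ∑ _s ∈ range (2 ^ g), (1 : ℝ) := sum_le_sum fun s _ => (hf k _).2
    _ = 2 ^ g := by simp

theorem abs_FF_le (hf : ∀ k t, 0 ≤ f k t ∧ f k t ≤ 1) (k t : ℕ) : |FF f g k t| ≤ 1 := by
  have h1 := mn_nonneg f g hf k t
  have h2 := mn_le_one f g hf k t
  have h3 := hf k t
  unfold FF
  rw [abs_le]
  constructor <;> linarith

theorem FF_congr (hmod : ∀ k t, f k (t % 2 ^ k) = f k t) (k t t' : ℕ)
    (h : t % 2 ^ k = t' % 2 ^ k) : FF f g k t = FF f g k t' := by
  have h1 : f k t = f k t' := by rw [← hmod k t, h, hmod]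
  have hd : 2 ^ (k - g) ∣ 2 ^ k := pow_dvd_pow 2 (Nat.sub_le k g)
  have h2 : t % 2 ^ (k - g) = t' % 2 ^ (k - g) := by
    rw [← Nat.mod_mod_of_dvd t hd, h, Nat.mod_mod_of_dvd _ hd]
  unfold FF mn
  rw [h1, h2]

theorem sum_FF (j a : ℕ) (ha : a < 2 ^ j) :
    ∑ s ∈ range (2 ^ g), FF f g (j + g) (a + 2 ^ j * s) = 0 := by
  unfold FF mn
  rw [Nat.add_sub_cancel]
  have h1 : ∀ s, (a + 2 ^ j * s) % 2 ^ j = a := by
    intro s
    rw [Nat.add_mul_mod_self_left, Nat.mod_eq_of_lt ha]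
  simp_rw [h1]
  rw [sum_sub_distrib, sum_const, card_range, nsmul_eq_mul]
  push_cast
  field_simp
  ring

theorem orth (hmod : ∀ k t, f k (t % 2 ^ k) = f k t) (k j r : ℕ) (hk : k ≤ j) :
    ∑ t ∈ range (2 ^ (j + (g + r))), FF f g k t * FF f g (j + g) t = 0 := by
  rw [sum_pow_add]
  refine sum_eq_zero fun a ha => ?_
  rw [mem_range] at ha
  rw [sum_pow_add]
  have h1 : ∀ s b : ℕ, FF f g k (a + 2 ^ j * (s + 2 ^ g * b)) *
      FF f g (j + g) (a + 2 ^ j * (s + 2 ^ g * b)) =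
      FF f g k a * FF f g (j + g) (a + 2 ^ j * s) := by
    intro s b
    have hd : 2 ^ k ∣ 2 ^ j := pow_dvd_pow 2 hk
    have e1 : (a + 2 ^ j * (s + 2 ^ g * b)) % 2 ^ k = a % 2 ^ k := by
      rw [← Nat.mod_mod_of_dvd _ hd, Nat.add_mul_mod_self_left, Nat.mod_mod_of_dvd _ hd]
    have e2 : (a + 2 ^ j * (s + 2 ^ g * b)) % 2 ^ (j + g) = (a + 2 ^ j * s) % 2 ^ (j + g) := by
      have : a + 2 ^ j * (s + 2 ^ g * b) = (a + 2 ^ j * s) + 2 ^ (j + g) * b := by
        rw [pow_add]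
        ring
      rw [this, Nat.add_mul_mod_self_left]
    rw [FF_congr f g hmod k _ _ e1, FF_congr f g hmod (j + g) _ _ e2]
  simp_rw [h1]
  simp_rw [sum_const]
  rw [← smul_sum, ← mul_sum, sum_FF f g j a ha, mul_zero, smul_zero]

theorem orth' (hmod : ∀ k t, f k (t % 2 ^ k) = f k t) (k k' N : ℕ) (hk : k + g ≤ k')
    (hN : k' ≤ N) : ∑ t ∈ range (2 ^ N), FF f g k t * FF f g k' t = 0 := by
  have h := orth f g hmod k (k' - g) (N - k') (by omega)
  have e1 : k' - g + (g + (N - k')) = N := by omega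
  have e2 : k' - g + g = k' := by omega
  rw [e1, e2] at h
  exact h

theorem pair_le (hf : ∀ k t, 0 ≤ f k t ∧ f k t ≤ 1) (hmod : ∀ k t, f k (t % 2 ^ k) = f k t)
    (k k' N : ℕ) (hk : k ≤ N) (hk' : k' ≤ N) :
    ∑ t ∈ range (2 ^ N), FF f g k t * FF f g k' t ≤
      if k' < k + g ∧ k < k' + g then (2 : ℝ) ^ N else 0 := by
  by_cases h1 : k + g ≤ k'
  · rw [orth' f g hmod k k' N h1 hk']
    split_ifs <;> positivity
  · by_cases h2 : k' + g ≤ k
    · have h3 := orth' f g hmod k' k N h2 hk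
      have h4 : ∑ t ∈ range (2 ^ N), FF f g k t * FF f g k' t = 0 := by
        rw [← h3]
        exact sum_congr rfl fun t _ => mul_comm _ _
      rw [h4]
      split_ifs <;> positivity
    · rw [if_pos (by omega)]
      calc ∑ t ∈ range (2 ^ N), FF f g k t * FF f g k' t ≤ ∑ _t ∈ range (2 ^ N), (1 : ℝ) := by
            refine sum_le_sum fun t _ => ?_
            have h3 := abs_FF_le f g hf k t
            have h4 := abs_FF_le f g hf k' t
            calc FF f g k t * FF f g k' t ≤ |FF f g k t * FF f g k' t| := le_abs_self _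
              _ = |FF f g k t| * |FF f g k' t| := abs_mul _ _
              _ ≤ 1 * 1 := mul_le_mul h3 h4 (abs_nonneg _) zero_le_one
              _ = 1 := one_mul 1
        _ = 2 ^ N := by simp

theorem sq_le (hf : ∀ k t, 0 ≤ f k t ∧ f k t ≤ 1) (hmod : ∀ k t, f k (t % 2 ^ k) = f k t)
    (K N : ℕ) (hg : 1 ≤ g) (hKN : K ≤ N) :
    ∑ t ∈ range (2 ^ N), (∑ k ∈ Ico g (K + 1), FF f g k t) ^ 2 ≤ 2 * g * K * 2 ^ N := by
  have h1 : ∀ t, (∑ k ∈ Ico g (K + 1), FF f g k t) ^ 2 =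
      ∑ k ∈ Ico g (K + 1), ∑ k' ∈ Ico g (K + 1), FF f g k t * FF f g k' t := by
    intro t
    rw [pow_two, sum_mul_sum]
  simp_rw [h1]
  rw [sum_comm]
  have h2 : ∀ k ∈ Ico g (K + 1), ∑ t ∈ range (2 ^ N), ∑ k' ∈ Ico g (K + 1),
      FF f g k t * FF f g k' t ≤ 2 * g * 2 ^ N := by
    intro k hk
    rw [mem_Ico] at hk
    rw [sum_comm]
    calc ∑ k' ∈ Ico g (K + 1), ∑ t ∈ range (2 ^ N), FF f g k t * FF f g k' t
        ≤ ∑ k' ∈ Ico g (K + 1), if k' < k + g ∧ k < k' + g then (2 : ℝ) ^ N else 0 := by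
          refine sum_le_sum fun k' hk' => ?_
          rw [mem_Ico] at hk'
          exact pair_le f g hf hmod k k' N (by omega) (by omega)
      _ = #{k' ∈ Ico g (K + 1) | k' < k + g ∧ k < k' + g} * (2 : ℝ) ^ N := by
          rw [← sum_filter, sum_const, nsmul_eq_mul]
      _ ≤ 2 * g * 2 ^ N := by
          refine mul_le_mul_of_nonneg_right ?_ (by positivity)
          have h3 : #{k' ∈ Ico g (K + 1) | k' < k + g ∧ k < k' + g} ≤ #(Ico (k + 1 - g) (k + g)) := by
            refine card_le_card fun k' hk' => ?_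
            rw [mem_filter] at hk'
            rw [mem_Ico]
            omega
          rw [Nat.card_Ico] at h3
          have h4 : #{k' ∈ Ico g (K + 1) | k' < k + g ∧ k < k' + g} ≤ 2 * g := by omega
          exact_mod_cast h4
  calc ∑ k ∈ Ico g (K + 1), ∑ t ∈ range (2 ^ N), ∑ k' ∈ Ico g (K + 1), FF f g k t * FF f g k' t
      ≤ ∑ _k ∈ Ico g (K + 1), (2 * g * 2 ^ N : ℝ) := sum_le_sum h2
    _ = ((K + 1 - g : ℕ) : ℝ) * (2 * g * 2 ^ N) := by
        rw [sum_const, Nat.card_Ico, nsmul_eq_mul]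
    _ ≤ (K : ℝ) * (2 * g * 2 ^ N) := by
        refine mul_le_mul_of_nonneg_right ?_ (by positivity)
        have : K + 1 - g ≤ K := by omega
        exact_mod_cast this
    _ = 2 * g * K * 2 ^ N := by ring

end

theorem var : Pool.Agent.H558.PP.S_VAR := by
  intro N K g f c θ hg hK hKN hθ hf hmod hc
  have hK0 : (0 : ℝ) < K := by exact_mod_cast hK
  have hc0 : 0 ≤ c := by
    have h1 := hc g le_rfl 0 (by positivity)
    have h2 : 0 ≤ ∑ s ∈ range (2 ^ g), f g (0 + 2 ^ (g - g) * s) :=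
      sum_nonneg fun s _ => (hf g _).1
    have h3 : (0 : ℝ) < 2 ^ g := by positivity
    exact nonneg_of_mul_nonneg_left (h2.trans h1) h3
  have hmn : ∀ k t, g ≤ k → mn f g k t ≤ c := by
    intro k t hk
    unfold mn
    rw [div_le_iff₀ (by positivity)]
    exact hc k hk _ (Nat.mod_lt _ (by positivity))
  have hsum : ∀ t, ∑ k ∈ Ico g (K + 1), f k t ≤ ∑ k ∈ Ico g (K + 1), FF f g k t + c * K := by
    intro t
    have h1 : ∀ k ∈ Ico g (K + 1), f k t ≤ FF f g k t + c := by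
      intro k hk
      have h2 := hmn k t (mem_Ico.1 hk).1
      unfold FF
      linarith
    calc ∑ k ∈ Ico g (K + 1), f k t ≤ ∑ k ∈ Ico g (K + 1), (FF f g k t + c) := sum_le_sum h1
      _ = ∑ k ∈ Ico g (K + 1), FF f g k t + ((K + 1 - g : ℕ) : ℝ) * c := by
          rw [sum_add_distrib, sum_const, Nat.card_Ico, nsmul_eq_mul]
      _ ≤ ∑ k ∈ Ico g (K + 1), FF f g k t + c * K := by
          have h3 : ((K + 1 - g : ℕ) : ℝ) ≤ K := by
            have : K + 1 - g ≤ K := by omega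
            exact_mod_cast this
          have h4 := mul_le_mul_of_nonneg_right h3 hc0
          linarith
  set A := (range (2 ^ N)).filter (fun t => (c + θ) * K < ∑ k ∈ Ico g (K + 1), f k t) with hA
  have h1 : (#A : ℝ) * (θ * K) ^ 2 ≤ 2 * g * K * 2 ^ N := by
    calc (#A : ℝ) * (θ * K) ^ 2 = ∑ _t ∈ A, (θ * K) ^ 2 := by
          rw [sum_const, nsmul_eq_mul]
      _ ≤ ∑ t ∈ A, (∑ k ∈ Ico g (K + 1), FF f g k t) ^ 2 := by
          refine sum_le_sum fun t ht => ?_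
          rw [hA, mem_filter] at ht
          have h2 := hsum t
          refine pow_le_pow_left₀ (by positivity) ?_ 2
          linarith [ht.2]
      _ ≤ ∑ t ∈ range (2 ^ N), (∑ k ∈ Ico g (K + 1), FF f g k t) ^ 2 :=
          sum_le_sum_of_subset_of_nonneg (filter_subset _ _) fun t _ _ => sq_nonneg _
      _ ≤ 2 * g * K * 2 ^ N := sq_le f g hf hmod K N hg hKN
  have h2 : (0 : ℝ) < (θ * K) ^ 2 := by positivity
  calc (#A : ℝ) ≤ 2 * g * K * 2 ^ N / (θ * K) ^ 2 := by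
        rw [le_div_iff₀ h2]
        exact h1
    _ = 2 * g / (θ ^ 2 * K) * 2 ^ N := by
        field_simp
    _ ≤ 4 * g / (θ ^ 2 * K) * 2 ^ N := by
        refine mul_le_mul_of_nonneg_right ?_ (by positivity)
        refine div_le_div_of_nonneg_right ?_ (by positivity)
        have : (0 : ℝ) ≤ g := Nat.cast_nonneg g
        linarith

end Pool.Agent.H399.PPVAR
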