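import Pool.Agent.H468.QF.Stm

set_option autoImplicit false

/-!
# Project QF (helper468): CNTV, the number of the classes `v`
-/

open scoped Classical

namespace Pool.Agent.H399.QFC

open Finset Pool.Agent.H468.QF
open Pool.Agent.H743.X17 (ind e4 up RS Kn al pd)

/-- additive character modulo `4` -/
def ch (a : ℤ) : ZMod 2 := if a % 4 = 3 then 1 else 0

lemma ch_mul {a b : ℤ} (ha : a % 2 = 1) (hb : b % 2 = 1) : ch (a * b) = ch a + ch b := by
  unfold ch
  have h1 : a % 4 = 1 ∨ a % 4 = 3 := by omega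
  have h2 : b % 4 = 1 ∨ b % 4 = 3 := by omega
  rcases h1 with h1 | h1 <;> rcases h2 with h2 | h2 <;> rw [Int.mul_emod, h1, h2] <;> decide

lemma ch_one : ch 1 = 0 := by
  unfold ch
  decide

lemma ch_neg_one : ch (-1) = 1 := by
  unfold ch
  decide

lemma odd_prod (S : Finset ℕ) (hS : ∀ p ∈ S, p % 2 = 1) : (∏ p ∈ S, (p : ℤ)) % 2 = 1 := by
  induction S using Finset.induction_on with
  | empty => simp
  | insert a s ha ih =>
    rw [prod_insert ha, Int.mul_emod, ih fun p hp => hS p (mem_insert_of_mem hp)]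
    have h1 := hS a (mem_insert_self _ _)
    have h2 : (a : ℤ) % 2 = 1 := by omega
    rw [h2]
    rfl

lemma ch_prod (S : Finset ℕ) (hS : ∀ p ∈ S, p % 2 = 1) :
    ch (∏ p ∈ S, (p : ℤ)) = ∑ p ∈ S, ch (p : ℤ) := by
  induction S using Finset.induction_on with
  | empty => simpa using ch_one
  | insert a s ha ih =>
    have h1 := hS a (mem_insert_self _ _)
    have h2 : (a : ℤ) % 2 = 1 := by omega
    rw [prod_insert ha, sum_insert ha, ch_mul h2 (odd_prod s fun p hp => hS p (mem_insert_of_mem hp)),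
      ih fun p hp => hS p (mem_insert_of_mem hp)]

/-- the sign -/
def sn (ε : Bool) : ℤ := if ε then -1 else 1

/-- the additive sign -/
def sa (ε : Bool) : ZMod 2 := if ε then 1 else 0

lemma ch_sn (ε : Bool) : ch (sn ε) = sa ε := by
  cases ε
  · exact ch_one
  · exact ch_neg_one

lemma sn_odd (ε : Bool) : sn ε % 2 = 1 := by
  cases ε <;> decide

/-- the product -/
def nn (S : Finset ℕ) : ℕ := ∏ p ∈ S, p

/-- the integer -/
def vl (x : Bool × Finset ℕ) : ℤ := sn x.1 * (nn x.2 : ℤ)

lemma natAbs_vl (x : Bool × Finset ℕ) : (vl x).natAbs = nn x.2 := by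
  unfold vl
  rw [Int.natAbs_mul]
  have : (sn x.1).natAbs = 1 := by
    unfold sn
    split_ifs <;> rfl
  rw [this, one_mul, Int.natAbs_natCast]

lemma nn_pos (S : Finset ℕ) (hS : ∀ p ∈ S, p.Prime) : 0 < nn S :=
  Finset.prod_pos fun p hp => (hS p hp).pos

lemma primeFactors_nn (S : Finset ℕ) (hS : ∀ p ∈ S, p.Prime) : (nn S).primeFactors = S :=
  Nat.primeFactors_prod hS

lemma squarefree_nn (S : Finset ℕ) (hS : ∀ p ∈ S, p.Prime) : Squarefree (nn S) := by
  unfold nn
  refine Finset.squarefree_prod_of_pairwise_isCoprime ?_ fun p hp => (hS p hp).squarefree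
  intro p hp q hq hpq
  exact Nat.coprime_iff_isRelPrime.1 ((Nat.coprime_primes (hS p hp) (hS q hq)).2 hpq)

lemma vl_inj {x y : Bool × Finset ℕ} (hx : ∀ p ∈ x.2, p.Prime) (hy : ∀ p ∈ y.2, p.Prime)
    (h : vl x = vl y) : x = y := by
  have h1 : nn x.2 = nn y.2 := by rw [← natAbs_vl, ← natAbs_vl, h]
  have h2 : x.2 = y.2 := by rw [← primeFactors_nn x.2 hx, ← primeFactors_nn y.2 hy, h1]
  have h3 : sn x.1 = sn y.1 := by
    unfold vl at h
    rw [h1] at h
    have h4 : ((nn y.2 : ℕ) : ℤ) ≠ 0 := by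
      exact_mod_cast (nn_pos y.2 hy).ne'
    exact mul_right_cancel₀ h4 h
  have h4 : x.1 = y.1 := by
    rcases hx1 : x.1 with _ | _ <;> rcases hy1 : y.1 with _ | _
    · rfl
    · rw [hx1, hy1] at h3
      exact absurd h3 (by decide)
    · rw [hx1, hy1] at h3
      exact absurd h3 (by decide)
    · rfl
  exact Prod.ext h4 h2

lemma vl_surj {v : ℤ} (hv : Squarefree v) :
    vl (decide (v < 0), v.natAbs.primeFactors) = v := by
  unfold vl nn
  simp only
  rw [Nat.prod_primeFactors_of_squarefree (Int.squarefree_natAbs.2 hv)]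
  unfold sn
  by_cases h : v < 0
  · rw [decide_eq_true h, if_pos rfl]
    omega
  · rw [decide_eq_false h, if_neg (by simp)]
    omega

lemma dvd_nn {S : Finset ℕ} (hS : ∀ p ∈ S, p.Prime) {p : ℕ} (hp : p.Prime) :
    p ∣ nn S ↔ p ∈ S := by
  constructor
  · intro h
    rw [← primeFactors_nn S hS, Nat.mem_primeFactors]
    exact ⟨hp, h, (nn_pos S hS).ne'⟩
  · intro h
    exact Finset.dvd_prod_of_mem _ h

lemma dvd_vl {x : Bool × Finset ℕ} (hx : ∀ p ∈ x.2, p.Prime) {p : ℕ} (hp : p.Prime) :
    (p : ℤ) ∣ vl x ↔ p ∈ x.2 := by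
  rw [← dvd_nn hx hp, ← natAbs_vl, Int.natCast_dvd]

lemma odd_of_prime {S : Finset ℕ} (hS : ∀ p ∈ S, p.Prime) : ∀ p ∈ S.erase 2, p % 2 = 1 := by
  intro p hp
  rw [mem_erase] at hp
  rcases (hS p hp.2).eq_two_or_odd with h | h
  · exact absurd h hp.1
  · exact h

lemma up_vl {x : Bool × Finset ℕ} (hx : ∀ p ∈ x.2, p.Prime) :
    up 2 (vl x) = sn x.1 * ∏ p ∈ x.2.erase 2, (p : ℤ) := by
  unfold up
  have h1 := dvd_vl hx Nat.prime_two
  by_cases h : 2 ∈ x.2
  · rw [if_pos (h1.2 h)]
    have h2 : vl x = 2 * (sn x.1 * ∏ p ∈ x.2.erase 2, (p : ℤ)) := by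
      unfold vl nn
      rw [← Finset.mul_prod_erase x.2 (fun p => p) h]
      push_cast
      ring
    rw [h2]
    exact Int.mul_ediv_cancel_left _ (by norm_num)
  · rw [if_neg (fun h' => h (h1.1 h')), Finset.erase_eq_of_notMem h]
    unfold vl nn
    push_cast
    rfl

lemma e4_vl {x : Bool × Finset ℕ} (hx : ∀ p ∈ x.2, p.Prime) :
    e4 (vl x) = sa x.1 + ∑ p ∈ x.2.erase 2, ch (p : ℤ) := by
  have h1 : e4 (vl x) = ch (up 2 (vl x)) := rfl
  rw [h1, up_vl hx, ch_mul (sn_odd _) (odd_prod _ (odd_of_prime hx)), ch_sn,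
    ch_prod _ (odd_of_prime hx)]

lemma ind_vl {x : Bool × Finset ℕ} (hx : ∀ p ∈ x.2, p.Prime) :
    ind 2 (vl x) = if 2 ∈ x.2 then 1 else 0 := by
  unfold ind
  by_cases h : 2 ∈ x.2
  · rw [if_pos h, if_pos ((dvd_vl hx Nat.prime_two).2 h)]
  · rw [if_neg h, if_neg (fun h' => h ((dvd_vl hx Nat.prime_two).1 h'))]

lemma e4_odd {v : ℤ} (h : ¬ (2 : ℤ) ∣ v) : e4 v = ch v := by
  have h1 : e4 v = ch (up 2 v) := rfl
  have h2 : up 2 v = v := by
    unfold up
    rw [if_neg (by exact_mod_cast h)]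
  rw [h1, h2]

/-- the weights -/
def wt (m : ℤ) (p : ℕ) : ZMod 2 := if p = 2 then e4 m else ch p

lemma e4_add {m : ℤ} {x : Bool × Finset ℕ} (hx : ∀ p ∈ x.2, p.Prime) :
    e4 (vl x) + ind 2 (vl x) * e4 m = sa x.1 + ∑ p ∈ x.2, wt m p := by
  rw [e4_vl hx, ind_vl hx]
  have h0 : ∑ p ∈ x.2.erase 2, wt m p = ∑ p ∈ x.2.erase 2, ch (p : ℤ) := by
    refine Finset.sum_congr rfl fun p hp => ?_
    unfold wt
    rw [if_neg (mem_erase.1 hp).1]
  by_cases h : 2 ∈ x.2
  · rw [if_pos h, one_mul, ← Finset.add_sum_erase x.2 (wt m) h, h0]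
    have : wt m 2 = e4 m := if_pos rfl
    rw [this]
    ring
  · rw [if_neg h, zero_mul, add_zero, ← h0, Finset.erase_eq_of_notMem h]

/-- the allowed primes -/
noncomputable def QQ (m : ℤ) : Finset ℕ :=
  if m % 4 = 3 then insert 17 ((RS m).erase 2) else insert 17 (RS m)

lemma mem_RS {m : ℤ} (hm : m ≠ 0) {p : ℕ} (hp : p.Prime) (hp2 : p ≠ 2) :
    p ∈ RS m ↔ (p : ℤ) ∣ m := by
  unfold RS Kn
  have hm' : m.natAbs ≠ 0 := Int.natAbs_ne_zero.2 hm
  rw [Nat.mem_primeFactors, Int.natCast_dvd]
  split_ifs with h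
  · exact ⟨fun h => h.2.1, fun h => ⟨hp, h, hm'⟩⟩
  · constructor
    · rintro ⟨_, h1, _⟩
      rcases hp.dvd_mul.1 h1 with h2 | h2
      · exfalso
        have h3 : p ∣ 2 := hp.dvd_of_dvd_pow (by rwa [show (4 : ℕ) = 2 ^ 2 from rfl] at h2)
        exact hp2 ((Nat.prime_dvd_prime_iff_eq hp Nat.prime_two).1 h3)
      · exact h2
    · intro h1
      exact ⟨hp, dvd_mul_of_dvd_right h1 4, by omega⟩

lemma two_mem_RS {m : ℤ} (hm : m ≠ 0) : 2 ∈ RS m ↔ m % 4 ≠ 1 := by
  unfold RS Kn
  have hm' : m.natAbs ≠ 0 := Int.natAbs_ne_zero.2 hm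
  rw [Nat.mem_primeFactors]
  split_ifs with h
  · constructor
    · rintro ⟨_, h1, _⟩
      omega
    · intro h1
      exact absurd h h1
  · constructor
    · intro _
      exact h
    · intro _
      exact ⟨Nat.prime_two, by omega, by omega⟩

lemma prime_of_QQ {m : ℤ} : ∀ p ∈ QQ m, p.Prime := by
  intro p hp
  unfold QQ at hp
  have h17 : Nat.Prime 17 := by norm_num
  split_ifs at hp
  · rcases mem_insert.1 hp with h | h
    · rw [h]
      exact h17
    · exact Nat.prime_of_mem_primeFactors (mem_erase.1 h).2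
  · rcases mem_insert.1 hp with h | h
    · rw [h]
      exact h17
    · exact Nat.prime_of_mem_primeFactors h

lemma two_mem_QQ {m : ℤ} (hm : m ≠ 0) : 2 ∈ QQ m ↔ m % 2 = 0 := by
  unfold QQ
  have h1 := two_mem_RS hm
  by_cases h : m % 4 = 3
  · rw [if_pos h, mem_insert, mem_erase]
    constructor
    · rintro (h | h)
      · omega
      · exact absurd rfl h.1
    · intro h'
      omega
  · rw [if_neg h, mem_insert, h1]
    constructor
    · rintro (h | h)
      · omega
      · omega
    · intro h'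
      right
      omega

lemma V1_vl {m : ℤ} (hm : Squarefree m) {x : Bool × Finset ℕ} (hx : x.2 ⊆ QQ m) :
    V1 m (vl x) ↔ (0 < m → x.1 = false) ∧ (m % 4 ≠ 3 → sa x.1 + ∑ p ∈ x.2, wt m p = 0) := by
  have hm0 : m ≠ 0 := hm.ne_zero
  have hpr : ∀ p ∈ x.2, p.Prime := fun p hp => prime_of_QQ p (hx hp)
  have hpos : 0 < (nn x.2 : ℤ) := by exact_mod_cast nn_pos x.2 hpr
  have hm4 : m % 4 ≠ 0 := by
    intro h
    have h1 : (2 : ℤ) * 2 ∣ m := by omega
    have h2 := hm 2 h1
    rw [Int.isUnit_iff] at h2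
    omega
  have hsum := e4_add (m := m) hpr
  have h2mem := two_mem_QQ hm0
  have h2d := dvd_vl hpr Nat.prime_two
  have h2x : 2 ∈ x.2 → m % 2 = 0 := fun h => h2mem.1 (hx h)
  have hz : ∀ a b : ZMod 2, a + b = 0 ↔ a = b := by decide
  have hvpos : 0 < vl x ↔ x.1 = false := by
    unfold vl sn
    rcases x.1 with _ | _
    · simp only [Bool.false_eq_true, if_false, one_mul, iff_true]
      exact hpos
    · simp only [if_true]
      constructor
      · intro h
        omega
      · intro h
        exact absurd h (by decide)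
  constructor
  · intro h
    refine ⟨fun h0 => hvpos.1 (h.pos h0), fun h3 => ?_⟩
    rw [← hsum]
    by_cases h1 : m % 4 = 1
    · have h4 := h.o2 h1
      have h5 : ¬ (2 : ℤ) ∣ vl x := by omega
      have h6 : e4 (vl x) = 0 := by
        rw [e4_odd h5]
        unfold ch
        rw [if_neg (by omega)]
      have h7 : ind 2 (vl x) = 0 := by
        unfold ind
        rw [if_neg (by exact_mod_cast h5)]
      rw [h6, h7, zero_mul, add_zero]
    · rw [hz]
      exact h.e2 (by omega)
  · rintro ⟨h1, h2⟩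
    refine ⟨?_, fun h0 => hvpos.2 (h1 h0), ?_, ?_, ?_, ?_⟩
    · rw [← Int.squarefree_natAbs, natAbs_vl]
      exact squarefree_nn _ hpr
    · intro p hp hp2 hp17 hpm hpv
      have h3 := hx ((dvd_vl hpr hp).1 hpv)
      apply hpm
      rw [← mem_RS hm0 hp hp2]
      unfold QQ at h3
      split_ifs at h3
      · rcases mem_insert.1 h3 with h | h
        · exact absurd h hp17
        · exact (mem_erase.1 h).2
      · rcases mem_insert.1 h3 with h | h
        · exact absurd h hp17
        · exact h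
    · intro h3
      have h4 : ¬ (2 : ℤ) ∣ vl x := fun h => by
        have := h2x (h2d.1 (by exact_mod_cast h))
        omega
      have h5 := h2 (by omega)
      rw [← hsum] at h5
      have h7 : ind 2 (vl x) = 0 := by
        unfold ind
        rw [if_neg (by exact_mod_cast h4)]
      rw [h7, zero_mul, add_zero] at h5
      rw [e4_odd h4] at h5
      unfold ch at h5
      by_contra hcon
      rw [if_pos (by omega)] at h5
      exact absurd h5 (by decide)
    · intro h3 h4
      have := h2x (h2d.1 (by exact_mod_cast h4))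
      omega
    · intro h3
      rw [← hz, hsum]
      exact h2 (by omega)

lemma sub_QQ {m v : ℤ} (hm : Squarefree m) (h : V1 m v) : v.natAbs.primeFactors ⊆ QQ m := by
  intro p hp
  have hm0 : m ≠ 0 := hm.ne_zero
  have hpp := Nat.prime_of_mem_primeFactors hp
  have hpv : (p : ℤ) ∣ v := by
    rw [Int.natCast_dvd]
    exact Nat.dvd_of_mem_primeFactors hp
  have hm4 : m % 4 ≠ 0 := by
    intro h
    have h1 : (2 : ℤ) * 2 ∣ m := by omega
    have h2 := hm 2 h1
    rw [Int.isUnit_iff] at h2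
    omega
  by_cases h2 : p = 2
  · rw [h2, two_mem_QQ hm0]
    by_contra hcon
    have hpv' : (2 : ℤ) ∣ v := by
      rw [h2] at hpv
      exact_mod_cast hpv
    have h3 : m % 4 = 1 ∨ m % 4 = 3 := by omega
    rcases h3 with h3 | h3
    · have := h.o2 h3
      omega
    · exact h.e3 h3 hpv'
  · by_cases h17 : p = 17
    · rw [h17]
      unfold QQ
      split_ifs
      · exact mem_insert_self _ _
      · exact mem_insert_self _ _
    · have h3 : (p : ℤ) ∣ m := by
        by_contra hcon
        exact h.good p hpp h2 h17 hcon hpv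
      have h4 := (mem_RS hm0 hpp h2).2 h3
      unfold QQ
      split_ifs
      · exact mem_insert_of_mem (mem_erase.2 ⟨h2, h4⟩)
      · exact mem_insert_of_mem h4

/-- the finite set of the data -/
noncomputable def TT (m : ℤ) : Finset (Bool × Finset ℕ) :=
  ((univ : Finset Bool) ×ˢ (QQ m).powerset).filter
    (fun x => (0 < m → x.1 = false) ∧ (m % 4 ≠ 3 → sa x.1 + ∑ p ∈ x.2, wt m p = 0))

lemma card_eq {m : ℤ} (hm : Squarefree m) : Nat.card {v : ℤ // V1 m v} = (TT m).card := by
  have hTT : ∀ x : Bool × Finset ℕ, x ∈ TT m ↔ x.2 ⊆ QQ m ∧ V1 m (vl x) := by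
    intro x
    unfold TT
    rw [mem_filter, mem_product, mem_powerset]
    constructor
    · rintro ⟨⟨_, h1⟩, h2⟩
      exact ⟨h1, (V1_vl hm h1).2 h2⟩
    · rintro ⟨h1, h2⟩
      exact ⟨⟨Finset.mem_univ _, h1⟩, (V1_vl hm h1).1 h2⟩
  have hb : Function.Bijective (fun x : TT m => (⟨vl x.1, ((hTT x.1).1 x.2).2⟩ : {v : ℤ // V1 m v})) := by
    constructor
    · intro x y hxy
      have h1 : vl x.1 = vl y.1 := congrArg Subtype.val hxy
      have hx := ((hTT x.1).1 x.2).1
      have hy := ((hTT y.1).1 y.2).1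
      exact Subtype.ext (vl_inj (fun p hp => prime_of_QQ p (hx hp))
        (fun p hp => prime_of_QQ p (hy hp)) h1)
    · rintro ⟨v, hv⟩
      have h1 := vl_surj hv.sq
      refine ⟨⟨(decide (v < 0), v.natAbs.primeFactors), ?_⟩, ?_⟩
      · rw [hTT]
        exact ⟨sub_QQ hm hv, by rw [h1]; exact hv⟩
      · exact Subtype.ext h1
  rw [← Nat.card_eq_of_bijective _ hb, Nat.card_eq_fintype_card, Fintype.card_coe]

/-- the sets with weight zero -/
lemma card_half (Q : Finset ℕ) (w : ℕ → ZMod 2) (q : ℕ) (hq : q ∈ Q) (hw : w q = 1) :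
    2 * (Q.powerset.filter (fun S => ∑ p ∈ S, w p = 0)).card = 2 ^ Q.card := by
  have hz : ∀ a : ZMod 2, a ≠ 0 ↔ a = 1 := by decide
  have h1 : (Q.powerset.filter (fun S => ∑ p ∈ S, w p = 0)).card =
      (Q.powerset.filter (fun S => ¬ ∑ p ∈ S, w p = 0)).card := by
    have hkey : ∀ S : Finset ℕ, ∑ p ∈ symmDiff S {q}, w p = (∑ p ∈ S, w p) + 1 := by
      intro S
      by_cases h : q ∈ S
      · have h2 : symmDiff S {q} = S.erase q := by
          ext p
          rw [mem_symmDiff, mem_erase, mem_singleton]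
          constructor
          · rintro (⟨h3, h4⟩ | ⟨h3, h4⟩)
            · exact ⟨h4, h3⟩
            · exact absurd (h3 ▸ h) h4
          · rintro ⟨h3, h4⟩
            exact Or.inl ⟨h4, h3⟩
        rw [h2, ← Finset.add_sum_erase S w h, hw]
        have h5 : ∀ a : ZMod 2, a = 1 + a + 1 := by decide
        exact h5 _
      · have h2 : symmDiff S {q} = insert q S := by
          ext p
          rw [mem_symmDiff, mem_insert, mem_singleton]
          constructor
          · rintro (⟨h3, h4⟩ | ⟨h3, h4⟩)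
            · exact Or.inr h3
            · exact Or.inl h3
          · rintro (h3 | h3)
            · exact Or.inr ⟨h3, h3 ▸ h⟩
            · exact Or.inl ⟨h3, fun h4 => h (h4 ▸ h3)⟩
        rw [h2, sum_insert h, hw, add_comm]
    have hsub : ∀ S : Finset ℕ, S ⊆ Q → symmDiff S {q} ⊆ Q := by
      intro S hS p hp
      rw [mem_symmDiff, mem_singleton] at hp
      rcases hp with ⟨h3, _⟩ | ⟨h3, _⟩
      · exact hS h3
      · rw [h3]
        exact hq
    refine Finset.card_bij' (fun S _ => symmDiff S {q}) (fun S _ => symmDiff S {q}) ?_ ?_ ?_ ?_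
    · intro S hS
      rw [mem_filter, mem_powerset] at hS ⊢
      refine ⟨hsub S hS.1, ?_⟩
      rw [hkey, hS.2]
      decide
    · intro S hS
      rw [mem_filter, mem_powerset] at hS ⊢
      refine ⟨hsub S hS.1, ?_⟩
      rw [hkey, (hz _).1 hS.2]
      decide
    · intro S _
      exact symmDiff_symmDiff_cancel_right _ _
    · intro S _
      exact symmDiff_symmDiff_cancel_right _ _
  have h2 := Finset.card_filter_add_card_filter_not (s := Q.powerset) (fun S => ∑ p ∈ S, w p = 0)
  rw [card_powerset] at h2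
  omega

lemma card_RS {m : ℤ} (hm : Squarefree m) : (QQ m).card =
    if m % 4 = 3 then (if (17 : ℤ) ∣ m then (RS m).card - 1 else (RS m).card)
    else (if (17 : ℤ) ∣ m then (RS m).card else (RS m).card + 1) := by
  have hm0 : m ≠ 0 := hm.ne_zero
  have h17 := mem_RS hm0 (p := 17) (by norm_num) (by norm_num)
  have h2 := two_mem_RS hm0
  unfold QQ
  by_cases h3 : m % 4 = 3
  · rw [if_pos h3, if_pos h3]
    have h2' : 2 ∈ RS m := h2.2 (by omega)
    have h4 : 0 < (RS m).card := Finset.card_pos.2 ⟨2, h2'⟩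
    by_cases h5 : (17 : ℤ) ∣ m
    · rw [if_pos h5, Finset.insert_eq_of_mem (mem_erase.2 ⟨by norm_num, h17.2 (by exact_mod_cast h5)⟩),
        Finset.card_erase_of_mem h2']
    · rw [if_neg h5, Finset.card_insert_of_notMem, Finset.card_erase_of_mem h2']
      · omega
      · intro h
        exact h5 (by exact_mod_cast h17.1 (mem_erase.1 h).2)
  · rw [if_neg h3, if_neg h3]
    by_cases h5 : (17 : ℤ) ∣ m
    · rw [if_pos h5, Finset.insert_eq_of_mem (h17.2 (by exact_mod_cast h5))]
    · rw [if_neg h5, Finset.card_insert_of_notMem]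
      intro h
      exact h5 (by exact_mod_cast h17.1 h)

lemma al_wt {m : ℤ} (hm : Squarefree m) (h3 : m % 4 ≠ 3) {q : ℕ} (hq : q ∈ RS m)
    (hal : al m q = 1) : wt m q = 1 := by
  have hm0 : m ≠ 0 := hm.ne_zero
  have hqp : q.Prime := Nat.prime_of_mem_primeFactors hq
  have hneg : pd m q < 0 := by
    unfold al at hal
    by_contra hcon
    rw [if_neg hcon] at hal
    exact absurd hal (by decide)
  have hm4 : m % 4 ≠ 0 := by
    intro h
    have h1 : (2 : ℤ) * 2 ∣ m := by omega
    have h2 := hm 2 h1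
    rw [Int.isUnit_iff] at h2
    omega
  unfold pd at hneg
  unfold wt
  by_cases h2 : q = 2
  · rw [if_pos h2]
    rw [if_pos h2, if_neg h3] at hneg
    have h4 : m % 4 ≠ 1 := (two_mem_RS hm0).1 (h2 ▸ hq)
    have h5 : m % 8 ≠ 2 := by
      intro h
      rw [if_pos h] at hneg
      omega
    have h6 : e4 m = ch (up 2 m) := rfl
    have h7 : up 2 m = m / 2 := by
      unfold up
      rw [if_pos (by
        have : (2 : ℤ) ∣ m := by omega
        exact_mod_cast this)]
      rfl
    rw [h6, h7]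
    unfold ch
    rw [if_pos (by omega)]
  · rw [if_neg h2]
    rw [if_neg h2] at hneg
    have h5 : q % 4 ≠ 1 := by
      intro h
      rw [if_pos h] at hneg
      omega
    have h6 : q % 2 = 1 := by
      rcases hqp.eq_two_or_odd with h | h
      · exact absurd h h2
      · exact h
    unfold ch
    rw [if_pos (by omega)]

lemma RS_sub {m : ℤ} (h3 : m % 4 ≠ 3) : RS m ⊆ QQ m := by
  unfold QQ
  rw [if_neg h3]
  exact Finset.subset_insert _ _

/-- the number of the data with a positive sign -/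
lemma card_pos_sign (Q : Finset ℕ) (P : Finset ℕ → Prop) (P' : Bool × Finset ℕ → Prop)
    [DecidablePred P] [DecidablePred P'] (h : ∀ S, P' (false, S) ↔ P S) (h' : ∀ S, ¬ P' (true, S)) :
    (((univ : Finset Bool) ×ˢ Q.powerset).filter P').card = (Q.powerset.filter P).card := by
  symm
  refine Finset.card_bij (fun S _ => (false, S)) ?_ ?_ ?_
  · intro S hS
    rw [mem_filter] at hS
    rw [mem_filter, mem_product]
    exact ⟨⟨Finset.mem_univ _, hS.1⟩, (h S).2 hS.2⟩
  · intro S _ S' _ hSS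
    exact congrArg Prod.snd hSS
  · rintro ⟨ε, S⟩ hx
    rw [mem_filter, mem_product] at hx
    rcases ε with _ | _
    · exact ⟨S, mem_filter.2 ⟨hx.1.2, (h S).1 hx.2⟩, rfl⟩
    · exact absurd hx.2 (h' S)

lemma card_sign (Q : Finset ℕ) (w : ℕ → ZMod 2) (P' : Bool × Finset ℕ → Prop)
    [DecidablePred P'] (h : ∀ x, P' x ↔ sa x.1 + ∑ p ∈ x.2, w p = 0) :
    (((univ : Finset Bool) ×ˢ Q.powerset).filter P').card = 2 ^ Q.card := by
  rw [← Finset.card_powerset]
  symm
  have hz : ∀ a : ZMod 2, a ≠ 0 → a = 1 := by decide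
  refine Finset.card_bij (fun S _ => (if ∑ p ∈ S, w p = 0 then false else true, S)) ?_ ?_ ?_
  · intro S hS
    rw [mem_filter, mem_product, h]
    refine ⟨⟨Finset.mem_univ _, hS⟩, ?_⟩
    simp only
    by_cases h1 : ∑ p ∈ S, w p = 0
    · rw [if_pos h1, h1]
      rfl
    · rw [if_neg h1, hz _ h1]
      rfl
  · intro S _ S' _ hSS
    exact congrArg Prod.snd hSS
  · rintro ⟨ε, S⟩ hx
    rw [mem_filter, mem_product, h] at hx
    refine ⟨S, hx.1.2, ?_⟩
    have h2 := hx.2
    simp only at h2
    by_cases h1 : ∑ p ∈ S, w p = 0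
    · rw [if_pos h1]
      rw [h1, add_zero] at h2
      rcases ε with _ | _
      · rfl
      · exact absurd h2 (by decide)
    · rw [if_neg h1]
      rw [hz _ h1] at h2
      rcases ε with _ | _
      · exact absurd h2 (by decide)
      · rfl

theorem t_CNTV : S_CNTV := by
  intro m hm hpos
  have hm0 : m ≠ 0 := hm.ne_zero
  rw [card_eq hm]
  have hcQ := card_RS hm
  rcases lt_or_gt_of_ne hm0 with hneg | hposm
  · -- negative
    have hnp : ¬ 0 < m := not_lt.2 hneg.le
    by_cases h3 : m % 4 = 3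
    · have h1 : (TT m).card = 2 * 2 ^ (QQ m).card := by
        unfold TT
        rw [Finset.filter_true_of_mem, Finset.card_product, Finset.card_powerset]
        · rfl
        · intro x _
          exact ⟨fun h => absurd h hnp, fun h => absurd h3 h⟩
      have h2' : 2 ∈ RS m := (two_mem_RS hm0).2 (by omega)
      have h4 : 0 < (RS m).card := Finset.card_pos.2 ⟨2, h2'⟩
      rw [h1, hcQ, if_pos h3]
      by_cases h5 : (17 : ℤ) ∣ m
      · rw [if_pos h5, if_neg (fun h => h.2 h5), ← pow_succ']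
        congr 1
        omega
      · rw [if_neg h5, if_pos ⟨hneg, h5⟩, ← pow_succ']
    · have h1 : (TT m).card = 2 ^ (QQ m).card := by
        unfold TT
        refine card_sign (QQ m) (wt m) _ fun x => ?_
        constructor
        · intro h
          exact h.2 h3
        · intro h
          exact ⟨fun h => absurd h hnp, fun _ => h⟩
      rw [h1, hcQ, if_neg h3]
      by_cases h5 : (17 : ℤ) ∣ m
      · rw [if_pos h5, if_neg (fun h => h.2 h5)]
      · rw [if_neg h5, if_pos ⟨hneg, h5⟩]
  · -- positive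
    obtain ⟨h17, q, hq, hal⟩ := hpos hposm
    rw [if_neg (fun h => absurd h.1 (not_lt.2 hposm.le))]
    by_cases h3 : m % 4 = 3
    · have h1 : (TT m).card = 2 ^ (QQ m).card := by
        unfold TT
        rw [card_pos_sign (QQ m) (fun _ => True), Finset.filter_true_of_mem, Finset.card_powerset]
        · intro x _
          trivial
        · intro S
          constructor
          · intro _
            trivial
          · intro _
            exact ⟨fun _ => rfl, fun h => absurd h3 h⟩
        · intro S h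
          exact Bool.noConfusion (h.1 hposm)
      rw [h1, hcQ, if_pos h3, if_neg h17]
    · have h1 : (TT m).card =
          ((QQ m).powerset.filter (fun S => ∑ p ∈ S, wt m p = 0)).card := by
        unfold TT
        refine card_pos_sign (QQ m) (fun S => ∑ p ∈ S, wt m p = 0)
          (fun x => (0 < m → x.1 = false) ∧ (m % 4 ≠ 3 → sa x.1 + ∑ p ∈ x.2, wt m p = 0))
          (fun S => ?_) (fun S h => Bool.noConfusion (h.1 hposm))
        constructor
        · intro h
          have h4 := h.2 h3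
          have h5 : sa false = 0 := rfl
          rw [h5, zero_add] at h4
          exact h4
        · intro h
          refine ⟨fun _ => rfl, fun _ => ?_⟩
          have h5 : sa false = 0 := rfl
          rw [h5, zero_add]
          exact h
      have h2 := card_half (QQ m) (wt m) q (RS_sub h3 hq) (al_wt hm h3 hq hal)
      rw [hcQ, if_neg h3, if_neg h17, pow_succ'] at h2
      rw [h1]
      omega

end Pool.Agent.H399.QFC
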