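import Pool.Agent.H158.RA.Stm

/-!
# RA-EXC (helper399, for helper158)

The five exceptional bimodules over the 2 by 2 matrices are right alternative, irreducible and
pairwise non-isomorphic.
-/

set_option autoImplicit false

namespace Pool.Agent.H399.RA

open Matrix Pool.Agent.H158.RA

universe u v w

variable {F : Type u} [Field F]

/-! ### general remarks -/

theorem irred_of {M : Bimod.{u, v} F} (h0 : Nontrivial M.carrier)
    (h : ∀ N : Submodule F M.carrier, M.IsSub N → ∀ v ∈ N, v ≠ 0 → ∀ w, w ∈ N) : M.IsIrred := by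
  refine ⟨h0, fun N hN => ?_⟩
  by_cases hb : N = ⊥
  · exact Or.inl hb
  · right
    obtain ⟨v, hv, hv0⟩ := Submodule.exists_mem_ne_zero_of_ne_bot hb
    exact Submodule.eq_top_iff'.2 (h N hN v hv hv0)

theorem not_iso_right {M : Bimod.{u, v} F} {M' : Bimod.{u, w} F} [Nontrivial M'.carrier]
    (h : ∀ a m, M.right a m = 0) (h' : ∀ m, M'.right 1 m = m) : ¬ M.Iso M' := by
  rintro ⟨φ, hφ⟩
  obtain ⟨m', hm'⟩ := exists_ne (0 : M'.carrier)
  apply hm'
  have h1 := (hφ 1 (φ.symm m')).2
  rw [h, map_zero, LinearEquiv.apply_symm_apply, h'] at h1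
  exact h1.symm

theorem not_iso_left {M : Bimod.{u, v} F} {M' : Bimod.{u, w} F} [Nontrivial M'.carrier]
    (h : ∀ a m, M.left a m = 0) (h' : ∀ m, M'.left 1 m = m) : ¬ M.Iso M' := by
  rintro ⟨φ, hφ⟩
  obtain ⟨m', hm'⟩ := exists_ne (0 : M'.carrier)
  apply hm'
  have h1 := (hφ 1 (φ.symm m')).1
  rw [h, map_zero, LinearEquiv.apply_symm_apply, h'] at h1
  exact h1.symm

/-! ### the zero, row, left and regular bimodules -/

theorem zero_left (a : Mat2 F) (m : (zeroB F).carrier) : (zeroB F).left a m = 0 := rfl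
theorem zero_right (a : Mat2 F) (m : (zeroB F).carrier) : (zeroB F).right a m = 0 := rfl
theorem row_left (a : Mat2 F) (m : (rowB F).carrier) : (rowB F).left a m = 0 := rfl
theorem row_right (a : Mat2 F) (m : Fin 2 → F) : (rowB F).right a m = m ᵥ* a := rfl
theorem left_left (a : Mat2 F) (m : Fin 2 → F) : (leftB F).left a m = a *ᵥ m := rfl
theorem left_right (a : Mat2 F) (m : (leftB F).carrier) : (leftB F).right a m = 0 := rfl
theorem reg_left (a : Mat2 F) (m : Mat2 F) : (regB F).left a m = a * m := rfl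
theorem reg_right (a : Mat2 F) (m : Mat2 F) : (regB F).right a m = m * a := rfl

instance : Nontrivial (zeroB F).carrier := inferInstanceAs (Nontrivial F)
instance : Nontrivial (rowB F).carrier := inferInstanceAs (Nontrivial (Fin 2 → F))
instance : Nontrivial (leftB F).carrier := inferInstanceAs (Nontrivial (Fin 2 → F))
instance : Nontrivial (regB F).carrier := inferInstanceAs (Nontrivial (Mat2 F))

theorem zero_ra : (zeroB F).IsRightAlt := by
  rw [Bimod.isRightAlt_iff]
  refine ⟨fun b m => rfl, fun a b n => ?_⟩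
  simp only [zero_left, zero_right, add_zero]

theorem row_ra : (rowB F).IsRightAlt := by
  rw [Bimod.isRightAlt_iff]
  refine ⟨fun b m => ?_, fun a b n => ?_⟩
  · change (m ᵥ* b) ᵥ* b = m ᵥ* (b * b)
    rw [Matrix.vecMul_vecMul]
  · rw [row_left, row_left, row_left, map_zero, add_zero]

theorem left_ra : (leftB F).IsRightAlt := by
  rw [Bimod.isRightAlt_iff]
  refine ⟨fun b m => ?_, fun a b n => ?_⟩
  · rw [left_right, left_right]
  · rw [left_right, left_right, add_zero, add_zero]
    change (a * b) *ᵥ n = a *ᵥ (b *ᵥ n)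
    rw [Matrix.mulVec_mulVec]

theorem reg_ra : (regB F).IsRightAlt := by
  rw [Bimod.isRightAlt_iff]
  refine ⟨fun b m => ?_, fun a b n => ?_⟩
  · change (show Mat2 F from m) * b * b = (show Mat2 F from m) * (b * b)
    rw [mul_assoc]
  · change a * b * (show Mat2 F from n) + a * (show Mat2 F from n) * b =
      a * (b * (show Mat2 F from n) + (show Mat2 F from n) * b)
    rw [mul_add, mul_assoc, mul_assoc]

theorem zero_irred : (zeroB F).IsIrred := by
  refine irred_of inferInstance fun N _ v hv hv0 w => ?_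
  have h := N.smul_mem ((show F from w) * (show F from v)⁻¹) hv
  have h2 : ((show F from w) * (show F from v)⁻¹) • v = w := by
    change (show F from w) * (show F from v)⁻¹ * (show F from v) = w
    rw [mul_assoc, inv_mul_cancel₀ (a := (show F from v)) hv0, mul_one]
  rwa [h2] at h

theorem row_irred : (rowB F).IsIrred := by
  refine irred_of inferInstance fun N hN v hv hv0 w => ?_
  obtain ⟨i, hi⟩ : ∃ i : Fin 2, (show Fin 2 → F from v) i ≠ 0 := by
    by_contra h
    push Not at h
    exact hv0 (funext h)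
  have h := (hN (Matrix.of fun k j => if k = i then
    ((show Fin 2 → F from v) i)⁻¹ * (show Fin 2 → F from w) j else 0) v hv).2
  have h2 : (rowB F).right (Matrix.of fun k j => if k = i then
      ((show Fin 2 → F from v) i)⁻¹ * (show Fin 2 → F from w) j else 0) v = w := by
    rw [row_right]
    funext j
    simp only [Matrix.vecMul, dotProduct, Matrix.of_apply, mul_ite, mul_zero,
      Finset.sum_ite_eq', Finset.mem_univ, if_true]
    rw [← mul_assoc, mul_inv_cancel₀ hi, one_mul]
  rwa [h2] at h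

theorem left_irred : (leftB F).IsIrred := by
  refine irred_of inferInstance fun N hN v hv hv0 w => ?_
  obtain ⟨i, hi⟩ : ∃ i : Fin 2, (show Fin 2 → F from v) i ≠ 0 := by
    by_contra h
    push Not at h
    exact hv0 (funext h)
  have h := (hN (Matrix.of fun j k => if k = i then
    (show Fin 2 → F from w) j * ((show Fin 2 → F from v) i)⁻¹ else 0) v hv).1
  have h2 : (leftB F).left (Matrix.of fun j k => if k = i then
      (show Fin 2 → F from w) j * ((show Fin 2 → F from v) i)⁻¹ else 0) v = w := by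
    rw [left_left]
    funext j
    simp only [Matrix.mulVec, dotProduct, Matrix.of_apply, ite_mul, zero_mul,
      Finset.sum_ite_eq', Finset.mem_univ, if_true]
    rw [mul_assoc, inv_mul_cancel₀ hi, mul_one]
  rwa [h2] at h

theorem reg_irred : (regB F).IsIrred := by
  refine irred_of inferInstance fun N hN v hv hv0 w => ?_
  obtain ⟨i, j, hij⟩ : ∃ i j : Fin 2, (show Mat2 F from v) i j ≠ 0 := by
    by_contra h
    push Not at h
    exact hv0 (Matrix.ext h)
  have key : ∀ (k l : Fin 2) (c : F), Matrix.single k l c ∈ (show Submodule F (Mat2 F) from N) := by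
    intro k l c
    have h := (hN (Matrix.single k i 1) _ (hN (Matrix.single j l
      (((show Mat2 F from v) i j)⁻¹ * c)) v hv).2).1
    have h2 : (regB F).left (Matrix.single k i 1) ((regB F).right (Matrix.single j l
      (((show Mat2 F from v) i j)⁻¹ * c)) v) = Matrix.single k l c := by
      rw [reg_right, reg_left]
      rw [← mul_assoc, Matrix.single_mul_mul_single, one_mul, ← mul_assoc, mul_inv_cancel₀ hij,
        one_mul]
    rw [h2] at h
    exact h
  have h3 : (show Mat2 F from w) = ∑ k : Fin 2, ∑ l : Fin 2,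
      Matrix.single k l ((show Mat2 F from w) k l) := Matrix.matrix_eq_sum_single _
  have h4 : (show Mat2 F from w) ∈ (show Submodule F (Mat2 F) from N) := by
    rw [h3]
    exact Submodule.sum_mem _ fun k _ => Submodule.sum_mem _ fun l _ => key k l _
  exact h4

/-! ### the six-dimensional bimodule -/

/-- the element of `sixV F` with given values at `E₀₁`, `E₁₀`, `E₀₀` -/
def mk6 (p q r : Fin 2 → F) : sixV F :=
  ⟨{ toFun := fun b => b 0 1 • p + b 1 0 • q + (b 0 0 - b 1 1) • r
     map_add' := by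
       intro a b
       simp only [Matrix.add_apply]
       module
     map_smul' := by
       intro c a
       simp only [Matrix.smul_apply, smul_eq_mul, RingHom.id_apply]
       module }, by
    change (1 : Mat2 F) 0 1 • p + (1 : Mat2 F) 1 0 • q + ((1 : Mat2 F) 0 0 - (1 : Mat2 F) 1 1) • r = 0
    simp⟩

theorem mk6_apply (p q r : Fin 2 → F) (b : Mat2 F) :
    (mk6 p q r : Mat2 F →ₗ[F] (Fin 2 → F)) b = b 0 1 • p + b 1 0 • q + (b 0 0 - b 1 1) • r := rfl

theorem six_one (n : sixV F) : (n : Mat2 F →ₗ[F] (Fin 2 → F)) 1 = 0 := n.2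

theorem six_ext (n n' : sixV F)
    (h : ∀ b, (n : Mat2 F →ₗ[F] (Fin 2 → F)) b = (n' : Mat2 F →ₗ[F] (Fin 2 → F)) b) : n = n' :=
  Subtype.ext (LinearMap.ext h)

theorem eq_mk6 (n : sixV F) : n = mk6 ((n : Mat2 F →ₗ[F] (Fin 2 → F)) (Matrix.single 0 1 1))
    ((n : Mat2 F →ₗ[F] (Fin 2 → F)) (Matrix.single 1 0 1))
    ((n : Mat2 F →ₗ[F] (Fin 2 → F)) (Matrix.single 0 0 1)) := by
  apply six_ext
  intro b
  rw [mk6_apply, ← map_smul, ← map_smul, ← map_smul, ← map_add, ← map_add]
  have h1 : b = (b 0 1 • Matrix.single 0 1 1 + b 1 0 • Matrix.single 1 0 1 +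
      (b 0 0 - b 1 1) • Matrix.single 0 0 1 : Mat2 F) + b 1 1 • (1 : Mat2 F) := by
    ext i j
    fin_cases i <;> fin_cases j <;> simp
  conv_lhs => rw [h1]
  rw [map_add _ _ (b 1 1 • (1 : Mat2 F)), map_smul _ _ (1 : Mat2 F), six_one, smul_zero, add_zero]

theorem six_left_apply (a b : Mat2 F) (n : sixV F) :
    ((show sixV F from (sixB F).left a n) : Mat2 F →ₗ[F] (Fin 2 → F)) b =
      (n : Mat2 F →ₗ[F] (Fin 2 → F)) (Quad.bar a * b) -
        b *ᵥ (n : Mat2 F →ₗ[F] (Fin 2 → F)) (Quad.bar a) := rfl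

theorem six_right_apply (a b : Mat2 F) (n : sixV F) :
    ((show sixV F from (sixB F).right a n) : Mat2 F →ₗ[F] (Fin 2 → F)) b =
      (n : Mat2 F →ₗ[F] (Fin 2 → F)) (b * a) -
        b *ᵥ (n : Mat2 F →ₗ[F] (Fin 2 → F)) a := rfl

theorem bar_mul (a b : Mat2 F) : Quad.bar (a * b) = Quad.bar b * Quad.bar a := by
  ext i j
  fin_cases i <;> fin_cases j <;>
    simp [Quad.bar_apply, Matrix.mul_apply, Fin.sum_univ_two] <;> ring

theorem bar_add (b : Mat2 F) : Quad.bar b + b = (b 0 0 + b 1 1) • (1 : Mat2 F) := by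
  rw [Quad.bar_apply, sub_add_cancel]

theorem six_ra : (sixB F).IsRightAlt := by
  rw [Bimod.isRightAlt_iff]
  refine ⟨fun b m => ?_, fun a b n => ?_⟩
  · apply six_ext
    intro c
    rw [six_right_apply, six_right_apply, six_right_apply, six_right_apply, Matrix.mulVec_sub,
      Matrix.mulVec_mulVec, mul_assoc]
    abel
  · apply six_ext
    intro c
    have hT : ∀ c : Mat2 F, ((show sixV F from ((sixB F).left b n + (sixB F).right b n)) :
        Mat2 F →ₗ[F] (Fin 2 → F)) c =
        ((show sixV F from n) : Mat2 F →ₗ[F] (Fin 2 → F)) (Quad.bar b * c + c * b) := by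
      intro c
      have h1 : ((show sixV F from ((sixB F).left b n + (sixB F).right b n)) :
        Mat2 F →ₗ[F] (Fin 2 → F)) c =
        ((show sixV F from (sixB F).left b n) : Mat2 F →ₗ[F] (Fin 2 → F)) c +
        ((show sixV F from (sixB F).right b n) : Mat2 F →ₗ[F] (Fin 2 → F)) c := rfl
      rw [h1, six_left_apply, six_right_apply, map_add]
      have h2 : c *ᵥ ((show sixV F from n) : Mat2 F →ₗ[F] (Fin 2 → F)) (Quad.bar b) +
          c *ᵥ ((show sixV F from n) : Mat2 F →ₗ[F] (Fin 2 → F)) b = 0 := by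
        rw [← Matrix.mulVec_add, ← map_add, bar_add, map_smul, six_one, smul_zero,
          Matrix.mulVec_zero]
      have h3 := eq_neg_of_add_eq_zero_left h2
      rw [h3]
      abel
    have h0 : ((show sixV F from ((sixB F).left (a * b) n + (sixB F).right b ((sixB F).left a n))) :
        Mat2 F →ₗ[F] (Fin 2 → F)) c =
        ((show sixV F from (sixB F).left (a * b) n) : Mat2 F →ₗ[F] (Fin 2 → F)) c +
        ((show sixV F from (sixB F).right b ((sixB F).left a n)) :
          Mat2 F →ₗ[F] (Fin 2 → F)) c := rfl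
    rw [h0, six_left_apply, six_right_apply, six_left_apply, six_left_apply, six_left_apply,
      hT, hT, bar_mul, Matrix.mulVec_sub, Matrix.mulVec_mulVec, map_add, map_add,
      Matrix.mulVec_add, mul_assoc, mul_assoc]
    abel

theorem mk6_add (p q r p' q' r' : Fin 2 → F) :
    mk6 p q r + mk6 p' q' r' = mk6 (p + p') (q + q') (r + r') := by
  apply six_ext
  intro b
  have h : ((mk6 p q r + mk6 p' q' r' : sixV F) : Mat2 F →ₗ[F] (Fin 2 → F)) b =
    (mk6 p q r : Mat2 F →ₗ[F] (Fin 2 → F)) b + (mk6 p' q' r' : Mat2 F →ₗ[F] (Fin 2 → F)) b := rfl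
  rw [h, mk6_apply, mk6_apply, mk6_apply]
  module

theorem mk6_smul (c : F) (p q r : Fin 2 → F) :
    c • mk6 p q r = mk6 (c • p) (c • q) (c • r) := by
  apply six_ext
  intro b
  have h : ((c • mk6 p q r : sixV F) : Mat2 F →ₗ[F] (Fin 2 → F)) b =
    c • (mk6 p q r : Mat2 F →ₗ[F] (Fin 2 → F)) b := rfl
  rw [h, mk6_apply, mk6_apply]
  module

theorem mk6_T01 (p q r : Fin 2 → F) :
    (sixB F).left !![0, 1; 0, 0] (mk6 p q r) + (sixB F).right !![0, 1; 0, 0] (mk6 p q r) =
      mk6 0 (-(2 : F) • r) p := by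
  apply six_ext
  intro b
  have h : ((show sixV F from ((sixB F).left !![0, 1; 0, 0] (mk6 p q r) +
      (sixB F).right !![0, 1; 0, 0] (mk6 p q r))) : Mat2 F →ₗ[F] (Fin 2 → F)) b =
    ((show sixV F from (sixB F).left !![0, 1; 0, 0] (mk6 p q r)) :
        Mat2 F →ₗ[F] (Fin 2 → F)) b +
    ((show sixV F from (sixB F).right !![0, 1; 0, 0] (mk6 p q r)) :
        Mat2 F →ₗ[F] (Fin 2 → F)) b := rfl
  rw [h, six_left_apply, six_right_apply, mk6_apply, mk6_apply, mk6_apply, mk6_apply, mk6_apply]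
  funext i
  fin_cases i <;>
    simp [Quad.bar_apply, Matrix.mul_apply, Fin.sum_univ_two,
      Matrix.vecHead, Matrix.vecTail] <;> ring

theorem mk6_T10 (p q r : Fin 2 → F) :
    (sixB F).left !![0, 0; 1, 0] (mk6 p q r) + (sixB F).right !![0, 0; 1, 0] (mk6 p q r) =
      mk6 ((2 : F) • r) 0 (-q) := by
  apply six_ext
  intro b
  have h : ((show sixV F from ((sixB F).left !![0, 0; 1, 0] (mk6 p q r) +
      (sixB F).right !![0, 0; 1, 0] (mk6 p q r))) : Mat2 F →ₗ[F] (Fin 2 → F)) b =
    ((show sixV F from (sixB F).left !![0, 0; 1, 0] (mk6 p q r)) :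
        Mat2 F →ₗ[F] (Fin 2 → F)) b +
    ((show sixV F from (sixB F).right !![0, 0; 1, 0] (mk6 p q r)) :
        Mat2 F →ₗ[F] (Fin 2 → F)) b := rfl
  rw [h, six_left_apply, six_right_apply, mk6_apply, mk6_apply, mk6_apply, mk6_apply, mk6_apply]
  funext i
  fin_cases i <;>
    simp [Quad.bar_apply, Matrix.mul_apply, Fin.sum_univ_two,
      Matrix.vecHead, Matrix.vecTail] <;> ring

theorem mk6_R10 (w : Fin 2 → F) :
    (sixB F).right !![0, 0; 1, 0] (mk6 0 w 0) = mk6 ![-w 1, 0] ![0, -w 0] ![-w 0, 0] := by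
  apply six_ext
  intro b
  change ((show sixV F from (sixB F).right !![0, 0; 1, 0] (mk6 0 w 0)) :
    Mat2 F →ₗ[F] (Fin 2 → F)) b = _
  rw [six_right_apply, mk6_apply, mk6_apply, mk6_apply]
  funext i
  fin_cases i <;>
    simp [Matrix.mul_apply, Fin.sum_univ_two,
      Matrix.vecHead, Matrix.vecTail] <;> ring

theorem mk6_L00 (p q r : Fin 2 → F) :
    (sixB F).left !![1, 0; 0, 0] (mk6 p q r) = mk6 ![r 1, 0] (q + ![0, r 0]) ![r 0, 0] := by
  apply six_ext
  intro b
  change ((show sixV F from (sixB F).left !![1, 0; 0, 0] (mk6 p q r)) :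
    Mat2 F →ₗ[F] (Fin 2 → F)) b = _
  rw [six_left_apply, mk6_apply, mk6_apply, mk6_apply]
  funext i
  fin_cases i <;>
    simp [Quad.bar_apply, Matrix.mul_apply, Fin.sum_univ_two,
      Matrix.vecHead, Matrix.vecTail] <;> ring

theorem six_left_one (n : (sixB F).carrier) : (sixB F).left 1 n = n := by
  apply six_ext
  intro b
  rw [six_left_apply, Quad.bar_one, one_mul, six_one, Matrix.mulVec_zero, sub_zero]

theorem six_right_one (n : (sixB F).carrier) : (sixB F).right 1 n = n := by
  apply six_ext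
  intro b
  rw [six_right_apply, mul_one, six_one, Matrix.mulVec_zero, sub_zero]

theorem mk6_inj {p q r p' q' r' : Fin 2 → F} (h : mk6 p q r = mk6 p' q' r') :
    p = p' ∧ q = q' ∧ r = r' := by
  have h1 : ∀ b, (mk6 p q r : Mat2 F →ₗ[F] (Fin 2 → F)) b =
      (mk6 p' q' r' : Mat2 F →ₗ[F] (Fin 2 → F)) b := fun b => by rw [h]
  refine ⟨?_, ?_, ?_⟩
  · have := h1 !![0, 1; 0, 0]
    rw [mk6_apply, mk6_apply] at this
    simpa using this
  · have := h1 !![0, 0; 1, 0]
    rw [mk6_apply, mk6_apply] at this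
    simpa using this
  · have := h1 !![1, 0; 0, 0]
    rw [mk6_apply, mk6_apply] at this
    simpa using this

instance : Nontrivial (sixB F).carrier := by
  refine ⟨mk6 ![1, 0] 0 0, mk6 0 0 0, fun h => ?_⟩
  have h1 := (mk6_inj h).1
  have h2 := congrFun h1 0
  simp at h2

theorem six_irred (h2 : (2 : F) ≠ 0) : (sixB F).IsIrred := by
  refine irred_of inferInstance fun N hN v hv hv0 w => ?_
  have hT01 : ∀ p q r : Fin 2 → F, (show (sixB F).carrier from mk6 p q r) ∈ N →
      (show (sixB F).carrier from mk6 0 (-(2 : F) • r) p) ∈ N := by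
    intro p q r h
    have h1 := hN !![0, 1; 0, 0] _ h
    have h3 := N.add_mem h1.1 h1.2
    have h4 := mk6_T01 p q r
    rw [← h4]
    exact h3
  have hT10 : ∀ p q r : Fin 2 → F, (show (sixB F).carrier from mk6 p q r) ∈ N →
      (show (sixB F).carrier from mk6 ((2 : F) • r) 0 (-q)) ∈ N := by
    intro p q r h
    have h1 := hN !![0, 0; 1, 0] _ h
    have h3 := N.add_mem h1.1 h1.2
    have h4 := mk6_T10 p q r
    rw [← h4]
    exact h3
  have hR10 : ∀ w : Fin 2 → F, (show (sixB F).carrier from mk6 0 w 0) ∈ N →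
      (show (sixB F).carrier from mk6 ![-w 1, 0] ![0, -w 0] ![-w 0, 0]) ∈ N := by
    intro w h
    have h1 := (hN !![0, 0; 1, 0] _ h).2
    have h4 := mk6_R10 w
    rw [← h4]
    exact h1
  have hadd : ∀ p q r p' q' r' : Fin 2 → F, (show (sixB F).carrier from mk6 p q r) ∈ N →
      (show (sixB F).carrier from mk6 p' q' r') ∈ N →
      (show (sixB F).carrier from mk6 (p + p') (q + q') (r + r')) ∈ N := by
    intro p q r p' q' r' h h'
    rw [← mk6_add]
    exact N.add_mem h h'
  have hsm : ∀ (c : F) (p q r : Fin 2 → F), (show (sixB F).carrier from mk6 p q r) ∈ N →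
      (show (sixB F).carrier from mk6 (c • p) (c • q) (c • r)) ∈ N := by
    intro c p q r h
    rw [← mk6_smul]
    exact N.smul_mem c h
  -- step 1
  obtain ⟨p, q, r, hpqr⟩ : ∃ p q r : Fin 2 → F, (show sixV F from v) = mk6 p q r :=
    ⟨_, _, _, eq_mk6 _⟩
  have hv' : (show (sixB F).carrier from mk6 p q r) ∈ N := by
    rw [← hpqr]
    exact hv
  have hn2 : -(2 : F) ≠ 0 := neg_ne_zero.2 h2
  obtain ⟨u, hu0, hu⟩ : ∃ u : Fin 2 → F, u ≠ 0 ∧ (show (sixB F).carrier from mk6 0 u 0) ∈ N := by
    by_cases hp : p = 0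
    · by_cases hr : r = 0
      · refine ⟨q, ?_, ?_⟩
        · rintro rfl
          apply hv0
          change (show sixV F from v) = 0
          rw [hpqr, hp, hr]
          apply six_ext
          intro b
          rw [mk6_apply]
          simp
        · rw [hp, hr] at hv'
          exact hv'
      · refine ⟨-(2 : F) • r, smul_ne_zero hn2 hr, ?_⟩
        have := hT01 _ _ _ hv'
        rw [hp] at this
        exact this
    · refine ⟨-(2 : F) • p, smul_ne_zero hn2 hp, ?_⟩
      exact hT01 _ _ _ (hT01 _ _ _ hv')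
  -- step 2
  have he0 : (show (sixB F).carrier from mk6 0 ![1, 0] 0) ∈ N := by
    have h1 := hT01 _ _ _ (hR10 u hu)
    by_cases hu1 : u 1 = 0
    · have hu00 : u 0 ≠ 0 := by
        intro h
        apply hu0
        funext i
        fin_cases i
        · exact h
        · exact hu1
      have h3 := hsm (2 * u 0)⁻¹ _ _ _ h1
      have e1 : (2 * u 0)⁻¹ • (0 : Fin 2 → F) = 0 := smul_zero _
      have e2 : (2 * u 0)⁻¹ • (-(2 : F) • ![-u 0, 0]) = ![1, 0] := by
        funext i
        fin_cases i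
        · simp only [Fin.zero_eta, Pi.smul_apply, smul_eq_mul, Matrix.cons_val_zero]
          field_simp
        · simp
      have e3 : (2 * u 0)⁻¹ • ![-u 1, 0] = 0 := by
        rw [hu1]
        funext i
        fin_cases i <;> simp
      rw [e1, e2, e3] at h3
      exact h3
    · have h3 := hsm (2 * u 1)⁻¹ _ _ _ (hT01 _ _ _ h1)
      have e1 : (2 * u 1)⁻¹ • (0 : Fin 2 → F) = 0 := smul_zero _
      have e2 : (2 * u 1)⁻¹ • (-(2 : F) • ![-u 1, 0]) = ![1, 0] := by
        funext i
        fin_cases i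
        · simp only [Fin.zero_eta, Pi.smul_apply, smul_eq_mul, Matrix.cons_val_zero]
          field_simp
        · simp
      rw [e1, e2] at h3
      exact h3
  -- step 3
  have he1 : (show (sixB F).carrier from mk6 0 ![0, 1] 0) ∈ N := by
    have h1 := hR10 _ he0
    have h3 := hT10 _ _ _ he0
    have h4 := hadd _ _ _ _ _ _ (hsm (-1) _ _ _ h1) h3
    have e1 : (-1 : F) • ![-(![(1 : F), 0] : Fin 2 → F) 1, 0] + (2 : F) • (0 : Fin 2 → F) = 0 := by
      funext i
      fin_cases i <;> simp
    have e2 : (-1 : F) • ![0, -(![(1 : F), 0] : Fin 2 → F) 0] + 0 = ![0, 1] := by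
      funext i
      fin_cases i <;> simp
    have e3 : (-1 : F) • ![-(![(1 : F), 0] : Fin 2 → F) 0, 0] + -![1, 0] = 0 := by
      funext i
      fin_cases i <;> simp
    rw [e1, e2, e3] at h4
    exact h4
  have hq : ∀ u : Fin 2 → F, (show (sixB F).carrier from mk6 0 u 0) ∈ N := by
    intro u
    have h4 := hadd _ _ _ _ _ _ (hsm (u 0) _ _ _ he0) (hsm (u 1) _ _ _ he1)
    have e1 : u 0 • (0 : Fin 2 → F) + u 1 • (0 : Fin 2 → F) = 0 := by simp
    have e2 : u 0 • ![1, 0] + u 1 • ![0, 1] = u := by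
      funext i
      fin_cases i <;> simp
    rw [e1, e2] at h4
    exact h4
  have hr : ∀ u : Fin 2 → F, (show (sixB F).carrier from mk6 0 0 u) ∈ N := by
    intro u
    have h1 := hT10 _ _ _ (hq (-u))
    rw [smul_zero, neg_neg] at h1
    exact h1
  have hp : ∀ u : Fin 2 → F, (show (sixB F).carrier from mk6 u 0 0) ∈ N := by
    intro u
    have h1 := hT10 _ _ _ (hr ((2 : F)⁻¹ • u))
    rw [smul_smul, mul_inv_cancel₀ h2, one_smul, neg_zero] at h1
    exact h1
  obtain ⟨p', q', r', hw⟩ : ∃ p q r : Fin 2 → F, (show sixV F from w) = mk6 p q r :=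
    ⟨_, _, _, eq_mk6 _⟩
  have h5 := hadd _ _ _ _ _ _ (hadd _ _ _ _ _ _ (hp p') (hq q')) (hr r')
  rw [add_zero, add_zero, zero_add, add_zero, add_zero, zero_add, ← hw] at h5
  exact h5

theorem reg_not_six : ¬ (regB F).Iso (sixB F) := by
  rintro ⟨φ, hφ⟩
  have hcomm : ∀ (a b : Mat2 F) (n : (sixB F).carrier),
      (sixB F).left a ((sixB F).right b n) = (sixB F).right b ((sixB F).left a n) := by
    intro a b n
    have h1 := (hφ a ((regB F).right b (φ.symm n))).1
    have h2 := (hφ b ((regB F).left a (φ.symm n))).2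
    rw [(hφ b (φ.symm n)).2, LinearEquiv.apply_symm_apply] at h1
    rw [(hφ a (φ.symm n)).1, LinearEquiv.apply_symm_apply] at h2
    rw [← h1, ← h2]
    congr 1
    change a * ((show Mat2 F from φ.symm n) * b) = a * (show Mat2 F from φ.symm n) * b
    rw [mul_assoc]
  have h := hcomm !![1, 0; 0, 0] !![0, 0; 1, 0] (mk6 0 ![0, 1] 0)
  rw [mk6_R10, mk6_L00, mk6_L00] at h
  have e1 : (![(0 : Fin 2 → F) 1, 0] : Fin 2 → F) = 0 := by
    funext i; fin_cases i <;> simp
  have e2 : (![0, 1] + ![0, (0 : Fin 2 → F) 0] : Fin 2 → F) = ![0, 1] := by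
    funext i; fin_cases i <;> simp
  have e3 : (![(0 : Fin 2 → F) 0, 0] : Fin 2 → F) = 0 := by
    funext i; fin_cases i <;> simp
  rw [e1, e2, e3, mk6_R10] at h
  have h3 := congrFun (mk6_inj h).1 0
  simp at h3

theorem exc : S_exc.{u} := by
  intro F _ h2
  refine ⟨⟨⟨zero_ra, zero_irred⟩, ⟨row_ra, row_irred⟩, ⟨left_ra, left_irred⟩,
    ⟨reg_ra, reg_irred⟩, ⟨six_ra, six_irred h2⟩⟩, ?_, ?_, ?_, ?_, ?_, ?_, ?_, ?_, ?_, reg_not_six⟩
  · exact not_iso_right zero_right fun m => Matrix.vecMul_one m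
  · exact not_iso_left zero_left fun m => Matrix.one_mulVec m
  · exact not_iso_left zero_left fun m => one_mul (show Mat2 F from m)
  · exact not_iso_left zero_left six_left_one
  · exact not_iso_left row_left fun m => Matrix.one_mulVec m
  · exact not_iso_left row_left fun m => one_mul (show Mat2 F from m)
  · exact not_iso_left row_left six_left_one
  · exact not_iso_right left_right fun m => mul_one (show Mat2 F from m)
  · exact not_iso_right left_right six_right_one

end Pool.Agent.H399.RA
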